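import Mathlib
import Pool.Agent.H71.HL.Defs
import Pool.Agent.H71.DR.Defs

/-!
Definitions for the Havet-Yu theorem for dense graphs without nearly complete or nearly bipartite closed pieces.
-/

set_option autoImplicit false

namespace Pool.Agent.H71.DC

open Finset Classical
open Pool.Agent.H71.DN Pool.Agent.H71.DX Pool.Agent.H71.DR Pool.Agent.H71.HL

/-- There is no nearly `Δ`-regular bipartite piece. -/
def NB {V : Type} [Fintype V] (G : SimpleGraph V) (Δ : ℕ) (γ : ℝ) : Prop :=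
  ∀ A B : Finset V, Disjoint A B →
    (ee G A B : ℝ) ≤ (1 - γ) * Δ * max (A.card : ℝ) (B.card : ℝ)

/-- There is no nearly complete piece with about `Δ` vertices. -/
def NCq {V : Type} [Fintype V] (G : SimpleGraph V) (Δ : ℕ) (γ : ℝ) : Prop :=
  ∀ S : Finset V, (S.card : ℝ) ≤ (1 + γ) * Δ → (ee G S S : ℝ) ≤ (1 - γ) * (Δ : ℝ) ^ 2

/-- `k` disjoint closed sets: `Q i` has at least `(c/2) n` vertices, and almost all pairs (vertex of `Q i`, one of `Δ`
slots) are edges inside `Q i`. -/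
structure Clo {V : Type} [Fintype V] (G : SimpleGraph V) (Δ : ℕ) (c η : ℝ) (k : ℕ)
    (Q : ℕ → Finset V) : Prop where
  big : ∀ i < k, c / 2 * Fintype.card V ≤ ((Q i).card : ℝ)
  clo : ∀ i < k, (Δ : ℝ) * (Q i).card ≤ ee G (Q i) (Q i) + η * (Fintype.card V : ℝ) ^ 2
  dis : ∀ i < k, ∀ j < k, i ≠ j → Disjoint (Q i) (Q j)

/-- The expansion property `XP` for the graph induced on `C`. -/
def XPc {V : Type} [Fintype V] (G : SimpleGraph V) (C : Finset V) (τ ν lam : ℝ) : Prop :=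
  ∀ A Y : Finset V, A ⊆ C → Y ⊆ C → τ * C.card ≤ (A.card : ℝ) →
    (A.card : ℝ) ≤ (1 - τ) * C.card → (ee G A Y : ℝ) ≤ lam * (C.card : ℝ) ^ 2 →
    (A.card : ℝ) + Y.card + ν * C.card ≤ C.card

end Pool.Agent.H71.DC
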