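import Mathlib
import Pool.Agent.H71.DC.Defs
import Pool.Agent.H71.DX.GluA

/-!
Definitions for the assembly: the parts of the vertex set and the conclusions of the core theorems for the parts.
-/

set_option autoImplicit false

namespace Pool.Agent.H71.DC

open Finset Classical
open Pool.Agent.H71.DN Pool.Agent.H71.DX Pool.Agent.H71.DR Pool.Agent.H71.HL

/-- The part `i`. -/
noncomputable def pt {V : Type} [Fintype V] (part : V → ℕ) (i : ℕ) : Finset V :=
  univ.filter fun v => part v = i

/-- The conclusion for a closed part `C`: matchings `mm ℓ` inside `C \ U ℓ`, every vertex of `C` is uncovered outside the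
`U ℓ` at most once, and the vertices uncovered once are joined only by edges of the matchings. -/
structure Ccl {V : Type} [Fintype V] (G : SimpleGraph V) (L : ℕ) (C : Finset V)
    (U : ℕ → Finset V) (mm : ℕ → V → V) : Prop where
  pm : PM G L (fun ℓ => U ℓ ∪ (univ \ C)) mm
  one : ∀ v ∈ C, ((range L).filter fun ℓ => v ∉ U ℓ ∧ mm ℓ v = v).card ≤ 1
  ind : ∀ a ∈ C, ∀ b ∈ C, G.Adj a b → (∃ ℓ < L, a ∉ U ℓ ∧ mm ℓ a = a) →
    (∃ ℓ < L, b ∉ U ℓ ∧ mm ℓ b = b) → ∃ ℓ < L, mm ℓ a = b

/-- The conclusion for the open part `S`: matchings `mm ℓ` inside `S \ U ℓ`, a vertex `v` of `S` is uncovered outside the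
`U ℓ` at most `Δ - dg G v` times. -/
structure Cop {V : Type} [Fintype V] (G : SimpleGraph V) (Δ L : ℕ) (S : Finset V)
    (U : ℕ → Finset V) (mm : ℕ → V → V) : Prop where
  pm : PM G L (fun ℓ => U ℓ ∪ (univ \ S)) mm
  mis : ∀ v ∈ S, ((range L).filter fun ℓ => v ∉ U ℓ ∧ mm ℓ v = v).card + dg G v ≤ Δ

end Pool.Agent.H71.DC
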