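import Mathlib
import Pool.Agent.H71.DC.Defs

/-! `nft` of `DC/C3l.lean` (split for the build time). -/

set_option autoImplicit false

namespace Pool.Agent.H71.DC

open Finset Classical
open Pool.Agent.H71.DN Pool.Agent.H71.DX Pool.Agent.H71.DR

theorem nft {V : Type} [Fintype V] (G0 : SimpleGraph V) (K K' ζ e0 e1 : ℕ) (ν : ℕ → V → V)
    (h : NF G0 K ζ e0 e1 ν) (hK : K' ≤ K) : NF G0 K' ζ e0 (e1 + (K - K')) ν := by
  refine ⟨fun j hj => h.inv j (by omega), fun j hj => h.adj j (by omega),
    fun i hi j hj => h.dis i (by omega) j (by omega), fun j hj => h.unc j (by omega), ?_, ?_⟩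
  · intro v
    refine (Finset.card_le_card ?_).trans (h.mis v)
    intro j hj
    rw [Finset.mem_filter, Finset.mem_range] at hj ⊢
    exact ⟨by omega, hj.2⟩
  · intro v
    have h1 : (univ.filter fun u => G0.Adj v u ∧ ∀ j < K', ν j v ≠ u) ⊆
        (univ.filter fun u => G0.Adj v u ∧ ∀ j < K, ν j v ≠ u) ∪
        (Finset.Ico K' K).image (fun j => ν j v) := by
      intro u hu
      rw [Finset.mem_filter] at hu
      rw [Finset.mem_union, Finset.mem_filter, Finset.mem_image]
      by_cases h2 : ∀ j < K, ν j v ≠ u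
      · exact Or.inl ⟨Finset.mem_univ _, hu.2.1, h2⟩
      · push Not at h2
        obtain ⟨j, hj, hju⟩ := h2
        refine Or.inr ⟨j, Finset.mem_Ico.2 ⟨?_, hj⟩, hju⟩
        by_contra h3
        exact hu.2.2 j (by omega) hju
    refine (Finset.card_le_card h1).trans ((Finset.card_union_le _ _).trans (add_le_add (h.lft v) ?_))
    refine Finset.card_image_le.trans ?_
    rw [Nat.card_Ico]

end Pool.Agent.H71.DC
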