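import Mathlib
import Pool.Agent.H71.DR.Nm3a
import Pool.Agent.H71.DR.Exk
import Pool.Agent.H71.DR.Gzx
import Pool.Agent.H71.DX.Nmb0
import Pool.Agent.H71.DC.Nft

/-! `params3L` of `DC/C3l.lean` (split for the build time). -/

set_option autoImplicit false

namespace Pool.Agent.H71.DC

open Finset Classical
open Pool.Agent.H71.DN Pool.Agent.H71.DX Pool.Agent.H71.DR

theorem params3L (ε α τ ν lam0 : ℝ) (hε : 0 < ε) (hε1 : ε ≤ 1 / 4) (hα : 0 < α) (hα1 : α ≤ 1)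
    (hτ0 : 0 < τ) (hτ : τ ≤ α / 64) (hν : 0 < ν) (hν1 : ν ≤ 1) (hl : 0 < lam0) :
    ∃ (c κ ρ : ℝ) (n0 : ℕ) (k1 k2 : ℕ → ℕ), 0 < c ∧ 64 * c ≤ ε ∧ 0 < κ ∧ 0 < ρ ∧
      (∀ Δ : ℕ, n0 ≤ Δ → (1 - ε / 4) * Δ ≤ ((k1 Δ + k2 Δ : ℕ) : ℝ) ∧
        ((k1 Δ + k2 Δ : ℕ) : ℝ) ≤ (1 - ε / 8) * Δ) ∧
      ∀ (V : Type) [Fintype V] (G : SimpleGraph V) (Δ : ℕ), n0 ≤ Fintype.card V →
        α * Fintype.card V ≤ Δ → Δ ≤ Fintype.card V →
        (∀ v, dg G v ≤ Δ ∧ (Δ : ℝ) ≤ dg G v + ρ * Fintype.card V) → XP G τ ν lam0 →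
        ∃ (R H : SimpleGraph V) (Z : Finset V)
          (ζ0 e0 e1 f0 f1 u s t1 t2 ζ β S1 c1 S2 c2 dS cap N : ℕ)
          (ν1 ν2 : ℕ → V → V),
          Par3 G R H Z (k1 Δ) (k2 Δ) ζ0 e0 e1 f0 f1 u s t1 t2 ζ β S1 c1 S2 c2 dS cap N ν1 ν2 ∧
          κ * Fintype.card V + 1 ≤ u ∧ κ * Fintype.card V + 1 ≤ s ∧
          (1 / 2 - 2 * c) * Fintype.card V + u < Z.card := by
  obtain ⟨M, Q, J, c, r, hM32, hJ1, hQ, hc, hr, hcε, hr1, hr2, hJr1, hJr2, hq0⟩ := MQ3 ε hε hε1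
  have hM0 : (0 : ℝ) < M := by
    have : 0 < M := by omega
    exact_mod_cast this
  have hc0 : 0 < c := by rw [hc]; positivity
  have hc256 : 256 * c ≤ 1 := by linarith
  have hM2 : 2 ≤ M := by omega
  have hQJ : J * (M + 1) ≤ Q := le_trans (Nat.mul_le_mul_right _ (Nat.le_succ J)) hQ
  have hQ0 : 0 < Q := lt_of_lt_of_le (by positivity) hQ
  have hQ1 : 1 * (M + 1) ≤ Q := le_trans (Nat.mul_le_mul_right _ (Nat.le_add_left 1 J)) hQ
  have hz : ((M : ℝ) - 1) / (2 * M) = 1 / 2 - c := by rw [hc]; field_simp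
  have hJ0 : (0 : ℝ) < J := by
    have : 0 < J := by omega
    exact_mod_cast this
  have hQr : (0 : ℝ) < Q := by exact_mod_cast hQ0
  obtain ⟨ν', lamx, η0, K, hν'0, hlamx0, hη0, hK1, hgzx⟩ := gzx (α / 2) τ ν lam0 c (by positivity)
    (by linarith) hτ0 (by linarith) hν hν1 hl hc0 (by linarith)
  obtain ⟨k, hk⟩ : ∃ k : ℕ, k = ⌈2 / ν'⌉₊ := ⟨_, rfl⟩
  have hkν : 2 ≤ (k : ℝ) * ν' := by
    have h1 : 2 / ν' ≤ (k : ℝ) := by rw [hk]; exact Nat.le_ceil _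
    rwa [div_le_iff₀ hν'0] at h1
  obtain ⟨NN, hNN⟩ : ∃ NN : ℕ, NN = 4 * k + 10 := ⟨_, rfl⟩
  have hNN10 : 10 ≤ NN := by omega
  have hNNr : (10 : ℝ) ≤ NN := by exact_mod_cast hNN10
  have hNN0 : (0 : ℝ) < NN := by linarith
  obtain ⟨q0, hq0d⟩ : ∃ q0 : ℝ, q0 = 2 * (J : ℝ) / Q / 4 := ⟨_, rfl⟩
  have hq00 : 0 < q0 := by rw [hq0d]; positivity
  obtain ⟨ω, hω⟩ : ∃ ω : ℝ, ω = min (min ν' α) ε * (α * c) / 1000 := ⟨_, rfl⟩
  have hω0 : 0 < ω := by rw [hω]; positivity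
  have hαc0 : 0 < α * c := by positivity
  have hαc1 : α * c ≤ 1 := by nlinarith
  have hmin0 : 0 ≤ min (min ν' α) ε := by positivity
  have ho2 : 1000 * ω ≤ α * c := by
    have h1 : min (min ν' α) ε ≤ 1 := (min_le_right _ _).trans (by linarith)
    have h2 : min (min ν' α) ε * (α * c) ≤ 1 * (α * c) := mul_le_mul_of_nonneg_right h1 hαc0.le
    rw [hω]; linarith
  have ho1 : 1000 * ω ≤ ν' := by
    have h1 : min (min ν' α) ε ≤ ν' := (min_le_left _ _).trans (min_le_left _ _)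
    have h2 : min (min ν' α) ε * (α * c) ≤ ν' * 1 := mul_le_mul h1 hαc1 hαc0.le hν'0.le
    rw [hω]; linarith
  have ho3 : 400 * ω ≤ ε * α := by
    have h1 : min (min ν' α) ε ≤ ε := min_le_right _ _
    have h3 : α * c ≤ α * 1 := mul_le_mul_of_nonneg_left (by linarith) hα.le
    have h2 : min (min ν' α) ε * (α * c) ≤ ε * (α * 1) := mul_le_mul h1 h3 hαc0.le hε.le
    rw [hω]; linarith
  obtain ⟨lam, hlam⟩ : ∃ lam : ℝ, lam = min lamx (α * ω / 8) := ⟨_, rfl⟩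
  have hlam0 : 0 < lam := by rw [hlam]; positivity
  have hlam1 : lam ≤ lamx := by rw [hlam]; exact min_le_left _ _
  have hlam2 : lam ≤ α * ω / 8 := by rw [hlam]; exact min_le_right _ _
  obtain ⟨σ, hσ⟩ : ∃ σ : ℝ, σ = min (min (ω * c * α / 10 ^ 5) (ω ^ 2 / (1000 * NN)))
    (q0 * lam / (1000 * NN)) := ⟨_, rfl⟩
  have hσ0 : 0 < σ := by rw [hσ]; positivity
  have hs1 : 10 ^ 5 * σ ≤ ω * c * α := by
    have : σ ≤ ω * c * α / 10 ^ 5 := by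
      rw [hσ]; exact (min_le_left _ _).trans (min_le_left _ _)
    linarith
  have hs2 : 1000 * NN * σ ≤ ω ^ 2 := by
    have : σ ≤ ω ^ 2 / (1000 * NN) := by
      rw [hσ]; exact (min_le_left _ _).trans (min_le_right _ _)
    rw [le_div_iff₀ (by positivity)] at this
    linarith
  have hs3 : 1000 * NN * σ ≤ q0 * lam := by
    have : σ ≤ q0 * lam / (1000 * NN) := by
      rw [hσ]; exact min_le_right _ _
    rw [le_div_iff₀ (by positivity)] at this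
    linarith
  obtain ⟨κ, hκ⟩ : ∃ κ : ℝ, κ = σ ^ 2 / (1000 * NN) := ⟨_, rfl⟩
  have hκ0 : 0 < κ := by rw [hκ]; positivity
  obtain ⟨ρ, hρ⟩ : ∃ ρ : ℝ, ρ = min (σ ^ 2 * ω * α / (10 ^ 6 * NN)) (α / 4) := ⟨_, rfl⟩
  have hρ0 : 0 < ρ := by rw [hρ]; positivity
  have hρ1α : 10 ^ 6 * NN * ρ ≤ σ ^ 2 * ω * α := by
    have : ρ ≤ σ ^ 2 * ω * α / (10 ^ 6 * NN) := by rw [hρ]; exact min_le_left _ _
    rw [le_div_iff₀ (by positivity)] at this
    linarith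
  have hρ1 : 10 ^ 6 * NN * ρ ≤ σ ^ 2 * ω := by
    have : σ ^ 2 * ω * α ≤ σ ^ 2 * ω * 1 := mul_le_mul_of_nonneg_left hα1 (by positivity)
    linarith
  obtain ⟨δ, hδ⟩ : ∃ δ : ℝ, δ = σ / 100 := ⟨_, rfl⟩
  have hδ0 : 0 < δ := by rw [hδ]; positivity
  have hr00 : 0 < r := lt_of_lt_of_le (by positivity) hr1
  have hσc : σ ≤ c / 10 ^ 5 := by
    have h1 : ω * c * α ≤ 1 * c * 1 := by
      have hω1 : ω ≤ 1 := by
        have : α * c ≤ 1 := hαc1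
        linarith
      exact mul_le_mul (mul_le_mul_of_nonneg_right hω1 hc0.le) hα1 hα.le (by positivity)
    linarith
  have hδr : δ ≤ r / 2 := by rw [hδ]; linarith
  have hδε : δ ≤ ε / 1000 := by rw [hδ]; linarith
  have hlab : ∀ Δ : ℕ, ⌈64 / ε⌉₊ ≤ Δ →
      (1 - ε / 4) * Δ ≤ ((⌊(1 - J * r - r - δ) * Δ⌋₊ + ⌊(r - δ) * Δ⌋₊ : ℕ) : ℝ) ∧
        ((⌊(1 - J * r - r - δ) * Δ⌋₊ + ⌊(r - δ) * Δ⌋₊ : ℕ) : ℝ) ≤ (1 - ε / 8) * Δ := by
    intro Δ hΔ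
    have h64 : 64 ≤ ε * Δ := by
      have h1 : 64 / ε ≤ Δ := le_trans (Nat.le_ceil _) (by exact_mod_cast hΔ)
      rw [div_le_iff₀ hε] at h1
      linarith
    have hΔ0 : (0 : ℝ) ≤ Δ := Nat.cast_nonneg _
    have hn1 : 0 ≤ (1 - J * r - r - δ) * Δ := mul_nonneg (by linarith) hΔ0
    have hn2 : 0 ≤ (r - δ) * Δ := mul_nonneg (by linarith) hΔ0
    have a1 := Nat.floor_le hn1
    have a2 := Nat.floor_le hn2
    have a3 := Nat.lt_floor_add_one ((1 - J * r - r - δ) * Δ)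
    have a4 := Nat.lt_floor_add_one ((r - δ) * Δ)
    have b1 : J * r * Δ ≤ 3 * ε / 16 * Δ := mul_le_mul_of_nonneg_right hJr2 hΔ0
    have b2 : (3 * ε / 16 - r) * Δ ≤ J * r * Δ := mul_le_mul_of_nonneg_right hJr1.le hΔ0
    have b3 : δ * Δ ≤ ε / 1000 * Δ := mul_le_mul_of_nonneg_right hδε hΔ0
    have b4 : r * Δ ≤ ε / 1000 * Δ := mul_le_mul_of_nonneg_right (by linarith) hΔ0
    have b5 : 0 ≤ δ * Δ := mul_nonneg hδ0.le hΔ0
    rw [Nat.cast_add]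
    constructor
    · linarith
    · linarith
  have hρ2 : ρ ≤ α / 4 := by rw [hρ]; exact min_le_right _ _
  obtain ⟨nZ, hnZ⟩ := rndF M hM2 K (min η0 (ρ / 2)) (by positivity)
  obtain ⟨nR, hnR⟩ := rndR M Q J hM2 hJ1 hQ ρ lam hρ0 hlam0
  obtain ⟨nF, hnF⟩ := fact12 κ hκ0
  refine ⟨c, κ, ρ, max (max (max nZ nR) (max nF ⌈1000 / ρ⌉₊)) ⌈64 / ε⌉₊,
    fun Δ => ⌊(1 - J * r - r - δ) * Δ⌋₊, fun Δ => ⌊(r - δ) * Δ⌋₊, hc0, hcε, hκ0, hρ0,
    fun Δ hΔ => hlab Δ ((le_max_right _ _).trans hΔ), ?_⟩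
  intro V _ G Δ hn' hαΔ hΔn hΔ hXP
  have hn : max (max nZ nR) (max nF ⌈1000 / ρ⌉₊) ≤ Fintype.card V := (le_max_left _ _).trans hn'
  have hn1 : nZ ≤ Fintype.card V := le_trans (le_trans (le_max_left _ _) (le_max_left _ _)) hn
  have hn2 : nR ≤ Fintype.card V := le_trans (le_trans (le_max_right _ _) (le_max_left _ _)) hn
  have hn3 : nF ≤ Fintype.card V := le_trans (le_trans (le_max_left _ _) (le_max_right _ _)) hn
  have hn4 : ⌈1000 / ρ⌉₊ ≤ Fintype.card V :=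
    le_trans (le_trans (le_max_right _ _) (le_max_right _ _)) hn
  have hn5 : 1000 ≤ ρ * Fintype.card V := by
    have h1 : 1000 / ρ ≤ Fintype.card V := le_trans (Nat.le_ceil _) (by exact_mod_cast hn4)
    rw [div_le_iff₀ hρ0] at h1
    linarith
  obtain ⟨Z, hZS⟩ := hnZ V G hn1
  have hZ1 := smpl_card G Z _ _ K hZS
  have hZ2 := smpl_deg G Z _ _ K hK1 hZS
  have hcard0 : (0 : ℝ) ≤ Fintype.card V := Nat.cast_nonneg _
  have hηρ : min η0 (ρ / 2) * (Fintype.card V : ℝ) ≤ ρ / 2 * Fintype.card V :=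
    mul_le_mul_of_nonneg_right (min_le_right _ _) hcard0
  have hZ1' : |(Z.card : ℝ) - (M - 1) / (2 * M) * Fintype.card V| ≤ ρ * Fintype.card V := by
    refine le_trans hZ1 ?_
    have : 0 ≤ ρ * (Fintype.card V : ℝ) := mul_nonneg hρ0.le hcard0
    linarith
  have hZ2' : ∀ v, |((univ.filter fun u => G.Adj v u ∧ u ∈ Z).card : ℝ) -
      (M - 1) / (2 * M) * dg G v| ≤ ρ * Fintype.card V := by
    intro v
    refine le_trans (hZ2 v) ?_
    linarith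
  obtain ⟨R, H, hR, hH, hRH, hdR, hdH, hee⟩ := hnR V G Z hn2
  have hmR := meanb G Z M Q J Δ hM2 hQJ hQ0 ρ ρ hZ2' hΔ
  have hmH := meanb G Z M Q 1 Δ hM2 hQ1 hQ0 ρ ρ hZ2' hΔ
  rw [hz] at hZ1' hZS
  rw [← hr] at hmR hmH
  rw [Nat.cast_one, one_mul] at hmH
  obtain ⟨hN0, -, hxk, hkt, htw, hwh, hwg, htt, hww, hxw, hgw⟩ :=
    nm3_basics ω σ κ ρ α c ε (Fintype.card V) NN hNN10 hω0 hσ0 hρ0 hα hα1 hc0 hc256 hε hε1 ho2
      ho3 hs1 hs2 hκ hρ1 hn5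
  have hxwα : 10 ^ 6 * ((Fintype.card V : ℝ) * (ρ * Fintype.card V)) ≤
      (α * (σ * Fintype.card V)) * (ω * Fintype.card V) := by
    have h1 : 10 ^ 6 * ρ ≤ σ * ω * α := by
      have h2 : 10 ^ 6 * ρ ≤ 10 ^ 6 * NN * ρ := by
        have : (1 : ℝ) * (10 ^ 6 * ρ) ≤ NN * (10 ^ 6 * ρ) :=
          mul_le_mul_of_nonneg_right (by linarith) (by positivity)
        linarith
      have h3 : σ ^ 2 * ω * α ≤ σ * ω * α := by
        have : σ * (σ * ω * α) ≤ 1 * (σ * ω * α) :=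
          mul_le_mul_of_nonneg_right (by linarith) (by positivity)
        linarith
      linarith
    have h3 := mul_le_mul_of_nonneg_right h1
      (show 0 ≤ (Fintype.card V : ℝ) * Fintype.card V by positivity)
    calc 10 ^ 6 * ((Fintype.card V : ℝ) * (ρ * Fintype.card V)) =
          10 ^ 6 * ρ * ((Fintype.card V : ℝ) * Fintype.card V) := by ring
      _ ≤ σ * ω * α * ((Fintype.card V : ℝ) * Fintype.card V) := h3
      _ = (α * (σ * Fintype.card V)) * (ω * Fintype.card V) := by ring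
  have hX : Xc (gz G Z) (α / 2 / 2) ν' lamx := by
    refine hgzx V G Z (min η0 (ρ / 2)) ?_ ?_ hXP (by positivity) (min_le_left _ _) hZS
    · have : (0 : ℝ) < Fintype.card V := hN0
      have h1 : 0 < Fintype.card V := by exact_mod_cast this
      omega
    · intro v
      have h1 := (hΔ v).2
      have h2 : ρ * (Fintype.card V : ℝ) ≤ α / 4 * Fintype.card V :=
        mul_le_mul_of_nonneg_right hρ2 hcard0
      have h3 : 0 ≤ α * (Fintype.card V : ℝ) := mul_nonneg hα.le hcard0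
      linarith
  have hX' : Xc (gz G Z) (α / 4) ν' lam := by
    have e : α / 2 / 2 = α / 4 := by ring
    rw [e] at hX
    refine ⟨hX.deg, ?_⟩
    intro A Y h1 h2 h3
    refine hX.gro A Y h1 h2 (h3.trans ?_)
    exact mul_le_mul_of_nonneg_right hlam1 (by positivity)
  set N : ℕ := Fintype.card V with hN
  obtain ⟨x, hx⟩ : ∃ x : ℝ, x = ρ * N := ⟨_, rfl⟩
  obtain ⟨kk, hkk⟩ : ∃ k : ℝ, k = κ * N := ⟨_, rfl⟩
  obtain ⟨t, ht⟩ : ∃ t : ℝ, t = σ * N := ⟨_, rfl⟩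
  obtain ⟨w, hw⟩ : ∃ w : ℝ, w = ω * N := ⟨_, rfl⟩
  obtain ⟨h, hh⟩ : ∃ h : ℝ, h = ε * α * N := ⟨_, rfl⟩
  obtain ⟨g, hg⟩ : ∃ g : ℝ, g = c * α * N := ⟨_, rfl⟩
  rw [← hx, ← hkk] at hxk
  rw [← hkk, ← ht] at hkt
  rw [← ht, ← hw] at htw
  rw [← hw, ← hh] at hwh
  rw [← hw, ← hg] at hwg
  rw [← hkk, ← ht] at htt
  rw [← ht, ← hw] at hww
  rw [← hx, ← ht, ← hw] at hxw
  rw [← hx, ← ht, ← hw] at hxwα
  rw [← ht, ← hg, ← hw] at hgw
  rw [← hx] at hn5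
  have hx0 : 0 < x := by linarith
  have hk0 : 0 < kk := by linarith
  have ht0 : 0 < t := by linarith
  have hw0 : 0 < w := by linarith
  have hh0 : 0 < h := by linarith
  have hg0 : 0 < g := by linarith
  -- degrees of `R` and `H`
  have hdR5 : ∀ v, |(dg R v : ℝ) - J * r * Δ| ≤ 5 * x := by
    intro v
    have h1 := hdR v
    have h2 := hmR v
    have h3 := abs_sub_le (dg R v : ℝ) (mean G Z M Q J v) (J * r * Δ)
    rw [hx]
    linarith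
  have hdH5 : ∀ v, |(dg H v : ℝ) - r * Δ| ≤ 5 * x := by
    intro v
    have h1 := hdH v
    have h2 := hmH v
    have h3 := abs_sub_le (dg H v : ℝ) (mean G Z M Q 1 v) (r * Δ)
    rw [hx]
    linarith
  have hgz : gz G Z ≤ G := fun a b h => h.1
  have hsum := fun v => nmb_dg G R H (hR.trans hgz) (hH.trans hgz) hRH v
  have hd0 := fun v => nmb_deg _ _ _ _ Δ (J * r * Δ) (r * Δ) x (hsum v) (hdR5 v) (hdH5 v)
    (hΔ v).1 (by rw [hx]; exact (hΔ v).2)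
  -- bounds for `Δ`
  have hΔ2 : (Δ : ℝ) ≤ N := by exact_mod_cast hΔn
  have hr0 : 0 < r := lt_of_lt_of_le (by positivity) hr1
  have hrΔ1 : g / 5000 ≤ r * Δ := by
    have h1 : c / 5000 * (α * N) ≤ r * Δ := mul_le_mul hr1 hαΔ (by positivity) hr0.le
    rw [hg]
    linarith
  have hrε : r ≤ ε / 1000 := by linarith
  have hεΔ1 : h ≤ ε * Δ := by
    have h1 : ε * (α * N) ≤ ε * Δ := mul_le_mul_of_nonneg_left hαΔ hε.le
    rw [hh]; linarith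
  have hrΔ2 : r * Δ ≤ ε * Δ / 1000 := by
    have h1 : r * Δ ≤ ε / 1000 * Δ := mul_le_mul_of_nonneg_right hrε (Nat.cast_nonneg _)
    linarith
  have hJrΔ1 : 3 / 16 * (ε * Δ) - r * Δ ≤ J * r * Δ := by
    have h1 : (3 * ε / 16 - r) * Δ ≤ J * r * Δ :=
      mul_le_mul_of_nonneg_right hJr1.le (by positivity)
    linarith
  have hJrΔ2 : J * r * Δ ≤ 3 / 16 * (ε * Δ) := by
    have h1 : J * r * Δ ≤ 3 * ε / 16 * Δ := mul_le_mul_of_nonneg_right hJr2 (by positivity)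
    linarith
  have hεΔ2 : ε * Δ ≤ Δ / 4 := by
    have h1 : ε * Δ ≤ 1 / 4 * Δ := mul_le_mul_of_nonneg_right hε1 (Nat.cast_nonneg _)
    linarith
  -- the parameters
  obtain ⟨ζ0, hζ1, hζ2⟩ := nmb_ceil w hw0.le
  obtain ⟨β', hβ1, hβ2⟩ := nmb_ceil (3 * w) (by positivity)
  obtain ⟨β, hβ⟩ : ∃ β : ℕ, β = β' + 1 := ⟨_, rfl⟩
  have hβr : (β : ℝ) = β' + 1 := by rw [hβ]; push_cast; ring
  obtain ⟨m, hm1, hm2⟩ := nmb_ceil w hw0.le
  obtain ⟨q, hq1, hq2⟩ := nmb_ceil (10 * w) (by positivity)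
  obtain ⟨D, hD1, hD2⟩ := nmb_ceil (11 * w) (by positivity)
  obtain ⟨s', hs1', hs2'⟩ := nmb_ceil kk (by positivity)
  obtain ⟨s, hs⟩ : ∃ s : ℕ, s = s' + 1 := ⟨_, rfl⟩
  have hsr : (s : ℝ) = s' + 1 := by rw [hs]; push_cast; ring
  obtain ⟨dS, hdS1, hdS2⟩ := nmb_ceil (4 * t) (by positivity)
  obtain ⟨S1, hS11, hS12⟩ := nmb_ceil t (by positivity)
  obtain ⟨e', he1, he2⟩ := nmb_ceil (21 * x) (by positivity)
  obtain ⟨e0, he0⟩ : ∃ e0 : ℕ, e0 = e' + 2 := ⟨_, rfl⟩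
  have her : (e0 : ℝ) = e' + 2 := by rw [he0]; push_cast; ring
  obtain ⟨f', hf1, hf2⟩ := nmb_ceil (10 * x) (by positivity)
  obtain ⟨f0, hf0⟩ : ∃ f0 : ℕ, f0 = f' + 2 := ⟨_, rfl⟩
  have hfr : (f0 : ℝ) = f' + 2 := by rw [hf0]; push_cast; ring
  obtain ⟨p1, p2, p3, p4, p5, p6, p7, p8, p9, p10, p11, p12, p13, p14⟩ :=
    nm3_nums N NN ζ0 β m q D s dS S1 e0 f0 w g h x kk t hNN10 hn5 hxk hkt htw hwh hwg htt hww
      hxw hgw hζ1 hζ2 (by linarith) (by linarith) hm2 hq1 hD1 hD2 (by linarith) (by linarith)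
      hdS1 hdS2 hS11 hS12 (by linarith) (by linarith)
  -- the first family
  obtain ⟨n1, hn11, hn12⟩ := nmb_floor (Δ - J * r * Δ - r * Δ + 10 * x) (by linarith)
  obtain ⟨K1, ν1, hK1, hK1', hν1⟩ := natf (G \ (R ⊔ H)) (n1 + 1) ζ0 e0 (by omega)
    (by
      intro v
      have h1 : ((dg (G \ (R ⊔ H)) v : ℕ) : ℝ) < ((n1 + 1 : ℕ) : ℝ) := by
        push_cast
        linarith [(hd0 v).1]
      have h2 : dg (G \ (R ⊔ H)) v < n1 + 1 := by exact_mod_cast h1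
      omega)
    (by
      intro v
      have h1 : ((n1 + 1 : ℕ) : ℝ) ≤ ((dg (G \ (R ⊔ H)) v + e0 : ℕ) : ℝ) := by
        push_cast
        linarith [(hd0 v).2]
      exact_mod_cast h1)
  -- the second family
  obtain ⟨n2, hn21, hn22⟩ := nmb_floor (r * Δ + 5 * x) (by positivity)
  obtain ⟨K2, ν2, hK2, hK2', hν2⟩ := natf H (n2 + 1) ζ0 f0 (by omega)
    (by
      intro v
      have h0 := abs_le.1 (hdH5 v)
      have h1 : ((dg H v : ℕ) : ℝ) < ((n2 + 1 : ℕ) : ℝ) := by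
        push_cast
        linarith [h0.1, h0.2]
      have h2 : dg H v < n2 + 1 := by exact_mod_cast h1
      omega)
    (by
      intro v
      have h0 := abs_le.1 (hdH5 v)
      have h1 : ((n2 + 1 : ℕ) : ℝ) ≤ ((dg H v + f0 : ℕ) : ℝ) := by
        push_cast
        linarith [h0.1, h0.2]
      exact_mod_cast h1)
  rw [← hN] at hK1' hν1 hK2' hν2
  have hE1α : ((N * e0 / ζ0 : ℕ) : ℝ) ≤ α * t / 100 :=
    nm3_div N e0 ζ0 w (α * t) x hw0 (by positivity) hζ1 (by linarith) hxwα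
  have hE2α : ((N * f0 / ζ0 : ℕ) : ℝ) ≤ α * t / 100 :=
    nm3_div N f0 ζ0 w (α * t) x hw0 (by positivity) hζ1 (by linarith) hxwα
  have hαtΔ : α * t / 100 ≤ δ * Δ := by
    rw [ht, hδ]
    have : σ * (α * N) ≤ σ * Δ := mul_le_mul_of_nonneg_left hαΔ hσ0.le
    linarith
  have hδΔt : δ * Δ ≤ t / 100 := by
    rw [ht, hδ]
    have : σ * (Δ : ℝ) ≤ σ * N := mul_le_mul_of_nonneg_left hΔ2 hσ0.le
    linarith
  have hK1rα : ((n1 : ℝ) + 1) ≤ K1 + δ * Δ := by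
    have h1 : ((n1 + 1 : ℕ) : ℝ) ≤ ((K1 + N * e0 / ζ0 : ℕ) : ℝ) := Nat.cast_le.2 hK1'
    rw [Nat.cast_add K1, Nat.cast_add n1, Nat.cast_one] at h1
    linarith
  have hK2rα : ((n2 : ℝ) + 1) ≤ K2 + δ * Δ := by
    have h1 : ((n2 + 1 : ℕ) : ℝ) ≤ ((K2 + N * f0 / ζ0 : ℕ) : ℝ) := Nat.cast_le.2 hK2'
    rw [Nat.cast_add K2, Nat.cast_add n2, Nat.cast_one] at h1
    linarith
  have hK1r : ((n1 : ℝ) + 1) ≤ K1 + t / 100 := by
    have h1 : ((n1 + 1 : ℕ) : ℝ) ≤ ((K1 + N * e0 / ζ0 : ℕ) : ℝ) := Nat.cast_le.2 hK1'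
    rw [Nat.cast_add K1, Nat.cast_add n1, Nat.cast_one] at h1
    linarith
  have hK2r : ((n2 : ℝ) + 1) ≤ K2 + t / 100 := by
    have h1 : ((n2 + 1 : ℕ) : ℝ) ≤ ((K2 + N * f0 / ζ0 : ℕ) : ℝ) := Nat.cast_le.2 hK2'
    rw [Nat.cast_add K2, Nat.cast_add n2, Nat.cast_one] at h1
    linarith
  have hK1s : (K1 : ℝ) ≤ n1 + 1 := by exact_mod_cast hK1
  have hK2s : (K2 : ℝ) ≤ n2 + 1 := by exact_mod_cast hK2
  have hΔ0 : (0 : ℝ) ≤ Δ := Nat.cast_nonneg _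
  obtain ⟨L1, hL1⟩ : ∃ L1 : ℕ, L1 = ⌊(1 - J * r - r - δ) * Δ⌋₊ := ⟨_, rfl⟩
  obtain ⟨L2, hL2⟩ : ∃ L2 : ℕ, L2 = ⌊(r - δ) * Δ⌋₊ := ⟨_, rfl⟩
  have hL1a : (L1 : ℝ) ≤ (1 - J * r - r - δ) * Δ := by
    rw [hL1]; exact Nat.floor_le (mul_nonneg (by linarith) hΔ0)
  have hL1b : (1 - J * r - r - δ) * Δ < L1 + 1 := by
    rw [hL1]; exact Nat.lt_floor_add_one _
  have hL2a : (L2 : ℝ) ≤ (r - δ) * Δ := by
    rw [hL2]; exact Nat.floor_le (mul_nonneg (by linarith) hΔ0)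
  have hL2b : (r - δ) * Δ < L2 + 1 := by
    rw [hL2]; exact Nat.lt_floor_add_one _
  have hLK1 : L1 ≤ K1 := by
    have : (L1 : ℝ) ≤ K1 := by linarith
    exact_mod_cast this
  have hLK2 : L2 ≤ K2 := by
    have : (L2 : ℝ) ≤ K2 := by linarith
    exact_mod_cast this
  have hKL1 : ((K1 - L1 : ℕ) : ℝ) ≤ t / 100 + 10 * x + 2 := by
    rw [Nat.cast_sub hLK1]
    linarith
  have hν1' := nft _ _ L1 _ _ _ ν1 hν1 hLK1
  have hν2' := nft _ _ L2 _ _ _ ν2 hν2 hLK2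
  have p8' : N * e0 / ζ0 + (K1 - L1) + s + 12 * s + (S1 + (e0 + 12 * s)) ≤ dS := by
    have h1 : ((N * e0 / ζ0 + (K1 - L1) + s + 12 * s + (S1 + (e0 + 12 * s)) : ℕ) : ℝ) ≤ (dS : ℕ) := by
      rw [Nat.cast_add, Nat.cast_add, Nat.cast_add, Nat.cast_add]
      push_cast at hE1α hKL1 ⊢
      have h2 : α * t ≤ 1 * t := mul_le_mul_of_nonneg_right hα1 ht0.le
      linarith
    exact_mod_cast h1
  show ∃ (R H : SimpleGraph V) (Z : Finset V)
          (ζ0 e0 e1 f0 f1 u s t1 t2 ζ β S1 c1 S2 c2 dS cap N : ℕ)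
          (ν1 ν2 : ℕ → V → V),
          Par3 G R H Z ⌊(1 - J * r - r - δ) * Δ⌋₊ ⌊(r - δ) * Δ⌋₊ ζ0 e0 e1 f0 f1 u s t1 t2 ζ β S1 c1
            S2 c2 dS cap N ν1 ν2 ∧ _
  rw [← hL1, ← hL2]
  refine ⟨R, H, Z, ζ0, e0, N * e0 / ζ0 + (K1 - L1), f0, N * f0 / ζ0 + (K2 - L2), s, s, 12 * s,
    12 * (s + dS), β, β, S1, S1, ζ0, ζ0, dS, ζ0, NN, ν1, ν2, ?_, ?_, ?_, ?_⟩
  · refine ⟨hR, hH, hRH, hν1', hν2', ?_, ?_, ?_, ?_, p3, p4, p5, p6, p7, p8', p9, ?_, ?_⟩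
    · exact hnF _ s hn3 (by rw [← hkk]; linarith)
    · exact hnF _ (s + dS) hn3 (by
        rw [← hkk]; push_cast
        have : (0 : ℝ) ≤ dS := Nat.cast_nonneg _
        linarith)
    · have h1 : ((0 : ℕ) : ℝ) < S1 := by push_cast; linarith
      exact_mod_cast h1
    · omega
    · have h1 : ((2 * s + 2 * dS + N * dS / (ζ0 - 1) : ℕ) : ℝ) < (L2 : ℕ) := by
        refine lt_trans p12 ?_
        linarith
      exact_mod_cast h1
    · intro F hF hF1 hF2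
      have hcx := cxk (gz G Z) R F (α / 4) ν' lam q0 D m k q β β
        ((S1 + (e0 + 12 * s)) + (ζ0 + (f0 + 12 * (s + dS))))
        (NN * (N * (e0 + 12 * s)) + NN * (N * (f0 + 12 * (s + dS)))) (by positivity)
        (by linarith) hν'0 hlam0 hX' hkν ?_ ?_ hF1 hF2 ?_ ?_ ?_ ?_ ?_ p1 p2
      · rw [hNN]; exact hcx.1
      · intro v
        have h0 := abs_le.1 (hdR5 v)
        have h1 : ((D + ((S1 + (e0 + 12 * s)) + (ζ0 + (f0 + 12 * (s + dS)))) : ℕ) : ℝ) ≤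
            (dg R v : ℕ) := by
          refine le_trans p14 ?_
          linarith [h0.1, h0.2]
        exact_mod_cast h1
      · intro A B hAB
        rw [hq0d]
        exact hee A B hAB
      · rw [← hN]
        have hNNk : (4 * (k : ℝ) + 12) * N ≤ 2 * (NN * N) := by
          have h1 : (4 * (k : ℝ) + 12) ≤ 2 * NN := by
            have h2 : (NN : ℝ) = 4 * k + 10 := by rw [hNN]; push_cast; ring
            rw [h2]
            have : (0 : ℝ) ≤ k := Nat.cast_nonneg _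
            linarith
          have h3 := mul_le_mul_of_nonneg_right h1 (Nat.cast_nonneg N : (0 : ℝ) ≤ N)
          linarith
        have h1 : 1000 * (NN * (N * t)) ≤ q0 * (lam * (N : ℝ) ^ 2) := by
          have h2 := mul_le_mul_of_nonneg_right hs3 (show 0 ≤ (N : ℝ) * N by positivity)
          calc 1000 * (NN * (N * t)) = 1000 * NN * σ * ((N : ℝ) * N) := by rw [ht]; ring
            _ ≤ q0 * lam * ((N : ℝ) * N) := h2
            _ = q0 * (lam * (N : ℝ) ^ 2) := by ring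
        have h3 : 0 < (NN : ℝ) * (N * t) := by positivity
        linarith
      · rw [← hN]
        have h1 : lam * (N : ℝ) ≤ α * ω / 8 * N := mul_le_mul_of_nonneg_right hlam2 hN0.le
        have h2 : α * ω / 8 * N = α / 4 / 2 * w := by rw [hw]; ring
        have h3 : α / 4 / 2 * w ≤ α / 4 / 2 * (m : ℝ) :=
          mul_le_mul_of_nonneg_left hm1 (by positivity)
        linarith
      · rw [← hN]
        have h1 : lam * (N : ℝ) ≤ α * ω / 8 * N := mul_le_mul_of_nonneg_right hlam2 hN0.le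
        have h2 : α * ω / 8 * N = α / 4 / 2 * w := by rw [hw]; ring
        have h3 : α / 4 / 2 * w ≤ α / 4 / 2 * (β : ℝ) :=
          mul_le_mul_of_nonneg_left (by linarith) (by positivity)
        linarith
      · rw [← hN]
        have h1 : 1000 * ω * (N : ℝ) ≤ ν' * N := mul_le_mul_of_nonneg_right ho1 hN0.le
        have h2 : 1000 * ω * (N : ℝ) = 1000 * w := by rw [hw]; ring
        rw [h2] at h1
        linarith
      · rw [← hN]
        have h1 : c * α * (N : ℝ) ≤ α * N / 256 := by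
          have h2 : c * (α * N) ≤ 1 / 256 * (α * N) :=
            mul_le_mul_of_nonneg_right (by linarith) (by positivity)
          linarith
        rw [← hg] at h1
        have h3 : 0 < α * (N : ℝ) := by positivity
        have h4 : α / 4 / 8 * (N : ℝ) = α * N / 32 := by ring
        rw [h4]
        linarith
  · rw [← hkk]; linarith
  · rw [← hkk]; linarith
  · have h1 := abs_le.1 hZ1'
    rw [← hx] at h1
    have h2 : (1 / 2 - 2 * c) * (N : ℝ) = (1 / 2 - c) * N - c * N := by ring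
    have h3 : g ≤ c * N := by
      rw [hg]
      have : α * (c * N) ≤ 1 * (c * N) := mul_le_mul_of_nonneg_right hα1 (by positivity)
      linarith
    rw [h2]
    linarith [h1.1, h1.2]

end Pool.Agent.H71.DC
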