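import Mathlib
import Pool.Agent.H71.DR.Cr3
import Pool.Agent.H71.DC.C3p

/-!
C3L: `core3` (`DR/Core3.lean`) with a number of labels `L = Lf Δ` that depends only on `Δ` (not on the graph). Copy and adapt `params3` (the last theorem of `DR/Nm3.lean`, proved) and
`core3`; the other theorems of `DR/Nm3.lean` can be used from there (or copied, if a constant has to be changed).

`nft`: truncation of a natural family: `inv, adj, dis, unc` clear; `mis`: fewer labels; `lft`: the neighbours `u` of `v` with `ν j v ≠ u` for all `j < K'` are those with `ν j v ≠ u` for all `j < K` (at most `e1`) or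
`u = ν j v` for one of the `K - K'` labels `K' ≤ j < K`.

`core3L`: in `params3` make `ρ` smaller: `ρ := min (σ² ω α / (10^8 N)) (α / 4)` (`N` is called `NN` there), so that `n e0 / ζ0 ≤ (α σ/100) n ≤ (σ/100) Δ` and the same for `f0` (`nm3_div` with `x := ρ n`, `t := α σ n`...).
`natf` gives `K1, ν1` with `N1 ≤ K1 + n e0/ζ0`, `K1 ≤ N1`, `N1 = ⌊(1 - (J + 1) r) Δ + 10 ρ n⌋₊ + 1`, and `K2, ν2`, `N2 = ⌊r Δ + 5 ρ n⌋₊ + 1`. Put
`K1' := ⌊(1 - (J + 1) r - σ/100) Δ⌋₊ ≤ K1`, `K2' := ⌊(r - σ/100) Δ⌋₊ ≤ K2` (`σ/100 < r`). `K1 - K1' ≤ 10 ρ n + 2 + (σ/100) Δ ≤ 0.02 σ n`, the same for `K2`. `nft` gives natural families with `K1', K2'` labels and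
`e1' = e1 + (K1 - K1') ≤ 0.03 σ n`. All the conditions of `Par3` hold as before (`hdS`: `e1' + s + t1 + (S1 + (e0 + t1)) ≤ 4 σ n`, there is room; `hK2`: `K2' ≥ r Δ - (σ/100) Δ - 1`).
`Lf Δ := K1' + K2'`: `Lf Δ ≥ (1 - J r - σ/50) Δ - 2 ≥ (1 - ε/4) Δ` and `Lf Δ ≤ (1 - J r) Δ ≤ (1 - 3 ε/16 + r) Δ ≤ (1 - ε/8) Δ` (for `Δ ≥ n0`; `σ`, `r`, `J` depend only on the constants, since they are
chosen before the graph). Note that `α n ≤ Δ ≤ n` is used to compare `σ n` and `σ Δ`.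
-/

set_option autoImplicit false

namespace Pool.Agent.H71.DC

open Finset Classical
open Pool.Agent.H71.DN Pool.Agent.H71.DX Pool.Agent.H71.DR

theorem core3L (ε α τ ν lam : ℝ) (hε : 0 < ε) (hε1 : ε ≤ 1 / 4) (hα : 0 < α) (hα1 : α ≤ 1)
    (hτ0 : 0 < τ) (hτ : τ ≤ α / 64) (hν : 0 < ν) (hν1 : ν ≤ 1) (hl : 0 < lam) :
    ∃ (c κ ρ : ℝ) (n0 : ℕ) (Lf : ℕ → ℕ), 0 < c ∧ 64 * c ≤ ε ∧ 0 < κ ∧ 0 < ρ ∧
      (∀ Δ : ℕ, n0 ≤ Δ → (1 - ε / 4) * Δ ≤ (Lf Δ : ℝ) ∧ (Lf Δ : ℝ) ≤ (1 - ε / 8) * Δ) ∧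
      ∀ (V : Type) [Fintype V] (G : SimpleGraph V) (Δ : ℕ), n0 ≤ Fintype.card V →
        α * Fintype.card V ≤ Δ → Δ ≤ Fintype.card V →
        (∀ v, dg G v ≤ Δ ∧ (Δ : ℝ) ≤ dg G v + ρ * Fintype.card V) → XP G τ ν lam →
        ∀ U : ℕ → Finset V, (∀ ℓ < Lf Δ, ((U ℓ).card : ℝ) ≤ κ * Fintype.card V) →
          (∀ v, (mul (Lf Δ) U v : ℝ) ≤ κ * Fintype.card V) →
          ((((range (Lf Δ)).filter fun ℓ => ¬ Even (univ \ U ℓ).card).card : ℝ) ≤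
            (1 / 2 - 2 * c) * Fintype.card V) →
          ∃ mm : ℕ → V → V, Cnc G (Lf Δ) U mm := by
  obtain ⟨c, κ, ρ, n0, k1, k2, hc, hc1, hκ, hρ, hlab, h⟩ :=
    params3L ε α τ ν lam hε hε1 hα hα1 hτ0 hτ hν hν1 hl
  refine ⟨c, κ, ρ, n0, fun Δ => k1 Δ + k2 Δ, hc, hc1, hκ, hρ, hlab, ?_⟩
  intro V _ G Δ hn hαΔ hΔ hreg hX
  obtain ⟨R, H, Z, ζ0, e0, e1, f0, f1, u, s, t1, t2, ζ, β, S1, c1, S2,
    c2, dS, cap, N, ν1, ν2, hP, hu, hs, hZ⟩ := h V G Δ hn hαΔ hΔ hreg hX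
  intro U hU hm hw
  refine cr3 G R H Z (k1 Δ) (k2 Δ) ζ0 e0 e1 f0 f1 u s t1 t2 ζ β S1 c1 S2 c2 dS cap N ν1 ν2 hP
    U ?_ ?_ ?_
  · intro ℓ hℓ
    have h1 := hU ℓ hℓ
    have h2 : (((U ℓ).card + 1 : ℕ) : ℝ) ≤ u := by
      push_cast
      linarith
    exact_mod_cast h2
  · intro v
    have h1 := hm v
    have h2 : ((mul (k1 Δ + k2 Δ) U v + 1 : ℕ) : ℝ) ≤ s := by
      push_cast
      linarith
    exact_mod_cast h2
  · have h2 : ((((range (k1 Δ + k2 Δ)).filter fun ℓ => ¬ Even (univ \ U ℓ).card).card + u : ℕ) : ℝ)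
        < Z.card := by
      push_cast
      linarith
    exact_mod_cast h2

end Pool.Agent.H71.DC
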