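import Mathlib
import Pool.Agent.H71.DC.Defs

/-!
KEY: if almost all edges of `A` (almost `Δ` at each vertex, on average) go to `B`, and `B` is not much larger than `A`, then `A \ B` is small and
`A ∩ B` is a closed set.

Proof.  (`ee` is symmetric, additive over disjoint unions in both arguments, `∑ v ∈ A, dg G v = ee G A univ`; see `r1x_ee`, `r1x_symm`, `r1x_mono` in
`HL/R1x.lean`, `mnh_cnt` in `HL/MnH.lean`, all proved.) For every `A' ⊆ A`: `Δ #A' - ee G A' B = ∑ v ∈ A', (Δ - #{neighbours in B})` has non-negative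
summands, so it is `≤ Δ #A - ee G A B ≤ lam n²`. (1)
`a := #(A \ B)`, `b := #(B \ A)`, `b = #B - #(A ∩ B) ≤ #A + ν n - #(A ∩ B) = a + ν n`. `ee G (A \ B) (A ∩ B) = ee G (A ∩ B) (A \ B) ≤
ee G (A ∩ B) (univ \ B) ≤ Δ #(A ∩ B) - ee G (A ∩ B) B ≤ lam n²` (degrees `≤ Δ`, and (1)). So by (1) for `A \ B`:
`ee G (A \ B) (B \ A) ≥ Δ a - 2 lam n²`. `hNB`: it is `≤ (1 - γ) Δ (a + ν n)` (if `1 - γ < 0` it is `≤ 0`; in both cases it is `≤ (1 - γ) Δ a + Δ ν n` when `γ ≥ 0`:
`(1 - γ) max(a, b) ≤ (1 - γ) a + ν n` holds if `0 ≤ 1 - γ`; and if `1 - γ < 0` use `max(a,b) ≥ a`).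
So `γ Δ a ≤ 2 lam n² + Δ ν n`, and with `c n ≤ Δ`: `a ≤ (2 lam/(γ c) + ν/γ) n`.
Second claim: `Δ #(A ∩ B) ≤ ee G (A ∩ B) B + lam n²` by (1), `ee G (A ∩ B) B = ee G (A ∩ B) (A ∩ B) + ee G (A ∩ B) (B \ A)`,
`ee G (A ∩ B) (B \ A) ≤ Δ b ≤ n (a + ν n)`.
-/

set_option autoImplicit false

namespace Pool.Agent.H71.DC

open Finset Classical
open Pool.Agent.H71.DN Pool.Agent.H71.DX Pool.Agent.H71.DR Pool.Agent.H71.HL

theorem key_ee {V : Type} [Fintype V] (G : SimpleGraph V) (A B : Finset V) :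
    ee G A B = ∑ a ∈ A, (B.filter fun y => G.Adj a y).card := by
  unfold ee
  rw [card_filter, sum_product]
  refine sum_congr rfl fun a _ => ?_
  rw [card_filter]

theorem key_symm {V : Type} [Fintype V] (G : SimpleGraph V) (A B : Finset V) :
    ee G A B = ee G B A := by
  unfold ee
  refine card_bij (fun x _ => (x.2, x.1)) ?_ ?_ ?_
  · intro x hx
    simp only [mem_filter, mem_product] at hx ⊢
    exact ⟨⟨hx.1.2, hx.1.1⟩, hx.2.symm⟩
  · intro x _ y _ h
    simp only [Prod.mk.injEq] at h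
    exact Prod.ext h.2 h.1
  · intro y hy
    simp only [mem_filter, mem_product] at hy
    refine ⟨(y.2, y.1), ?_, rfl⟩
    simp only [mem_filter, mem_product]
    exact ⟨⟨hy.1.2, hy.1.1⟩, hy.2.symm⟩

theorem key_addR {V : Type} [Fintype V] (G : SimpleGraph V) (A B C : Finset V)
    (h : Disjoint B C) : ee G A (B ∪ C) = ee G A B + ee G A C := by
  rw [key_ee, key_ee, key_ee, ← sum_add_distrib]
  refine sum_congr rfl fun a _ => ?_
  rw [filter_union, card_union_of_disjoint]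
  exact disjoint_filter_filter h

theorem key_deg {V : Type} [Fintype V] (G : SimpleGraph V) (Δ : ℕ) (hΔ : ∀ v, dg G v ≤ Δ)
    (A B : Finset V) : ee G A B ≤ Δ * A.card := by
  rw [key_ee]
  calc ∑ a ∈ A, (B.filter fun y => G.Adj a y).card ≤ ∑ _a ∈ A, Δ := by
        refine sum_le_sum fun a _ => le_trans ?_ (hΔ a)
        unfold dg
        exact card_le_card (filter_subset_filter _ (subset_univ _))
    _ = Δ * A.card := by rw [sum_const, smul_eq_mul, mul_comm]

theorem key {V : Type} [Fintype V] (G : SimpleGraph V) (Δ : ℕ) (n γ c lam ν : ℝ)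
    (hγ : 0 < γ) (hc : 0 < c) (hn : 0 < n) (hΔ : ∀ v, dg G v ≤ Δ) (hcΔ : c * n ≤ Δ)
    (hΔn : (Δ : ℝ) ≤ n) (hNB : NB G Δ γ) (hl : 0 ≤ lam) (hν : 0 ≤ ν) (A B : Finset V)
    (h1 : (Δ : ℝ) * A.card ≤ ee G A B + lam * n ^ 2)
    (h2 : (B.card : ℝ) ≤ A.card + ν * n) :
    ((A \ B).card : ℝ) ≤ (2 * lam / (γ * c) + ν / γ) * n ∧
    (Δ : ℝ) * (A ∩ B).card ≤ ee G (A ∩ B) (A ∩ B) +
      (lam + (2 * lam / (γ * c) + ν / γ) + ν) * n ^ 2 := by
  have hΔ0 : (0 : ℝ) ≤ Δ := Nat.cast_nonneg _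
  have hΔpos : (0 : ℝ) < Δ := lt_of_lt_of_le (mul_pos hc hn) hcΔ
  have hone : ∀ A' : Finset V, A' ⊆ A →
      (Δ : ℝ) * A'.card ≤ ee G A' B + lam * n ^ 2 := by
    intro A' hA'
    have e1 : (ee G A B : ℝ) = ee G A' B + ee G (A \ A') B := by
      have h3 : ee G A B = ee G A' B + ee G (A \ A') B := by
        rw [key_symm G A B, key_symm G A' B, key_symm G (A \ A') B,
          ← key_addR G B A' (A \ A') disjoint_sdiff, union_sdiff_of_subset hA']
      exact_mod_cast h3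
    have e2 : (ee G (A \ A') B : ℝ) ≤ (Δ : ℝ) * (A \ A').card := by
      exact_mod_cast key_deg G Δ hΔ (A \ A') B
    have e3 : (A.card : ℝ) = A'.card + (A \ A').card := by
      have h3 : A.card = A'.card + (A \ A').card := by
        have := card_sdiff_add_card_eq_card hA'
        omega
      exact_mod_cast h3
    rw [e3, e1] at h1
    nlinarith
  have ca : (A.card : ℝ) = (A \ B).card + (A ∩ B).card := by
    have h3 : A.card = (A \ B).card + (A ∩ B).card := (card_sdiff_add_card_inter A B).symm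
    exact_mod_cast h3
  have cb : (B.card : ℝ) = (B \ A).card + (A ∩ B).card := by
    have h3 : B.card = (B \ A).card + (A ∩ B).card := by
      rw [inter_comm A B]
      exact (card_sdiff_add_card_inter B A).symm
    exact_mod_cast h3
  have hb : ((B \ A).card : ℝ) ≤ (A \ B).card + ν * n := by linarith
  have hBs : (A ∩ B) ∪ (B \ A) = B := by
    rw [union_comm, inter_comm A B]
    exact sdiff_union_inter B A
  have hBd : Disjoint (A ∩ B) (B \ A) :=
    (disjoint_sdiff (s := A) (t := B)).mono_left inter_subset_left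
  -- splitting of `ee G X B`
  have hsp : ∀ X : Finset V, (ee G X B : ℝ) = ee G X (A ∩ B) + ee G X (B \ A) := by
    intro X
    have h3 : ee G X B = ee G X (A ∩ B) + ee G X (B \ A) := by
      rw [← key_addR G X _ _ hBd, hBs]
    exact_mod_cast h3
  have hm := hone (A ∩ B) inter_subset_left
  have ha := hone (A \ B) sdiff_subset
  have h4 : (ee G (A ∩ B) (A \ B) : ℝ) + ee G (A ∩ B) B ≤ (Δ : ℝ) * (A ∩ B).card := by
    have h3 : ee G (A ∩ B) (A \ B) + ee G (A ∩ B) B ≤ Δ * (A ∩ B).card := by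
      rw [← key_addR G _ _ _ (disjoint_sdiff (s := B) (t := A)).symm]
      exact key_deg G Δ hΔ _ _
    exact_mod_cast h3
  have h5 : (ee G (A \ B) (A ∩ B) : ℝ) = ee G (A ∩ B) (A \ B) := by
    rw [key_symm]
  have h6 : (Δ : ℝ) * (A \ B).card ≤ ee G (A \ B) (B \ A) + 2 * lam * n ^ 2 := by
    have := hsp (A \ B)
    linarith
  have h7 := hNB (A \ B) (B \ A) (by
    rw [disjoint_left]
    intro x hx hx'
    rw [mem_sdiff] at hx hx'
    exact hx.2 hx'.1)
  have hνn : 0 ≤ ν * n := mul_nonneg hν hn.le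
  have hΔν : 0 ≤ (Δ : ℝ) * (ν * n) := mul_nonneg hΔ0 hνn
  have ha0 : (0 : ℝ) ≤ (A \ B).card := Nat.cast_nonneg _
  have h8 : (1 - γ) * Δ * max ((A \ B).card : ℝ) ((B \ A).card : ℝ) ≤
      (1 - γ) * Δ * (A \ B).card + Δ * (ν * n) := by
    have hmx1 : max ((A \ B).card : ℝ) ((B \ A).card : ℝ) ≤ (A \ B).card + ν * n :=
      max_le (by linarith) hb
    have hmx2 : ((A \ B).card : ℝ) ≤ max ((A \ B).card : ℝ) ((B \ A).card : ℝ) :=
      le_max_left _ _
    rcases le_total 0 (1 - γ) with hg | hg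
    · have h9 : (1 - γ) * Δ * max ((A \ B).card : ℝ) ((B \ A).card : ℝ) ≤
          (1 - γ) * Δ * ((A \ B).card + ν * n) :=
        mul_le_mul_of_nonneg_left hmx1 (mul_nonneg hg hΔ0)
      have h10 : (1 - γ) * ((Δ : ℝ) * (ν * n)) ≤ Δ * (ν * n) := by nlinarith
      nlinarith
    · have h9 : (1 - γ) * Δ * max ((A \ B).card : ℝ) ((B \ A).card : ℝ) ≤
          (1 - γ) * Δ * (A \ B).card := by
        have h11 : (1 - γ) * (Δ : ℝ) ≤ 0 := mul_nonpos_of_nonpos_of_nonneg hg hΔ0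
        exact mul_le_mul_of_nonpos_left hmx2 h11
      linarith
  have h9 : γ * Δ * (A \ B).card ≤ 2 * lam * n ^ 2 + Δ * (ν * n) := by
    have := h7.trans h8
    nlinarith
  have hA : ((A \ B).card : ℝ) ≤ (2 * lam / (γ * c) + ν / γ) * n := by
    have h10 : 2 * lam * n ^ 2 ≤ 2 * lam * n / c * Δ := by
      rw [div_mul_eq_mul_div, le_div_iff₀ hc]
      have h11 : 0 ≤ 2 * lam * n := by positivity
      nlinarith [mul_le_mul_of_nonneg_left hcΔ h11]
    have h11 : Δ * (γ * (A \ B).card) ≤ Δ * (2 * lam * n / c + ν * n) := by nlinarith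
    have h12 := le_of_mul_le_mul_left h11 hΔpos
    have h13 : (2 * lam / (γ * c) + ν / γ) * n = (2 * lam * n / c + ν * n) / γ := by
      field_simp
    rw [h13, le_div_iff₀ hγ]
    linarith
  refine ⟨hA, ?_⟩
  have h14 : (ee G (A ∩ B) (B \ A) : ℝ) ≤ n * (((2 * lam / (γ * c) + ν / γ) * n) + ν * n) := by
    have h15 : (ee G (A ∩ B) (B \ A) : ℝ) ≤ (Δ : ℝ) * (B \ A).card := by
      rw [key_symm]
      exact_mod_cast key_deg G Δ hΔ (B \ A) (A ∩ B)
    have hb0 : (0 : ℝ) ≤ (B \ A).card := Nat.cast_nonneg _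
    calc (ee G (A ∩ B) (B \ A) : ℝ) ≤ (Δ : ℝ) * (B \ A).card := h15
      _ ≤ n * (B \ A).card := mul_le_mul_of_nonneg_right hΔn hb0
      _ ≤ n * (((2 * lam / (γ * c) + ν / γ) * n) + ν * n) :=
        mul_le_mul_of_nonneg_left (by linarith) hn.le
  have h16 := hsp (A ∩ B)
  nlinarith

end Pool.Agent.H71.DC
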