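import Mathlib
import Pool.Agent.H71.DC.Key

/-!
SEL: choice of the closed sets, and small facts about closed sets.

`sel`: `k = 0` has a family (no conditions). There is no family with `m` sets: they are disjoint with at least `(c/2) n` vertices each, and
`m c / 2 > 1`. So there is a `k < m` such that there is a family with `k` sets (at level `η k`) but none with `k + 1` sets (at level `η (k + 1)`)
(`Nat.find` or induction).

`dich`: `ee G S S ≤ #S²`, so `#S (Δ - #S) ≤ η n²`, and with `#S ≥ t n`: `Δ - #S ≤ (η/t) n ≤ (c/2) n`.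

`half`: the rest of a closed set. `ee G Q Q = ee G I I + 2 ee G I (Q \ I) + ee G (Q \ I) (Q \ I)`, and `ee G I (Q \ I) ≤ Δ #I - ee G I I ≤ η1 n²`.
-/

set_option autoImplicit false

namespace Pool.Agent.H71.DC

open Finset Classical
open Pool.Agent.H71.DN Pool.Agent.H71.DX Pool.Agent.H71.DR Pool.Agent.H71.HL

theorem sel {V : Type} [Fintype V] (G : SimpleGraph V) (Δ : ℕ) (c : ℝ) (hc : 0 < c) (m : ℕ)
    (hm : 2 / c < m) (hV : 0 < Fintype.card V) (η : ℕ → ℝ) :
    ∃ (k : ℕ) (Q : ℕ → Finset V), k < m ∧ Clo G Δ c (η k) k Q ∧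
      ¬ ∃ Q' : ℕ → Finset V, Clo G Δ c (η (k + 1)) (k + 1) Q' := by
  by_contra hcon
  have hstep : ∀ k : ℕ, k ≤ m → ∃ Q : ℕ → Finset V, Clo G Δ c (η k) k Q := by
    intro k
    induction k with
    | zero =>
      intro _
      exact ⟨fun _ => ∅, ⟨fun i hi => absurd hi (Nat.not_lt_zero i),
        fun i hi => absurd hi (Nat.not_lt_zero i), fun i hi => absurd hi (Nat.not_lt_zero i)⟩⟩
    | succ k ih =>
      intro hk
      obtain ⟨Q, hQ⟩ := ih (by omega)
      by_contra hno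
      exact hcon ⟨k, Q, by omega, hQ, hno⟩
  obtain ⟨Q, hQ⟩ := hstep m le_rfl
  have hd : ∀ i ∈ (range m : Finset ℕ), ∀ j ∈ (range m : Finset ℕ), i ≠ j →
      Disjoint (Q i) (Q j) := by
    intro i hi j hj hij
    exact hQ.dis i (mem_range.mp hi) j (mem_range.mp hj) hij
  have h1 : ((range m).biUnion Q).card = ∑ i ∈ range m, (Q i).card := card_biUnion hd
  have h2 : ((range m).biUnion Q).card ≤ Fintype.card V := card_le_univ _
  have h3 : ((∑ i ∈ range m, (Q i).card : ℕ) : ℝ) ≤ (Fintype.card V : ℝ) := by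
    rw [← h1]
    exact_mod_cast h2
  have h4 : (m : ℝ) * (c / 2 * Fintype.card V) ≤ ((∑ i ∈ range m, (Q i).card : ℕ) : ℝ) := by
    rw [Nat.cast_sum]
    calc (m : ℝ) * (c / 2 * Fintype.card V) = ∑ _i ∈ range m, (c / 2 * (Fintype.card V : ℝ)) := by
          rw [sum_const, card_range, nsmul_eq_mul]
      _ ≤ ∑ i ∈ range m, ((Q i).card : ℝ) :=
        sum_le_sum fun i hi => hQ.big i (mem_range.mp hi)
  have hVr : (0 : ℝ) < Fintype.card V := by exact_mod_cast hV
  have h5 : 2 < (m : ℝ) * c := by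
    rw [div_lt_iff₀ hc] at hm
    exact hm
  have h6 : (m : ℝ) * (c / 2 * Fintype.card V) ≤ Fintype.card V := h4.trans h3
  nlinarith

theorem dich {V : Type} [Fintype V] (G : SimpleGraph V) (Δ : ℕ) (n c η t : ℝ) (hn : 0 < n)
    (ht : 0 < t) (hη : η ≤ t * (c / 2)) (hcΔ : c * n ≤ Δ) (S : Finset V)
    (hS : t * n ≤ (S.card : ℝ)) (h : (Δ : ℝ) * S.card ≤ ee G S S + η * n ^ 2) :
    c / 2 * n ≤ (S.card : ℝ) := by
  have h1 : (ee G S S : ℝ) ≤ (S.card : ℝ) * S.card := by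
    have h2 : ee G S S ≤ S.card * S.card := by
      unfold ee
      refine (card_filter_le _ _).trans ?_
      rw [card_product]
    exact_mod_cast h2
  by_contra hlt
  push Not at hlt
  have h3 : c / 2 * n < (Δ : ℝ) - S.card := by linarith
  have htn : 0 < t * n := mul_pos ht hn
  have hS0 : (0 : ℝ) < S.card := lt_of_lt_of_le htn hS
  have hcn : 0 < c / 2 * n := lt_trans hS0 hlt
  have h4 : (t * n) * (c / 2 * n) < S.card * ((Δ : ℝ) - S.card) :=
    mul_lt_mul' hS h3 hcn.le hS0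
  have h5 : η * n ^ 2 ≤ t * (c / 2) * n ^ 2 := mul_le_mul_of_nonneg_right hη (sq_nonneg n)
  nlinarith

theorem half {V : Type} [Fintype V] (G : SimpleGraph V) (Δ : ℕ) (n η η1 : ℝ)
    (hΔ : ∀ v, dg G v ≤ Δ) (Q I : Finset V) (hI : I ⊆ Q)
    (hQ : (Δ : ℝ) * Q.card ≤ ee G Q Q + η * n ^ 2)
    (h : (Δ : ℝ) * I.card ≤ ee G I I + η1 * n ^ 2) :
    (Δ : ℝ) * (Q \ I).card ≤ ee G (Q \ I) (Q \ I) + (η + 2 * η1) * n ^ 2 := by
  have hQI : I ∪ (Q \ I) = Q := union_sdiff_of_subset hI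
  have hd : Disjoint I (Q \ I) := disjoint_sdiff
  have e1 : ee G Q Q = ee G Q I + ee G Q (Q \ I) := by
    rw [← key_addR G Q _ _ hd, hQI]
  have e2 : ee G Q I = ee G I I + ee G I (Q \ I) := by
    rw [key_symm G Q I, ← key_addR G I _ _ hd, hQI]
  have e3 : ee G Q (Q \ I) = ee G I (Q \ I) + ee G (Q \ I) (Q \ I) := by
    rw [key_symm G Q (Q \ I), key_symm G I (Q \ I), ← key_addR G (Q \ I) _ _ hd, hQI]
  have e4 : ee G I I + ee G I (Q \ I) ≤ Δ * I.card := by
    rw [← key_addR G I _ _ hd]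
    exact key_deg G Δ hΔ _ _
  have c1 : Q.card = I.card + (Q \ I).card := by
    have := card_sdiff_add_card_eq_card hI
    omega
  have f1 : (ee G Q Q : ℝ) = ee G I I + ee G I (Q \ I) +
      (ee G I (Q \ I) + ee G (Q \ I) (Q \ I)) := by
    rw [e2, e3] at e1
    exact_mod_cast e1
  have f4 : (ee G I I : ℝ) + ee G I (Q \ I) ≤ Δ * I.card := by exact_mod_cast e4
  have g1 : (Q.card : ℝ) = I.card + (Q \ I).card := by exact_mod_cast c1
  have g2 : (0 : ℝ) ≤ ee G I (Q \ I) := Nat.cast_nonneg _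
  rw [f1, g1] at hQ
  nlinarith

end Pool.Agent.H71.DC
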