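import Mathlib
import Pool.Agent.H71.DR.Rpi
import Pool.Agent.H71.DR.Chl
import Pool.Agent.H71.DC.Defs

/-!
CHN: without nearly complete pieces the chromatic number is at most `(1 - η) Δ`. Variant of `spr`, `chi` (`DR/Chi.lean`, proved; copy and adapt).

Proof.  `γ ≤ 1` w.l.o.g. is a hypothesis. `spr` analogue: let `η1 ≤ γ / 4` and `(1 - η1) Δ ≤ dg G v`, `A` = the neighbours of `v`, `#A = dg G v ≤ Δ`. `NCq`: `ee G A A ≤ (1 - γ) Δ²`, so the number of ordered pairs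
`(x, y)` in `A × A`, not adjacent, is `≥ (1 - η1)² Δ² - (1 - γ) Δ² ≥ (γ/2) Δ² ≥ (γ/2) c² n²`; subtract the `#A ≤ n` pairs `(x, x)`: at least `(γ c²/4) n²` for large `n`.
`chi` analogue: `p := γ c² / 4`, `μ := c / 4`; `rpi p μ` gives `η2` and `π`. `η' := min (γ / 16) (η2 / 8)` (and `≤ 1/8`), `k := ⌈(1 - η') Δ⌉₊`. `grc` with this `k`: `#{moved} ≤ (c/4) n ≤ Δ / 4 ≤ 2 k`. For a vertex
`v` with `dg G v ≥ (1 - 4 η') Δ` (`4 η' ≤ γ/4`): `2 dg G v + 2 ≤ 2 Δ + 2 ≤ 2 k + η2 n` (`η2 n ≥ η2 Δ ≥ 8 η' Δ ≥ 2 η' Δ + 2`). For the other vertices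
`2 dg G v + 2 ≤ 2 (1 - 4 η') Δ + 2 ≤ 2 k`. And `k ≤ (1 - η') Δ + 1 ≤ (1 - η) Δ` with `η = η' / 2` for large `n`.
-/

set_option autoImplicit false

namespace Pool.Agent.H71.DC

open Finset Classical
open Pool.Agent.H71.DN Pool.Agent.H71.DX Pool.Agent.H71.DR Pool.Agent.H71.HL

private theorem cnt {V : Type} [Fintype V] (G : SimpleGraph V) (v : V) (A : Finset V)
    (hA : A = univ.filter fun u => G.Adj v u) :
    A.card * A.card ≤ ee G A A + A.card +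
      (univ.filter fun x : V × V => G.Adj v x.1 ∧ G.Adj v x.2 ∧ x.1 ≠ x.2 ∧
        ¬ G.Adj x.1 x.2).card := by
  have hmem : ∀ u, u ∈ A ↔ G.Adj v u := by
    intro u
    rw [hA]
    simp
  have h1 : (A.image fun u => (u, u)).card ≤ A.card := Finset.card_image_le
  have h2 : A ×ˢ A ⊆ ((A ×ˢ A).filter fun x => G.Adj x.1 x.2) ∪ (A.image fun u => (u, u)) ∪
      (univ.filter fun x : V × V => G.Adj v x.1 ∧ G.Adj v x.2 ∧ x.1 ≠ x.2 ∧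
        ¬ G.Adj x.1 x.2) := by
    rintro ⟨x, y⟩ hxy
    obtain ⟨hx, hy⟩ := Finset.mem_product.1 hxy
    by_cases h3 : G.Adj x y
    · exact Finset.mem_union_left _ (Finset.mem_union_left _ (Finset.mem_filter.2 ⟨hxy, h3⟩))
    · by_cases h4 : x = y
      · refine Finset.mem_union_left _ (Finset.mem_union_right _ (Finset.mem_image.2 ⟨x, hx, ?_⟩))
        rw [← h4]
      · refine Finset.mem_union_right _ (Finset.mem_filter.2 ⟨Finset.mem_univ _, ?_⟩)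
        exact ⟨(hmem x).1 hx, (hmem y).1 hy, h4, h3⟩
  have h5 := (Finset.card_le_card h2).trans ((Finset.card_union_le _ _).trans
    (Nat.add_le_add_right (Finset.card_union_le _ _) _))
  rw [Finset.card_product] at h5
  unfold ee
  omega

private theorem spr2 {V : Type} [Fintype V] (G : SimpleGraph V) (Δ : ℕ) (c γ η1 : ℝ)
    (hc : 0 < c) (hγ : 0 < γ) (hγ1 : γ ≤ 1) (hn : 4 ≤ γ * c ^ 2 * Fintype.card V)
    (hη : η1 ≤ γ / 4) (hΔ : ∀ v, dg G v ≤ Δ)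
    (hΔ1 : c * Fintype.card V ≤ Δ) (hN : NCq G Δ γ) (hΔ2 : Δ ≤ Fintype.card V)
    (v : V) (hv : (1 - η1) * Δ ≤ dg G v) :
    γ * c ^ 2 / 4 * (Fintype.card V : ℝ) ^ 2 ≤
      ((univ.filter fun x : V × V => G.Adj v x.1 ∧ G.Adj v x.2 ∧ x.1 ≠ x.2 ∧
        ¬ G.Adj x.1 x.2).card : ℝ) := by
  obtain ⟨A, hA⟩ : ∃ A : Finset V, A = univ.filter fun u => G.Adj v u := ⟨_, rfl⟩
  obtain ⟨n, hnn⟩ : ∃ n : ℝ, n = (Fintype.card V : ℝ) := ⟨_, rfl⟩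
  obtain ⟨a, ha⟩ : ∃ a : ℝ, a = (A.card : ℝ) := ⟨_, rfl⟩
  have hdg : dg G v = A.card := by
    rw [hA]
    rfl
  have hcn := cnt G v A hA
  have haD : A.card ≤ Δ := hdg ▸ hΔ v
  rw [hdg, ← ha] at hv
  have hc' : a * a ≤ (ee G A A : ℝ) + a +
      ((univ.filter fun x : V × V => G.Adj v x.1 ∧ G.Adj v x.2 ∧ x.1 ≠ x.2 ∧
        ¬ G.Adj x.1 x.2).card : ℝ) := by
    rw [ha]
    exact_mod_cast hcn
  have haD' : a ≤ Δ := by
    rw [ha]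
    exact_mod_cast haD
  have hDn : (Δ : ℝ) ≤ n := by
    rw [hnn]
    exact_mod_cast hΔ2
  have hD0 : (0 : ℝ) ≤ Δ := by positivity
  have hS : (ee G A A : ℝ) ≤ (1 - γ) * (Δ : ℝ) ^ 2 := by
    refine hN A ?_
    rw [← ha]
    nlinarith
  rw [← hnn] at hn hΔ1 ⊢
  have hc2 : 0 < γ * c ^ 2 := by positivity
  have hn0 : 0 < n := by
    by_contra hcon
    have : γ * c ^ 2 * n ≤ 0 := mul_nonpos_of_nonneg_of_nonpos hc2.le (not_lt.1 hcon)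
    linarith
  have ha0 : 0 ≤ a := by
    rw [ha]
    positivity
  have hcn0 : 0 < c * n := mul_pos hc hn0
  -- `a² ≥ (1 - 2 η1) Δ²`
  have h1 : (1 - γ / 2) * (Δ : ℝ) ^ 2 ≤ a * a := by
    have e1 : (0 : ℝ) ≤ (1 - η1) * Δ := mul_nonneg (by linarith) hD0
    have e2 : (1 - η1) * (Δ : ℝ) * ((1 - η1) * Δ) ≤ a * a := mul_le_mul hv hv e1 ha0
    have e3 : (1 - γ / 2) * (Δ : ℝ) ^ 2 ≤ (1 - η1) ^ 2 * (Δ : ℝ) ^ 2 := by
      refine mul_le_mul_of_nonneg_right ?_ (sq_nonneg _)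
      nlinarith [sq_nonneg η1]
    calc (1 - γ / 2) * (Δ : ℝ) ^ 2 ≤ (1 - η1) ^ 2 * (Δ : ℝ) ^ 2 := e3
      _ = (1 - η1) * (Δ : ℝ) * ((1 - η1) * Δ) := by ring
      _ ≤ a * a := e2
  have h2 : (c * n) ^ 2 ≤ (Δ : ℝ) ^ 2 := pow_le_pow_left₀ hcn0.le hΔ1 2
  have h3 : γ / 2 * (c * n) ^ 2 ≤ γ / 2 * (Δ : ℝ) ^ 2 :=
    mul_le_mul_of_nonneg_left h2 (by linarith)
  have h4 : a ≤ γ * c ^ 2 / 4 * n ^ 2 := by
    have e1 : 4 * n ≤ γ * c ^ 2 * n * n := mul_le_mul_of_nonneg_right hn hn0.le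
    nlinarith [haD'.trans hDn]
  nlinarith

theorem chN (c γ : ℝ) (hc : 0 < c) (hc1 : c ≤ 1) (hγ : 0 < γ) (hγ1 : γ ≤ 1) :
    ∃ (η : ℝ) (n0 : ℕ), 0 < η ∧ η ≤ 1 / 4 ∧
      ∀ (V : Type) [Fintype V] (G : SimpleGraph V) (Δ : ℕ), n0 ≤ Fintype.card V →
        (∀ v, dg G v ≤ Δ) → c * Fintype.card V ≤ Δ → Δ ≤ Fintype.card V → NCq G Δ γ →
        ∃ k : ℕ, G.Colorable k ∧ (k : ℝ) ≤ (1 - η) * Δ := by
  have hc2 : 0 < γ * c ^ 2 := by positivity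
  have hp1 : γ * c ^ 2 / 4 ≤ 1 := by
    have e1 : c ^ 2 ≤ 1 := pow_le_one₀ hc.le hc1
    have e2 : γ * c ^ 2 ≤ 1 * 1 := mul_le_mul hγ1 e1 (sq_nonneg _) zero_le_one
    linarith
  obtain ⟨η2, n1, hη2, hr⟩ := rpi (γ * c ^ 2 / 4) (c / 4) (by linarith) hp1 (by linarith)
  obtain ⟨e, he0, he1, he2, he3⟩ : ∃ e : ℝ, 0 < e ∧ e ≤ γ / 16 ∧ e ≤ η2 / 8 ∧ e ≤ 1 / 8 :=
    ⟨min (γ / 16) (min (η2 / 8) (1 / 8)), lt_min (by linarith) (lt_min (by linarith)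
      (by norm_num)), min_le_left _ _, (min_le_right _ _).trans (min_le_left _ _),
      (min_le_right _ _).trans (min_le_right _ _)⟩
  refine ⟨e / 2, max n1 ⌈4 / (γ * c ^ 2) + 4 / η2 + 2 / (e * c)⌉₊, by linarith,
    by linarith, ?_⟩
  intro V _ G Δ hn hΔ hΔ1 hΔ2 hN
  obtain ⟨n, hnn⟩ : ∃ n : ℝ, n = (Fintype.card V : ℝ) := ⟨_, rfl⟩
  have hn1 : n1 ≤ Fintype.card V := (le_max_left _ _).trans hn
  have hn2 : 4 / (γ * c ^ 2) + 4 / η2 + 2 / (e * c) ≤ n := by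
    rw [hnn]
    exact (Nat.le_ceil _).trans (by exact_mod_cast (le_max_right _ _).trans hn)
  have hec : 0 < e * c := mul_pos he0 hc
  have q1 : 0 < 4 / (γ * c ^ 2) := by positivity
  have q2 : 0 < 4 / η2 := by positivity
  have q3 : 0 < 2 / (e * c) := by positivity
  have p1 : 4 ≤ γ * c ^ 2 * n := by
    have : 4 / (γ * c ^ 2) ≤ n := by linarith
    rw [div_le_iff₀ hc2] at this
    linarith
  have p2 : 4 ≤ η2 * n := by
    have : 4 / η2 ≤ n := by linarith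
    rw [div_le_iff₀ hη2] at this
    linarith
  have p3 : 2 ≤ e * (c * n) := by
    have : 2 / (e * c) ≤ n := by linarith
    rw [div_le_iff₀ hec] at this
    linarith
  obtain ⟨π, hπ, hadj, hmov, hpr⟩ := hr V G hn1
  rw [← hnn] at hmov
  have hΔ1' := hΔ1
  rw [← hnn] at hΔ1'
  have hn0 : 0 < n := by linarith
  have hD0 : 0 < (Δ : ℝ) := lt_of_lt_of_le (mul_pos hc hn0) hΔ1'
  have hDn : (Δ : ℝ) ≤ n := by
    rw [hnn]
    exact_mod_cast hΔ2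
  have p4 : 2 ≤ e * Δ := p3.trans (mul_le_mul_of_nonneg_left hΔ1' he0.le)
  have hk1 : (1 - e) * (Δ : ℝ) ≤ (⌈(1 - e) * (Δ : ℝ)⌉₊ : ℝ) := Nat.le_ceil _
  have hk2 : (⌈(1 - e) * (Δ : ℝ)⌉₊ : ℝ) < (1 - e) * (Δ : ℝ) + 1 :=
    Nat.ceil_lt_add_one (mul_nonneg (by linarith) hD0.le)
  refine ⟨⌈(1 - e) * (Δ : ℝ)⌉₊, grc G π hπ (fun v hv => hadj v hv) _ ?_ ?_, by linarith⟩
  · have h1 : ((univ.filter fun v => π v ≠ v).card : ℝ) ≤
        ((2 * ⌈(1 - e) * (Δ : ℝ)⌉₊ : ℕ) : ℝ) := by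
      push_cast
      have h2 : c / 4 * n ≤ Δ / 4 := by linarith
      have h3 : (Δ : ℝ) / 4 ≤ 2 * ((1 - e) * Δ) := by nlinarith
      linarith
    exact_mod_cast h1
  · intro v
    have hv := hΔ v
    have hv' : (dg G v : ℝ) ≤ Δ := by exact_mod_cast hv
    have key : (2 * (dg G v : ℝ) + 2) ≤ 2 * (⌈(1 - e) * (Δ : ℝ)⌉₊ : ℝ) +
        ((univ.filter fun u => G.Adj v u ∧ π u ≠ u ∧ G.Adj v (π u)).card : ℝ) := by
      rcases le_or_gt ((1 - 4 * e) * (Δ : ℝ)) (dg G v) with h | h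
      · have h1 := spr2 G Δ c γ (4 * e) hc hγ hγ1 (by rw [← hnn]; exact p1)
          (by linarith) hΔ hΔ1 hN hΔ2 v h
        have h3 := hpr v h1
        rw [← hnn] at h3
        have h4 : e * (Δ : ℝ) ≤ η2 / 8 * n := mul_le_mul he2 hDn hD0.le (by linarith)
        linarith
      · have h3 : (0 : ℝ) ≤
            ((univ.filter fun u => G.Adj v u ∧ π u ≠ u ∧ G.Adj v (π u)).card : ℝ) := by
          positivity
        linarith
    exact_mod_cast key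

end Pool.Agent.H71.DC
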