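import Mathlib
import Pool.Agent.H71.DC.C3l
import Pool.Agent.H71.DC.Defs2

/-!
COC: `core3L` (`DC/C3l.lean`) for a set `C` of vertices of a larger graph.

Proof.  Same constants. `V1 := {v // v ∈ C}`, `G1 := G.comap (fun v : V1 => v.1)`, `card V1 = #C`, `dg G1 v = dgi G C v`, `U1 ℓ := {v : V1 | v.1 ∈ U ℓ}` (so `#(U1 ℓ) = #(U ℓ ∩ C)`,
`mul L U1 v = mul L U v.1`, `#(univ \ U1 ℓ) = #(C \ U ℓ)`), and `XP G1 τ ν lam` follows from `XPc G C τ ν lam` (the images of `A, Y` under `Subtype.val`). `core3L` gives `mm1` with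
`Cnc G1 L U1 mm1`. `mm ℓ v := if h : v ∈ C then (mm1 ℓ ⟨v, h⟩).1 else v`.
-/

set_option autoImplicit false

namespace Pool.Agent.H71.DC

open Finset Classical
open Pool.Agent.H71.DN Pool.Agent.H71.DX Pool.Agent.H71.DR Pool.Agent.H71.HL

private theorem coc_cf {α : Type} (s : Finset α) (p q : α → Prop) (dp : DecidablePred p)
    (dq : DecidablePred q) (h : ∀ x ∈ s, p x ↔ q x) :
    (@Finset.filter α p dp s).card = (@Finset.filter α q dq s).card := by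
  rw [@Finset.filter_congr α p q dp dq s h]

private theorem coc_dg {V : Type} [Fintype V] (G : SimpleGraph V) (S : Finset V)
    (v : {v : V // v ∈ S}) :
    dg (G.comap (fun v : {v : V // v ∈ S} => v.1)) v = dgi G S v.1 := by
  unfold dg dgi
  refine Finset.card_bij (fun u _ => u.1) ?_ ?_ ?_
  · intro u hu
    rw [mem_filter] at hu ⊢
    exact ⟨u.2, hu.2⟩
  · intro a _ b _ h
    exact Subtype.ext h
  · intro b hb
    rw [mem_filter] at hb
    refine ⟨⟨b, hb.1⟩, ?_, rfl⟩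
    rw [mem_filter]
    exact ⟨mem_univ _, hb.2⟩

private theorem coc_ee {V : Type} [Fintype V] (G : SimpleGraph V) (S : Finset V)
    (A B : Finset {v : V // v ∈ S}) :
    ee (G.comap (fun v : {v : V // v ∈ S} => v.1)) A B =
      ee G (A.map (Function.Embedding.subtype _)) (B.map (Function.Embedding.subtype _)) := by
  unfold ee
  refine Finset.card_bij (fun x _ => (x.1.1, x.2.1)) ?_ ?_ ?_
  · intro x hx
    rw [mem_filter, mem_product] at hx ⊢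
    exact ⟨⟨mem_map_of_mem _ hx.1.1, mem_map_of_mem _ hx.1.2⟩, hx.2⟩
  · intro a _ b _ h
    rw [Prod.ext_iff] at h
    exact Prod.ext (Subtype.ext h.1) (Subtype.ext h.2)
  · intro b hb
    rw [mem_filter, mem_product, mem_map, mem_map] at hb
    obtain ⟨⟨⟨x, hx, hx1⟩, ⟨y, hy, hy1⟩⟩, hadj⟩ := hb
    refine ⟨(x, y), ?_, Prod.ext hx1 hy1⟩
    rw [mem_filter, mem_product]
    refine ⟨⟨hx, hy⟩, ?_⟩
    rw [← hx1, ← hy1] at hadj
    exact hadj

private theorem coc_sd {α : Type} (i : DecidableEq α) (s t : Finset α) (a : α) :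
    a ∈ s \ t ↔ a ∈ s ∧ a ∉ t := Finset.mem_sdiff

private theorem coc_sub {V : Type} (S : Finset V) (A : Finset {v : V // v ∈ S}) :
    A.map (Function.Embedding.subtype _) ⊆ S := by
  intro x hx
  rw [mem_map] at hx
  obtain ⟨y, -, rfl⟩ := hx
  exact y.2

theorem coc (ε α τ ν lam : ℝ) (hε : 0 < ε) (hε1 : ε ≤ 1 / 4) (hα : 0 < α) (hα1 : α ≤ 1)
    (hτ0 : 0 < τ) (hτ : τ ≤ α / 64) (hν : 0 < ν) (hν1 : ν ≤ 1) (hl : 0 < lam) :
    ∃ (c κ ρ : ℝ) (n0 : ℕ) (Lf : ℕ → ℕ), 0 < c ∧ 64 * c ≤ ε ∧ 0 < κ ∧ 0 < ρ ∧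
      (∀ Δ : ℕ, n0 ≤ Δ → (1 - ε / 4) * Δ ≤ (Lf Δ : ℝ) ∧ (Lf Δ : ℝ) ≤ (1 - ε / 8) * Δ) ∧
      ∀ (V : Type) [Fintype V] (G : SimpleGraph V) (Δ : ℕ) (C : Finset V), n0 ≤ C.card →
        α * C.card ≤ Δ → Δ ≤ C.card →
        (∀ v ∈ C, dgi G C v ≤ Δ ∧ (Δ : ℝ) ≤ dgi G C v + ρ * C.card) → XPc G C τ ν lam →
        ∀ U : ℕ → Finset V, (∀ ℓ < Lf Δ, ((U ℓ ∩ C).card : ℝ) ≤ κ * C.card) →
          (∀ v ∈ C, (mul (Lf Δ) U v : ℝ) ≤ κ * C.card) →
          ((((range (Lf Δ)).filter fun ℓ => ¬ Even (C \ U ℓ).card).card : ℝ) ≤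
            (1 / 2 - 2 * c) * C.card) →
          ∃ mm : ℕ → V → V, Ccl G (Lf Δ) C U mm := by
  obtain ⟨c, κ, ρ, n0, Lf, hc, hc1, hκ, hρ, hLf, H⟩ :=
    core3L ε α τ ν lam hε hε1 hα hα1 hτ0 hτ hν hν1 hl
  refine ⟨c, κ, ρ, n0, Lf, hc, hc1, hκ, hρ, hLf, ?_⟩
  intro V _ G Δ C hn hαC hΔC hreg hXP U hU hmul hodd
  have hcard : Fintype.card {v : V // v ∈ C} = C.card := Fintype.card_coe C
  obtain ⟨mm0, hPM, hone, hind⟩ := H {v : V // v ∈ C} (G.comap (fun v : {v : V // v ∈ C} => v.1)) Δ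
    (by
      rw [hcard]
      exact hn)
    (by
      rw [hcard]
      exact hαC)
    (by
      rw [hcard]
      exact hΔC)
    (by
      intro v
      rw [coc_dg, hcard]
      exact hreg v.1 v.2)
    (by
      intro A Y h1 h2 h3
      rw [hcard] at h1 h2 h3 ⊢
      rw [coc_ee] at h3
      have h := hXP (A.map (Function.Embedding.subtype _)) (Y.map (Function.Embedding.subtype _))
        (coc_sub C A) (coc_sub C Y)
        (by
          rw [card_map]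
          exact h1)
        (by
          rw [card_map]
          exact h2) h3
      rw [card_map, card_map] at h
      exact h)
    (fun ℓ => univ.filter fun v => v.1 ∈ U ℓ)
    (by
      intro ℓ hℓ
      rw [hcard]
      refine le_trans (le_of_eq ?_) (hU ℓ hℓ)
      rw [Nat.cast_inj]
      refine Finset.card_bij (fun u _ => u.1) ?_ ?_ ?_
      · intro u hu
        rw [mem_filter] at hu
        rw [mem_inter]
        exact ⟨hu.2, u.2⟩
      · intro a _ b _ h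
        exact Subtype.ext h
      · intro b hb
        rw [mem_inter] at hb
        refine ⟨⟨b, hb.2⟩, ?_, rfl⟩
        rw [mem_filter]
        exact ⟨mem_univ _, hb.1⟩)
    (by
      intro v
      rw [hcard]
      refine le_trans (le_of_eq ?_) (hmul v.1 v.2)
      rw [Nat.cast_inj]
      refine coc_cf _ _ _ _ _ (fun ℓ _ => ?_)
      rw [mem_filter]
      exact ⟨fun h => h.2, fun h => ⟨mem_univ _, h⟩⟩)
    (by
      rw [hcard]
      refine le_trans (le_of_eq ?_) hodd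
      rw [Nat.cast_inj]
      refine coc_cf _ _ _ _ _ (fun ℓ _ => ?_)
      refine not_congr (iff_of_eq (congrArg Even ?_))
      refine Finset.card_bij (fun u _ => u.1) ?_ ?_ ?_
      · intro u hu
        have hu1 := (coc_sd _ _ _ _).1 hu
        rw [mem_filter] at hu1
        exact (coc_sd _ _ _ _).2 ⟨u.2, fun h => hu1.2 ⟨mem_univ _, h⟩⟩
      · intro a _ b _ h
        exact Subtype.ext h
      · intro b hb
        have hb1 := (coc_sd _ _ _ _).1 hb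
        refine ⟨⟨b, hb1.1⟩, (coc_sd _ _ _ _).2 ⟨mem_univ _, ?_⟩, rfl⟩
        rw [mem_filter]
        exact fun h => hb1.2 h.2)
  obtain ⟨mm, hmm⟩ : ∃ mm : ℕ → V → V, mm = fun ℓ v =>
      if h : v ∈ C then (mm0 ℓ ⟨v, h⟩).1 else v := ⟨_, rfl⟩
  have hin' : ∀ (ℓ : ℕ) (v : V) (h : v ∈ C), mm ℓ v = (mm0 ℓ ⟨v, h⟩).1 := by
    intro ℓ v h
    rw [hmm]
    exact dif_pos h
  have hout' : ∀ (ℓ : ℕ) (v : V), v ∉ C → mm ℓ v = v := by
    intro ℓ v h
    rw [hmm]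
    exact dif_neg h
  have htr : ∀ (v : V) (hv : v ∈ C), (∃ ℓ < Lf Δ, v ∉ U ℓ ∧ mm ℓ v = v) →
      ∃ ℓ < Lf Δ, (⟨v, hv⟩ : {v : V // v ∈ C}) ∉ (univ.filter fun v : {v : V // v ∈ C} => v.1 ∈ U ℓ) ∧
        mm0 ℓ ⟨v, hv⟩ = ⟨v, hv⟩ := by
    rintro v hv ⟨ℓ, hℓ, h1, h2⟩
    refine ⟨ℓ, hℓ, ?_, ?_⟩
    · rw [mem_filter]
      exact fun h => h1 h.2
    · rw [hin' ℓ v hv] at h2
      exact Subtype.ext h2
  refine ⟨mm, ⟨⟨?_, ?_, ?_, ?_⟩, ?_, ?_⟩⟩
  · intro ℓ hℓ v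
    by_cases h : v ∈ C
    · rw [hin' ℓ v h, hin' ℓ _ (mm0 ℓ ⟨v, h⟩).2]
      exact congrArg Subtype.val (hPM.inv ℓ hℓ ⟨v, h⟩)
    · rw [hout' ℓ v h, hout' ℓ v h]
  · intro ℓ hℓ v hv
    by_cases h : v ∈ C
    · rw [hin' ℓ v h] at hv ⊢
      have h1 := hPM.adj ℓ hℓ ⟨v, h⟩ (fun h2 => hv (congrArg Subtype.val h2))
      exact h1
    · exact absurd (hout' ℓ v h) hv
  · intro ℓ hℓ ℓ' hℓ' hne v hv
    by_cases h : v ∈ C
    · rw [hin' ℓ v h] at hv ⊢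
      rw [hin' ℓ' v h]
      have h1 := hPM.dis ℓ hℓ ℓ' hℓ' hne ⟨v, h⟩ (fun h2 => hv (congrArg Subtype.val h2))
      exact fun h2 => h1 (Subtype.ext h2)
    · exact absurd (hout' ℓ v h) hv
  · intro ℓ hℓ v hv
    by_cases h : v ∈ C
    · rw [mem_union] at hv
      rw [hin' ℓ v h]
      have hvU : v ∈ U ℓ := by
        rcases hv with hv | hv
        · exact hv
        · exact absurd h (Finset.mem_sdiff.1 hv).2
      have h1 := hPM.fix ℓ hℓ ⟨v, h⟩ (by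
        rw [mem_filter]
        exact ⟨mem_univ _, hvU⟩)
      exact congrArg Subtype.val h1
    · exact hout' ℓ v h
  · intro v hv
    refine le_trans (le_of_eq ?_) (hone ⟨v, hv⟩)
    refine coc_cf _ _ _ _ _ (fun ℓ _ => ?_)
    rw [mem_filter, hin' ℓ v hv]
    constructor
    · rintro ⟨h2, h3⟩
      exact ⟨fun h4 => h2 h4.2, Subtype.ext h3⟩
    · rintro ⟨h2, h3⟩
      exact ⟨fun h4 => h2 ⟨mem_univ _, h4⟩, congrArg Subtype.val h3⟩
  · intro a ha b hb hab h1 h2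
    obtain ⟨ℓ, hℓ, h3⟩ := hind ⟨a, ha⟩ ⟨b, hb⟩ hab (htr a ha h1) (htr b hb h2)
    refine ⟨ℓ, hℓ, ?_⟩
    rw [hin' ℓ a ha, h3]

end Pool.Agent.H71.DC
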