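import Mathlib
import Pool.Agent.H71.HL.R1r
import Pool.Agent.H71.DC.Defs

/-!
DUM: the graph of the open part with new neighbours for the vertices with slack. Generalisation of `r1r` (`HL/R1r.lean`, proved; copy and adapt; its private
definitions have to be copied).

Proof.  As in `R1r.lean`, on `V0 ⊕ D` instead of `V ⊕ (V × Bool)`: `M := card (V0 ⊕ D) ∈ [2 N, 3 N]`, `g := ⌈8 / δ⌉₊ + ⌈8 / c⌉₊`, `ρ := 1 / (100 g)`, `α := 1 / (2 g)`,
`lamr := θ² / 2`, `lam0 := θ² / (16 g)`. `reserve g ρ lamr` (`DN/Res.lean`) for the graph `G0'` on `V0 ⊕ D`: `inr d`, `inr e` adjacent iff `d ≠ e`; `inl v`, `inr d` adjacent iff `v ∈ W`; no edges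
between left vertices. It gives `R ≤ G0'`, `|dg R x - dg G0' x / g| ≤ ρ M ≤ 0.03 N / g`, and `ee G0' A B ≤ 4 g ee R A B` if `lamr M² ≤ ee G0' A B`.
`G'.Adj x y := (∃ a b, x = inl a ∧ y = inl b ∧ G0.Adj a b) ∨ R.Adj x y`.
 * `dg G' (inl v) = dg G0 v` for `v ∉ W`, `dg G0 v + dg R (inl v)` for `v ∈ W`, with `dg R (inl v) ≤ 2 N/g + 0.03 N/g ≤ δ N`, so `dg G' (inl v) + dd v ≤ Δ + dg G0 v`.
 * `dg G' (inr d) = dg R (inr d) ≤ 3 N/g + 0.03 N/g ≤ c N ≤ Δ`.
 * Lower bounds: `α M ≤ 1.5 N/g`; `v ∈ W`: `2 N/g - 0.03 N/g`; `inr d`: `(2 N - 1)/g - 0.03 N/g` (`N ≥ 10`); `v ∉ W`: `(c/2) N ≥ 1.5 N/g` (`g ≥ 8/c`).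
 * Last claim: `#A, #Y > θ M` would give `ee G0' A Y ≥ #A #Y - #A ≥ (θ²/2) M²` (`M ≥ 2/θ²`), so `ee G' A Y ≥ ee R A Y ≥ θ² M²/(8 g) > lam0 M²`.
-/

set_option autoImplicit false

namespace Pool.Agent.H71.DC

open Finset Classical
open Pool.Agent.H71.DN Pool.Agent.H71.DX Pool.Agent.H71.DR Pool.Agent.H71.HL

/-- the host graph of the reserve -/
private def dum_G0 {V : Type} (D : Type) (W : Finset V) : SimpleGraph (V ⊕ D) where
  Adj x y := (∃ d e, x = Sum.inr d ∧ y = Sum.inr e ∧ d ≠ e) ∨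
    (∃ v d, v ∈ W ∧ x = Sum.inl v ∧ y = Sum.inr d) ∨
    (∃ v d, v ∈ W ∧ x = Sum.inr d ∧ y = Sum.inl v)
  symm := by
    constructor
    intro x y h
    rcases h with ⟨d, e, h1, h2, h3⟩ | ⟨v, d, h1, h2, h3⟩ | ⟨v, d, h1, h2, h3⟩
    · exact Or.inl ⟨e, d, h2, h1, h3.symm⟩
    · exact Or.inr (Or.inr ⟨v, d, h1, h3, h2⟩)
    · exact Or.inr (Or.inl ⟨v, d, h1, h3, h2⟩)
  loopless := by
    constructor
    intro x h
    rcases h with ⟨d, e, h1, h2, h3⟩ | ⟨v, d, h1, h2, h3⟩ | ⟨v, d, h1, h2, h3⟩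
    · rw [h1] at h2
      exact h3 (Sum.inr_injective h2)
    · rw [h2] at h3
      cases h3
    · rw [h2] at h3
      cases h3

private theorem dum_ll {V D : Type} (W : Finset V) (a b : V) :
    ¬ (dum_G0 D W).Adj (Sum.inl a) (Sum.inl b) := by
  intro h
  rcases h with ⟨d, e, h1, h2, h3⟩ | ⟨v, d, h1, h2, h3⟩ | ⟨v, d, h1, h2, h3⟩
  · cases h1
  · cases h3
  · cases h2

private theorem dum_lr {V D : Type} (W : Finset V) (a : V) (d : D) :
    (dum_G0 D W).Adj (Sum.inl a) (Sum.inr d) ↔ a ∈ W := by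
  constructor
  · intro h
    rcases h with ⟨d, e, h1, h2, h3⟩ | ⟨v, d, h1, h2, h3⟩ | ⟨v, d, h1, h2, h3⟩
    · cases h1
    · rw [Sum.inl_injective h2]
      exact h1
    · cases h2
  · intro h
    exact Or.inr (Or.inl ⟨a, d, h, rfl, rfl⟩)

private theorem dum_rr {V D : Type} (W : Finset V) (d e : D) :
    (dum_G0 D W).Adj (Sum.inr d) (Sum.inr e) ↔ d ≠ e := by
  constructor
  · intro h
    rcases h with ⟨d', e', h1, h2, h3⟩ | ⟨v, d', h1, h2, h3⟩ | ⟨v, d', h1, h2, h3⟩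
    · rw [Sum.inr_injective h1, Sum.inr_injective h2]
      exact h3
    · cases h2
    · cases h3
  · intro h
    exact Or.inl ⟨d, e, rfl, rfl, h⟩

/-- the enlarged graph -/
private def dum_G' {V D : Type} (G : SimpleGraph V) (R : SimpleGraph (V ⊕ D)) :
    SimpleGraph (V ⊕ D) where
  Adj x y := (∃ a b, x = Sum.inl a ∧ y = Sum.inl b ∧ G.Adj a b) ∨ R.Adj x y
  symm := by
    constructor
    intro x y h
    rcases h with ⟨a, b, h1, h2, h3⟩ | h
    · exact Or.inl ⟨b, a, h2, h1, h3.symm⟩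
    · exact Or.inr h.symm
  loopless := by
    constructor
    intro x h
    rcases h with ⟨a, b, h1, h2, h3⟩ | h
    · rw [h1] at h2
      rw [Sum.inl_injective h2] at h3
      exact G.loopless.irrefl _ h3
    · exact R.loopless.irrefl _ h

private theorem dum_Gll {V D : Type} (W : Finset V) (G : SimpleGraph V)
    (R : SimpleGraph (V ⊕ D)) (hR : R ≤ dum_G0 D W) (a b : V) :
    (dum_G' G R).Adj (Sum.inl a) (Sum.inl b) ↔ G.Adj a b := by
  constructor
  · intro h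
    rcases h with ⟨a', b', h1, h2, h3⟩ | h
    · rw [Sum.inl_injective h1, Sum.inl_injective h2]
      exact h3
    · exact absurd (hR h) (dum_ll W a b)
  · intro h
    exact Or.inl ⟨a, b, rfl, rfl, h⟩

private theorem dum_Glr {V D : Type} (G : SimpleGraph V)
    (R : SimpleGraph (V ⊕ D)) (a : V) (d : D) :
    (dum_G' G R).Adj (Sum.inl a) (Sum.inr d) ↔ R.Adj (Sum.inl a) (Sum.inr d) := by
  constructor
  · intro h
    rcases h with ⟨a', b', h1, h2, h3⟩ | h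
    · cases h2
    · exact h
  · intro h
    exact Or.inr h

private theorem dum_dgl {V D : Type} [Fintype V] [Fintype D] (W : Finset V) (G : SimpleGraph V)
    (R : SimpleGraph (V ⊕ D)) (hR : R ≤ dum_G0 D W) (a : V) :
    dg (dum_G' G R) (Sum.inl a) = dg G a + dg R (Sum.inl a) := by
  have h1 : (univ.filter fun u => (dum_G' G R).Adj (Sum.inl a) u) =
      ((univ.filter fun u => G.Adj a u).image (Sum.inl : V → V ⊕ D)) ∪
        (univ.filter fun u => R.Adj (Sum.inl a) u) := by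
    ext u
    rw [Finset.mem_union, Finset.mem_image, Finset.mem_filter, Finset.mem_filter]
    constructor
    · rintro ⟨_, ⟨a', b', h1, h2, h3⟩ | h⟩
      · left
        refine ⟨b', ?_, h2.symm⟩
        rw [Finset.mem_filter, Sum.inl_injective h1]
        exact ⟨Finset.mem_univ _, h3⟩
      · right
        exact ⟨Finset.mem_univ _, h⟩
    · rintro (⟨b, hb, rfl⟩ | ⟨_, h⟩)
      · exact ⟨Finset.mem_univ _, Or.inl ⟨a, b, rfl, rfl, (Finset.mem_filter.1 hb).2⟩⟩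
      · exact ⟨Finset.mem_univ _, Or.inr h⟩
  have h2 : Disjoint ((univ.filter fun u => G.Adj a u).image (Sum.inl : V → V ⊕ D))
      (univ.filter fun u => R.Adj (Sum.inl a) u) := by
    rw [Finset.disjoint_left]
    intro u hu hu'
    obtain ⟨b, _, rfl⟩ := Finset.mem_image.1 hu
    exact dum_ll W a b (hR (Finset.mem_filter.1 hu').2)
  unfold dg
  rw [h1, Finset.card_union_of_disjoint h2, Finset.card_image_of_injective _ Sum.inl_injective]

private theorem dum_dgr {V D : Type} [Fintype V] [Fintype D] (G : SimpleGraph V)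
    (R : SimpleGraph (V ⊕ D)) (d : D) :
    dg (dum_G' G R) (Sum.inr d) = dg R (Sum.inr d) := by
  unfold dg
  congr 1
  ext u
  rw [Finset.mem_filter, Finset.mem_filter]
  constructor
  · rintro ⟨_, ⟨a', b', h1, h2, h3⟩ | h⟩
    · cases h1
    · exact ⟨Finset.mem_univ _, h⟩
  · rintro ⟨_, h⟩
    exact ⟨Finset.mem_univ _, Or.inr h⟩

private theorem dum_dg0W {V D : Type} [Fintype V] [Fintype D] (W : Finset V) (a : V) (ha : a ∈ W) :
    dg (dum_G0 D W) (Sum.inl a) = Fintype.card D := by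
  have h1 : (univ.filter fun u => (dum_G0 D W).Adj (Sum.inl a) u) =
      (univ : Finset D).image (Sum.inr : D → V ⊕ D) := by
    ext u
    rw [Finset.mem_filter, Finset.mem_image]
    constructor
    · rintro ⟨_, h⟩
      rcases u with b | d
      · exact absurd h (dum_ll W a b)
      · exact ⟨d, Finset.mem_univ _, rfl⟩
    · rintro ⟨d, _, rfl⟩
      exact ⟨Finset.mem_univ _, (dum_lr W a d).2 ha⟩
  unfold dg
  rw [h1, Finset.card_image_of_injective _ Sum.inr_injective, Finset.card_univ]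

private theorem dum_dg0n {V D : Type} [Fintype V] [Fintype D] (W : Finset V)
    (R : SimpleGraph (V ⊕ D)) (hR : R ≤ dum_G0 D W) (a : V) (ha : a ∉ W) :
    dg R (Sum.inl a) = 0 := by
  unfold dg
  rw [Finset.card_eq_zero]
  apply Finset.eq_empty_of_forall_notMem
  intro u hu
  have h := hR (Finset.mem_filter.1 hu).2
  rcases u with b | d
  · exact dum_ll W a b h
  · exact ha ((dum_lr W a d).1 h)

private theorem dum_dg0r {V D : Type} [Fintype V] [Fintype D] (W : Finset V) (d : D) :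
    Fintype.card D ≤ dg (dum_G0 D W) (Sum.inr d) + 1 := by
  have h1 : ((univ : Finset D).erase d).image (Sum.inr : D → V ⊕ D) ⊆
      (univ.filter fun u => (dum_G0 D W).Adj (Sum.inr d) u) := by
    intro u hu
    obtain ⟨e, he, rfl⟩ := Finset.mem_image.1 hu
    rw [Finset.mem_filter]
    exact ⟨Finset.mem_univ _, (dum_rr W d e).2 (Finset.ne_of_mem_erase he).symm⟩
  have h2 := Finset.card_le_card h1
  rw [Finset.card_image_of_injective _ Sum.inr_injective,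
    Finset.card_erase_of_mem (Finset.mem_univ _), Finset.card_univ] at h2
  unfold dg
  omega

private theorem dum_ee0 {V D : Type} [Fintype V] [Fintype D] (W : Finset V)
    (A Y : Finset (V ⊕ D)) (hA : ∀ a ∈ A, ∃ d, a = Sum.inr d)
    (hY : ∀ y ∈ Y, (∃ d, y = Sum.inr d) ∨ ∃ w ∈ W, y = Sum.inl w) :
    A.card * Y.card ≤ ee (dum_G0 D W) A Y + A.card := by
  have h1 : (A ×ˢ Y) ⊆ ((A ×ˢ Y).filter fun x => (dum_G0 D W).Adj x.1 x.2) ∪
      A.image (fun a => (a, a)) := by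
    intro x hx
    rw [Finset.mem_union, Finset.mem_filter, Finset.mem_image]
    obtain ⟨hx1, hx2⟩ := Finset.mem_product.1 hx
    by_cases h : x.1 = x.2
    · right
      exact ⟨x.1, hx1, Prod.ext rfl h⟩
    · left
      refine ⟨hx, ?_⟩
      obtain ⟨d, hd⟩ := hA _ hx1
      rcases hY _ hx2 with ⟨e, he⟩ | ⟨w, hw, he⟩
      · rw [hd, he]
        refine (dum_rr W d e).2 (fun hde => h ?_)
        rw [hd, he, hde]
      · rw [hd, he]
        exact ((dum_lr W w d).2 hw).symm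
  have h2 := (Finset.card_le_card h1).trans (Finset.card_union_le _ _)
  have h3 : (A.image (fun a => (a, a))).card ≤ A.card := Finset.card_image_le
  rw [Finset.card_product] at h2
  unfold ee
  omega

private theorem dum_eeG {V D : Type} [Fintype V] [Fintype D] (G : SimpleGraph V)
    (R : SimpleGraph (V ⊕ D)) (A Y : Finset (V ⊕ D)) :
    ee R A Y ≤ ee (dum_G' G R) A Y := by
  unfold ee
  apply Finset.card_le_card
  intro x hx
  rw [Finset.mem_filter] at hx ⊢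
  exact ⟨hx.1, Or.inr hx.2⟩

theorem dum (δ c : ℝ) (hδ : 0 < δ) (hδ1 : δ ≤ 1 / 2) (hc : 0 < c) (hc1 : c ≤ 1) :
    ∃ α : ℝ, 0 < α ∧ α ≤ 1 / 2 ∧ ∀ θ : ℝ, 0 < θ → θ ≤ 1 → ∃ (lam0 : ℝ) (n0 : ℕ), 0 < lam0 ∧
      ∀ (V0 D : Type) [Fintype V0] [Fintype D] (G0 : SimpleGraph V0) (Δ N : ℕ) (dd : V0 → ℕ)
        (W : Finset V0), n0 ≤ N → Fintype.card V0 ≤ N → Fintype.card D = 2 * N →
        (∀ v, dd v ≤ Δ) → c * N ≤ Δ → (∀ v ∈ W, (dd v : ℝ) + δ * N ≤ Δ) →
        (∀ v, v ∉ W → c / 2 * N ≤ (dg G0 v : ℝ)) →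
        ∃ G' : SimpleGraph (V0 ⊕ D),
          (∀ a b, G'.Adj (Sum.inl a) (Sum.inl b) ↔ G0.Adj a b) ∧
          (∀ v, v ∉ W → ∀ d, ¬ G'.Adj (Sum.inl v) (Sum.inr d)) ∧
          (∀ v, dg G' (Sum.inl v) + dd v ≤ Δ + dg G0 v) ∧
          (∀ d, dg G' (Sum.inr d) ≤ Δ) ∧
          (∀ x, α * Fintype.card (V0 ⊕ D) ≤ (dg G' x : ℝ)) ∧
          ∀ A Y : Finset (V0 ⊕ D), (∀ a ∈ A, ∃ d, a = Sum.inr d) →
            (∀ y ∈ Y, (∃ d, y = Sum.inr d) ∨ ∃ w ∈ W, y = Sum.inl w) →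
            (ee G' A Y : ℝ) ≤ lam0 * (Fintype.card (V0 ⊕ D) : ℝ) ^ 2 →
            (A.card : ℝ) ≤ θ * Fintype.card (V0 ⊕ D) ∨
              (Y.card : ℝ) ≤ θ * Fintype.card (V0 ⊕ D) := by
  set g : ℕ := ⌈8 / δ⌉₊ + ⌈8 / c⌉₊ with hg
  have hgR : (g : ℝ) = (⌈8 / δ⌉₊ : ℝ) + (⌈8 / c⌉₊ : ℝ) := by
    rw [hg]
    push_cast
    ring
  have hgδ : 8 / δ ≤ (g : ℝ) := by
    rw [hgR]
    exact (Nat.le_ceil _).trans (le_add_of_nonneg_right (Nat.cast_nonneg _))
  have hgc : 8 / c ≤ (g : ℝ) := by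
    rw [hgR]
    exact (Nat.le_ceil _).trans (le_add_of_nonneg_left (Nat.cast_nonneg _))
  have hg16 : (16 : ℝ) ≤ g := by
    refine le_trans ?_ hgδ
    rw [le_div_iff₀ hδ]
    linarith
  have hg0 : (0 : ℝ) < g := by linarith
  have hg1 : 1 ≤ g := by
    have : (1 : ℝ) ≤ g := by linarith
    exact_mod_cast this
  have hgi : 1 / (g : ℝ) ≤ δ / 8 := by
    rw [div_le_iff₀ hg0]
    rw [div_le_iff₀ hδ] at hgδ
    linarith
  have hgi' : 1 / (g : ℝ) ≤ c / 8 := by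
    rw [div_le_iff₀ hg0]
    rw [div_le_iff₀ hc] at hgc
    linarith
  have hgi0 : 0 < 1 / (g : ℝ) := by positivity
  refine ⟨1 / 2 * (1 / (g : ℝ)), by positivity, by linarith, ?_⟩
  intro θ hθ hθ1
  obtain ⟨n1, hn1⟩ := reserve g hg1 (1 / 100 * (1 / (g : ℝ))) (θ ^ 2 / 2) (by positivity)
    (by linarith) (by positivity)
  refine ⟨θ ^ 2 / 16 * (1 / (g : ℝ)), n1 + ⌈2 / θ ^ 2⌉₊ + 10, by positivity, ?_⟩
  intro V D _ _ G Δ N dd W hn hV hD hdd hΔ hW hnW
  have hcard : Fintype.card (V ⊕ D) = Fintype.card V + 2 * N := by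
    rw [Fintype.card_sum, hD]
  have hcR2 : 2 * (N : ℝ) ≤ (Fintype.card (V ⊕ D) : ℝ) := by
    have : 2 * N ≤ Fintype.card (V ⊕ D) := by omega
    exact_mod_cast this
  have hcR3 : (Fintype.card (V ⊕ D) : ℝ) ≤ 3 * (N : ℝ) := by
    have : Fintype.card (V ⊕ D) ≤ 3 * N := by omega
    exact_mod_cast this
  obtain ⟨R, hR, hRd, hRe⟩ := hn1 (V ⊕ D) (dum_G0 D W) (by rw [hcard]; omega)
  have hn10 : (10 : ℝ) ≤ N := by
    have : 10 ≤ N := by omega
    exact_mod_cast this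
  have hnθ : 2 / θ ^ 2 ≤ (N : ℝ) := by
    refine (Nat.le_ceil _).trans ?_
    have : ⌈2 / θ ^ 2⌉₊ ≤ N := by omega
    exact_mod_cast this
  have hRd' : ∀ x, |(dg R x : ℝ) - (dg (dum_G0 D W) x : ℝ) * (1 / (g : ℝ))| ≤
      1 / 100 * (1 / (g : ℝ)) * (3 * (N : ℝ)) := by
    intro x
    have h := hRd x
    rw [div_eq_mul_one_div (dg (dum_G0 D W) x : ℝ) (g : ℝ)] at h
    exact h.trans (mul_le_mul_of_nonneg_left hcR3 (by positivity))
  have hgN0 : 0 ≤ 1 / (g : ℝ) * (N : ℝ) := by positivity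
  have hgNδ : 1 / (g : ℝ) * (N : ℝ) ≤ δ / 8 * N := mul_le_mul_of_nonneg_right hgi (by linarith)
  have hgNc : 1 / (g : ℝ) * (N : ℝ) ≤ c / 8 * N := mul_le_mul_of_nonneg_right hgi' (by linarith)
  have hδN : 0 ≤ δ * (N : ℝ) := by positivity
  have hcN : 0 ≤ c * (N : ℝ) := by positivity
  have hrr : ∀ d : D, (dg (dum_G0 D W) (Sum.inr d) : ℝ) ≤ 3 * (N : ℝ) := by
    intro d
    refine le_trans ?_ hcR3
    have : dg (dum_G0 D W) (Sum.inr d) ≤ Fintype.card (V ⊕ D) := by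
      unfold dg
      exact Finset.card_le_univ _
    exact_mod_cast this
  refine ⟨dum_G' G R, fun a b => dum_Gll W G R hR a b, ?_, ?_, ?_, ?_, ?_⟩
  · intro v hv d h
    exact hv ((dum_lr W v d).1 (hR ((dum_Glr G R v d).1 h)))
  · intro v
    rw [dum_dgl W G R hR v]
    by_cases hv : v ∈ W
    · have h1 := abs_le.1 (hRd' (Sum.inl v))
      rw [dum_dg0W W v hv, hD] at h1
      push_cast at h1
      have h2 := hW v hv
      have h3 : (dg G v : ℝ) + (dg R (Sum.inl v) : ℝ) + dd v ≤ Δ + dg G v := by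
        linarith [h1.2]
      exact_mod_cast h3
    · rw [dum_dg0n W R hR v hv]
      have := hdd v
      omega
  · intro d
    rw [dum_dgr]
    have h1 := abs_le.1 (hRd' (Sum.inr d))
    have h3 : (dg R (Sum.inr d) : ℝ) ≤ Δ := by
      have h5 : (dg (dum_G0 D W) (Sum.inr d) : ℝ) * (1 / (g : ℝ)) ≤
          3 * (N : ℝ) * (1 / (g : ℝ)) :=
        mul_le_mul_of_nonneg_right (hrr d) hgi0.le
      linarith [h1.2]
    exact_mod_cast h3
  · intro x
    have h0 : 1 / 2 * (1 / (g : ℝ)) * (Fintype.card (V ⊕ D) : ℝ) ≤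
        1 / 2 * (1 / (g : ℝ)) * (3 * (N : ℝ)) :=
      mul_le_mul_of_nonneg_left hcR3 (by positivity)
    refine h0.trans ?_
    rcases x with v | d
    · rw [dum_dgl W G R hR v]
      push_cast
      by_cases hv : v ∈ W
      · have h1 := abs_le.1 (hRd' (Sum.inl v))
        rw [dum_dg0W W v hv, hD] at h1
        push_cast at h1
        have h5 : (0 : ℝ) ≤ dg G v := Nat.cast_nonneg _
        linarith [h1.1]
      · have h2 := hnW v hv
        have h5 : (0 : ℝ) ≤ dg R (Sum.inl v) := Nat.cast_nonneg _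
        linarith
    · rw [dum_dgr]
      have h1 := abs_le.1 (hRd' (Sum.inr d))
      have h2 := dum_dg0r W d
      rw [hD] at h2
      have h2' : 2 * (N : ℝ) ≤ (dg (dum_G0 D W) (Sum.inr d) : ℝ) + 1 := by
        exact_mod_cast h2
      have h5 : (2 * (N : ℝ) - 1) * (1 / (g : ℝ)) ≤
          (dg (dum_G0 D W) (Sum.inr d) : ℝ) * (1 / (g : ℝ)) :=
        mul_le_mul_of_nonneg_right (by linarith) hgi0.le
      have h6 : 10 * (1 / (g : ℝ)) ≤ (N : ℝ) * (1 / (g : ℝ)) :=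
        mul_le_mul_of_nonneg_right hn10 hgi0.le
      linarith [h1.1]
  · intro A Y hA hY hee
    by_contra hcon
    push Not at hcon
    obtain ⟨hA', hY'⟩ := hcon
    set M : ℝ := (Fintype.card (V ⊕ D) : ℝ) with hM
    have hM0 : 0 < M := by linarith
    have hMθ : 2 ≤ θ ^ 2 * M := by
      have h1 : 2 / θ ^ 2 ≤ M := by linarith
      rw [div_le_iff₀ (by positivity)] at h1
      linarith
    have h0 := dum_ee0 W A Y hA hY
    have h0' : (A.card : ℝ) * (Y.card : ℝ) ≤ (ee (dum_G0 D W) A Y : ℝ) + A.card := by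
      exact_mod_cast h0
    have hAN : (A.card : ℝ) ≤ M := by
      rw [hM]
      exact_mod_cast Finset.card_le_univ A
    have hAY : (θ * M) * (θ * M) ≤ (A.card : ℝ) * (Y.card : ℝ) :=
      mul_le_mul hA'.le hY'.le (by positivity) (Nat.cast_nonneg _)
    have h1 : θ ^ 2 / 2 * M ^ 2 ≤ (ee (dum_G0 D W) A Y : ℝ) := by
      have h2 : 2 * M ≤ θ ^ 2 * M * M := mul_le_mul_of_nonneg_right hMθ hM0.le
      have h3 : θ ^ 2 * M * M = θ * M * (θ * M) := by ring
      have h4 : θ ^ 2 / 2 * M ^ 2 = θ * M * (θ * M) / 2 := by ring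
      rw [h4]
      linarith
    have h2 := hRe A Y h1
    have h3 : (ee R A Y : ℝ) ≤ (ee (dum_G' G R) A Y : ℝ) := by
      exact_mod_cast dum_eeG G R A Y
    have h4 : θ ^ 2 / 2 * M ^ 2 ≤ 4 * g * (ee (dum_G' G R) A Y : ℝ) := by
      refine (h1.trans h2).trans ?_
      exact mul_le_mul_of_nonneg_left h3 (by positivity)
    have h5 : 4 * (g : ℝ) * (ee (dum_G' G R) A Y : ℝ) ≤
        4 * g * (θ ^ 2 / 16 * (1 / (g : ℝ)) * M ^ 2) :=
      mul_le_mul_of_nonneg_left hee (by positivity)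
    have h6 : 4 * (g : ℝ) * (θ ^ 2 / 16 * (1 / (g : ℝ)) * M ^ 2) = θ ^ 2 / 4 * M ^ 2 := by
      field_simp
      ring
    rw [h6] at h5
    have h7 : 0 < θ ^ 2 * M ^ 2 := by positivity
    linarith

end Pool.Agent.H71.DC
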