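import Mathlib
import Pool.Agent.H71.DR.InE

/-!
INT: `inE` (`DR/InE.lean`, proved) with arbitrary bounds `T v` for the number of misses at `v`. Copy the proof of `inE` (the last theorem of `DR/InE.lean`; `prc4` can be used from there).

Changes: `Δ - dg G v` is replaced by `T v`: `#(F' v) = min #(NM v) (T v - zt v)`. In `hcount`: if `T v - zt v < #(NM v)` then
`#(NM v \ F' v) + t + zt v = #(NM v) - (T v - zt v) + t + zt v ≤ K - dg (G \ R) v - T v + 2 s + t ≤ E` by `hE` (`zt v ≤ s`), otherwise `t + zt v ≤ E` by `hE'`.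
-/

set_option autoImplicit false

namespace Pool.Agent.H71.DC

open Finset Classical
open Pool.Agent.H71.DN Pool.Agent.H71.DX Pool.Agent.H71.DR

theorem inT {V : Type} [Fintype V] (G R : SimpleGraph V) (L K s t : ℕ) (U : ℕ → Finset V)
    (ζ β β2 S0 E N : ℕ) (hP : Par4 G R K s t ζ β β2 S0 E N) (hL : L ≤ K)
    (T : V → ℕ) (z : ℕ → V) (hz : ∀ ℓ < L, z ℓ ∉ U ℓ)
    (hzd : ∀ v, ((range L).filter fun ℓ => z ℓ = v).card ≤ T v)
    (hU : ∀ v, ((range L).filter fun ℓ => v ∈ U ℓ ∨ z ℓ = v).card ≤ s)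
    (hE : ∀ v, K + t + 2 * s ≤ dg (G \ R) v + T v + E) (hE' : t + 2 * s ≤ E)
    (hβ : ∀ ℓ < L, (U ℓ).card + 1 + β2 ≤ β) :
    ∃ mm : ℕ → V → V, PM G L U mm ∧
      ∀ v, ((range L).filter fun ℓ => v ∉ U ℓ ∧ mm ℓ v = v).card ≤ T v := by
  set U' : ℕ → Finset V := fun ℓ => insert (z ℓ) (U ℓ) with hU'def
  have hU'z : ∀ ℓ, z ℓ ∈ U' ℓ := fun ℓ => Finset.mem_insert_self _ _
  have hU'U : ∀ ℓ v, v ∈ U ℓ → v ∈ U' ℓ := fun ℓ v h => Finset.mem_insert_of_mem h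
  have hU'm : ∀ ℓ v, v ∈ U' ℓ → v ∈ U ℓ ∨ z ℓ = v := by
    intro ℓ v h
    rcases Finset.mem_insert.mp h with h1 | h1
    · exact Or.inr h1.symm
    · exact Or.inl h1
  have hs' : ∀ v, ((range L).filter fun ℓ => v ∈ U' ℓ).card ≤ s := by
    intro v
    refine le_trans (Finset.card_le_card ?_) (hU v)
    intro ℓ hℓ
    rw [Finset.mem_filter] at hℓ ⊢
    exact ⟨hℓ.1, hU'm ℓ v hℓ.2⟩
  obtain ⟨μ, μinv, μadj, μdis, μc1, μc2⟩ := natm (G \ R) K L s t hP.hK hL U' hs' hP.ht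
  obtain ⟨m0, hm0def⟩ : ∃ m0 : ℕ → V → V, ∀ ℓ v, m0 ℓ v =
      if v ∈ U' ℓ ∨ μ ℓ v ∈ U' ℓ then v else μ ℓ v := ⟨fun ℓ v => _, fun ℓ v => rfl⟩
  have hm0a : ∀ ℓ v, v ∈ U' ℓ → m0 ℓ v = v := by
    intro ℓ v h
    rw [hm0def, if_pos (Or.inl h)]
  have hm0b : ∀ ℓ v, m0 ℓ v ≠ v → m0 ℓ v = μ ℓ v ∧ μ ℓ v ≠ v := by
    intro ℓ v h
    have h1 := hm0def ℓ v
    by_cases hc : v ∈ U' ℓ ∨ μ ℓ v ∈ U' ℓ
    · rw [if_pos hc] at h1
      exact absurd h1 h
    · rw [if_neg hc] at h1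
      exact ⟨h1, fun h2 => h (h1.trans h2)⟩
  have hm0c : ∀ ℓ v, m0 ℓ v = v → v ∉ U' ℓ → μ ℓ v ≠ v → μ ℓ v ∈ U' ℓ := by
    intro ℓ v h h2 h3
    by_contra h4
    have h1 := hm0def ℓ v
    rw [if_neg (fun hc => hc.elim h2 h4)] at h1
    exact h3 (h1.symm.trans h)
  have hm0inv : ∀ ℓ, Inv (m0 ℓ) := by
    intro ℓ v
    by_cases hc : v ∈ U' ℓ ∨ μ ℓ v ∈ U' ℓ
    · have h1 : m0 ℓ v = v := by rw [hm0def, if_pos hc]
      rw [h1, h1]
    · have h1 : m0 ℓ v = μ ℓ v := by rw [hm0def, if_neg hc]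
      rw [h1, hm0def ℓ (μ ℓ v), μinv ℓ v, if_neg (fun h => hc h.symm)]
  have hm0G : ∀ ℓ v, m0 ℓ v ≠ v → G.Adj v (m0 ℓ v) ∧ ¬ R.Adj v (m0 ℓ v) := by
    intro ℓ v h
    obtain ⟨h1, h2⟩ := hm0b ℓ v h
    have h3 := μadj ℓ v h2
    rw [SimpleGraph.sdiff_adj] at h3
    rw [h1]
    exact h3
  have hm0R : ∀ ℓ v, ¬ R.Adj v (m0 ℓ v) := by
    intro ℓ v
    by_cases h : m0 ℓ v = v
    · rw [h]
      exact R.irrefl
    · exact (hm0G ℓ v h).2
  set NM : V → Finset ℕ := fun v => (range L).filter fun ℓ => μ ℓ v = v ∧ v ∉ U' ℓ with hNM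
  set zt : V → ℕ := fun v => ((range L).filter fun ℓ => z ℓ = v).card with hzt
  have hzs : ∀ v, zt v ≤ s := by
    intro v
    refine le_trans (Finset.card_le_card ?_) (hU v)
    intro ℓ hℓ
    rw [Finset.mem_filter] at hℓ ⊢
    exact ⟨hℓ.1, Or.inr hℓ.2⟩
  have hzd' : ∀ v, zt v ≤ T v := hzd
  have hF : ∀ v, ∃ F ⊆ NM v, F.card = min (NM v).card (T v - zt v) := fun v =>
    Finset.exists_subset_card_eq (min_le_left _ _)
  choose F' hF'sub hF'card using hF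
  obtain ⟨W0, hW0⟩ : ∃ W0 : ℕ → Finset V, ∀ ℓ v, v ∈ W0 ℓ ↔ (v ∉ U' ℓ ∧ m0 ℓ v = v ∧ ℓ ∉ F' v) :=
    ⟨fun ℓ => univ.filter fun v => v ∉ U' ℓ ∧ m0 ℓ v = v ∧ ℓ ∉ F' v, fun ℓ v => by
      rw [Finset.mem_filter]
      exact ⟨fun h => h.2, fun h => ⟨Finset.mem_univ v, h⟩⟩⟩
  have hNMc : ∀ v, (NM v).card + dg (G \ R) v ≤ K := by
    intro v
    refine le_trans (Nat.add_le_add_right (Finset.card_le_card ?_) _) (μc1 v)
    intro ℓ hℓ
    rw [hNM] at hℓ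
    rw [Finset.mem_filter] at hℓ ⊢
    exact ⟨hℓ.1, hℓ.2.1⟩
  have hcount : ∀ v, ((range L).filter fun ℓ => v ∈ W0 ℓ ∨ v ∈ ({z ℓ} : Finset V)).card ≤ E := by
    intro v
    have hsub : ((range L).filter fun ℓ => v ∈ W0 ℓ ∨ v ∈ ({z ℓ} : Finset V)) ⊆
        ((NM v \ F' v) ∪ ((range L).filter fun ℓ => μ ℓ v ≠ v ∧ μ ℓ v ∈ U' ℓ)) ∪
          ((range L).filter fun ℓ => z ℓ = v) := by
      intro ℓ hℓ
      rw [Finset.mem_filter] at hℓ
      obtain ⟨hℓL, h1 | h1⟩ := hℓ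
      · apply Finset.mem_union_left
        obtain ⟨h2, h3, h4⟩ := (hW0 ℓ v).mp h1
        by_cases h5 : μ ℓ v = v
        · apply Finset.mem_union_left
          rw [Finset.mem_sdiff]
          exact ⟨Finset.mem_filter.mpr ⟨hℓL, h5, h2⟩, h4⟩
        · apply Finset.mem_union_right
          exact Finset.mem_filter.mpr ⟨hℓL, h5, hm0c ℓ v h3 h2 h5⟩
      · apply Finset.mem_union_right
        exact Finset.mem_filter.mpr ⟨hℓL, (Finset.mem_singleton.mp h1).symm⟩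
    have h1 := Finset.card_le_card hsub
    have h2 := Finset.card_union_le ((NM v \ F' v) ∪
      ((range L).filter fun ℓ => μ ℓ v ≠ v ∧ μ ℓ v ∈ U' ℓ)) ((range L).filter fun ℓ => z ℓ = v)
    have h3 := Finset.card_union_le (NM v \ F' v)
      ((range L).filter fun ℓ => μ ℓ v ≠ v ∧ μ ℓ v ∈ U' ℓ)
    have h4 : (NM v \ F' v).card = (NM v).card - (F' v).card :=
      Finset.card_sdiff_of_subset (hF'sub v)
    have h5 := μc2 v
    have h6 := hF'card v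
    have h7 := hNMc v
    have h8 := hE v
    have h9 := hzs v
    have h10 := hzd' v
    have h11 : ((range L).filter fun ℓ => z ℓ = v).card = zt v := rfl
    rcases le_total (NM v).card (T v - zt v) with hle | hle
    · rw [min_eq_left hle] at h6
      omega
    · rw [min_eq_right hle] at h6
      omega
  have hTs : ∑ ℓ ∈ range L, (W0 ℓ).card ≤ Fintype.card V * E := by
    have e1 : ∑ ℓ ∈ range L, (W0 ℓ).card =
        ∑ v : V, ((range L).filter fun ℓ => v ∈ W0 ℓ).card := by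
      have e2 : ∀ ℓ ∈ range L, (W0 ℓ).card = ∑ v : V, if v ∈ W0 ℓ then 1 else 0 := by
        intro ℓ _
        rw [Finset.sum_ite_mem, Finset.univ_inter, Finset.sum_const, smul_eq_mul, mul_one]
      rw [Finset.sum_congr rfl e2, Finset.sum_comm]
      apply Finset.sum_congr rfl
      intro v _
      rw [Finset.card_filter]
    rw [e1]
    calc ∑ v : V, ((range L).filter fun ℓ => v ∈ W0 ℓ).card ≤ ∑ _v : V, E := by
          apply Finset.sum_le_sum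
          intro v _
          refine le_trans (Finset.card_le_card ?_) (hcount v)
          intro ℓ hℓ
          rw [Finset.mem_filter] at hℓ ⊢
          exact ⟨hℓ.1, Or.inl hℓ.2⟩
      _ = Fintype.card V * E := by
          rw [Finset.sum_const, Finset.card_univ, smul_eq_mul]
  obtain ⟨mm, mminv, mmfix, mmW, mmm, mmR, mmd⟩ := prc4 R L U W0 (fun ℓ => {z ℓ}) m0 ζ β
    β2 S0 E (Fintype.card V * E) N hP.hS0 hP.ex (fun ℓ _ => hm0inv ℓ)
    (fun ℓ _ v => hm0R ℓ v) (fun ℓ _ v hv => hm0a ℓ v (hU'U ℓ v hv))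
    (fun ℓ _ v hv => ⟨((hW0 ℓ v).mp hv).2.1, fun h => ((hW0 ℓ v).mp hv).1 (hU'U ℓ v h)⟩)
    (fun ℓ hℓ => Or.inl ⟨z ℓ, rfl, hm0a ℓ _ (hU'z ℓ), fun h => ((hW0 ℓ _).mp h).1 (hU'z ℓ),
      hz ℓ hℓ⟩) hβ hTs hP.hT hcount
  refine ⟨mm, ⟨mminv, ?_, ?_, mmfix⟩, ?_⟩
  · intro ℓ hℓ v hv
    rcases mmR ℓ hℓ v with h1 | h1
    · rw [h1] at hv ⊢
      exact (hm0G ℓ v hv).1
    · exact hP.le h1
  · intro ℓ hℓ ℓ' hℓ' hne v hv heq
    by_cases hR : R.Adj v (mm ℓ v)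
    · exact mmd ℓ hℓ ℓ' hℓ' hne.symm v hR heq
    · have h1 : mm ℓ v = m0 ℓ v := (mmR ℓ hℓ v).resolve_right hR
      have h2 : mm ℓ' v = m0 ℓ' v := by
        refine (mmR ℓ' hℓ' v).resolve_right ?_
        rw [← heq]
        exact hR
      have h3 := hm0b ℓ v (by rw [← h1]; exact hv)
      have h4 := hm0b ℓ' v (by rw [← h2, ← heq]; exact hv)
      apply μdis ℓ hℓ ℓ' hℓ' hne v h3.2
      rw [← h3.1, ← h4.1, ← h1, ← h2]
      exact heq
  · intro v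
    have hsub : ((range L).filter fun ℓ => v ∉ U ℓ ∧ mm ℓ v = v) ⊆
        ((range L).filter fun ℓ => z ℓ = v) ∪ F' v := by
      intro ℓ hℓ
      rw [Finset.mem_filter] at hℓ
      obtain ⟨hℓL, h1, h2⟩ := hℓ
      by_cases h3 : z ℓ = v
      · exact Finset.mem_union_left _ (Finset.mem_filter.mpr ⟨hℓL, h3⟩)
      · apply Finset.mem_union_right
        by_contra h4
        have h5 : v ∉ U' ℓ := fun h => (hU'm ℓ v h).elim h1 h3
        have h6 : m0 ℓ v = v := by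
          by_contra h7
          exact mmm ℓ (Finset.mem_range.mp hℓL) v h7 h2
        exact mmW ℓ (Finset.mem_range.mp hℓL) v ((hW0 ℓ v).mpr ⟨h5, h6, h4⟩) h2
    have h1 := Finset.card_le_card hsub
    have h2 := Finset.card_union_le ((range L).filter fun ℓ => z ℓ = v) (F' v)
    have h3 := hF'card v
    have h4 := min_le_right (NM v).card (T v - zt v)
    have h5 := hzd' v
    have h6 : ((range L).filter fun ℓ => z ℓ = v).card = zt v := rfl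
    omega

end Pool.Agent.H71.DC
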