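import Mathlib
import Pool.Agent.H71.DC.Sel

/-!
XOP: the enlarged graph of the open part expands. `G0` is the graph of the open part (on `V0`), `D` the set of new vertices, `card D = 2 N`, `card V0 ≤ N`;
`W` are the vertices of `V0` with new neighbours; the vertices outside `W` have almost `Δ` neighbours in `V0`; there is no closed set in `V0` (`hcl`). Use the STATEMENTS
of `key`, `dich`.

Proof.  `N' := card (V0 ⊕ D) = card V0 + 2 N ∈ [2 N, 3 N]`, `N > 0` w.l.o.g. (if `N = 0` all is empty). Let `A, Y` with `τ N' ≤ #A ≤ (1 - τ) N'`, `ee G' A Y ≤ lam N'²`, and suppose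
`#A + #Y + ν N' > N'`. Write `A0, Y0 : Finset V0` for the left parts (preimages under `inl`), `AD, YD` for the parts in `D`, `AT := A0 \ W`, `YT := Y0 \ W`. All vertices `y ∉ W` have
`Δ ≤ dg G0 y + δ N`; `ee G' A Y ≥ ee G0 A0 Y0`. Put `ν' := 3 (2 θ + ν)`.
(*) There are no `X, B : Finset V0` with `X ∩ W = ∅`, `τ N ≤ #X`, `#B ≤ #X + ν' N`, `ee G0 X (univ \ B) ≤ 9 lam N²`. Proof: `ee G0 X univ ≥ #X (Δ - δ N)`, so
 `#X #B ≥ ee G0 X B ≥ #X (Δ - δ N) - 9 lam N²`, `#B ≥ Δ - δ N - 9 lam N² / #X ≥ (c - δ - 9 lam / τ) N ≥ (3 c/4) N` (`δ ≤ c/8`, `72 lam ≤ τ c`), so `#X ≥ (3 c/4 - ν') N ≥ (c/2) N`. And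
 `Δ #X ≤ ee G0 X B + (δ + 9 lam) N²` (`#X ≤ N`). `key` (`n := N`, `lam := δ + 9 lam`, `ν := ν'`): `I := X ∩ B`, `#(X \ B) ≤ e0 N`, `Δ #I ≤ ee G0 I I + η1 N²`, where
 `e0 := 2 (δ + 9 lam)/(γ c) + ν'/γ ≤ c/4`, `η1 := (δ + 9 lam) + e0 + ν' ≤ min η' (c²/8)` by `hnum`. `#I ≥ #X - e0 N ≥ (c/4) N`. `dich` (`t := c/4`): `#I ≥ (c/2) N`, a contradiction to
 `hcl` (`η1 ≤ η'`).
Case 1: `#AD > θ N'`. `hF` for `A ∩ D`, `Y ∩ (D ∪ W)`: the second set has at most `θ N'` elements (its `ee` is at most `ee G' A Y`). `#Y > N' - ν N' - #A ≥ (τ - ν) N'`, so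
 `#YT ≥ (τ - ν - θ) N' ≥ τ N` (`12 (2 θ + ν) ≤ τ`, `N' ≥ 2 N`). `B := univ \ A0` (in `V0`), `ee G0 YT A0 ≤ lam N'² ≤ 9 lam N²`.
 `#B = card V0 - #A0`, and `#A0 + #AD + #Y > card V0 + 2 N - ν N'`, `#AD ≤ 2 N`: `#B < #Y + ν N' ≤ #YT + (ν + θ) N' ≤ #YT + ν' N`. A contradiction to (*) for `X := YT`.
Case 2: `#AD ≤ θ N'`.
 2a: `#(A ∩ W) > θ N'`: `hF` for `Y ∩ D` and `A ∩ (D ∪ W)` (`ee` symmetric): `#YD ≤ θ N'`. Then `#A + #Y ≤ 2 card V0 + 2 θ N' ≤ card V0 + N + 2 θ N' ≤ N' - ν N'` (`(2 θ + ν) N' ≤ 3 (2 θ + ν) N ≤ N`): a contradiction.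
 2b: `#(A ∩ W) ≤ θ N'`: `#AT ≥ #A - 2 θ N' ≥ (τ - 2 θ) N' ≥ τ N`. `B := univ \ Y0`, `ee G0 AT Y0 ≤ 9 lam N²`. `#B = card V0 - #Y0`, `#A + #Y0 + #YD > N' - ν N'`, `#YD ≤ 2 N`:
 `#B < #A + ν N' ≤ #AT + (2 θ + ν) N' ≤ #AT + ν' N`. A contradiction to (*) for `X := AT`.
-/

set_option autoImplicit false

namespace Pool.Agent.H71.DC

open Finset Classical
open Pool.Agent.H71.DN Pool.Agent.H71.DX Pool.Agent.H71.DR Pool.Agent.H71.HL

theorem xop_mono {V : Type} [Fintype V] (G : SimpleGraph V) {A A' B B' : Finset V}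
    (hA : A' ⊆ A) (hB : B' ⊆ B) : ee G A' B' ≤ ee G A B := by
  unfold ee
  exact card_le_card (filter_subset_filter _ (product_subset_product hA hB))

theorem xop_symm {V : Type} [Fintype V] (G : SimpleGraph V) (A B : Finset V) :
    ee G A B = ee G B A := by
  unfold ee
  refine card_bij (fun x _ => (x.2, x.1)) ?_ ?_ ?_
  · intro x hx
    simp only [mem_filter, mem_product] at hx ⊢
    exact ⟨⟨hx.1.2, hx.1.1⟩, hx.2.symm⟩
  · intro x _ y _ h
    simp only [Prod.mk.injEq] at h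
    exact Prod.ext h.2 h.1
  · intro y hy
    simp only [mem_filter, mem_product] at hy
    refine ⟨(y.2, y.1), ?_, rfl⟩
    simp only [mem_filter, mem_product]
    exact ⟨⟨hy.1.2, hy.1.1⟩, hy.2.symm⟩

theorem xop_ee {V : Type} [Fintype V] (G : SimpleGraph V) (A B : Finset V) :
    ee G A B = ∑ a ∈ A, (B.filter fun y => G.Adj a y).card := by
  unfold ee
  rw [card_filter, sum_product]
  refine sum_congr rfl fun a _ => ?_
  rw [card_filter]

theorem xop_univ {V : Type} [Fintype V] (G : SimpleGraph V) (A : Finset V) :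
    ee G A univ = ∑ a ∈ A, dg G a := by
  rw [xop_ee]
  rfl

theorem xop_split {V : Type} [Fintype V] (G : SimpleGraph V) (A B : Finset V) :
    ee G A univ ≤ ee G A B + ee G A (univ \ B) := by
  unfold ee
  have h : (A ×ˢ (univ : Finset V)).filter (fun x => G.Adj x.1 x.2) ⊆
      ((A ×ˢ B).filter fun x => G.Adj x.1 x.2) ∪ ((A ×ˢ (univ \ B)).filter fun x => G.Adj x.1 x.2) := by
    intro x hx
    simp only [mem_filter, mem_product, mem_union, mem_sdiff] at hx ⊢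
    tauto
  exact (card_le_card h).trans (card_union_le _ _)

theorem xop_le {V : Type} [Fintype V] (G : SimpleGraph V) (A B : Finset V) :
    ee G A B ≤ A.card * B.card := by
  unfold ee
  refine (card_filter_le _ _).trans ?_
  rw [card_product]

/-- the statement (*) -/
theorem xop_star {V0 : Type} [Fintype V0] (G0 : SimpleGraph V0) (Δ N : ℕ)
    (γ c τ ν lam η' δ θ : ℝ) (hγ : 0 < γ) (hc : 0 < c) (hc1 : c ≤ 1) (hτ : 0 < τ)
    (hν : 0 ≤ ν) (hl : 0 ≤ lam) (hδ : 0 ≤ δ) (hθ : 0 ≤ θ) (hN : 0 < (N : ℝ))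
    (hV : Fintype.card V0 ≤ N)
    (hΔ : ∀ v, dg G0 v ≤ Δ) (hcΔ : c * N ≤ Δ) (hΔn : Δ ≤ N) (hNB : NB G0 Δ γ)
    (hcl : ∀ I : Finset V0, c / 2 * N ≤ (I.card : ℝ) →
      (ee G0 I I : ℝ) + η' * (N : ℝ) ^ 2 < (Δ : ℝ) * I.card)
    (W : Finset V0) (hW : ∀ v, v ∉ W → (Δ : ℝ) ≤ dg G0 v + δ * N)
    (hτl : 72 * lam ≤ τ * c)
    (hnum : (δ + 9 * lam) + (2 * (δ + 9 * lam) / (γ * c) + 3 * (2 * θ + ν) / γ) +
      3 * (2 * θ + ν) ≤ min η' (c ^ 2 / 8))
    (X B : Finset V0) (hXW : ∀ x ∈ X, x ∉ W) (hX : τ * N ≤ (X.card : ℝ))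
    (hB : (B.card : ℝ) ≤ X.card + 3 * (2 * θ + ν) * N)
    (hE : (ee G0 X (univ \ B) : ℝ) ≤ 9 * lam * (N : ℝ) ^ 2) : False := by
  obtain ⟨m, hm⟩ : ∃ m : ℝ, m = (N : ℝ) := ⟨_, rfl⟩
  obtain ⟨ν', hν'⟩ : ∃ t : ℝ, t = 3 * (2 * θ + ν) := ⟨_, rfl⟩
  obtain ⟨e0, he0⟩ : ∃ t : ℝ, t = 2 * (δ + 9 * lam) / (γ * c) + ν' / γ := ⟨_, rfl⟩
  have hν'0 : 0 ≤ ν' := by rw [hν']; positivity
  have he00 : 0 ≤ e0 := by rw [he0]; positivity
  have hn1 : (δ + 9 * lam) + e0 + ν' ≤ η' := by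
    rw [he0, hν']
    exact hnum.trans (min_le_left _ _)
  have hn2 : (δ + 9 * lam) + e0 + ν' ≤ c ^ 2 / 8 := by
    rw [he0, hν']
    exact hnum.trans (min_le_right _ _)
  have hc2 : c ^ 2 ≤ c := by nlinarith
  rw [← hm] at hN hcΔ hX hB hE
  rw [← hν'] at hB
  have hΔm : (Δ : ℝ) ≤ m := by
    rw [hm]
    exact_mod_cast hΔn
  have hXm : (X.card : ℝ) ≤ m := by
    rw [hm]
    exact_mod_cast (card_le_univ X).trans hV
  have hX0 : (0 : ℝ) ≤ X.card := Nat.cast_nonneg _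
  -- the degrees
  have h1 : (Δ : ℝ) * X.card ≤ ee G0 X univ + δ * m * X.card := by
    have h2 : (X.card : ℝ) * ((Δ : ℝ) - δ * m) ≤ ∑ a ∈ X, (dg G0 a : ℝ) := by
      rw [← nsmul_eq_mul]
      apply card_nsmul_le_sum
      intro v hv
      have h3 := hW v (hXW v hv)
      rw [← hm] at h3
      linarith
    have h3 : ∑ a ∈ X, (dg G0 a : ℝ) = ee G0 X univ := by
      rw [xop_univ]
      push_cast
      rfl
    nlinarith
  have h2 : (ee G0 X univ : ℝ) ≤ ee G0 X B + 9 * lam * m ^ 2 := by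
    have h3 : (ee G0 X univ : ℝ) ≤ ee G0 X B + ee G0 X (univ \ B) := by
      exact_mod_cast xop_split G0 X B
    linarith
  have h3 : (ee G0 X B : ℝ) ≤ X.card * B.card := by exact_mod_cast xop_le G0 X B
  -- the set B is large
  have h4 : 3 * c / 4 * m ≤ B.card := by
    by_contra hcon
    push Not at hcon
    have h5 : (X.card : ℝ) * ((Δ : ℝ) - δ * m - B.card) ≤ 9 * lam * m ^ 2 := by nlinarith
    have h6 : c / 8 * m < (Δ : ℝ) - δ * m - B.card := by nlinarith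
    have h7 : 0 < (X.card : ℝ) := lt_of_lt_of_le (mul_pos hτ hN) hX
    have h8 : (X.card : ℝ) * (c / 8 * m) < X.card * ((Δ : ℝ) - δ * m - B.card) :=
      mul_lt_mul_of_pos_left h6 h7
    have h9 : τ * m * (c / 8 * m) ≤ X.card * (c / 8 * m) :=
      mul_le_mul_of_nonneg_right hX (by positivity)
    have h10 : τ * m * (c / 8 * m) = (τ * c) * (m ^ 2 / 8) := by ring
    have h11 : 72 * lam * (m ^ 2 / 8) ≤ (τ * c) * (m ^ 2 / 8) :=
      mul_le_mul_of_nonneg_right hτl (by positivity)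
    have h12 : 72 * lam * (m ^ 2 / 8) = 9 * lam * m ^ 2 := by ring
    linarith
  have h5 : (3 * c / 4 - ν') * m ≤ X.card := by linarith
  have hk := key G0 Δ m γ c (δ + 9 * lam) ν' hγ hc hN hΔ hcΔ hΔm hNB (by positivity) hν'0 X B (by
    have h6 : δ * m * X.card ≤ δ * m * m := mul_le_mul_of_nonneg_left hXm (by positivity)
    nlinarith) hB
  rw [← he0] at hk
  obtain ⟨hk1, hk2⟩ := hk
  have h6 : ((X ∩ B).card : ℝ) + ((X \ B).card : ℝ) = X.card := by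
    exact_mod_cast card_inter_add_card_sdiff X B
  have h7 : c / 2 * m ≤ ((X ∩ B).card : ℝ) := by
    have h8 : (ν' + e0) * m ≤ c / 8 * m := mul_le_mul_of_nonneg_right (by linarith) hN.le
    nlinarith
  have h8 := hcl (X ∩ B) (by rw [← hm]; exact h7)
  rw [← hm] at h8
  have h9 : ((δ + 9 * lam) + e0 + ν') * m ^ 2 ≤ η' * m ^ 2 :=
    mul_le_mul_of_nonneg_right hn1 (by positivity)
  linarith

/-- the cardinality of a set of vertices of the enlarged graph -/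
theorem xop_card {V0 D : Type} [Fintype V0] [Fintype D] (A : Finset (V0 ⊕ D)) :
    A.card = (univ.filter fun v : V0 => Sum.inl v ∈ A).card +
      (univ.filter fun d : D => Sum.inr d ∈ A).card := by
  have h1 : A = (univ.filter fun v : V0 => Sum.inl v ∈ A).image Sum.inl ∪
      (univ.filter fun d : D => Sum.inr d ∈ A).image Sum.inr := by
    ext x
    rcases x with x | x
    · simp
    · simp
  have h2 : Disjoint ((univ.filter fun v : V0 => Sum.inl v ∈ A).image (Sum.inl : V0 → V0 ⊕ D))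
      ((univ.filter fun d : D => Sum.inr d ∈ A).image (Sum.inr : D → V0 ⊕ D)) := by
    rw [disjoint_left]
    intro x hx hx'
    rw [mem_image] at hx hx'
    obtain ⟨v, _, rfl⟩ := hx
    obtain ⟨d, _, h⟩ := hx'
    exact absurd h (by simp)
  have h3 := congrArg card h1
  rw [card_union_of_disjoint h2, card_image_of_injective _ Sum.inl_injective,
    card_image_of_injective _ Sum.inr_injective] at h3
  exact h3

/-- edges of the old part are edges of the enlarged graph -/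
theorem xop_old {V0 D : Type} [Fintype V0] [Fintype D] (G0 : SimpleGraph V0)
    (G' : SimpleGraph (V0 ⊕ D)) (h1 : ∀ a b, G'.Adj (Sum.inl a) (Sum.inl b) ↔ G0.Adj a b)
    (A Y : Finset (V0 ⊕ D)) (A0 Y0 : Finset V0) (hA : ∀ v ∈ A0, Sum.inl v ∈ A)
    (hY : ∀ v ∈ Y0, Sum.inl v ∈ Y) : ee G0 A0 Y0 ≤ ee G' A Y := by
  unfold ee
  apply card_le_card_of_injOn (fun x => (Sum.inl x.1, Sum.inl x.2))
  · intro x hx
    rw [mem_coe, mem_filter, mem_product] at hx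
    rw [mem_coe, mem_filter, mem_product]
    exact ⟨⟨hA _ hx.1.1, hY _ hx.1.2⟩, (h1 _ _).2 hx.2⟩
  · intro x _ y _ h
    have h2 : (Sum.inl x.1 : V0 ⊕ D) = Sum.inl y.1 ∧ (Sum.inl x.2 : V0 ⊕ D) = Sum.inl y.2 :=
      Prod.mk.injEq _ _ _ _ ▸ h
    exact Prod.ext (Sum.inl_injective h2.1) (Sum.inl_injective h2.2)

/-- the alternative for the new vertices -/
theorem xop_hF {V0 D : Type} [Fintype V0] [Fintype D] (G' : SimpleGraph (V0 ⊕ D)) (lam θ : ℝ)
    (W : Finset V0)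
    (hF : ∀ A Y : Finset (V0 ⊕ D), (∀ a ∈ A, ∃ d, a = Sum.inr d) →
      (∀ y ∈ Y, (∃ d, y = Sum.inr d) ∨ ∃ w ∈ W, y = Sum.inl w) →
      (ee G' A Y : ℝ) ≤ lam * (Fintype.card (V0 ⊕ D) : ℝ) ^ 2 →
      (A.card : ℝ) ≤ θ * Fintype.card (V0 ⊕ D) ∨ (Y.card : ℝ) ≤ θ * Fintype.card (V0 ⊕ D))
    (A Y : Finset (V0 ⊕ D)) (hE : (ee G' A Y : ℝ) ≤ lam * (Fintype.card (V0 ⊕ D) : ℝ) ^ 2) :
    ((univ.filter fun d : D => Sum.inr d ∈ A).card : ℝ) ≤ θ * Fintype.card (V0 ⊕ D) ∨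
    ((univ.filter fun d : D => Sum.inr d ∈ Y).card : ℝ) +
      ((univ.filter fun v : V0 => Sum.inl v ∈ Y) ∩ W).card ≤ θ * Fintype.card (V0 ⊕ D) := by
  have h := hF (A.filter fun a => ∃ d, a = Sum.inr d)
    (Y.filter fun y => (∃ d, y = Sum.inr d) ∨ ∃ w ∈ W, y = Sum.inl w)
    (fun a ha => (mem_filter.1 ha).2) (fun y hy => (mem_filter.1 hy).2)
    (le_trans (by exact_mod_cast xop_mono G' (filter_subset _ _) (filter_subset _ _)) hE)
  have e1 : (A.filter fun a => ∃ d, a = Sum.inr d).card =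
      (univ.filter fun d : D => Sum.inr d ∈ A).card := by
    rw [xop_card]
    have h2 : (univ.filter fun v : V0 => Sum.inl v ∈ A.filter fun a => ∃ d, a = Sum.inr d) = ∅ := by
      apply filter_eq_empty_iff.2
      intro v _ hv
      obtain ⟨d, hd⟩ := (mem_filter.1 hv).2
      exact absurd hd (by simp)
    have h3 : (univ.filter fun d : D => Sum.inr d ∈ A.filter fun a => ∃ d, a = Sum.inr d) =
        (univ.filter fun d : D => Sum.inr d ∈ A) := by
      ext d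
      simp
    rw [h2, h3, card_empty, zero_add]
  have e2 : (Y.filter fun y => (∃ d, y = Sum.inr d) ∨ ∃ w ∈ W, y = Sum.inl w).card =
      (univ.filter fun d : D => Sum.inr d ∈ Y).card +
      ((univ.filter fun v : V0 => Sum.inl v ∈ Y) ∩ W).card := by
    rw [xop_card, add_comm]
    have h2 : (univ.filter fun v : V0 =>
        Sum.inl v ∈ Y.filter fun y => (∃ d, y = Sum.inr d) ∨ ∃ w ∈ W, y = Sum.inl w) =
        (univ.filter fun v : V0 => Sum.inl v ∈ Y) ∩ W := by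
      ext v
      simp
    have h3 : (univ.filter fun d : D =>
        Sum.inr d ∈ Y.filter fun y => (∃ d, y = Sum.inr d) ∨ ∃ w ∈ W, y = Sum.inl w) =
        (univ.filter fun d : D => Sum.inr d ∈ Y) := by
      ext d
      simp
    rw [h2, h3]
  rw [e1, e2] at h
  push_cast at h
  exact h

theorem xop {V0 D : Type} [Fintype V0] [Fintype D] (G0 : SimpleGraph V0)
    (G' : SimpleGraph (V0 ⊕ D)) (Δ N : ℕ) (γ c τ ν lam η' δ θ : ℝ)
    (hγ : 0 < γ) (hc : 0 < c) (hc1 : c ≤ 1) (hτ : 0 < τ) (hτ1 : τ ≤ 1) (hν : 0 ≤ ν)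
    (hl : 0 ≤ lam) (hδ : 0 ≤ δ) (hθ : 0 ≤ θ)
    (hV : Fintype.card V0 ≤ N) (hD : Fintype.card D = 2 * N)
    (hΔ : ∀ v, dg G0 v ≤ Δ) (hcΔ : c * N ≤ Δ) (hΔn : Δ ≤ N) (hNB : NB G0 Δ γ)
    (hcl : ∀ I : Finset V0, c / 2 * N ≤ (I.card : ℝ) →
      (ee G0 I I : ℝ) + η' * (N : ℝ) ^ 2 < (Δ : ℝ) * I.card)
    (W : Finset V0) (hW : ∀ v, v ∉ W → (Δ : ℝ) ≤ dg G0 v + δ * N)
    (h1 : ∀ a b, G'.Adj (Sum.inl a) (Sum.inl b) ↔ G0.Adj a b)
    (hF : ∀ A Y : Finset (V0 ⊕ D), (∀ a ∈ A, ∃ d, a = Sum.inr d) →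
      (∀ y ∈ Y, (∃ d, y = Sum.inr d) ∨ ∃ w ∈ W, y = Sum.inl w) →
      (ee G' A Y : ℝ) ≤ lam * (Fintype.card (V0 ⊕ D) : ℝ) ^ 2 →
      (A.card : ℝ) ≤ θ * Fintype.card (V0 ⊕ D) ∨ (Y.card : ℝ) ≤ θ * Fintype.card (V0 ⊕ D))
    (hτθ : 12 * (2 * θ + ν) ≤ τ) (hτl : 72 * lam ≤ τ * c)
    (hnum : (δ + 9 * lam) + (2 * (δ + 9 * lam) / (γ * c) + 3 * (2 * θ + ν) / γ) +
      3 * (2 * θ + ν) ≤ min η' (c ^ 2 / 8)) :
    XP G' τ ν lam := by
  intro A Y hA1 hA2 hE
  have hM : Fintype.card (V0 ⊕ D) = Fintype.card V0 + 2 * N := by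
    rw [Fintype.card_sum, hD]
  rcases Nat.eq_zero_or_pos N with hN0 | hNpos
  · have h2 : Fintype.card (V0 ⊕ D) = 0 := by omega
    have h3 := card_le_univ A
    have h4 := card_le_univ Y
    rw [h2] at h3 h4
    have h5 : A.card = 0 := by omega
    have h6 : Y.card = 0 := by omega
    rw [h2, h5, h6, Nat.cast_zero]
    linarith
  have hN : 0 < (N : ℝ) := by exact_mod_cast hNpos
  by_contra hcon
  push Not at hcon
  have hF' := xop_hF G' lam θ W hF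
  have hstar := xop_star G0 Δ N γ c τ ν lam η' δ θ hγ hc hc1 hτ hν hl hδ hθ hN hV hΔ hcΔ hΔn hNB
    hcl W hW hτl hnum
  have hEs : (ee G' Y A : ℝ) ≤ lam * (Fintype.card (V0 ⊕ D) : ℝ) ^ 2 := by
    rw [xop_symm]
    exact hE
  have c1 := hF' A Y hE
  have c2 := hF' Y A hEs
  obtain ⟨M, hMd⟩ : ∃ M : ℝ, M = (Fintype.card (V0 ⊕ D) : ℝ) := ⟨_, rfl⟩
  have hM' : M = (Fintype.card V0 : ℝ) + 2 * N := by
    rw [hMd, hM]
    push_cast
    ring
  obtain ⟨m, hm⟩ : ∃ m : ℝ, m = (N : ℝ) := ⟨_, rfl⟩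
  have hVm : (Fintype.card V0 : ℝ) ≤ m := by rw [hm]; exact_mod_cast hV
  have hV0 : (0 : ℝ) ≤ Fintype.card V0 := Nat.cast_nonneg _
  rw [← hMd] at hA1 hA2 hE hEs hcon c1 c2
  rw [← hm] at hN hM' hstar
  have hM2 : 2 * m ≤ M := by linarith
  have hM3 : M ≤ 3 * m := by linarith
  have hM0 : 0 < M := by linarith
  have hE9 : lam * M ^ 2 ≤ 9 * lam * m ^ 2 := by
    have h2 : M ^ 2 ≤ (3 * m) ^ 2 := pow_le_pow_left₀ hM0.le hM3 2
    have h3 := mul_le_mul_of_nonneg_left h2 hl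
    linarith
  obtain ⟨A0, hA0⟩ : ∃ S : Finset V0, S = univ.filter fun v : V0 => Sum.inl v ∈ A := ⟨_, rfl⟩
  obtain ⟨Y0, hY0⟩ : ∃ S : Finset V0, S = univ.filter fun v : V0 => Sum.inl v ∈ Y := ⟨_, rfl⟩
  obtain ⟨AD, hAD⟩ : ∃ S : Finset D, S = univ.filter fun v : D => Sum.inr v ∈ A := ⟨_, rfl⟩
  obtain ⟨YD, hYD⟩ : ∃ S : Finset D, S = univ.filter fun v : D => Sum.inr v ∈ Y := ⟨_, rfl⟩
  have kA : (A.card : ℝ) = A0.card + AD.card := by
    rw [hA0, hAD]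
    exact_mod_cast xop_card A
  have kY : (Y.card : ℝ) = Y0.card + YD.card := by
    rw [hY0, hYD]
    exact_mod_cast xop_card Y
  rw [← hY0, ← hAD, ← hYD] at c1
  rw [← hA0, ← hAD, ← hYD] at c2
  have kAW : ((A0 ∩ W).card : ℝ) + ((A0 \ W).card : ℝ) = A0.card := by
    exact_mod_cast card_inter_add_card_sdiff A0 W
  have kYW : ((Y0 ∩ W).card : ℝ) + ((Y0 \ W).card : ℝ) = Y0.card := by
    exact_mod_cast card_inter_add_card_sdiff Y0 W
  have kAc : ((univ \ A0).card : ℝ) = (Fintype.card V0 : ℝ) - A0.card := by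
    have h2 := card_sdiff_add_card_eq_card (subset_univ A0)
    rw [card_univ] at h2
    have h3 : ((univ \ A0).card : ℝ) + A0.card = Fintype.card V0 := by exact_mod_cast h2
    linarith
  have kYc : ((univ \ Y0).card : ℝ) = (Fintype.card V0 : ℝ) - Y0.card := by
    have h2 := card_sdiff_add_card_eq_card (subset_univ Y0)
    rw [card_univ] at h2
    have h3 : ((univ \ Y0).card : ℝ) + Y0.card = Fintype.card V0 := by exact_mod_cast h2
    linarith
  have kD1 : (AD.card : ℝ) ≤ 2 * m := by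
    have h2 := card_le_univ AD
    rw [hD] at h2
    rw [hm]
    exact_mod_cast h2
  have kD2 : (YD.card : ℝ) ≤ 2 * m := by
    have h2 := card_le_univ YD
    rw [hD] at h2
    rw [hm]
    exact_mod_cast h2
  have kA0v : (A0.card : ℝ) ≤ Fintype.card V0 := by exact_mod_cast card_le_univ A0
  have kY0v : (Y0.card : ℝ) ≤ Fintype.card V0 := by exact_mod_cast card_le_univ Y0
  have q1 : (0 : ℝ) ≤ (Y0 ∩ W).card := Nat.cast_nonneg _
  have q2 : (0 : ℝ) ≤ (A0 ∩ W).card := Nat.cast_nonneg _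
  have q3 : (0 : ℝ) ≤ AD.card := Nat.cast_nonneg _
  have q4 : (0 : ℝ) ≤ YD.card := Nat.cast_nonneg _
  have hsub : ∀ S : Finset V0, univ \ (univ \ S) = S := by
    intro S
    ext v
    simp
  have r1 : θ * M ≤ 3 * (θ * m) := by
    have h2 := mul_le_mul_of_nonneg_left hM3 hθ
    linarith
  have r2 : ν * M ≤ 3 * (ν * m) := by
    have h2 := mul_le_mul_of_nonneg_left hM3 hν
    linarith
  have r3 : 12 * (2 * (θ * m) + ν * m) ≤ τ * m := by
    have h2 := mul_le_mul_of_nonneg_right hτθ hN.le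
    linarith
  have r4 : 2 * (τ * m) ≤ τ * M := by
    have h2 := mul_le_mul_of_nonneg_left hM2 hτ.le
    linarith
  have r5 : 0 ≤ θ * m := by positivity
  have r6 : 0 ≤ ν * m := by positivity
  have r7 : τ * m ≤ m := by
    have h2 := mul_le_mul_of_nonneg_right hτ1 hN.le
    linarith
  have r8 : 3 * (2 * θ + ν) * m = 6 * (θ * m) + 3 * (ν * m) := by ring
  have r9 : (1 - τ) * M = M - τ * M := by ring
  rw [r9] at hA2
  by_cases hcase : θ * M < AD.card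
  · -- case 1
    have d1 : (YD.card : ℝ) + (Y0 ∩ W).card ≤ θ * M := by
      rcases c1 with c1 | c1
      · exact absurd c1 (not_le.2 hcase)
      · exact c1
    refine hstar (Y0 \ W) (univ \ A0) (fun x hx => (mem_sdiff.1 hx).2) ?_ ?_ ?_
    · linarith
    · rw [kAc, r8]
      linarith
    · rw [hsub]
      refine le_trans ?_ (hEs.trans hE9)
      exact_mod_cast xop_old G0 G' h1 Y A (Y0 \ W) A0 (fun v hv => by
        have h2 := (mem_sdiff.1 hv).1
        rw [hY0, mem_filter] at h2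
        exact h2.2) (fun v hv => by
        rw [hA0, mem_filter] at hv
        exact hv.2)
  · push Not at hcase
    by_cases hcase2 : θ * M < (A0 ∩ W).card
    · -- case 2a
      have d1 : (YD.card : ℝ) ≤ θ * M := by
        rcases c2 with c2 | c2
        · exact c2
        · linarith
      linarith
    · -- case 2b
      push Not at hcase2
      refine hstar (A0 \ W) (univ \ Y0) (fun x hx => (mem_sdiff.1 hx).2) ?_ ?_ ?_
      · linarith
      · rw [kYc, r8]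
        linarith
      · rw [hsub]
        refine le_trans ?_ (hE.trans hE9)
        exact_mod_cast xop_old G0 G' h1 A Y (A0 \ W) Y0 (fun v hv => by
          have h2 := (mem_sdiff.1 hv).1
          rw [hA0, mem_filter] at h2
          exact h2.2) (fun v hv => by
          rw [hY0, mem_filter] at hv
          exact hv.2)

end Pool.Agent.H71.DC
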