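import Mathlib
import Pool.Agent.H71.DC.Xop
import Pool.Agent.H71.DC.Dum
import Pool.Agent.H71.DC.Nm5

/-!
OPN: the core theorem for the open part (as a graph `G0` on its own type `V0`; `dd v` is the degree of `v` in the whole graph). Use the STATEMENTS of `xop`, `dum`, `core5`.

Proof.  Constants: `b := min η' (c² / 8)`, `δ0 := γ c b / 64` (`≤ c/8, ≤ 1/2`). `dum δ0 c` gives `α`. `τ := α / 8`, `θ := min (τ / 100) (γ b / 200)`, `ν := θ`. `dum` for `θ` gives `lam0, n1`.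
`lam := min lam0 (min (τ c / 72) (δ0 / 9))`. `core5 ε α τ ν lam` gives `κ, ρ5, n5`. `ρ := min ρ5 δ0`, `n0` large (`n0 ≥ n1 + n5`, `κ n0 ≥ 2`), the `κ` of this theorem is `κ / 2`.
`D := Fin (2 N)`, `W := {v : dd v + δ0 N ≤ Δ}`. For `v ∉ W`: `dd v > Δ - δ0 N`, so `dg G0 v ≥ dd v - ρ N ≥ Δ - 2 δ0 N ≥ (c/2) N`. `dum` gives `G'`. `XP G' τ ν lam` by `xop` with `δ := 2 δ0`
(`hnum`: `2 δ0 + 9 lam ≤ 3 δ0`, `6 δ0/(γ c) = 6 b / 64`, `9 θ/γ ≤ 9 b/200`, `9 θ ≤ 9 b/200`, `3 δ0 ≤ 3 b/64`: sum `≤ b`; `12 · 3 θ ≤ τ`; `dg G0 v ≤ dd v ≤ Δ`).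
`dgD v := dg G' (inl v) - dg G0 v` (the number of the `d` with `G'.Adj (inl v) (inr d)`), `dgD v + dd v ≤ Δ`. `T (inl v) := Δ - dd v - dgD v`, `T (inr d) := Δ`. Then `Δ ≤ dg G' x + T x + ρ5 card V'` for all `x`,
`V' := V0 ⊕ D`, `2 N ≤ card V' ≤ 3 N`. `U' ℓ := (U ℓ).map inl`, `z ℓ := inr (⟨ℓ mod 2 N⟩)` for `ℓ < L ≤ Δ ≤ N < 2 N` (different for different `ℓ`; each vertex is a `z ℓ` at most once, only the `inr d`, and
`T (inr d) = Δ ≥ 1`; `#{ℓ < L : x ∈ U' ℓ ∨ z ℓ = x} ≤ (κ/2) N + 1 ≤ κ card V'`). `core5` gives `mm'`. `mm ℓ v := w` if `mm' ℓ (inl v) = inl w`, and `mm ℓ v := v` if `mm' ℓ (inl v) = inr d`.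
`PM G0 L U mm`: clear (`dis` from `dis` of `mm'`). If `mm ℓ v = v`, `v ∉ U ℓ` then `mm' ℓ (inl v) = inl v` (at most `T (inl v)` labels) or `mm' ℓ (inl v) = inr d` is a dummy neighbour of `v`, different ones for different
labels (at most `dgD v` labels): together at most `Δ - dd v`.
-/

set_option autoImplicit false

namespace Pool.Agent.H71.DC

open Finset Classical
open Pool.Agent.H71.DN Pool.Agent.H71.DX Pool.Agent.H71.DR Pool.Agent.H71.HL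

private theorem opn_dg {V0 D : Type} [Fintype V0] [Fintype D] (G0 : SimpleGraph V0)
    (G' : SimpleGraph (V0 ⊕ D)) (h1 : ∀ a b, G'.Adj (Sum.inl a) (Sum.inl b) ↔ G0.Adj a b)
    (v : V0) : dg G' (Sum.inl v) = dg G0 v +
      (univ.filter fun x : V0 ⊕ D => G'.Adj (Sum.inl v) x ∧ ∃ d, x = Sum.inr d).card := by
  have h2 : dg G0 v =
      ((univ.filter fun u => G0.Adj v u).map
        (⟨Sum.inl, Sum.inl_injective⟩ : V0 ↪ V0 ⊕ D)).card := by
    rw [card_map]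
    rfl
  rw [h2, ← card_union_of_disjoint]
  · unfold dg
    refine congrArg card (Finset.ext fun x => ?_)
    simp only [mem_filter, mem_univ, true_and, mem_union, mem_map, Function.Embedding.coeFn_mk]
    constructor
    · intro hx
      rcases x with a | d
      · exact Or.inl ⟨a, (h1 v a).1 hx, rfl⟩
      · exact Or.inr ⟨hx, d, rfl⟩
    · intro hx
      rcases hx with ⟨a, ha, rfl⟩ | ⟨hx, -⟩
      · exact (h1 v a).2 ha
      · exact hx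
  · rw [Finset.disjoint_left]
    intro x hx hx'
    simp only [mem_map, mem_filter, mem_univ, true_and, Function.Embedding.coeFn_mk] at hx hx'
    obtain ⟨a, -, rfl⟩ := hx
    obtain ⟨-, d, hd⟩ := hx'
    cases hd

private theorem opn_cnt {X : Type} (L : ℕ) (U' : ℕ → Finset X) (z : ℕ → X) (x : X) (k : ℕ)
    (S : Finset ℕ) (hS : S.card ≤ k) (h : ∀ ℓ < L, (x ∈ U' ℓ ∨ z ℓ = x) → ℓ ∈ S) :
    ((range L).filter fun ℓ => x ∈ U' ℓ ∨ z ℓ = x).card ≤ k := by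
  refine (card_le_card ?_).trans hS
  intro ℓ hℓ
  rw [mem_filter, mem_range] at hℓ
  exact h ℓ hℓ.1 hℓ.2

private theorem opn_cnz {X : Type} (L : ℕ) (z : ℕ → X) (x : X) (k : ℕ)
    (S : Finset ℕ) (hS : S.card ≤ k) (h : ∀ ℓ < L, z ℓ = x → ℓ ∈ S) :
    ((range L).filter fun ℓ => z ℓ = x).card ≤ k := by
  refine (card_le_card ?_).trans hS
  intro ℓ hℓ
  rw [mem_filter, mem_range] at hℓ
  exact h ℓ hℓ.1 hℓ.2

private theorem opn_sub {X : Type} (L : ℕ) (U' : ℕ → Finset X) (mm' : ℕ → X → X) (x : X) (k : ℕ)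
    (h : ((range L).filter fun ℓ => x ∉ U' ℓ ∧ mm' ℓ x = x).card ≤ k) :
    ∃ S : Finset ℕ, S.card ≤ k ∧ ∀ ℓ < L, x ∉ U' ℓ → mm' ℓ x = x → ℓ ∈ S := by
  refine ⟨_, h, ?_⟩
  intro ℓ hℓ h1 h2
  rw [mem_filter, mem_range]
  exact ⟨hℓ, h1, h2⟩

private theorem opn_pull {V0 D : Type} [Fintype V0] [Fintype D] (G0 : SimpleGraph V0)
    (G' : SimpleGraph (V0 ⊕ D)) (h1 : ∀ a b, G'.Adj (Sum.inl a) (Sum.inl b) ↔ G0.Adj a b)
    (L : ℕ) (U : ℕ → Finset V0) (U' : ℕ → Finset (V0 ⊕ D))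
    (hU' : ∀ ℓ v, Sum.inl v ∈ U' ℓ ↔ v ∈ U ℓ) (mm' : ℕ → V0 ⊕ D → V0 ⊕ D)
    (hP : PM G' L U' mm') (mm : ℕ → V0 → V0)
    (hmm : ∀ ℓ v, mm ℓ v = Sum.elim id (fun _ => v) (mm' ℓ (Sum.inl v))) :
    PM G0 L U mm ∧ ∀ (v : V0) (S : Finset ℕ),
      (∀ ℓ < L, Sum.inl v ∉ U' ℓ → mm' ℓ (Sum.inl v) = Sum.inl v → ℓ ∈ S) →
      ((range L).filter fun ℓ => v ∉ U ℓ ∧ mm ℓ v = v).card + dg G0 v ≤
        S.card + dg G' (Sum.inl v) := by
  have hl : ∀ ℓ v w, mm' ℓ (Sum.inl v) = Sum.inl w → mm ℓ v = w := by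
    intro ℓ v w h
    rw [hmm, h]
    rfl
  have hr : ∀ ℓ v d, mm' ℓ (Sum.inl v) = Sum.inr d → mm ℓ v = v := by
    intro ℓ v w h
    rw [hmm, h]
    rfl
  have hne : ∀ ℓ v, mm ℓ v ≠ v → mm' ℓ (Sum.inl v) = Sum.inl (mm ℓ v) := by
    intro ℓ v h
    rcases hx : mm' ℓ (Sum.inl v) with w | d
    · rw [hl ℓ v w hx]
    · exact absurd (hr ℓ v d hx) h
  refine ⟨⟨?_, ?_, ?_, ?_⟩, ?_⟩
  · intro ℓ hℓ v
    by_cases h : mm ℓ v = v
    · rw [h, h]
    · have h2 := hne ℓ v h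
      have h3 := hP.inv ℓ hℓ (Sum.inl v)
      rw [h2] at h3
      exact hl ℓ _ v h3
  · intro ℓ hℓ v h
    have h2 := hne ℓ v h
    have h3 := hP.adj ℓ hℓ (Sum.inl v) (by
      rw [h2]
      exact fun h4 => h (Sum.inl_injective h4))
    rw [h2] at h3
    exact (h1 _ _).1 h3
  · intro ℓ hℓ ℓ' hℓ' hd v h h4
    have h2 := hne ℓ v h
    have h5 := hne ℓ' v (by
      rw [← h4]
      exact h)
    refine hP.dis ℓ hℓ ℓ' hℓ' hd (Sum.inl v) (by
      rw [h2]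
      exact fun h4 => h (Sum.inl_injective h4)) ?_
    rw [h2, h5, h4]
  · intro ℓ hℓ v hv
    exact hl ℓ v v (hP.fix ℓ hℓ (Sum.inl v) ((hU' ℓ v).2 hv))
  · intro v S hS
    have h2 : ((range L).filter fun ℓ => v ∉ U ℓ ∧ mm ℓ v = v) ⊆
        S ∪ ((range L).filter fun ℓ => ∃ d, mm' ℓ (Sum.inl v) = Sum.inr d) := by
      intro ℓ hℓ
      rw [mem_filter] at hℓ
      rw [mem_union, mem_filter]
      rcases hx : mm' ℓ (Sum.inl v) with w | d
      · left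
        have h3 := hl ℓ v w hx
        rw [hℓ.2.2] at h3
        refine hS ℓ (mem_range.1 hℓ.1) (fun h4 => hℓ.2.1 ((hU' ℓ v).1 h4)) ?_
        rw [hx, ← h3]
      · right
        exact ⟨hℓ.1, d, rfl⟩
    have h3 : ((range L).filter fun ℓ => ∃ d, mm' ℓ (Sum.inl v) = Sum.inr d).card ≤
        (univ.filter fun x : V0 ⊕ D => G'.Adj (Sum.inl v) x ∧ ∃ d, x = Sum.inr d).card := by
      refine card_le_card_of_injOn (fun ℓ => mm' ℓ (Sum.inl v)) ?_ ?_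
      · intro ℓ hℓ
        rw [mem_coe, mem_filter] at hℓ
        obtain ⟨h4, d, hd⟩ := hℓ
        rw [mem_coe, mem_filter]
        refine ⟨mem_univ _, hP.adj ℓ (mem_range.1 h4) (Sum.inl v) ?_, d, hd⟩
        rw [hd]
        exact fun h5 => by cases h5
      · intro ℓ hℓ ℓ' hℓ' h4
        rw [mem_coe, mem_filter] at hℓ hℓ'
        by_contra hd
        refine hP.dis ℓ (mem_range.1 hℓ.1) ℓ' (mem_range.1 hℓ'.1) hd (Sum.inl v) ?_ h4
        obtain ⟨-, d, hd⟩ := hℓ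
        rw [hd]
        exact fun h5 => by cases h5
    have h4 := card_le_card h2
    have h5 := card_union_le S ((range L).filter fun ℓ => ∃ d, mm' ℓ (Sum.inl v) = Sum.inr d)
    rw [opn_dg G0 G' h1 v]
    omega

private theorem opn_num (γ c b δ0 lam θ : ℝ) (hγ : 0 < γ) (hγ1 : γ ≤ 1) (hc : 0 < c)
    (hc1 : c ≤ 1) (hb : 0 < b) (hδ : δ0 = γ * c * b / 64) (hl : lam ≤ δ0 / 9)
    (hθ : θ ≤ γ * b / 200) :
    (2 * δ0 + 9 * lam) + (2 * (2 * δ0 + 9 * lam) / (γ * c) + 3 * (2 * θ + θ) / γ) +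
      3 * (2 * θ + θ) ≤ b := by
  have h1 : 2 * δ0 + 9 * lam ≤ 3 * (γ * c * b / 64) := by
    rw [hδ] at hl ⊢
    linarith
  have h2 : γ * c * b ≤ b := by
    have h3 : γ * c ≤ 1 := mul_le_one₀ hγ1 hc.le hc1
    nlinarith
  have h3 : 2 * (2 * δ0 + 9 * lam) / (γ * c) ≤ 6 * b / 64 := by
    rw [div_le_iff₀ (by positivity)]
    linarith
  have h4 : 3 * (2 * θ + θ) / γ ≤ 9 * b / 200 := by
    rw [div_le_iff₀ hγ]
    linarith
  have h5 : γ * b ≤ b := by nlinarith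
  linarith

theorem opn (ε c γ η' : ℝ) (hε : 0 < ε) (hε1 : ε ≤ 1) (hc : 0 < c) (hc1 : c ≤ 1)
    (hγ : 0 < γ) (hγ1 : γ ≤ 1) (hη' : 0 < η') :
    ∃ (κ ρ : ℝ) (n0 : ℕ), 0 < κ ∧ 0 < ρ ∧
      ∀ (V0 : Type) [Fintype V0] (G0 : SimpleGraph V0) (Δ N : ℕ) (dd : V0 → ℕ), n0 ≤ N →
        Fintype.card V0 ≤ N → (∀ v, dg G0 v ≤ dd v) → (∀ v, dd v ≤ Δ) → c * N ≤ Δ → Δ ≤ N →
        NB G0 Δ γ →
        (∀ I : Finset V0, c / 2 * N ≤ (I.card : ℝ) →
          (ee G0 I I : ℝ) + η' * (N : ℝ) ^ 2 < (Δ : ℝ) * I.card) →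
        (∀ v, (dd v : ℝ) ≤ dg G0 v + ρ * N) →
        ∀ (L : ℕ) (U : ℕ → Finset V0), (L : ℝ) ≤ (1 - ε / 2) * Δ →
          (∀ ℓ < L, ((U ℓ).card : ℝ) ≤ κ * N) → (∀ v, (mul L U v : ℝ) ≤ κ * N) →
          ∃ mm : ℕ → V0 → V0, PM G0 L U mm ∧
            ∀ v, ((range L).filter fun ℓ => v ∉ U ℓ ∧ mm ℓ v = v).card + dd v ≤ Δ := by
  obtain ⟨b, hb⟩ : ∃ b : ℝ, b = min η' (c ^ 2 / 8) := ⟨_, rfl⟩
  have hb0 : 0 < b := by
    rw [hb]
    exact lt_min hη' (by positivity)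
  have hb1 : b ≤ 1 / 8 := by
    have h1 : b ≤ c ^ 2 / 8 := by
      rw [hb]
      exact min_le_right _ _
    nlinarith
  obtain ⟨δ0, hδ⟩ : ∃ δ0 : ℝ, δ0 = γ * c * b / 64 := ⟨_, rfl⟩
  have hδ0 : 0 < δ0 := by
    rw [hδ]
    positivity
  have hδc : δ0 ≤ c / 64 := by
    rw [hδ]
    have h1 : γ * b ≤ 1 := mul_le_one₀ hγ1 hb0.le (by linarith)
    have h2 : c * (γ * b) ≤ c * 1 := mul_le_mul_of_nonneg_left h1 hc.le
    linarith
  obtain ⟨α, hα, hα1, hdum⟩ := dum δ0 c hδ0 (by linarith) hc hc1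
  obtain ⟨τ, hτ⟩ : ∃ τ : ℝ, τ = α / 8 := ⟨_, rfl⟩
  have hτ0 : 0 < τ := by
    rw [hτ]
    positivity
  have hτ1 : τ ≤ 1 := by
    rw [hτ]
    linarith
  obtain ⟨θ, hθ⟩ : ∃ θ : ℝ, θ = min (τ / 100) (γ * b / 200) := ⟨_, rfl⟩
  have hθ0 : 0 < θ := by
    rw [hθ]
    exact lt_min (by positivity) (by positivity)
  have hθτ : θ ≤ τ / 100 := by
    rw [hθ]
    exact min_le_left _ _
  have hθb : θ ≤ γ * b / 200 := by
    rw [hθ]
    exact min_le_right _ _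
  obtain ⟨lam0, n1, hlam0, hG⟩ := hdum θ hθ0 (by linarith)
  obtain ⟨lam, hlam⟩ : ∃ lam : ℝ, lam = min lam0 (min (τ * c / 72) (δ0 / 9)) := ⟨_, rfl⟩
  have hl0 : 0 < lam := by
    rw [hlam]
    exact lt_min hlam0 (lt_min (by positivity) (by positivity))
  have hll : lam ≤ lam0 := by
    rw [hlam]
    exact min_le_left _ _
  have hlτ : lam ≤ τ * c / 72 := by
    rw [hlam]
    exact (min_le_right _ _).trans (min_le_left _ _)
  have hlδ : lam ≤ δ0 / 9 := by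
    rw [hlam]
    exact (min_le_right _ _).trans (min_le_right _ _)
  obtain ⟨κ, ρ5, n5, hκ, hκ1, hρ5, hcore⟩ := core5 ε α τ θ lam hε hε1 hα (by linarith)
    hτ.le hθ0 (by linarith) hl0
  refine ⟨κ / 2, min ρ5 δ0, n1 + n5 + ⌈2 / κ⌉₊ + 1, by positivity, lt_min hρ5 hδ0, ?_⟩
  intro V0 _ G0 Δ N dd hn hV hd1 hd2 hcΔ hΔN hNB hcl hρ L U hL hU hUm
  have hN1 : 1 ≤ N := by omega
  have hNR : (1 : ℝ) ≤ N := by exact_mod_cast hN1
  have hκN : 2 ≤ κ * N := by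
    have h1 : 2 / κ ≤ (⌈2 / κ⌉₊ : ℝ) := Nat.le_ceil _
    have h2 : (⌈2 / κ⌉₊ : ℝ) ≤ N := by
      have : ⌈2 / κ⌉₊ ≤ N := by omega
      exact_mod_cast this
    have h3 := h1.trans h2
    rw [div_le_iff₀ hκ] at h3
    linarith
  have hΔ1 : 1 ≤ Δ := by
    by_contra h
    have h0 : Δ = 0 := by omega
    rw [h0, Nat.cast_zero] at hcΔ
    nlinarith
  have hρδ : ∀ v, (dd v : ℝ) ≤ dg G0 v + δ0 * N := by
    intro v
    refine (hρ v).trans ?_
    have : min ρ5 δ0 * (N : ℝ) ≤ δ0 * N := mul_le_mul_of_nonneg_right (min_le_right _ _) (by linarith)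
    linarith
  have hρ5' : ∀ v, (dd v : ℝ) ≤ dg G0 v + ρ5 * N := by
    intro v
    refine (hρ v).trans ?_
    have : min ρ5 δ0 * (N : ℝ) ≤ ρ5 * N := mul_le_mul_of_nonneg_right (min_le_left _ _) (by linarith)
    linarith
  obtain ⟨W, hW⟩ : ∃ W : Finset V0, W = univ.filter fun v => (dd v : ℝ) + δ0 * N ≤ Δ := ⟨_, rfl⟩
  have hW1 : ∀ v ∈ W, (dd v : ℝ) + δ0 * N ≤ Δ := by
    intro v hv
    rw [hW, mem_filter] at hv
    exact hv.2
  have hW2 : ∀ v, v ∉ W → (Δ : ℝ) ≤ dg G0 v + 2 * δ0 * N := by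
    intro v hv
    rw [hW, mem_filter] at hv
    have h1 : ¬ ((dd v : ℝ) + δ0 * N ≤ Δ) := fun h => hv ⟨mem_univ _, h⟩
    have h2 := hρδ v
    linarith
  have hW3 : ∀ v, v ∉ W → c / 2 * N ≤ (dg G0 v : ℝ) := by
    intro v hv
    have h1 := hW2 v hv
    have h2 : 2 * δ0 * N ≤ c / 2 * N := mul_le_mul_of_nonneg_right (by linarith) (by linarith)
    linarith
  obtain ⟨G', g1, g2, g3, g4, g5, g6⟩ := hG V0 (Fin (2 * N)) G0 Δ N dd W (by omega) hV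
    (Fintype.card_fin _) hd2 hcΔ hW1 hW3
  have hM : (Fintype.card (V0 ⊕ Fin (2 * N)) : ℝ) = Fintype.card V0 + 2 * N := by
    rw [Fintype.card_sum, Fintype.card_fin]
    push_cast
    ring
  have hM2 : 2 * (N : ℝ) ≤ Fintype.card (V0 ⊕ Fin (2 * N)) := by
    rw [hM]
    have : (0 : ℝ) ≤ Fintype.card V0 := Nat.cast_nonneg _
    linarith
  have hXP : XP G' τ θ lam := by
    refine xop G0 G' Δ N γ c τ θ lam η' (2 * δ0) θ hγ hc hc1 hτ0 hτ1 hθ0.le hl0.le (by linarith)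
      hθ0.le hV (Fintype.card_fin _) (fun v => (hd1 v).trans (hd2 v)) hcΔ hΔN hNB hcl W hW2 g1 ?_
      (by linarith) (by linarith) ?_
    · intro A Y hA hY hE
      refine g6 A Y hA hY (hE.trans ?_)
      exact mul_le_mul_of_nonneg_right hll (by positivity)
    · rw [← hb]
      exact opn_num γ c b δ0 lam θ hγ hγ1 hc hc1 hb0 hδ hlδ hθb
  have hdg : ∀ v, dg G0 v ≤ dg G' (Sum.inl v) := by
    intro v
    rw [opn_dg G0 G' g1 v]
    exact Nat.le_add_right _ _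
  obtain ⟨T, hT⟩ : ∃ T : V0 ⊕ Fin (2 * N) → ℕ, T =
      Sum.elim (fun v => Δ - dd v - (dg G' (Sum.inl v) - dg G0 v)) (fun _ => Δ) := ⟨_, rfl⟩
  have hTl : ∀ v, T (Sum.inl v) + dd v + dg G' (Sum.inl v) = Δ + dg G0 v := by
    intro v
    have h1 : T (Sum.inl v) = Δ - dd v - (dg G' (Sum.inl v) - dg G0 v) := by
      rw [hT]
      rfl
    have h2 := g3 v
    have h3 := hdg v
    have h4 := hd2 v
    omega
  have hTr : ∀ d, T (Sum.inr d) = Δ := by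
    intro d
    rw [hT]
    rfl
  have hLΔ : L ≤ Δ := by
    have h1 : (1 - ε / 2) * (Δ : ℝ) ≤ 1 * Δ :=
      mul_le_mul_of_nonneg_right (by linarith) (Nat.cast_nonneg _)
    have h2 : (L : ℝ) ≤ Δ := by linarith
    exact_mod_cast h2
  have hL2 : L < 2 * N := by omega
  have h2N : 0 < 2 * N := by omega
  obtain ⟨z, hz⟩ : ∃ z : ℕ → V0 ⊕ Fin (2 * N), z = fun ℓ => Sum.inr ⟨ℓ % (2 * N),
    Nat.mod_lt _ h2N⟩ := ⟨_, rfl⟩
  have hzr : ∀ ℓ, ∃ d, z ℓ = Sum.inr d := by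
    intro ℓ
    rw [hz]
    exact ⟨_, rfl⟩
  have hzi : ∀ d : Fin (2 * N), ∀ ℓ < L, z ℓ = Sum.inr d → ℓ ∈ ({(d : ℕ)} : Finset ℕ) := by
    intro d ℓ hℓ h1
    rw [hz] at h1
    have h2 := Sum.inr_injective h1
    have h3 : ℓ % (2 * N) = (d : ℕ) := congrArg Fin.val h2
    rw [Nat.mod_eq_of_lt (by omega)] at h3
    rw [h3, mem_singleton]
  obtain ⟨U', hU'⟩ : ∃ U' : ℕ → Finset (V0 ⊕ Fin (2 * N)), U' = fun ℓ =>
    (U ℓ).map (⟨Sum.inl, Sum.inl_injective⟩ : V0 ↪ V0 ⊕ Fin (2 * N)) := ⟨_, rfl⟩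
  have hUl : ∀ ℓ v, Sum.inl v ∈ U' ℓ ↔ v ∈ U ℓ := by
    intro ℓ v
    rw [hU']
    simp only [mem_map, Function.Embedding.coeFn_mk]
    constructor
    · rintro ⟨w, hw, h⟩
      rw [← Sum.inl_injective h]
      exact hw
    · intro h
      exact ⟨v, h, rfl⟩
  have hUr : ∀ ℓ d, Sum.inr d ∉ U' ℓ := by
    intro ℓ d h
    rw [hU'] at h
    simp only [mem_map, Function.Embedding.coeFn_mk] at h
    obtain ⟨w, -, h⟩ := h
    cases h
  have hUc : ∀ ℓ, (U' ℓ).card = (U ℓ).card := by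
    intro ℓ
    rw [hU']
    exact card_map _
  obtain ⟨mm', hP, hcnt⟩ := hcore (V0 ⊕ Fin (2 * N)) G' Δ T (by
      have h1 : n5 ≤ 2 * N := by omega
      have h2 : (2 * N : ℕ) ≤ Fintype.card (V0 ⊕ Fin (2 * N)) := by
        exact_mod_cast hM2
      omega) g5 (by
      intro x
      rcases x with v | d
      · have h1 := g3 v
        have h2 := hd1 v
        omega
      · exact g4 d) hXP (by
      intro x
      rcases x with v | d
      · have h1 : (T (Sum.inl v) : ℝ) + dd v + dg G' (Sum.inl v) = Δ + dg G0 v := by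
          exact_mod_cast hTl v
        have h2 := hρ5' v
        have h3 : ρ5 * (N : ℝ) ≤ ρ5 * Fintype.card (V0 ⊕ Fin (2 * N)) :=
          mul_le_mul_of_nonneg_left (by linarith) hρ5.le
        linarith
      · rw [hTr]
        have h3 : 0 ≤ ρ5 * (Fintype.card (V0 ⊕ Fin (2 * N)) : ℝ) := by positivity
        have h4 : (0 : ℝ) ≤ dg G' (Sum.inr d) := Nat.cast_nonneg _
        linarith) L U' hL (by
      intro ℓ hℓ
      rw [hUc]
      have h1 := hU ℓ hℓ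
      have h3 : κ * (N : ℝ) ≤ κ * Fintype.card (V0 ⊕ Fin (2 * N)) :=
          mul_le_mul_of_nonneg_left (by linarith) hκ.le
      have h4 : κ / 2 * (N : ℝ) ≤ κ * N := mul_le_mul_of_nonneg_right (by linarith) (by linarith)
      linarith) z (by
      intro ℓ _
      obtain ⟨d, hd⟩ := hzr ℓ
      rw [hd]
      exact hUr ℓ d) (by
      intro x
      rcases x with v | d
      · refine opn_cnz L z _ _ ∅ (by rw [card_empty]; exact Nat.zero_le _) ?_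
        intro ℓ _ h
        obtain ⟨d, hd⟩ := hzr ℓ
        rw [hd] at h
        cases h
      · rw [hTr]
        exact opn_cnz L z _ _ {(d : ℕ)} (by rw [card_singleton]; exact hΔ1) (hzi d)) (by
      intro x
      have h3 : κ * (N : ℝ) ≤ κ * Fintype.card (V0 ⊕ Fin (2 * N)) :=
          mul_le_mul_of_nonneg_left (by linarith) hκ.le
      have h4 : κ / 2 * (N : ℝ) ≤ κ * N := mul_le_mul_of_nonneg_right (by linarith) (by linarith)
      rcases x with v | d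
      · have h1 := opn_cnt L U' z (Sum.inl v) (mul L U v)
          ((range L).filter fun ℓ => v ∈ U ℓ) le_rfl (by
            intro ℓ hℓ h
            rw [mem_filter, mem_range]
            refine ⟨hℓ, ?_⟩
            rcases h with h | h
            · exact (hUl ℓ v).1 h
            · obtain ⟨d, hd⟩ := hzr ℓ
              rw [hd] at h
              cases h)
        have h5 := hUm v
        refine le_trans (Nat.cast_le.2 h1) ?_
        linarith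
      · have h1 := opn_cnt L U' z (Sum.inr d) 1 {(d : ℕ)} (by rw [card_singleton]) (by
            intro ℓ hℓ h
            rcases h with h | h
            · exact absurd h (hUr ℓ d)
            · exact hzi d ℓ hℓ h)
        refine le_trans (Nat.cast_le.2 h1) ?_
        rw [Nat.cast_one]
        linarith)
  obtain ⟨hPM, hfin⟩ := opn_pull G0 G' g1 L U U' hUl mm' hP
    (fun ℓ v => Sum.elim id (fun _ => v) (mm' ℓ (Sum.inl v))) (fun ℓ v => rfl)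
  refine ⟨_, hPM, ?_⟩
  intro v
  obtain ⟨S, hS1, hS2⟩ := opn_sub L U' mm' (Sum.inl v) _ (hcnt (Sum.inl v))
  have h1 := hfin v S hS2
  have h3 := hTl v
  omega

end Pool.Agent.H71.DC
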