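import Mathlib
import Pool.Agent.H71.DC.Opn
import Pool.Agent.H71.DC.Defs2

/-!
COO: `opn` (`DC/Opn.lean`, use only the STATEMENT) for a set `S` of vertices of a larger graph.

Proof.  Same constants. `V0 := {v // v ∈ S}`, `G0 := G.comap (fun v : V0 => v.1)`, `N := card V`, `dd v := dg G v.1`, `dg G0 v = dgi G S v.1`, `U0 ℓ := {v : V0 | v.1 ∈ U ℓ}`
(`#(U0 ℓ) = #(U ℓ ∩ S)`, `mul L U0 v = mul L U v.1`). `NB G0 Δ γ` and the hypothesis about `I` follow from those for `G` (images under `Subtype.val`, `ee` is the same). `opn` gives `mm0`.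
`mm ℓ v := if h : v ∈ S then (mm0 ℓ ⟨v, h⟩).1 else v`.
-/

set_option autoImplicit false

namespace Pool.Agent.H71.DC

open Finset Classical
open Pool.Agent.H71.DN Pool.Agent.H71.DX Pool.Agent.H71.DR Pool.Agent.H71.HL

private theorem coo_cf {α : Type} (s : Finset α) (p q : α → Prop) (dp : DecidablePred p)
    (dq : DecidablePred q) (h : ∀ x ∈ s, p x ↔ q x) :
    (@Finset.filter α p dp s).card = (@Finset.filter α q dq s).card := by
  rw [@Finset.filter_congr α p q dp dq s h]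

private theorem coo_dg {V : Type} [Fintype V] (G : SimpleGraph V) (S : Finset V)
    (v : {v : V // v ∈ S}) :
    dg (G.comap (fun v : {v : V // v ∈ S} => v.1)) v = dgi G S v.1 := by
  unfold dg dgi
  refine Finset.card_bij (fun u _ => u.1) ?_ ?_ ?_
  · intro u hu
    rw [mem_filter] at hu ⊢
    exact ⟨u.2, hu.2⟩
  · intro a _ b _ h
    exact Subtype.ext h
  · intro b hb
    rw [mem_filter] at hb
    refine ⟨⟨b, hb.1⟩, ?_, rfl⟩
    rw [mem_filter]
    exact ⟨mem_univ _, hb.2⟩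

private theorem coo_ee {V : Type} [Fintype V] (G : SimpleGraph V) (S : Finset V)
    (A B : Finset {v : V // v ∈ S}) :
    ee (G.comap (fun v : {v : V // v ∈ S} => v.1)) A B =
      ee G (A.map (Function.Embedding.subtype _)) (B.map (Function.Embedding.subtype _)) := by
  unfold ee
  refine Finset.card_bij (fun x _ => (x.1.1, x.2.1)) ?_ ?_ ?_
  · intro x hx
    rw [mem_filter, mem_product] at hx ⊢
    exact ⟨⟨mem_map_of_mem _ hx.1.1, mem_map_of_mem _ hx.1.2⟩, hx.2⟩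
  · intro a _ b _ h
    rw [Prod.ext_iff] at h
    exact Prod.ext (Subtype.ext h.1) (Subtype.ext h.2)
  · intro b hb
    rw [mem_filter, mem_product, mem_map, mem_map] at hb
    obtain ⟨⟨⟨x, hx, hx1⟩, ⟨y, hy, hy1⟩⟩, hadj⟩ := hb
    refine ⟨(x, y), ?_, Prod.ext hx1 hy1⟩
    rw [mem_filter, mem_product]
    refine ⟨⟨hx, hy⟩, ?_⟩
    rw [← hx1, ← hy1] at hadj
    exact hadj

theorem coo (ε c γ η' : ℝ) (hε : 0 < ε) (hε1 : ε ≤ 1) (hc : 0 < c) (hc1 : c ≤ 1)
    (hγ : 0 < γ) (hγ1 : γ ≤ 1) (hη' : 0 < η') :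
    ∃ (κ ρ : ℝ) (n0 : ℕ), 0 < κ ∧ 0 < ρ ∧
      ∀ (V : Type) [Fintype V] (G : SimpleGraph V) (Δ : ℕ) (S : Finset V),
        n0 ≤ Fintype.card V → (∀ v, dg G v ≤ Δ) → c * Fintype.card V ≤ Δ →
        Δ ≤ Fintype.card V → NB G Δ γ →
        (∀ I : Finset V, I ⊆ S → c / 2 * Fintype.card V ≤ (I.card : ℝ) →
          (ee G I I : ℝ) + η' * (Fintype.card V : ℝ) ^ 2 < (Δ : ℝ) * I.card) →
        (∀ v ∈ S, (dg G v : ℝ) ≤ dgi G S v + ρ * Fintype.card V) →
        ∀ (L : ℕ) (U : ℕ → Finset V), (L : ℝ) ≤ (1 - ε / 2) * Δ →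
          (∀ ℓ < L, ((U ℓ ∩ S).card : ℝ) ≤ κ * Fintype.card V) →
          (∀ v ∈ S, (mul L U v : ℝ) ≤ κ * Fintype.card V) →
          ∃ mm : ℕ → V → V, Cop G Δ L S U mm := by
  obtain ⟨κ, ρ, n0, hκ, hρ, H⟩ := opn ε c γ η' hε hε1 hc hc1 hγ hγ1 hη'
  refine ⟨κ, ρ, n0, hκ, hρ, ?_⟩
  intro V _ G Δ S hn hdg hcN hΔN hNB hI hS L U hL hU hmul
  obtain ⟨mm0, hPM, hmis⟩ := H {v : V // v ∈ S} (G.comap (fun v : {v : V // v ∈ S} => v.1)) Δ
    (Fintype.card V) (fun v => dg G v.1) hn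
    (by
      rw [Fintype.card_coe]
      exact Finset.card_le_univ S)
    (by
      intro v
      rw [coo_dg]
      exact Finset.card_le_card (Finset.filter_subset_filter _ (Finset.subset_univ S)))
    (fun v => hdg v.1) hcN hΔN
    (by
      intro A B hAB
      have h := hNB (A.map (Function.Embedding.subtype _)) (B.map (Function.Embedding.subtype _))
        ((Finset.disjoint_map _).2 hAB)
      rw [card_map, card_map] at h
      rw [coo_ee]
      exact h)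
    (by
      intro I hIc
      have h := hI (I.map (Function.Embedding.subtype _))
        (by
          intro x hx
          rw [mem_map] at hx
          obtain ⟨y, -, rfl⟩ := hx
          exact y.2)
        (by
          rw [card_map]
          exact hIc)
      rw [card_map] at h
      rw [coo_ee]
      exact h)
    (by
      intro v
      rw [coo_dg]
      exact hS v.1 v.2)
    L (fun ℓ => univ.filter fun v => v.1 ∈ U ℓ) hL
    (by
      intro ℓ hℓ
      refine le_trans (le_of_eq ?_) (hU ℓ hℓ)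
      rw [Nat.cast_inj]
      refine Finset.card_bij (fun u _ => u.1) ?_ ?_ ?_
      · intro u hu
        rw [mem_filter] at hu
        rw [mem_inter]
        exact ⟨hu.2, u.2⟩
      · intro a _ b _ h
        exact Subtype.ext h
      · intro b hb
        rw [mem_inter] at hb
        refine ⟨⟨b, hb.2⟩, ?_, rfl⟩
        rw [mem_filter]
        exact ⟨mem_univ _, hb.1⟩)
    (by
      intro v
      refine le_trans (le_of_eq ?_) (hmul v.1 v.2)
      rw [Nat.cast_inj]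
      refine coo_cf _ _ _ _ _ (fun ℓ _ => ?_)
      rw [mem_filter]
      exact ⟨fun h => h.2, fun h => ⟨mem_univ _, h⟩⟩)
  have hin : ∀ (ℓ : ℕ) (v : V) (h : v ∈ S),
      (if h : v ∈ S then (mm0 ℓ ⟨v, h⟩).1 else v) = (mm0 ℓ ⟨v, h⟩).1 :=
    fun ℓ v h => dif_pos h
  have hout : ∀ (ℓ : ℕ) (v : V), v ∉ S →
      (if h : v ∈ S then (mm0 ℓ ⟨v, h⟩).1 else v) = v :=
    fun ℓ v h => dif_neg h
  obtain ⟨mm, hmm⟩ : ∃ mm : ℕ → V → V, mm = fun ℓ v =>
      if h : v ∈ S then (mm0 ℓ ⟨v, h⟩).1 else v := ⟨_, rfl⟩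
  have hin' : ∀ (ℓ : ℕ) (v : V) (h : v ∈ S), mm ℓ v = (mm0 ℓ ⟨v, h⟩).1 := by
    intro ℓ v h
    rw [hmm]
    exact hin ℓ v h
  have hout' : ∀ (ℓ : ℕ) (v : V), v ∉ S → mm ℓ v = v := by
    intro ℓ v h
    rw [hmm]
    exact hout ℓ v h
  refine ⟨mm, ⟨⟨?_, ?_, ?_, ?_⟩, ?_⟩⟩
  · intro ℓ hℓ v
    by_cases h : v ∈ S
    · rw [hin' ℓ v h, hin' ℓ _ (mm0 ℓ ⟨v, h⟩).2]
      exact congrArg Subtype.val (hPM.inv ℓ hℓ ⟨v, h⟩)
    · rw [hout' ℓ v h, hout' ℓ v h]
  · intro ℓ hℓ v hv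
    by_cases h : v ∈ S
    · rw [hin' ℓ v h] at hv ⊢
      have h1 := hPM.adj ℓ hℓ ⟨v, h⟩ (fun h2 => hv (congrArg Subtype.val h2))
      exact h1
    · exact absurd (hout' ℓ v h) hv
  · intro ℓ hℓ ℓ' hℓ' hne v hv
    by_cases h : v ∈ S
    · rw [hin' ℓ v h] at hv ⊢
      rw [hin' ℓ' v h]
      have h1 := hPM.dis ℓ hℓ ℓ' hℓ' hne ⟨v, h⟩ (fun h2 => hv (congrArg Subtype.val h2))
      exact fun h2 => h1 (Subtype.ext h2)
    · exact absurd (hout' ℓ v h) hv
  · intro ℓ hℓ v hv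
    by_cases h : v ∈ S
    · rw [mem_union] at hv
      rw [hin' ℓ v h]
      have hvU : v ∈ U ℓ := by
        rcases hv with hv | hv
        · exact hv
        · exact absurd h (Finset.mem_sdiff.1 hv).2
      have h1 := hPM.fix ℓ hℓ ⟨v, h⟩ (by
        rw [mem_filter]
        exact ⟨mem_univ _, hvU⟩)
      exact congrArg Subtype.val h1
    · exact hout' ℓ v h
  · intro v hv
    have h1 := hmis ⟨v, hv⟩
    refine le_trans (le_of_eq (congrArg (fun n => n + dg G v) ?_)) h1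
    refine coo_cf _ _ _ _ _ (fun ℓ _ => ?_)
    rw [mem_filter, hin' ℓ v hv]
    constructor
    · rintro ⟨h2, h3⟩
      exact ⟨fun h4 => h2 h4.2, Subtype.ext h3⟩
    · rintro ⟨h2, h3⟩
      exact ⟨fun h4 => h2 ⟨mem_univ _, h4⟩, congrArg Subtype.val h3⟩

end Pool.Agent.H71.DC
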