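import Mathlib
import Pool.Agent.H71.DX.LyV
import Pool.Agent.H71.DC.Defs

/-!
LAC: a bijection avoiding few forbidden pairs, and the extension of a labelling to a closed set `C`.

`hallb`: Hall's theorem (`Finset.all_card_le_biUnion_card_iff_exists_injective` or `Fintype.all_card_le_rel_image_card_iff_exists_injective`, or as in other files). For `A ⊆ X`, not empty: if `#A ≤ #X - d` the
allowed `y` of one element are at least `#Y - d ≥ #A` many. If `#A > #X - d ≥ d` then every `y ∈ Y` is forbidden for at most `d < #A` elements of `A`, so it is allowed for one of them: all the `#Y = #X ≥ #A` elements.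

`lac`: `lyV_aux π hπ Y1 Y2 hY C` (`DX/LyV.lean`, proved; `∀ v ∈ C, π v ∈ C` because `π v ≠ v` implies that `π v` is moved too, so in `C`; `C.filter (π v ≠ v) = univ.filter (π v ≠ v)`) gives `c'` on `C`.
`F m m' := ∃ v ∈ C, ∃ u ∈ T, c' v = m ∧ G.Adj v u ∧ c0 u = m'`. For `m` at most `2 d0` numbers `m'` are forbidden (at most two `v ∈ C` with `c' v = m`, at most `d0` neighbours `u ∈ T` each), for `m'` at most `s d0` numbers
`m` (at most `s` elements `u ∈ T` with `c0 u = m'`, at most `d0` neighbours `v ∈ C` each). `hallb` with `X = Y = Y1` and with `X = Y = Y2`, `d := s d0`, gives `f1 : Y1 → Y1`, `f2 : Y2 → Y2` injective, so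
bijective on these finite sets. `c v := f1 (c' v)` if `v ∈ C`, `c' v ∈ Y1`; `f2 (c' v)` if `v ∈ C`, `c' v ∈ Y2`; `c0 v` otherwise.
-/

set_option autoImplicit false

namespace Pool.Agent.H71.DC

open Finset Classical
open Pool.Agent.H71.DN Pool.Agent.H71.DX Pool.Agent.H71.DR Pool.Agent.H71.HL

theorem hallb {α β : Type} (X : Finset α) (Y : Finset β) (F : α → β → Prop) (d : ℕ)
    (h : X.card = Y.card) (h1 : ∀ x ∈ X, (Y.filter fun y => F x y).card ≤ d)
    (h2 : ∀ y ∈ Y, (X.filter fun x => F x y).card ≤ d) (hd : 2 * d ≤ X.card)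
    (y0 : β) :
    ∃ f : α → β, (∀ x ∈ X, f x ∈ Y ∧ ¬ F x (f x)) ∧
      ∀ x ∈ X, ∀ x' ∈ X, f x = f x' → x = x' := by
  have hall := (Finset.all_card_le_biUnion_card_iff_exists_injective
    (fun x : {x // x ∈ X} => Y.filter fun y => ¬ F x y)).1 (by
      intro A
      rcases A.eq_empty_or_nonempty with hA | hA
      · rw [hA]
        simp
      · obtain ⟨a, ha⟩ := hA
        rcases le_or_gt A.card (X.card - d) with hc | hc
        · have h3 : (Y.filter fun y => ¬ F a y) ⊆ A.biUnion (fun x : {x // x ∈ X} => Y.filter fun y => ¬ F x y) :=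
            Finset.subset_biUnion_of_mem (fun x : {x // x ∈ X} => Y.filter fun y => ¬ F x y) ha
          have h4 := Finset.card_le_card h3
          have h5 := Finset.card_filter_add_card_filter_not (s := Y) (fun y => F a y)
          have h6 := h1 a a.2
          omega
        · have h3 : Y ⊆ A.biUnion (fun x : {x // x ∈ X} => Y.filter fun y => ¬ F x y) := by
            intro y hy
            rw [Finset.mem_biUnion]
            by_contra hno
            have h4 : ∀ x ∈ A, F x y := by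
              intro x hx
              by_contra hF
              exact hno ⟨x, hx, Finset.mem_filter.2 ⟨hy, hF⟩⟩
            have h5 : A.map (Function.Embedding.subtype _) ⊆ X.filter fun x => F x y := by
              intro x hx
              rw [Finset.mem_map] at hx
              obtain ⟨x', hx', rfl⟩ := hx
              rw [Finset.mem_filter]
              exact ⟨x'.2, h4 x' hx'⟩
            have h6 := Finset.card_le_card h5
            rw [Finset.card_map] at h6
            have h7 := h2 y hy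
            omega
          have h4 := Finset.card_le_card h3
          have h5 : A.card ≤ X.card := by
            have h6 : A.map (Function.Embedding.subtype _) ⊆ X := by
              intro x hx
              rw [Finset.mem_map] at hx
              obtain ⟨x', _, rfl⟩ := hx
              exact x'.2
            have h7 := Finset.card_le_card h6
            rwa [Finset.card_map] at h7
          omega)
  obtain ⟨f, hf1, hf2⟩ := hall
  have hg : ∀ x (hx : x ∈ X), (if hx : x ∈ X then f ⟨x, hx⟩ else y0) = f ⟨x, hx⟩ := fun x hx => dif_pos hx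
  refine ⟨fun x => if hx : x ∈ X then f ⟨x, hx⟩ else y0, fun x hx => ?_, fun x hx x' hx' h => ?_⟩
  · have h3 := hf2 ⟨x, hx⟩
    rw [Finset.mem_filter] at h3
    simp only [hg x hx]
    exact h3
  · simp only [hg x hx, hg x' hx'] at h
    have h3 := hf1 h
    exact congrArg Subtype.val h3

/-- an injective map of a finite set into itself is onto -/
theorem Lac_surj {Y : Finset ℕ} {f : ℕ → ℕ} (h1 : ∀ x ∈ Y, f x ∈ Y)
    (h2 : ∀ x ∈ Y, ∀ x' ∈ Y, f x = f x' → x = x') : ∀ m ∈ Y, ∃ x ∈ Y, f x = m := by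
  intro m hm
  have h3 : Y.image f = Y := by
    apply Finset.eq_of_subset_of_card_le
    · intro y hy
      rw [Finset.mem_image] at hy
      obtain ⟨x, hx, rfl⟩ := hy
      exact h1 x hx
    · rw [Finset.card_image_of_injOn]
      intro x hx x' hx' h
      exact h2 x hx x' hx' h
  rw [← h3, Finset.mem_image] at hm
  exact hm

/-- both labels -/
theorem Lac_g (Y1 Y2 : Finset ℕ) (hY : Disjoint Y1 Y2) (F : ℕ → ℕ → Prop) (d : ℕ)
    (hF1 : ∀ Y : Finset ℕ, ∀ m ∈ Y1 ∪ Y2, (Y.filter fun m' => F m m').card ≤ d)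
    (hF2 : ∀ Y : Finset ℕ, ∀ m', (Y.filter fun m => F m m').card ≤ d)
    (hd1 : 2 * d ≤ Y1.card) (hd2 : 2 * d ≤ Y2.card) :
    ∃ g : ℕ → ℕ, (∀ m ∈ Y1, g m ∈ Y1) ∧ (∀ m ∈ Y2, g m ∈ Y2) ∧ (∀ m ∈ Y1 ∪ Y2, ¬ F m (g m)) ∧
      (∀ m ∈ Y1 ∪ Y2, ∀ m' ∈ Y1 ∪ Y2, g m = g m' → m = m') ∧
      (∀ m ∈ Y1, ∃ m0 ∈ Y1, g m0 = m) ∧ (∀ m ∈ Y2, ∃ m0 ∈ Y2, g m0 = m) := by
  obtain ⟨f1, a1, b1⟩ := hallb Y1 Y1 F d rfl (fun x hx => hF1 Y1 x (Finset.mem_union_left _ hx)) (fun y _ => hF2 Y1 y) hd1 0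
  obtain ⟨f2, a2, b2⟩ := hallb Y2 Y2 F d rfl (fun x hx => hF1 Y2 x (Finset.mem_union_right _ hx)) (fun y _ => hF2 Y2 y) hd2 0
  have e1 : ∀ m ∈ Y1, (if m ∈ Y1 then f1 m else f2 m) = f1 m := fun m hm => if_pos hm
  have e2 : ∀ m ∈ Y2, (if m ∈ Y1 then f1 m else f2 m) = f2 m := fun m hm =>
    if_neg (fun h => (Finset.disjoint_left.1 hY h) hm)
  have c1 : ∀ m ∈ Y1, (if m ∈ Y1 then f1 m else f2 m) ∈ Y1 := fun m hm => by rw [e1 m hm]; exact (a1 m hm).1
  have c2 : ∀ m ∈ Y2, (if m ∈ Y1 then f1 m else f2 m) ∈ Y2 := fun m hm => by rw [e2 m hm]; exact (a2 m hm).1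
  refine ⟨fun m => if m ∈ Y1 then f1 m else f2 m, c1, c2, ?_, ?_, ?_, ?_⟩
  · intro m hm
    rcases Finset.mem_union.1 hm with hm | hm
    · show ¬ F m (if m ∈ Y1 then f1 m else f2 m)
      rw [e1 m hm]
      exact (a1 m hm).2
    · show ¬ F m (if m ∈ Y1 then f1 m else f2 m)
      rw [e2 m hm]
      exact (a2 m hm).2
  · intro m hm m' hm' h
    change (if m ∈ Y1 then f1 m else f2 m) = (if m' ∈ Y1 then f1 m' else f2 m') at h
    rcases Finset.mem_union.1 hm with hm | hm <;> rcases Finset.mem_union.1 hm' with hm' | hm'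
    · rw [e1 m hm, e1 m' hm'] at h
      exact b1 m hm m' hm' h
    · have h1 := c1 m hm
      rw [h] at h1
      exact absurd (c2 m' hm') (Finset.disjoint_left.1 hY h1)
    · have h1 := c2 m hm
      rw [h] at h1
      exact absurd h1 (Finset.disjoint_left.1 hY (c1 m' hm'))
    · rw [e2 m hm, e2 m' hm'] at h
      exact b2 m hm m' hm' h
  · intro m hm
    obtain ⟨x, hx, hxm⟩ := Lac_surj (fun x hx => (a1 x hx).1) b1 m hm
    exact ⟨x, hx, by show (if x ∈ Y1 then f1 x else f2 x) = m; rw [e1 x hx]; exact hxm⟩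
  · intro m hm
    obtain ⟨x, hx, hxm⟩ := Lac_surj (fun x hx => (a2 x hx).1) b2 m hm
    exact ⟨x, hx, by show (if x ∈ Y1 then f1 x else f2 x) = m; rw [e2 x hx]; exact hxm⟩

theorem lac {V : Type} [Fintype V] (G : SimpleGraph V) (C T : Finset V) (c0 : V → ℕ)
    (d0 s : ℕ) (hs2 : 2 ≤ s) (h1 : ∀ v ∈ C, dgi G T v ≤ d0) (h2 : ∀ u ∈ T, dgi G C u ≤ d0)
    (hs : ∀ m, (T.filter fun u => c0 u = m).card ≤ s) (hCT : Disjoint C T)
    (π : V → V) (hπ : Inv π) (hπ2 : ∀ v, π v ≠ v → v ∈ C ∧ ¬ G.Adj v (π v))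
    (Y1 Y2 : Finset ℕ) (hY : Disjoint Y1 Y2)
    (hm : 2 * Y2.card ≤ (univ.filter fun v => π v ≠ v).card)
    (hc : Y1.card + 2 * Y2.card = C.card)
    (hd1 : 2 * (s * d0) ≤ Y1.card) (hd2 : 2 * (s * d0) ≤ Y2.card) :
    ∃ c : V → ℕ, (∀ v, v ∉ C → c v = c0 v) ∧ (∀ v ∈ C, c v ∈ Y1 ∪ Y2) ∧
      (∀ m ∈ Y2, (C.filter fun v => c v = m).card = 2) ∧
      (∀ m ∈ Y1, (C.filter fun v => c v = m).card = 1) ∧
      (∀ u ∈ C, ∀ v ∈ C, G.Adj u v → c u ≠ c v) ∧
      ∀ u ∈ C, ∀ v ∈ T, G.Adj u v → c u ≠ c v := by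
  have hπC : ∀ v ∈ C, π v ∈ C := by
    intro v hv
    by_cases h : π v = v
    · rw [h]; exact hv
    · refine (hπ2 (π v) ?_).1
      rw [hπ v]
      exact fun h' => h h'.symm
  have hfil : (C.filter fun v => π v ≠ v) = univ.filter fun v => π v ≠ v := by
    ext v
    rw [Finset.mem_filter, Finset.mem_filter]
    constructor
    · rintro ⟨_, h⟩
      exact ⟨Finset.mem_univ _, h⟩
    · rintro ⟨_, h⟩
      exact ⟨(hπ2 v h).1, h⟩
  obtain ⟨c', q1, q2, q3, q4⟩ := lyV_aux π hπ Y1 Y2 hY C hπC (by rw [hfil]; exact hm) hc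
  obtain ⟨F, hF⟩ : ∃ F : ℕ → ℕ → Prop, ∀ m m', F m m' ↔ ∃ v ∈ C, ∃ u ∈ T, c' v = m ∧ G.Adj v u ∧ c0 u = m' :=
    ⟨fun m m' => ∃ v ∈ C, ∃ u ∈ T, c' v = m ∧ G.Adj v u ∧ c0 u = m', fun _ _ => Iff.rfl⟩
  obtain ⟨g, g1, g2, g3, g4, g5, g6⟩ := Lac_g Y1 Y2 hY F (s * d0) (by
      intro Y m hmY
      have hf : (C.filter fun v => c' v = m).card ≤ s := by
        rcases Finset.mem_union.1 hmY with h | h
        · rw [q3 m h]; omega
        · rw [q2 m h]; exact hs2
      have hsub : (Y.filter fun m' => F m m') ⊆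
          (C.filter fun v => c' v = m).biUnion (fun v => (T.filter fun u => G.Adj v u).image c0) := by
        intro m' hm'
        rw [Finset.mem_filter, hF] at hm'
        obtain ⟨_, v, hv, u, hu, e1, e2, e3⟩ := hm'
        rw [Finset.mem_biUnion]
        exact ⟨v, Finset.mem_filter.2 ⟨hv, e1⟩, Finset.mem_image.2 ⟨u, Finset.mem_filter.2 ⟨hu, e2⟩, e3⟩⟩
      refine (Finset.card_le_card hsub).trans ?_
      refine (Finset.card_biUnion_le_card_mul _ _ d0 fun v hv => ?_).trans (Nat.mul_le_mul_right _ hf)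
      exact Finset.card_image_le.trans (h1 v (Finset.mem_filter.1 hv).1)) (by
      intro Y m'
      have hsub : (Y.filter fun m => F m m') ⊆
          (T.filter fun u => c0 u = m').biUnion (fun u => (C.filter fun v => G.Adj u v).image c') := by
        intro m hm
        rw [Finset.mem_filter, hF] at hm
        obtain ⟨_, v, hv, u, hu, e1, e2, e3⟩ := hm
        rw [Finset.mem_biUnion]
        exact ⟨u, Finset.mem_filter.2 ⟨hu, e3⟩, Finset.mem_image.2 ⟨v, Finset.mem_filter.2 ⟨hv, e2.symm⟩, e1⟩⟩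
      refine (Finset.card_le_card hsub).trans ?_
      refine (Finset.card_biUnion_le_card_mul _ _ d0 fun u hu => ?_).trans (Nat.mul_le_mul_right _ (hs m'))
      exact Finset.card_image_le.trans (h2 u (Finset.mem_filter.1 hu).1)) hd1 hd2
  have d1 : ∀ v, v ∉ C → (if v ∈ C then g (c' v) else c0 v) = c0 v := fun v hv => if_neg hv
  have d2 : ∀ v ∈ C, (if v ∈ C then g (c' v) else c0 v) = g (c' v) := fun v hv => if_pos hv
  have hfib : ∀ m0 ∈ Y1 ∪ Y2, (C.filter fun v => (if v ∈ C then g (c' v) else c0 v) = g m0) = C.filter fun v => c' v = m0 := by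
    intro m0 hm0
    ext v
    rw [Finset.mem_filter, Finset.mem_filter]
    constructor
    · rintro ⟨hv, h⟩
      rw [d2 v hv] at h
      exact ⟨hv, g4 _ (q1 v hv) _ hm0 h⟩
    · rintro ⟨hv, h⟩
      rw [d2 v hv, h]
      exact ⟨hv, rfl⟩
  refine ⟨fun v => if v ∈ C then g (c' v) else c0 v, d1, ?_, ?_, ?_, ?_, ?_⟩
  · intro v hv
    show (if v ∈ C then g (c' v) else c0 v) ∈ Y1 ∪ Y2
    rw [d2 v hv]
    rcases Finset.mem_union.1 (q1 v hv) with h | h
    · exact Finset.mem_union_left _ (g1 _ h)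
    · exact Finset.mem_union_right _ (g2 _ h)
  · intro m hmY
    obtain ⟨m0, hm0, rfl⟩ := g6 m hmY
    show (C.filter fun v => (if v ∈ C then g (c' v) else c0 v) = g m0).card = 2
    rw [hfib m0 (Finset.mem_union_right _ hm0)]
    exact q2 m0 hm0
  · intro m hmY
    obtain ⟨m0, hm0, rfl⟩ := g5 m hmY
    show (C.filter fun v => (if v ∈ C then g (c' v) else c0 v) = g m0).card = 1
    rw [hfib m0 (Finset.mem_union_left _ hm0)]
    exact q3 m0 hm0
  · intro u hu v hv hadj h
    change (if u ∈ C then g (c' u) else c0 u) = (if v ∈ C then g (c' v) else c0 v) at h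
    rw [d2 u hu, d2 v hv] at h
    have h3 := g4 _ (q1 u hu) _ (q1 v hv) h
    rcases q4 u hu v hv h3 with h4 | ⟨h4, h5⟩
    · exact G.ne_of_adj hadj h4
    · have h6 := (hπ2 u (by rw [h5]; exact h4.symm)).2
      rw [h5] at h6
      exact h6 hadj
  · intro u hu v hv hadj h
    change (if u ∈ C then g (c' u) else c0 u) = (if v ∈ C then g (c' v) else c0 v) at h
    have hvC : v ∉ C := fun h' => (Finset.disjoint_left.1 hCT h') hv
    rw [d2 u hu, d1 v hvC] at h
    exact g3 (c' u) (q1 u hu) ((hF _ _).2 ⟨u, hu, v, hv, rfl, hadj, h.symm⟩)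

end Pool.Agent.H71.DC
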