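import Mathlib
import Pool.Agent.H71.DR.Chl
import Pool.Agent.H71.DC.Lac
import Pool.Agent.H71.DC.Defs2

/-!
GLB: the labelling of all vertices. The part `k + 1` (`Lo`) gets the labels `0, ..., r - 1`, one each; the vertices of the parts that are not in `Sm` (and are not `Lo`) get labels in `[r, k2)` from a proper
colouring of `G`, each label is used at most `s1` times; then the parts `i ∈ Sm` are labelled one after the other by `lac`. Use the STATEMENTS of `lac` and of `chl` (`DR/Chl.lean`).

Proof.  `Lo := pt part (k + 1)`, `T0 := {v : part v ≠ k + 1 ∧ part v ∉ Sm}`. `chl` for a colouring of `G` with `χ` colours gives `cc` with `cc v < χ + card V / s1`, `cc u = cc v → ¬ G.Adj u v`, each value at most `s1`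
times. Start: `c v := ` the index of `v` in `Lo` (`Lo.equivFin`) for `v ∈ Lo`, `c v := r + cc v` otherwise. Induction over subsets `A` of `Sm` (`Finset.induction_on`): with `T_A := {v : part v ≠ k + 1 ∧ (part v ∉ Sm ∨ part v ∈ A)}` there
is a `c : V → ℕ` with: `c` is the index on `Lo`; `r ≤ c v < k2` for `v ∈ T_A`; `c u ≠ c v` for adjacent `u, v ∈ T_A`; `#{v ∈ T_A : c v = m} ≤ s1 + 2 #A`; and the last claims for the `i ∈ A`. Step from `A` to `insert i A`: `lac` with
`C := pt part i`, `T := T_A`, `c0 := c`, `d0 := dx`, `s := s` (`s1 + 2 #A ≤ s`, `s ≥ 2`). In the end `T_Sm = {v : part v ≠ k + 1}`; labels of `Lo` are `< r`, the others are `≥ r`.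
-/

set_option autoImplicit false

namespace Pool.Agent.H71.DC

open Finset Classical
open Pool.Agent.H71.DN Pool.Agent.H71.DX Pool.Agent.H71.DR Pool.Agent.H71.HL

/-- the part of the vertex set which is labelled before the part `A` of `Sm` is finished -/
private noncomputable def GlbT {V : Type} [Fintype V] (part : V → ℕ) (k : ℕ) (Sm A : Finset ℕ) :
    Finset V :=
  univ.filter fun v => part v ≠ k + 1 ∧ (part v ∉ Sm ∨ part v ∈ A)

private theorem mem_GlbT {V : Type} [Fintype V] {part : V → ℕ} {k : ℕ} {Sm A : Finset ℕ} {v : V} :
    v ∈ GlbT part k Sm A ↔ part v ≠ k + 1 ∧ (part v ∉ Sm ∨ part v ∈ A) := by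
  unfold GlbT
  simp

private theorem mem_pt' {V : Type} [Fintype V] {part : V → ℕ} {i : ℕ} {v : V} :
    v ∈ pt part i ↔ part v = i := by
  unfold pt
  simp

theorem glb {V : Type} [Fintype V] (G : SimpleGraph V) (part : V → ℕ)
    (k r s1 s dx χ k2 : ℕ) (hs1 : 1 ≤ s1) (hs : s = s1 + 2 * k + 1)
    (hpart : ∀ v, part v ≤ k + 1) (hr : r = (pt part (k + 1)).card)
    (Sm : Finset ℕ) (hSm : Sm ⊆ range k) (hcol : G.Colorable χ)
    (hk2 : r + χ + Fintype.card V / s1 ≤ k2)
    (hdx : ∀ v, part v ≤ k →
      (univ.filter fun u => part u ≤ k ∧ part u ≠ part v ∧ G.Adj v u).card ≤ dx)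
    (π : ℕ → V → V) (hπ : ∀ i ∈ Sm, Inv (π i))
    (hπ2 : ∀ i ∈ Sm, ∀ v, π i v ≠ v → part v = i ∧ ¬ G.Adj v (π i v))
    (Y1 Y2 : ℕ → Finset ℕ) (hY : ∀ i ∈ Sm, Disjoint (Y1 i) (Y2 i))
    (hYk : ∀ i ∈ Sm, ∀ m ∈ Y1 i ∪ Y2 i, r ≤ m ∧ m < k2)
    (hm : ∀ i ∈ Sm, 2 * (Y2 i).card ≤ (univ.filter fun v => π i v ≠ v).card)
    (hc : ∀ i ∈ Sm, (Y1 i).card + 2 * (Y2 i).card = (pt part i).card)
    (hd1 : ∀ i ∈ Sm, 2 * (s * dx) ≤ (Y1 i).card)
    (hd2 : ∀ i ∈ Sm, 2 * (s * dx) ≤ (Y2 i).card) :
    ∃ c : V → ℕ, (∀ v, c v < k2) ∧ (∀ u v, G.Adj u v → c u ≠ c v) ∧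
      (∀ v, part v = k + 1 → c v < r) ∧ (∀ v, part v ≠ k + 1 → r ≤ c v) ∧
      (∀ m, (univ.filter fun v => c v = m).card ≤ s) ∧
      ∀ i ∈ Sm, (∀ v ∈ pt part i, c v ∈ Y1 i ∪ Y2 i) ∧
        (∀ m ∈ Y2 i, ((pt part i).filter fun v => c v = m).card = 2) ∧
        ∀ m ∈ Y1 i, ((pt part i).filter fun v => c v = m).card = 1 := by
  obtain ⟨C⟩ := hcol
  obtain ⟨cc, hcc1, hcc2, hcc3⟩ := chl χ (fun v => (C v : ℕ)) (fun v => (C v).isLt) s1 hs1
  obtain ⟨ix, hix1, hix2⟩ := chl_inj (pt part (k + 1)) r hr.ge
  have hSk : ∀ i ∈ Sm, i < k := fun i hi => mem_range.1 (hSm hi)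
  have key : ∀ A : Finset ℕ, A ⊆ Sm → ∃ c : V → ℕ,
      (∀ v, part v = k + 1 → c v = ix v) ∧
      (∀ v ∈ GlbT part k Sm A, r ≤ c v ∧ c v < k2) ∧
      (∀ u ∈ GlbT part k Sm A, ∀ v ∈ GlbT part k Sm A, G.Adj u v → c u ≠ c v) ∧
      (∀ m, ((GlbT part k Sm A).filter fun v => c v = m).card ≤ s1 + 2 * A.card) ∧
      ∀ i ∈ A, (∀ v ∈ pt part i, c v ∈ Y1 i ∪ Y2 i) ∧
        (∀ m ∈ Y2 i, ((pt part i).filter fun v => c v = m).card = 2) ∧
        ∀ m ∈ Y1 i, ((pt part i).filter fun v => c v = m).card = 1 := by
    intro A
    induction A using Finset.induction_on with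
    | empty =>
      intro _
      refine ⟨fun v => if part v = k + 1 then ix v else r + cc v, ?_, ?_, ?_, ?_, ?_⟩
      · intro v hv
        exact if_pos hv
      · intro v hv
        rw [mem_GlbT] at hv
        beta_reduce
        rw [if_neg hv.1]
        have := hcc1 v
        omega
      · intro u hu v hv huv heq
        rw [mem_GlbT] at hu hv
        beta_reduce at heq
        rw [if_neg hu.1, if_neg hv.1] at heq
        have h1 : cc u = cc v := by omega
        exact C.valid huv (Fin.ext (hcc2 u v h1))
      · intro m
        refine le_trans (Finset.card_le_card (?_ : _ ⊆ univ.filter fun v => cc v = m - r)) ?_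
        · intro v hv
          rw [Finset.mem_filter, mem_GlbT] at hv
          have h2 := hv.2
          beta_reduce at h2
          rw [if_neg hv.1.1] at h2
          rw [Finset.mem_filter]
          exact ⟨Finset.mem_univ _, by omega⟩
        · have := hcc3 (m - r)
          omega
      · intro i hi
        exact absurd hi (Finset.notMem_empty i)
    | insert i A hiA ih =>
      intro hsub
      have hiS : i ∈ Sm := hsub (Finset.mem_insert_self _ _)
      have hAS : A ⊆ Sm := fun x hx => hsub (Finset.mem_insert_of_mem hx)
      have hik := hSk i hiS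
      obtain ⟨c, ha, hb, hcadj, hcnt, he⟩ := ih hAS
      have hAk : A.card ≤ k := by
        have := Finset.card_le_card (hAS.trans hSm)
        rwa [card_range] at this
      have hTk : ∀ u ∈ GlbT part k Sm A, part u ≤ k ∧ part u ≠ i := by
        intro u hu
        rw [mem_GlbT] at hu
        have h1 := hpart u
        refine ⟨by have := hu.1; omega, ?_⟩
        intro h
        rw [h] at hu
        rcases hu.2 with h2 | h2
        · exact h2 hiS
        · exact hiA h2
      obtain ⟨c', l1, l2, l3, l4, l5, l6⟩ := lac G (pt part i) (GlbT part k Sm A) c dx s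
        (by omega)
        (by
          intro v hv
          rw [mem_pt'] at hv
          refine le_trans (Finset.card_le_card ?_) (hdx v (by omega))
          intro u hu
          rw [Finset.mem_filter] at hu ⊢
          have h1 := hTk u hu.1
          exact ⟨Finset.mem_univ _, h1.1, by rw [hv]; exact h1.2, hu.2⟩)
        (by
          intro u hu
          have h1 := hTk u hu
          refine le_trans (Finset.card_le_card ?_) (hdx u h1.1)
          intro v hv
          rw [Finset.mem_filter, mem_pt'] at hv
          rw [Finset.mem_filter]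
          refine ⟨Finset.mem_univ _, by omega, ?_, hv.2⟩
          rw [hv.1]
          exact fun h => h1.2 h.symm)
        (by
          intro m
          have := hcnt m
          omega)
        (by
          rw [Finset.disjoint_left]
          intro v hv hv'
          rw [mem_pt'] at hv
          exact (hTk v hv').2 hv)
        (π i) (hπ i hiS)
        (by
          intro v hv
          have := hπ2 i hiS v hv
          exact ⟨mem_pt'.2 this.1, this.2⟩)
        (Y1 i) (Y2 i) (hY i hiS) (hm i hiS) (hc i hiS) (hd1 i hiS) (hd2 i hiS)
      have hout : ∀ v, part v ≠ i → c' v = c v := fun v hv => l1 v (fun h => hv (mem_pt'.1 h))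
      have hmemT : ∀ v, v ∈ GlbT part k Sm (insert i A) ↔
          v ∈ GlbT part k Sm A ∨ v ∈ pt part i := by
        intro v
        rw [mem_GlbT, mem_GlbT, mem_pt', Finset.mem_insert]
        constructor
        · rintro ⟨h1, h2 | h2 | h2⟩
          · exact Or.inl ⟨h1, Or.inl h2⟩
          · exact Or.inr h2
          · exact Or.inl ⟨h1, Or.inr h2⟩
        · rintro (⟨h1, h2 | h2⟩ | h2)
          · exact ⟨h1, Or.inl h2⟩
          · exact ⟨h1, Or.inr (Or.inr h2)⟩
          · exact ⟨by omega, Or.inr (Or.inl h2)⟩
      refine ⟨c', ?_, ?_, ?_, ?_, ?_⟩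
      · intro v hv
        rw [hout v (by omega), ha v hv]
      · intro v hv
        rcases (hmemT v).1 hv with h | h
        · rw [hout v (hTk v h).2]
          exact hb v h
        · exact hYk i hiS _ (l2 v h)
      · intro u hu v hv huv
        rcases (hmemT u).1 hu with h | h
        · rcases (hmemT v).1 hv with h' | h'
          · rw [hout u (hTk u h).2, hout v (hTk v h').2]
            exact hcadj u h v h' huv
          · exact (l6 v h' u h huv.symm).symm
        · rcases (hmemT v).1 hv with h' | h'
          · exact l6 u h v h' huv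
          · exact l5 u h v h' huv
      · intro m
        have h1 : (GlbT part k Sm (insert i A)).filter (fun v => c' v = m) ⊆
            ((GlbT part k Sm A).filter fun v => c v = m) ∪
              ((pt part i).filter fun v => c' v = m) := by
          intro v hv
          rw [Finset.mem_filter] at hv
          rw [Finset.mem_union, Finset.mem_filter, Finset.mem_filter]
          rcases (hmemT v).1 hv.1 with h | h
          · left
            refine ⟨h, ?_⟩
            rw [← hout v (hTk v h).2]
            exact hv.2
          · right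
            exact ⟨h, hv.2⟩
        have h2 : ((pt part i).filter fun v => c' v = m).card ≤ 2 := by
          by_cases hm2 : m ∈ Y2 i
          · exact (l3 m hm2).le
          · by_cases hm1 : m ∈ Y1 i
            · rw [l4 m hm1]
              norm_num
            · have : ((pt part i).filter fun v => c' v = m) = ∅ := by
                rw [Finset.filter_eq_empty_iff]
                intro v hv heq
                have h3 := l2 v hv
                rw [heq, Finset.mem_union] at h3
                tauto
              rw [this]
              simp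
        have h3 := (Finset.card_le_card h1).trans (Finset.card_union_le _ _)
        have h4 := hcnt m
        rw [Finset.card_insert_of_notMem hiA]
        omega
      · intro j hj
        rw [Finset.mem_insert] at hj
        rcases hj with rfl | hj
        · exact ⟨l2, l3, l4⟩
        · have hji : j ≠ i := fun h => hiA (h ▸ hj)
          obtain ⟨e1, e2, e3⟩ := he j hj
          have hcj : ∀ v ∈ pt part j, c' v = c v := by
            intro v hv
            rw [mem_pt'] at hv
            exact hout v (by rw [hv]; exact hji)
          have hfl : ∀ m, ((pt part j).filter fun v => c' v = m) =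
              ((pt part j).filter fun v => c v = m) := by
            intro m
            apply Finset.filter_congr
            intro v hv
            rw [hcj v hv]
          refine ⟨?_, ?_, ?_⟩
          · intro v hv
            rw [hcj v hv]
            exact e1 v hv
          · intro m hm'
            rw [hfl]
            exact e2 m hm'
          · intro m hm'
            rw [hfl]
            exact e3 m hm'
  obtain ⟨c, ha, hb, hcadj, hcnt, he⟩ := key Sm (Finset.Subset.refl _)
  have hT : ∀ v, part v ≠ k + 1 → v ∈ GlbT part k Sm Sm := by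
    intro v hv
    rw [mem_GlbT]
    exact ⟨hv, (_root_.em (part v ∈ Sm)).symm.imp id id⟩
  have hLo : ∀ v, part v = k + 1 → c v < r := by
    intro v hv
    rw [ha v hv]
    exact hix1 v (mem_pt'.2 hv)
  have hrk : r ≤ k2 := le_trans (by rw [add_assoc]; exact Nat.le_add_right _ _) hk2
  have hSc : Sm.card ≤ k := by
    have := Finset.card_le_card hSm
    rwa [card_range] at this
  refine ⟨c, ?_, ?_, hLo, ?_, ?_, he⟩
  · intro v
    by_cases hv : part v = k + 1
    · have := hLo v hv
      omega
    · exact (hb v (hT v hv)).2
  · intro u v huv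
    by_cases hu : part u = k + 1
    · by_cases hv : part v = k + 1
      · intro heq
        rw [ha u hu, ha v hv] at heq
        have := hix2 u (mem_pt'.2 hu) v (mem_pt'.2 hv) heq
        subst this
        exact G.irrefl huv
      · have h1 := hLo u hu
        have h2 := (hb v (hT v hv)).1
        omega
    · by_cases hv : part v = k + 1
      · have h1 := hLo v hv
        have h2 := (hb u (hT u hu)).1
        omega
      · exact hcadj u (hT u hu) v (hT v hv) huv
  · intro v hv
    exact (hb v (hT v hv)).1
  · intro m
    by_cases hmr : m < r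
    · have h1 : (univ.filter fun v => c v = m).card ≤ 1 := by
        rw [Finset.card_le_one]
        intro u hu v hv
        rw [Finset.mem_filter] at hu hv
        have hu' : part u = k + 1 := by
          by_contra hne
          have := (hb u (hT u hne)).1
          omega
        have hv' : part v = k + 1 := by
          by_contra hne
          have := (hb v (hT v hne)).1
          omega
        apply hix2 u (mem_pt'.2 hu') v (mem_pt'.2 hv')
        rw [← ha u hu', ← ha v hv', hu.2, hv.2]
      omega
    · have h1 : (univ.filter fun v => c v = m) ⊆ (GlbT part k Sm Sm).filter fun v => c v = m := by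
        intro v hv
        rw [Finset.mem_filter] at hv ⊢
        refine ⟨?_, hv.2⟩
        apply hT
        intro h
        have := hLo v h
        omega
      have h2 := Finset.card_le_card h1
      have h3 := hcnt m
      omega

end Pool.Agent.H71.DC
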