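import Mathlib
import Pool.Agent.H71.DX.Fn2
import Pool.Agent.H71.DX.Glu
import Pool.Agent.H71.DC.Defs2

/-!
GLM: glue the matchings `mm i ℓ` of the parts `i ≤ k` with the matchings `τ ℓ` whose edges join different parts, and apply `final2` (`DX/Fn2.lean`). Compare `HL/Gl3.lean` (proved, one part).

Proof.  `M ℓ v := if τ ℓ v ≠ v then τ ℓ v else if part v ≤ k then mm (part v) ℓ v else v`. Write `U ℓ := {v : v ∈ Wn c p ℓ ∨ τ ℓ v ≠ v}`. `mm i ℓ` fixes the vertices of `U ℓ` and those with `part v ≠ i`; if `v` is moved by `mm i ℓ` then so is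
`mm i ℓ v` (involution), so `part (mm i ℓ v) = i`, `mm i ℓ v ∉ U ℓ`.
 * `hinv`, `hadj`: clear. * `hdis`: two `τ`'s: `hτ.dis`; two `mm i`'s (same `i = part v`): `dis` of `PM`; a `τ` and a `mm i`: `part (τ ℓ v) ≠ part v = part (mm i ℓ' v)`.
 * `hfix`: `v ∈ Wn c p ℓ`. * `hd`: `part v = k + 1`: `hLo`. `part v < k`: the labels `ℓ < L` with `M ℓ v = v` have `v ∈ Wn c p ℓ` (at most `2 p - 1`; see `Glu_win` in `DX/Glu.lean`) or `v ∉ U ℓ` and `mm (part v) ℓ v = v` (at most one): at most `2 p`, and `dg G v ≤ Δ`.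
   `part v = k`: at most `2 p - 1 + (Δ - dg G v)` by `Cop.mis`.
 * `hind`: equality at `a` excludes `part a = k + 1` (`hLo`) and `part a = k` (the last bound), so `part a < k`, and since `dg G a ≤ Δ` there is a label `ℓ < L` with `a ∉ U ℓ`, `mm (part a) ℓ a = a`. The same for `b`. If `part a ≠ part b`: `hx` (then
   `τ ℓ a = b ≠ a`, so `M ℓ a = b`). If `part a = part b`: `Ccl.ind`: `mm (part a) ℓ a = b ≠ a`, so `a ∉ U ℓ` and `M ℓ a = b`.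
-/

set_option autoImplicit false

namespace Pool.Agent.H71.DC

open Finset Classical
open Pool.Agent.H71.DN Pool.Agent.H71.DX Pool.Agent.H71.DR Pool.Agent.H71.HL

/-- The glued matchings. -/
noncomputable def Glm_m {V : Type} (k : ℕ) (part : V → ℕ) (τ : ℕ → V → V)
    (mm : ℕ → ℕ → V → V) (ℓ : ℕ) (v : V) : V :=
  if τ ℓ v ≠ v then τ ℓ v else (if part v ≤ k then mm (part v) ℓ v else v)

section
variable {V : Type} {k : ℕ} {part : V → ℕ} {τ : ℕ → V → V} {mm : ℕ → ℕ → V → V}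

theorem Glm_e1 {ℓ : ℕ} {v : V} (h : τ ℓ v ≠ v) : Glm_m k part τ mm ℓ v = τ ℓ v := by
  unfold Glm_m
  rw [if_pos h]

theorem Glm_e2 {ℓ : ℕ} {v : V} (h : τ ℓ v = v) (h1 : part v ≤ k) :
    Glm_m k part τ mm ℓ v = mm (part v) ℓ v := by
  unfold Glm_m
  rw [if_neg (not_not.2 h), if_pos h1]

theorem Glm_e3 {ℓ : ℕ} {v : V} (h : τ ℓ v = v) (h1 : ¬ part v ≤ k) :
    Glm_m k part τ mm ℓ v = v := by
  unfold Glm_m
  rw [if_neg (not_not.2 h), if_neg h1]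

variable [Fintype V] {G : SimpleGraph V} {c : V → ℕ} {p L : ℕ} {U : ℕ → Finset V}

theorem Glm_fU (hpm : ∀ i ≤ k, PM G L (fun ℓ => U ℓ ∪ (univ \ pt part i)) (mm i))
    {i : ℕ} (hi : i ≤ k) {ℓ : ℕ} (hℓ : ℓ < L) {v : V} (hv : v ∈ U ℓ) : mm i ℓ v = v :=
  (hpm i hi).fix ℓ hℓ v (Finset.mem_union_left _ hv)

theorem Glm_fP (hpm : ∀ i ≤ k, PM G L (fun ℓ => U ℓ ∪ (univ \ pt part i)) (mm i))
    {i : ℕ} (hi : i ≤ k) {ℓ : ℕ} (hℓ : ℓ < L) {v : V} (hv : part v ≠ i) : mm i ℓ v = v := by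
  refine (hpm i hi).fix ℓ hℓ v (Finset.mem_union_right _ ?_)
  rw [Finset.mem_sdiff]
  refine ⟨Finset.mem_univ _, fun h => hv ?_⟩
  unfold pt at h
  exact (Finset.mem_filter.1 h).2

theorem Glm_pt (hpm : ∀ i ≤ k, PM G L (fun ℓ => U ℓ ∪ (univ \ pt part i)) (mm i))
    {ℓ : ℕ} (hℓ : ℓ < L) {v : V} (hv : part v ≤ k) :
    part (mm (part v) ℓ v) = part v := by
  by_contra hc
  have h1 := Glm_fP hpm hv hℓ hc
  have h2 : mm (part v) ℓ (mm (part v) ℓ v) = v := (hpm _ hv).inv ℓ hℓ v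
  rw [h2] at h1
  exact hc (congrArg part h1.symm)

/-- a vertex moved by `mm` is not moved by `τ` -/
theorem Glm_fr (hU : ∀ ℓ (v : V), v ∈ U ℓ ↔ v ∈ Wn c p ℓ ∨ τ ℓ v ≠ v)
    (hpm : ∀ i ≤ k, PM G L (fun ℓ => U ℓ ∪ (univ \ pt part i)) (mm i))
    {i : ℕ} (hi : i ≤ k) {ℓ : ℕ} (hℓ : ℓ < L) {v : V} (h1 : mm i ℓ v ≠ v) : τ ℓ v = v := by
  by_contra h2
  exact h1 (Glm_fU hpm hi hℓ ((hU ℓ v).2 (Or.inr h2)))

theorem Glm_inv (hU : ∀ ℓ (v : V), v ∈ U ℓ ↔ v ∈ Wn c p ℓ ∨ τ ℓ v ≠ v)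
    (hpm : ∀ i ≤ k, PM G L (fun ℓ => U ℓ ∪ (univ \ pt part i)) (mm i))
    (hτ : PM G L (Wn c p) τ)
    {ℓ : ℕ} (hℓ : ℓ < L) (v : V) :
    Glm_m k part τ mm ℓ (Glm_m k part τ mm ℓ v) = v := by
  by_cases h : τ ℓ v = v
  · by_cases h1 : part v ≤ k
    · have h4 : mm (part v) ℓ (mm (part v) ℓ v) = v := (hpm _ h1).inv ℓ hℓ v
      have h5 := Glm_pt hpm hℓ h1
      rw [Glm_e2 h h1]
      by_cases h2 : mm (part v) ℓ v = v
      · rw [h2, Glm_e2 h h1, h2]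
      · have h3 : mm (part v) ℓ (mm (part v) ℓ v) ≠ mm (part v) ℓ v := by
          rw [h4]
          exact fun h6 => h2 h6.symm
        have h7 := Glm_fr hU hpm h1 hℓ h3
        rw [Glm_e2 h7 (by rw [h5]; exact h1), h5, h4]
    · rw [Glm_e3 h h1, Glm_e3 h h1]
  · rw [Glm_e1 h]
    have h4 : τ ℓ (τ ℓ v) = v := hτ.inv ℓ hℓ v
    have h5 : τ ℓ (τ ℓ v) ≠ τ ℓ v := by
      rw [h4]
      exact fun h6 => h h6.symm
    rw [Glm_e1 h5, h4]

theorem Glm_adj (hpm : ∀ i ≤ k, PM G L (fun ℓ => U ℓ ∪ (univ \ pt part i)) (mm i))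
    (hτ : PM G L (Wn c p) τ)
    {ℓ : ℕ} (hℓ : ℓ < L) (v : V) (hv : Glm_m k part τ mm ℓ v ≠ v) :
    G.Adj v (Glm_m k part τ mm ℓ v) := by
  by_cases h : τ ℓ v = v
  · by_cases h1 : part v ≤ k
    · rw [Glm_e2 h h1] at hv ⊢
      exact (hpm _ h1).adj ℓ hℓ v hv
    · exact absurd (Glm_e3 h h1) hv
  · rw [Glm_e1 h]
    exact hτ.adj ℓ hℓ v h

theorem Glm_dis (hpm : ∀ i ≤ k, PM G L (fun ℓ => U ℓ ∪ (univ \ pt part i)) (mm i))
    (hτ : PM G L (Wn c p) τ)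
    (hτ2 : ∀ ℓ < L, ∀ v, τ ℓ v ≠ v → part (τ ℓ v) ≠ part v)
    {ℓ ℓ' : ℕ} (hℓ : ℓ < L) (hℓ' : ℓ' < L) (hne : ℓ ≠ ℓ') (v : V)
    (hv : Glm_m k part τ mm ℓ v ≠ v) :
    Glm_m k part τ mm ℓ v ≠ Glm_m k part τ mm ℓ' v := by
  intro heq
  by_cases h : τ ℓ v = v
  · by_cases h1 : part v ≤ k
    · rw [Glm_e2 h h1] at hv heq
      by_cases h' : τ ℓ' v = v
      · rw [Glm_e2 h' h1] at heq
        exact (hpm _ h1).dis ℓ hℓ ℓ' hℓ' hne v hv heq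
      · rw [Glm_e1 h'] at heq
        have h3 := hτ2 ℓ' hℓ' v h'
        rw [← heq] at h3
        exact h3 (Glm_pt hpm hℓ h1)
    · exact hv (Glm_e3 h h1)
  · rw [Glm_e1 h] at hv heq
    by_cases h' : τ ℓ' v = v
    · by_cases h1 : part v ≤ k
      · rw [Glm_e2 h' h1] at heq
        have h3 := hτ2 ℓ hℓ v h
        rw [heq] at h3
        exact h3 (Glm_pt hpm hℓ' h1)
      · rw [Glm_e3 h' h1] at heq
        exact hv heq
    · rw [Glm_e1 h'] at heq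
      exact hτ.dis ℓ hℓ ℓ' hℓ' hne v hv heq

theorem Glm_fix (hU : ∀ ℓ (v : V), v ∈ U ℓ ↔ v ∈ Wn c p ℓ ∨ τ ℓ v ≠ v)
    (hpm : ∀ i ≤ k, PM G L (fun ℓ => U ℓ ∪ (univ \ pt part i)) (mm i))
    (hτ : PM G L (Wn c p) τ)
    {ℓ : ℕ} (hℓ : ℓ < L) (v : V) (h1 : c v < ℓ + p) (h2 : ℓ < c v + p) :
    Glm_m k part τ mm ℓ v = v := by
  have hw : v ∈ Wn c p ℓ := Glu_wn.2 ⟨h1, h2⟩
  have h := hτ.fix ℓ hℓ v hw
  by_cases h3 : part v ≤ k
  · rw [Glm_e2 h h3]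
    exact Glm_fU hpm h3 hℓ ((hU ℓ v).2 (Or.inl hw))
  · exact Glm_e3 h h3

theorem Glm_cnt (hU : ∀ ℓ (v : V), v ∈ U ℓ ↔ v ∈ Wn c p ℓ ∨ τ ℓ v ≠ v)
    (hp : 1 ≤ p) (v : V) (h : part v ≤ k) :
    ((range L).filter fun ℓ => Glm_m k part τ mm ℓ v = v).card ≤ 2 * p - 1 +
      ((range L).filter fun ℓ => v ∉ U ℓ ∧ mm (part v) ℓ v = v).card := by
  have h1 : ((range L).filter fun ℓ => Glm_m k part τ mm ℓ v = v) ⊆
      ((range L).filter fun ℓ => c v < ℓ + p ∧ ℓ < c v + p) ∪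
      ((range L).filter fun ℓ => v ∉ U ℓ ∧ mm (part v) ℓ v = v) := by
    intro ℓ hℓ
    obtain ⟨a1, a2⟩ := Finset.mem_filter.1 hℓ
    have h4 : τ ℓ v = v := by
      by_contra h5
      rw [Glm_e1 h5] at a2
      exact h5 a2
    rw [Glm_e2 h4 h] at a2
    by_cases h6 : v ∈ U ℓ
    · rcases (hU ℓ v).1 h6 with h7 | h7
      · exact Finset.mem_union_left _ (Finset.mem_filter.2 ⟨a1, Glu_wn.1 h7⟩)
      · exact absurd h4 h7
    · exact Finset.mem_union_right _ (Finset.mem_filter.2 ⟨a1, h6, a2⟩)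
  have h2 := (Finset.card_le_card h1).trans (Finset.card_union_le _ _)
  have h3 := Glu_win (L := L) (c := c) v hp
  exact h2.trans (Nat.add_le_add_right h3 _)

theorem Glm_aux (Δ k' : ℕ) (hp : 1 ≤ p)
    (hL : k' + p - 1 ≤ L) (hL2 : L + 1 ≤ Δ + 2 * p) (hc : ∀ v, c v < k')
    (hprop : ∀ u v, G.Adj u v → c u ≠ c v) (hΔ : ∀ v, dg G v ≤ Δ)
    (hpart : ∀ v, part v ≤ k + 1)
    (hτ : PM G L (Wn c p) τ)
    (hτ2 : ∀ ℓ < L, ∀ v, τ ℓ v ≠ v → part (τ ℓ v) ≠ part v)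
    (hLo : ∀ v, part v = k + 1 →
      dg G v + ((range L).filter fun ℓ => τ ℓ v = v).card + 1 ≤ Δ + 2 * p)
    (hx : ∀ a b, G.Adj a b → part a < k → part b < k → part a ≠ part b →
      ∃ ℓ < L, τ ℓ a = b)
    (hU : ∀ ℓ (v : V), v ∈ U ℓ ↔ v ∈ Wn c p ℓ ∨ τ ℓ v ≠ v)
    (hcl : ∀ i < k, Ccl G L (pt part i) U (mm i))
    (hop : Cop G Δ L (pt part k) U (mm k)) :
    H70.HY.HYLab G Δ p := by
  have hpm : ∀ i ≤ k, PM G L (fun ℓ => U ℓ ∪ (univ \ pt part i)) (mm i) := by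
    intro i hi
    rcases Nat.lt_or_eq_of_le hi with h | h
    · exact (hcl i h).pm
    · rw [h]; exact hop.pm
  have hmem : ∀ v, v ∈ pt part (part v) := by
    intro v
    unfold pt
    exact Finset.mem_filter.2 ⟨Finset.mem_univ _, rfl⟩
  have hlo : ∀ v, part v = k + 1 →
      dg G v + ((range L).filter fun ℓ => Glm_m k part τ mm ℓ v = v).card + 1 ≤
      Δ + 2 * p := by
    intro v hv
    have h1 := hLo v hv
    have h2 : ((range L).filter fun ℓ => Glm_m k part τ mm ℓ v = v) ⊆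
        ((range L).filter fun ℓ => τ ℓ v = v) := by
      intro ℓ hℓ
      obtain ⟨a1, a2⟩ := Finset.mem_filter.1 hℓ
      refine Finset.mem_filter.2 ⟨a1, ?_⟩
      by_contra h5
      rw [Glm_e1 h5] at a2
      exact h5 a2
    have h3 := Finset.card_le_card h2
    omega
  have hcnt : ∀ v, part v ≤ k →
      ((range L).filter fun ℓ => Glm_m k part τ mm ℓ v = v).card ≤ 2 * p - 1 +
      ((range L).filter fun ℓ => v ∉ U ℓ ∧ mm (part v) ℓ v = v).card :=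
    fun v hv => Glm_cnt hU hp v hv
  have hone : ∀ v, part v < k →
      ((range L).filter fun ℓ => v ∉ U ℓ ∧ mm (part v) ℓ v = v).card ≤ 1 :=
    fun v hv => le_trans (le_of_eq (Glu_fc _ _)) ((hcl _ hv).one v (hmem v))
  have hmis : ∀ v, part v = k →
      ((range L).filter fun ℓ => v ∉ U ℓ ∧ mm (part v) ℓ v = v).card + dg G v ≤ Δ := by
    intro v hv
    have h1 := hmem v
    rw [hv] at h1
    have h2 := hop.mis v h1
    have h3 : ((range L).filter fun ℓ => v ∉ U ℓ ∧ mm (part v) ℓ v = v).card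
        = ((range L).filter fun ℓ => v ∉ U ℓ ∧ mm k ℓ v = v).card := by
      rw [hv]
    rw [h3]
    exact le_trans (Nat.add_le_add_right (le_of_eq (Glu_fc _ _)) _) h2
  refine final2 G Δ p k' L hp hL hL2 c hc hprop (Glm_m k part τ mm) ?_ ?_ ?_ ?_ ?_ ?_
  · intro ℓ hℓ v
    exact Glm_inv hU hpm hτ hℓ v
  · intro ℓ hℓ v hv
    exact Glm_adj hpm hτ hℓ v hv
  · intro ℓ hℓ ℓ' hℓ' hne v hv
    exact Glm_dis hpm hτ hτ2 hℓ hℓ' hne v hv
  · intro ℓ hℓ v h1 h2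
    exact Glm_fix hU hpm hτ hℓ v h1 h2
  · intro v
    have h0 := hpart v
    have h3 := hΔ v
    rcases lt_trichotomy (part v) k with h | h | h
    · have h1 := hcnt v h.le
      have h2 := hone v h
      omega
    · have h1 := hcnt v h.le
      have h2 := hmis v h
      omega
    · have h1 := hlo v (by omega)
      omega
  · have key : ∀ a, dg G a + ((range L).filter fun ℓ => Glm_m k part τ mm ℓ a = a).card =
        Δ + 2 * p → part a < k ∧ ∃ ℓ < L, a ∉ U ℓ ∧ mm (part a) ℓ a = a := by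
      intro a ha
      have h0 := hpart a
      have h3 := hΔ a
      rcases lt_trichotomy (part a) k with h | h | h
      · refine ⟨h, ?_⟩
        have h1 := hcnt a h.le
        have h4 : 0 < ((range L).filter fun ℓ => a ∉ U ℓ ∧ mm (part a) ℓ a = a).card := by
          omega
        obtain ⟨ℓ, hℓ⟩ := Finset.card_pos.1 h4
        obtain ⟨a1, a2⟩ := Finset.mem_filter.1 hℓ
        exact ⟨ℓ, Finset.mem_range.1 a1, a2⟩
      · have h1 := hcnt a h.le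
        have h2 := hmis a h
        omega
      · have h1 := hlo a (by omega)
        omega
    intro a b hab ha hb
    obtain ⟨ha', ha2⟩ := key a ha
    obtain ⟨hb', hb2⟩ := key b hb
    by_cases hpp : part a = part b
    · have hbm := hmem b
      rw [← hpp] at hbm hb2
      obtain ⟨ℓ, hℓ, h5⟩ := (hcl _ ha').ind a (hmem a) b hbm hab ha2 hb2
      refine ⟨ℓ, hℓ, ?_⟩
      have h6 : mm (part a) ℓ a ≠ a := by
        rw [h5]
        exact hab.ne'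
      rw [Glm_e2 (Glm_fr hU hpm ha'.le hℓ h6) ha'.le, h5]
    · obtain ⟨ℓ, hℓ, h5⟩ := hx a b hab ha' hb' hpp
      refine ⟨ℓ, hℓ, ?_⟩
      have h6 : τ ℓ a ≠ a := by
        rw [h5]
        exact hab.ne'
      rw [Glm_e1 h6, h5]

end

theorem glm {V : Type} [Fintype V] (G : SimpleGraph V) (Δ p k' L k : ℕ) (hp : 1 ≤ p)
    (hL : k' + p - 1 ≤ L) (hL2 : L + 1 ≤ Δ + 2 * p) (c : V → ℕ) (hc : ∀ v, c v < k')
    (hprop : ∀ u v, G.Adj u v → c u ≠ c v) (hΔ : ∀ v, dg G v ≤ Δ)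
    (part : V → ℕ) (hpart : ∀ v, part v ≤ k + 1)
    (τ : ℕ → V → V) (hτ : PM G L (Wn c p) τ)
    (hτ2 : ∀ ℓ < L, ∀ v, τ ℓ v ≠ v → part (τ ℓ v) ≠ part v)
    (hLo : ∀ v, part v = k + 1 →
      dg G v + ((range L).filter fun ℓ => τ ℓ v = v).card + 1 ≤ Δ + 2 * p)
    (hx : ∀ a b, G.Adj a b → part a < k → part b < k → part a ≠ part b →
      ∃ ℓ < L, τ ℓ a = b)
    (mm : ℕ → ℕ → V → V)
    (hcl : ∀ i < k, Ccl G L (pt part i)
      (fun ℓ => univ.filter fun v => v ∈ Wn c p ℓ ∨ τ ℓ v ≠ v) (mm i))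
    (hop : Cop G Δ L (pt part k)
      (fun ℓ => univ.filter fun v => v ∈ Wn c p ℓ ∨ τ ℓ v ≠ v) (mm k)) :
    H70.HY.HYLab G Δ p := by
  refine Glm_aux Δ k' hp hL hL2 hc hprop hΔ hpart hτ hτ2 hLo hx (fun ℓ v => ?_) hcl hop
  rw [Finset.mem_filter]
  simp only [Finset.mem_univ, true_and]

end Pool.Agent.H71.DC
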