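import Mathlib
import Pool.Agent.H71.HL.M1
import Pool.Agent.H71.DC.Defs2

/-!
LOS: the partition given by a family of closed sets; sizes of closed sets; a pigeonhole argument. (`m1_ee, m1_ee', m1_count` of `HL/M1.lean`: `ee G A B = ∑ v ∈ A, dgi G B v = ∑ v ∈ B, dgi G A v`, and Markov's inequality.)

`los`.  `n := card V`. `Lo := {v : ∃ i < k, (v ∈ Q i ∧ dgi G (Q i) v + ρ1 n < Δ) ∨ (v ∉ Q i ∧ ρ1 n ≤ dgi G (Q i) v)}`. For each `i < k`: `∑ v ∈ Q i, (Δ - dgi G (Q i) v) = Δ #(Q i) - ee G (Q i) (Q i) ≤ η n²` with non-negative summands, so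
`#{v ∈ Q i : ρ1 n < Δ - dgi G (Q i) v} ρ1 n ≤ η n²`. `∑ v ∉ Q i, dgi G (Q i) v = ee G (univ \ Q i) (Q i) = ∑ v ∈ Q i, dgi G (univ \ Q i) v ≤ ∑ v ∈ Q i, (Δ - dgi G (Q i) v) ≤ η n²` (`dg G v ≤ Δ`). So `#Lo ρ1 n ≤ 2 k η n² ≤ ρ1 ρ n²` and
`#Lo ≤ ρ n` (if `n = 0` all is trivial). `part v := k + 1` for `v ∈ Lo`, the `i < k` with `v ∈ Q i` (unique, `hQ.dis`) if `v ∉ Lo` is in one of them, and `k` otherwise. `pt part i = Q i \ Lo`.
 * `part v = i < k`: `Δ ≤ dgi G (Q i) v + ρ1 n ≤ dgi G (Q i \ Lo) v + #Lo + ρ1 n`.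
 * `part v = k`: the neighbours of `v` in `Q i`, `i < k`, are fewer than `ρ1 n` each, at most `ρ n` are in `Lo`, the others in `pt part k`.

`ncs`.  Suppose `#S ≤ (1 + γ) Δ`. `NCq`: `Δ #S ≤ (1 - γ) Δ² + η n²`. `ee G S S ≤ #S²`: `#S (Δ - #S) ≤ η n²`, so `Δ - #S ≤ (2 η/c) n` and `Δ² ≤ Δ #S + (2 η/c) n Δ ≤ (1 - γ) Δ² + η n² + (2 η/c) n Δ`. With `n ≤ Δ/c`: `γ Δ² ≤ (3 η/c²) Δ² ≤ (3/4) γ Δ²`, a
contradiction.

`pgh`.  The intervals `(2 - ε0 / 16^j, 2 - ε0 / 16^(j + 1))`, `j ≤ m`, are disjoint; each `x i`, `i < k ≤ m`, is in at most one of them.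
-/

set_option autoImplicit false

namespace Pool.Agent.H71.DC

open Finset Classical
open Pool.Agent.H71.DN Pool.Agent.H71.DX Pool.Agent.H71.DR Pool.Agent.H71.HL

private theorem los_add {V : Type} [Fintype V] (G : SimpleGraph V) (S : Finset V) (v : V) :
    dgi G (univ \ S) v + dgi G S v = dg G v := by
  unfold dgi dg
  rw [← card_union_of_disjoint]
  · congr 1
    ext u
    simp only [mem_union, mem_filter, mem_sdiff, mem_univ, true_and]
    tauto
  · rw [disjoint_left]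
    intro u hu hu'
    rw [mem_filter, mem_sdiff] at hu
    exact hu.1.2 (mem_filter.1 hu').1

/-- the vertices with bad degree to one closed set -/
private theorem los_one {V : Type} [Fintype V] (G : SimpleGraph V) (Δ : ℕ) (t E : ℝ)
    (Q : Finset V) (hQ : (Δ : ℝ) * Q.card ≤ ee G Q Q + E) (hΔ : ∀ v, dg G v ≤ Δ) :
    (((Q.filter fun v => (dgi G Q v : ℝ) + t < Δ) ∪
      ((univ \ Q).filter fun v => t ≤ (dgi G Q v : ℝ))).card : ℝ) * t ≤ 2 * E ∨ t < 0 := by
  rcases lt_or_ge t 0 with ht | ht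
  · exact Or.inr ht
  left
  have hsum : ∑ v ∈ Q, ((Δ : ℝ) - dgi G Q v) ≤ E := by
    rw [sum_sub_distrib, sum_const, nsmul_eq_mul]
    have h1 : (ee G Q Q : ℝ) = ∑ v ∈ Q, (dgi G Q v : ℝ) := by
      rw [m1_ee]
      push_cast
      rfl
    rw [← h1]
    linarith
  have hdg : ∀ v, (dgi G (univ \ Q) v : ℝ) + dgi G Q v ≤ Δ := fun v => by
    have h1 := los_add G Q v
    have h2 := hΔ v
    have h3 : dgi G (univ \ Q) v + dgi G Q v ≤ Δ := by omega
    exact_mod_cast h3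
  have h1 : ((Q.filter fun v => (dgi G Q v : ℝ) + t < Δ).card : ℝ) * t ≤ E := by
    refine le_trans ?_ hsum
    have h2 : ((Q.filter fun v => (dgi G Q v : ℝ) + t < Δ).card : ℝ) * t ≤
        ∑ v ∈ Q.filter (fun v => (dgi G Q v : ℝ) + t < Δ), ((Δ : ℝ) - dgi G Q v) := by
      rw [← nsmul_eq_mul]
      refine card_nsmul_le_sum _ _ _ fun v hv => ?_
      have := (mem_filter.1 hv).2
      linarith
    refine h2.trans (sum_le_sum_of_subset_of_nonneg (filter_subset _ _) ?_)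
    intro v _ _
    have h3 := hdg v
    have h4 : (0 : ℝ) ≤ dgi G (univ \ Q) v := Nat.cast_nonneg _
    linarith
  have h2 : (((univ \ Q).filter fun v => t ≤ (dgi G Q v : ℝ)).card : ℝ) * t ≤ E := by
    refine m1_count G (univ \ Q) Q t E ?_
    have h3 : ∑ v ∈ univ \ Q, (dgi G Q v : ℝ) = ∑ v ∈ Q, (dgi G (univ \ Q) v : ℝ) := by
      have h4 := (m1_ee G (univ \ Q) Q).symm.trans (m1_ee' G (univ \ Q) Q)
      exact_mod_cast h4
    rw [h3]
    refine (sum_le_sum fun v _ => ?_).trans hsum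
    have h3 := hdg v
    linarith
  have h3 := card_union_le (Q.filter fun v => (dgi G Q v : ℝ) + t < Δ)
    ((univ \ Q).filter fun v => t ≤ (dgi G Q v : ℝ))
  have h4 : (((Q.filter fun v => (dgi G Q v : ℝ) + t < Δ) ∪
      ((univ \ Q).filter fun v => t ≤ (dgi G Q v : ℝ))).card : ℝ) ≤
      ((Q.filter fun v => (dgi G Q v : ℝ) + t < Δ).card : ℝ) +
      (((univ \ Q).filter fun v => t ≤ (dgi G Q v : ℝ)).card : ℝ) := by exact_mod_cast h3
  have h5 := mul_le_mul_of_nonneg_right h4 ht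
  linarith

private theorem los_part {V : Type} (k : ℕ) (Q : ℕ → Finset V) (Lo : Finset V)
    (dis : ∀ i < k, ∀ j < k, i ≠ j → Disjoint (Q i) (Q j)) :
    ∃ part : V → ℕ, (∀ v, part v ≤ k + 1) ∧ (∀ v, part v = k + 1 ↔ v ∈ Lo) ∧
      (∀ i < k, ∀ v, part v = i ↔ v ∈ Q i ∧ v ∉ Lo) ∧
      ∀ v, part v = k → ∀ i < k, v ∉ Q i := by
  have hp : ∀ v, ∃ p : ℕ, p ≤ k + 1 ∧ (p = k + 1 ↔ v ∈ Lo) ∧
      (∀ i < k, (p = i ↔ v ∈ Q i ∧ v ∉ Lo)) ∧ (p = k → ∀ i < k, v ∉ Q i) := by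
    intro v
    by_cases h1 : v ∈ Lo
    · refine ⟨k + 1, le_rfl, ⟨fun _ => h1, fun _ => rfl⟩, fun i hi => ⟨?_, ?_⟩, ?_⟩
      · intro h
        omega
      · intro h
        exact absurd h1 h.2
      · intro h
        omega
    · by_cases h2 : ∃ i < k, v ∈ Q i
      · obtain ⟨i, hi, hv⟩ := h2
        refine ⟨i, by omega, ⟨fun h => by omega, fun h => absurd h h1⟩, fun j hj => ⟨?_, ?_⟩, ?_⟩
        · rintro rfl
          exact ⟨hv, h1⟩
        · intro h
          by_contra hij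
          exact disjoint_left.1 (dis i hi j hj hij) hv h.1
        · intro h
          omega
      · push Not at h2
        refine ⟨k, by omega, ⟨fun h => by omega, fun h => absurd h h1⟩, fun j hj => ⟨?_, ?_⟩, ?_⟩
        · intro h
          omega
        · intro h
          exact absurd h.1 (h2 j hj)
        · intro _
          exact h2
  choose part a1 a2 a3 a4 using hp
  exact ⟨part, a1, a2, fun i hi v => a3 v i hi, a4⟩

private theorem los_bi {V : Type} (G : SimpleGraph V) (Q : ℕ → Finset V) (k : ℕ) (v : V) :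
    dgi G ((range k).biUnion Q) v ≤ ∑ i ∈ range k, dgi G (Q i) v := by
  unfold dgi
  rw [filter_biUnion]
  exact card_biUnion_le

private theorem los_sub {V : Type} (G : SimpleGraph V) (S T L : Finset V) (v : V)
    (h : S ⊆ T ∪ L) : dgi G S v ≤ dgi G T v + L.card := by
  unfold dgi
  have h1 : (S.filter fun u => G.Adj v u) ⊆ (T.filter fun u => G.Adj v u) ∪ L := by
    intro u hu
    rw [mem_filter] at hu
    rw [mem_union, mem_filter]
    rcases mem_union.1 (h hu.1) with h2 | h2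
    · exact Or.inl ⟨h2, hu.2⟩
    · exact Or.inr h2
  exact (card_le_card h1).trans (card_union_le _ _)

theorem los {V : Type} [Fintype V] (G : SimpleGraph V) (Δ k : ℕ) (c η ρ1 ρ : ℝ)
    (Q : ℕ → Finset V) (hQ : Clo G Δ c η k Q) (hΔ : ∀ v, dg G v ≤ Δ) (hρ1 : 0 < ρ1)
    (hη0 : 0 ≤ η) (hη : 2 * k * η ≤ ρ1 * ρ) :
    ∃ part : V → ℕ, (∀ v, part v ≤ k + 1) ∧
      (∀ i < k, pt part i = Q i \ pt part (k + 1)) ∧
      ((pt part (k + 1)).card : ℝ) ≤ ρ * Fintype.card V ∧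
      (∀ v, part v < k →
        (Δ : ℝ) ≤ dgi G (pt part (part v)) v + (ρ1 + ρ) * Fintype.card V) ∧
      (∀ v, part v = k →
        (dg G v : ℝ) ≤ dgi G (pt part k) v + (k * ρ1 + ρ) * Fintype.card V) ∧
      ∀ v, part v = k → ∀ i < k, v ∉ Q i := by
  obtain ⟨n, hn⟩ : ∃ n : ℝ, n = Fintype.card V := ⟨_, rfl⟩
  have hn0 : 0 ≤ n := by
    rw [hn]
    exact Nat.cast_nonneg _
  obtain ⟨Lo, hLo⟩ : ∃ Lo : Finset V, Lo = (range k).biUnion fun i =>
      ((Q i).filter fun v => (dgi G (Q i) v : ℝ) + ρ1 * n < Δ) ∪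
      ((univ \ Q i).filter fun v => ρ1 * n ≤ (dgi G (Q i) v : ℝ)) := ⟨_, rfl⟩
  have hLoc : (Lo.card : ℝ) ≤ ρ * n := by
    rcases Nat.eq_zero_or_pos (Fintype.card V) with hV | hV
    · have h1 : Lo.card ≤ 0 := by
        rw [← hV]
        exact card_le_univ Lo
      have h2 : Lo.card = 0 := by omega
      rw [h2, hn, hV]
      simp
    · have hnp : 0 < n := by
        rw [hn]
        exact_mod_cast hV
      have h1 : (Lo.card : ℝ) * (ρ1 * n) ≤ k * (2 * (η * n ^ 2)) := by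
        have h2 : Lo.card ≤ ∑ i ∈ range k,
            (((Q i).filter fun v => (dgi G (Q i) v : ℝ) + ρ1 * n < Δ) ∪
            ((univ \ Q i).filter fun v => ρ1 * n ≤ (dgi G (Q i) v : ℝ))).card := by
          rw [hLo]
          exact card_biUnion_le
        have h2r : (Lo.card : ℝ) ≤ ∑ i ∈ range k,
            ((((Q i).filter fun v => (dgi G (Q i) v : ℝ) + ρ1 * n < Δ) ∪
            ((univ \ Q i).filter fun v => ρ1 * n ≤ (dgi G (Q i) v : ℝ))).card : ℝ) := by
          exact_mod_cast h2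
        have hpos : 0 < ρ1 * n := mul_pos hρ1 hnp
        have h3 := mul_le_mul_of_nonneg_right h2r hpos.le
        rw [sum_mul] at h3
        refine h3.trans ?_
        have h4 : ∑ _i ∈ range k, 2 * (η * n ^ 2) = (k : ℝ) * (2 * (η * n ^ 2)) := by
          rw [sum_const, card_range, nsmul_eq_mul]
        rw [← h4]
        refine sum_le_sum fun i hi => ?_
        have h5 := hQ.clo i (mem_range.1 hi)
        rw [← hn] at h5
        rcases los_one G Δ (ρ1 * n) (η * n ^ 2) (Q i) h5 hΔ with h6 | h6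
        · exact h6
        · exact absurd h6 (not_lt.2 hpos.le)
      have h2 : (k : ℝ) * (2 * (η * n ^ 2)) ≤ (ρ * n) * (ρ1 * n) := by
        have h3 : 2 * (k : ℝ) * η * n ^ 2 ≤ ρ1 * ρ * n ^ 2 :=
          mul_le_mul_of_nonneg_right hη (by positivity)
        linarith
      exact le_of_mul_le_mul_right (h1.trans h2) (mul_pos hρ1 hnp)
  have hgood1 : ∀ i < k, ∀ v ∈ Q i, v ∉ Lo → (Δ : ℝ) ≤ dgi G (Q i) v + ρ1 * n := by
    intro i hi v hv hvL
    by_contra hcon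
    rw [not_le] at hcon
    apply hvL
    rw [hLo, mem_biUnion]
    exact ⟨i, mem_range.2 hi, mem_union_left _ (mem_filter.2 ⟨hv, hcon⟩)⟩
  have hgood2 : ∀ i < k, ∀ v, v ∉ Q i → v ∉ Lo → (dgi G (Q i) v : ℝ) ≤ ρ1 * n := by
    intro i hi v hv hvL
    by_contra hcon
    rw [not_le] at hcon
    apply hvL
    rw [hLo, mem_biUnion]
    exact ⟨i, mem_range.2 hi, mem_union_right _ (mem_filter.2
      ⟨mem_sdiff.2 ⟨mem_univ _, hv⟩, hcon.le⟩)⟩
  obtain ⟨part, p1, p2, p3, p4⟩ := los_part k Q Lo hQ.dis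
  have hpL : pt part (k + 1) = Lo := by
    ext v
    unfold pt
    rw [mem_filter, p2]
    exact ⟨fun h => h.2, fun h => ⟨mem_univ _, h⟩⟩
  rw [← hn]
  refine ⟨part, p1, ?_, ?_, ?_, ?_, p4⟩
  · intro i hi
    rw [hpL]
    ext v
    unfold pt
    rw [mem_filter, p3 i hi, mem_sdiff]
    exact ⟨fun h => h.2, fun h => ⟨mem_univ _, h⟩⟩
  · rw [hpL]
    exact hLoc
  · intro v hv
    obtain ⟨h1, h2⟩ := (p3 (part v) hv v).1 rfl
    have h3 := hgood1 (part v) hv v h1 h2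
    have h4 : dgi G (Q (part v)) v ≤ dgi G (pt part (part v)) v + Lo.card := by
      refine los_sub G _ _ _ v fun u hu => ?_
      rw [mem_union]
      by_cases h5 : u ∈ Lo
      · exact Or.inr h5
      · left
        unfold pt
        rw [mem_filter]
        exact ⟨mem_univ _, (p3 (part v) hv u).2 ⟨hu, h5⟩⟩
    have h4r : (dgi G (Q (part v)) v : ℝ) ≤ dgi G (pt part (part v)) v + Lo.card := by
      exact_mod_cast h4
    linarith
  · intro v hv
    have hvL : v ∉ Lo := by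
      intro h
      have := (p2 v).2 h
      omega
    have h1 := m1_dg G (pt part k) Lo ((range k).biUnion Q) (fun u hu => by
      by_cases h5 : u ∈ Lo
      · exact Or.inl h5
      · right
        have h6 : part u ≠ k := fun h => hu (by
          unfold pt
          rw [mem_filter]
          exact ⟨mem_univ _, h⟩)
        have h7 : part u ≠ k + 1 := fun h => h5 ((p2 u).1 h)
        have h8 := p1 u
        have h9 : part u < k := by omega
        rw [mem_biUnion]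
        exact ⟨part u, mem_range.2 h9, ((p3 (part u) h9 u).1 rfl).1⟩) v
    have h2 := los_bi G Q k v
    have h3 : (dg G v : ℝ) ≤ dgi G (pt part k) v + Lo.card + ∑ i ∈ range k, (dgi G (Q i) v : ℝ) := by
      have h4 := h1.trans (Nat.add_le_add_left h2 _)
      exact_mod_cast h4
    have h5 : ∑ i ∈ range k, (dgi G (Q i) v : ℝ) ≤ k * (ρ1 * n) := by
      have h6 : ∑ _i ∈ range k, ρ1 * n = (k : ℝ) * (ρ1 * n) := by
        rw [sum_const, card_range, nsmul_eq_mul]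
      rw [← h6]
      refine sum_le_sum fun i hi => ?_
      exact hgood2 i (mem_range.1 hi) v (p4 v hv i (mem_range.1 hi)) hvL
    linarith

theorem ncs {V : Type} [Fintype V] (G : SimpleGraph V) (Δ : ℕ) (n c γ η : ℝ) (hn : 0 < n)
    (hc : 0 < c) (hγ : 0 < γ) (hη0 : 0 ≤ η) (hcΔ : c * n ≤ Δ) (hNC : NCq G Δ γ)
    (hη : 4 * η ≤ γ * c ^ 2) (S : Finset V) (hS : c / 2 * n ≤ (S.card : ℝ))
    (h : (Δ : ℝ) * S.card ≤ ee G S S + η * n ^ 2) :
    (1 + γ) * (Δ : ℝ) < S.card := by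
  by_contra hcon
  rw [not_lt] at hcon
  have h1 := hNC S hcon
  have h2 : (ee G S S : ℝ) ≤ (S.card : ℝ) ^ 2 := by
    have h3 : ee G S S ≤ S.card * S.card := by
      unfold ee
      exact (card_filter_le _ _).trans (le_of_eq (card_product S S))
    have h4 : (ee G S S : ℝ) ≤ (S.card : ℝ) * S.card := by exact_mod_cast h3
    rw [sq]
    exact h4
  obtain ⟨D, hD⟩ : ∃ D : ℝ, D = (Δ : ℝ) := ⟨_, rfl⟩
  obtain ⟨s, hs⟩ : ∃ s : ℝ, s = (S.card : ℝ) := ⟨_, rfl⟩
  rw [← hD] at h1 hcon hcΔ h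
  rw [← hs] at hcon hS h h2
  have hcn : 0 < c * n := mul_pos hc hn
  have hD0 : 0 < D := lt_of_lt_of_le hcn hcΔ
  have h3 : s * (D - s) ≤ η * n ^ 2 := by nlinarith
  have h4 : c * (D - s) ≤ 2 * η * n := by
    rcases le_total (D - s) 0 with h5 | h5
    · have h6 : c * (D - s) ≤ 0 := mul_nonpos_of_nonneg_of_nonpos hc.le h5
      have h7 : 0 ≤ 2 * η * n := by positivity
      linarith
    · have h6 : c / 2 * n * (D - s) ≤ s * (D - s) := mul_le_mul_of_nonneg_right hS h5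
      have h7 : (c * (D - s)) * n ≤ (2 * η * n) * n := by nlinarith
      exact le_of_mul_le_mul_right h7 hn
  have h5 : c * (D ^ 2 - D * s) ≤ 2 * η * n * D := by
    have h6 := mul_le_mul_of_nonneg_right h4 hD0.le
    nlinarith
  have h6 : γ * D ^ 2 ≤ η * n ^ 2 + (D ^ 2 - D * s) := by nlinarith
  have h7 : c ^ 2 * (γ * D ^ 2) ≤ η * (c * n) ^ 2 + 2 * η * (c * n) * D := by
    have h8 := mul_le_mul_of_nonneg_left h6 (sq_nonneg c)
    have h9 := mul_le_mul_of_nonneg_left h5 hc.le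
    nlinarith
  have h8 : (c * n) ^ 2 ≤ D ^ 2 := pow_le_pow_left₀ hcn.le hcΔ 2
  have h9 : (c * n) * D ≤ D ^ 2 := by nlinarith
  have h10 : η * (c * n) ^ 2 ≤ η * D ^ 2 := mul_le_mul_of_nonneg_left h8 hη0
  have h11 : 2 * η * ((c * n) * D) ≤ 2 * η * D ^ 2 := mul_le_mul_of_nonneg_left h9 (by linarith)
  have h12 : 4 * η * D ^ 2 ≤ γ * c ^ 2 * D ^ 2 := mul_le_mul_of_nonneg_right hη (by positivity)
  have h13 : 0 < γ * c ^ 2 * D ^ 2 := by positivity
  nlinarith

theorem pgh (m k : ℕ) (hk : k ≤ m) (x : ℕ → ℝ) (ε0 : ℝ) (h0 : 0 < ε0) :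
    ∃ j ≤ m, ∀ i < k, x i ≤ 2 - ε0 / 16 ^ j ∨ 2 - ε0 / 16 ^ (j + 1) ≤ x i := by
  by_contra hcon
  push Not at hcon
  have hf : ∀ j : ℕ, ∃ i : ℕ, j ≤ m → i < k ∧ 2 - ε0 / 16 ^ j < x i ∧
      x i < 2 - ε0 / 16 ^ (j + 1) := by
    intro j
    by_cases hj : j ≤ m
    · obtain ⟨i, h1, h2, h3⟩ := hcon j hj
      exact ⟨i, fun _ => ⟨h1, h2, h3⟩⟩
    · exact ⟨0, fun h => absurd h hj⟩
  choose f hf using hf
  have hlt : ∀ j j' : ℕ, j < j' → j ≤ m → j' ≤ m → f j ≠ f j' := by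
    intro j j' hjj hj hj' he
    have h1 := (hf j hj).2.2
    have h2 := (hf j' hj').2.1
    rw [← he] at h2
    have h3 : ε0 / 16 ^ j' ≤ ε0 / 16 ^ (j + 1) := by
      refine div_le_div_of_nonneg_left h0.le (by positivity) ?_
      exact pow_le_pow_right₀ (by norm_num) hjj
    linarith
  obtain ⟨a, ha, b, hb, hab, he⟩ := exists_ne_map_eq_of_card_lt_of_maps_to
    (s := range (m + 1)) (t := range k) (f := f) (by
      rw [card_range, card_range]
      omega) (fun j hj => by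
      have hj' : j ≤ m := by
        have := mem_range.1 hj
        omega
      exact mem_coe.2 (mem_range.2 (hf j hj').1))
  have ha' : a ≤ m := by
    have := mem_range.1 ha
    omega
  have hb' : b ≤ m := by
    have := mem_range.1 hb
    omega
  rcases lt_or_gt_of_ne hab with h | h
  · exact hlt a b h ha' hb' he
  · exact hlt b a h hb' ha' he.symm

end Pool.Agent.H71.DC
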