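import Mathlib
import Pool.Agent.H71.HL.Lot
import Pool.Agent.H71.DC.Defs2

/-!
LOTM: greedy partners of the vertices of `Lo` from several pools. Generalisation of `lot` (`HL/Lot.lean`, proved; two pools); `lot_aux` there is general enough and can be used.

For the label `ℓ` the vertex `x ∈ Lo` gets a partner among its neighbours in the pool `P j` if `m x ℓ = j < K`, and no partner if `K ≤ m x ℓ`. `W ℓ` are forbidden vertices.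

Proof.  `lot_aux` with `Pl x j := (P j).filter (G.Adj x ·)` (`#(Pl x j) = dgi G (P j) x`), `P := fun j => j < K` gives `f x ℓ` with: `f x ℓ ∈ Pl x (m x ℓ)`, `f x ℓ ∉ W ℓ`; same pool: different for different labels; `f x ℓ ≠ f y ℓ` for
`x ≠ y`. For different pools: `P i` and `P j` are disjoint, so for `x ∈ Lo` and `ℓ ≠ ℓ'` (both with a partner) `f x ℓ ≠ f x ℓ'`. The `f x ℓ` are not in `Lo`. `τ ℓ v := ` if `v ∈ Lo` and `m v ℓ < K` then `f v ℓ`, else if there is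
`x ∈ Lo` with `m x ℓ < K` and `f x ℓ = v` then this `x`, else `v`. The rest as in `lot`.
-/

set_option autoImplicit false

namespace Pool.Agent.H71.DC

open Finset Classical
open Pool.Agent.H71.DN Pool.Agent.H71.DX Pool.Agent.H71.DR Pool.Agent.H71.HL

theorem lotm {V : Type} [Fintype V] (G : SimpleGraph V) (Lo : Finset V) (L w K : ℕ)
    (P : ℕ → Finset V) (hP : ∀ i < K, ∀ j < K, i ≠ j → Disjoint (P i) (P j))
    (hPL : ∀ i < K, Disjoint Lo (P i)) (m : V → ℕ → ℕ) (W : ℕ → Finset V)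
    (hmW : ∀ ℓ < L, ∀ x ∈ Lo, x ∈ W ℓ → K ≤ m x ℓ)
    (hW : ∀ ℓ < L, (W ℓ).card ≤ w)
    (h : ∀ x ∈ Lo, ∀ ℓ < L, m x ℓ < K →
      ((range L).filter fun ℓ' => m x ℓ' = m x ℓ).card + w + Lo.card ≤
        dgi G (P (m x ℓ)) x) :
    ∃ τ : ℕ → V → V, PM G L W τ ∧
      (∀ ℓ < L, ∀ x ∈ Lo, m x ℓ < K → τ ℓ x ∈ P (m x ℓ)) ∧
      (∀ ℓ < L, ∀ x ∈ Lo, K ≤ m x ℓ → τ ℓ x = x) ∧
      (∀ ℓ < L, ∀ v, v ∉ Lo → τ ℓ v ≠ v → τ ℓ v ∈ Lo) ∧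
      (∀ ℓ < L, ∀ j < K,
        ((P j).filter fun v => τ ℓ v ≠ v).card = (Lo.filter fun x => m x ℓ = j).card) ∧
      (∀ v, v ∉ Lo → ((range L).filter fun ℓ => τ ℓ v ≠ v).card ≤ Lo.card) := by
  obtain ⟨f, hf1, hf2, hf3⟩ := lot_aux Lo L w (fun x j => (P j).filter fun u => G.Adj x u) m
    (fun k => k < K) W hW (by
      intro x hx ℓ hℓ hp
      exact h x hx ℓ hℓ hp)
  have hfP : ∀ x ∈ Lo, ∀ ℓ < L, m x ℓ < K → f x ℓ ∈ P (m x ℓ) := by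
    intro x hx ℓ hℓ hp
    exact (Finset.mem_filter.1 (hf1 x hx ℓ hℓ hp).1).1
  have hfAdj : ∀ x ∈ Lo, ∀ ℓ < L, m x ℓ < K → G.Adj x (f x ℓ) := by
    intro x hx ℓ hℓ hp
    exact (Finset.mem_filter.1 (hf1 x hx ℓ hℓ hp).1).2
  have hfLo : ∀ x ∈ Lo, ∀ ℓ < L, m x ℓ < K → f x ℓ ∉ Lo := by
    intro x hx ℓ hℓ hp h0
    exact Finset.disjoint_left.1 (hPL _ hp) h0 (hfP x hx ℓ hℓ hp)
  have hfW : ∀ x ∈ Lo, ∀ ℓ < L, m x ℓ < K → f x ℓ ∉ W ℓ :=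
    fun x hx ℓ hℓ hp => (hf1 x hx ℓ hℓ hp).2
  have hf2' : ∀ x ∈ Lo, ∀ ℓ < L, ∀ ℓ' < L, m x ℓ < K →
      m x ℓ' < K → f x ℓ = f x ℓ' → ℓ = ℓ' := by
    intro x hx ℓ hℓ ℓ' hℓ' hp hp' he
    by_cases hm : m x ℓ = m x ℓ'
    · exact hf2 x hx ℓ hℓ ℓ' hℓ' hp hm he
    · exfalso
      have a := hfP x hx ℓ hℓ hp
      have b := hfP x hx ℓ' hℓ' hp'
      rw [he] at a
      exact Finset.disjoint_left.1 (hP _ hp _ hp' hm) a b
  obtain ⟨τ, hτ⟩ : ∃ τ : ℕ → V → V, ∀ ℓ v, τ ℓ v =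
      if v ∈ Lo ∧ m v ℓ < K then f v ℓ
      else if h : ∃ x, x ∈ Lo ∧ m x ℓ < K ∧ f x ℓ = v then h.choose else v :=
    ⟨_, fun _ _ => rfl⟩
  have T1 : ∀ ℓ < L, ∀ v ∈ Lo, m v ℓ < K → τ ℓ v = f v ℓ := by
    intro ℓ hℓ v hv hp
    rw [hτ, if_pos ⟨hv, hp⟩]
  have T2 : ∀ ℓ < L, ∀ x ∈ Lo, m x ℓ < K → τ ℓ (f x ℓ) = x := by
    intro ℓ hℓ x hx hp
    have hn : ¬ (f x ℓ ∈ Lo ∧ m (f x ℓ) ℓ < K) :=
      fun h => hfLo x hx ℓ hℓ hp h.1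
    have he : ∃ y, y ∈ Lo ∧ m y ℓ < K ∧ f y ℓ = f x ℓ := ⟨x, hx, hp, rfl⟩
    rw [hτ, if_neg hn, dif_pos he]
    have hs := he.choose_spec
    exact hf3 _ hs.1 x hx ℓ hℓ hs.2.1 hp hs.2.2
  have T3 : ∀ ℓ < L, ∀ v, (v ∈ Lo ∧ m v ℓ < K) ∨
      (∃ x, x ∈ Lo ∧ m x ℓ < K ∧ f x ℓ = v) ∨ τ ℓ v = v := by
    intro ℓ hℓ v
    by_cases c1 : v ∈ Lo ∧ m v ℓ < K
    · exact Or.inl c1
    · by_cases c2 : ∃ x, x ∈ Lo ∧ m x ℓ < K ∧ f x ℓ = v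
      · exact Or.inr (Or.inl c2)
      · right; right
        rw [hτ, if_neg c1, dif_neg c2]
  have hdis : ∀ ℓ < L, ∀ ℓ' < L, ℓ ≠ ℓ' → ∀ v, τ ℓ v ≠ v → τ ℓ v ≠ τ ℓ' v := by
    intro ℓ hℓ ℓ' hℓ' hne v hv he
    have hv' : τ ℓ' v ≠ v := he ▸ hv
    rcases T3 ℓ hℓ v with c | ⟨x, hx, hp, hfx⟩ | c
    · rcases T3 ℓ' hℓ' v with c' | ⟨x', hx', hp', hfx'⟩ | c'
      · rw [T1 ℓ hℓ v c.1 c.2, T1 ℓ' hℓ' v c'.1 c'.2] at he
        exact hne (hf2' v c.1 ℓ hℓ ℓ' hℓ' c.2 c'.2 he)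
      · exact hfLo x' hx' ℓ' hℓ' hp' (hfx'.symm ▸ c.1)
      · exact hv' c'
    · rcases T3 ℓ' hℓ' v with c' | ⟨x', hx', hp', hfx'⟩ | c'
      · exact hfLo x hx ℓ hℓ hp (hfx.symm ▸ c'.1)
      · have e1 : τ ℓ v = x := by rw [← hfx]; exact T2 ℓ hℓ x hx hp
        have e2 : τ ℓ' v = x' := by rw [← hfx']; exact T2 ℓ' hℓ' x' hx' hp'
        have e3 : x = x' := by rw [← e1, ← e2, he]
        subst e3
        exact hne (hf2' x hx ℓ hℓ ℓ' hℓ' hp hp' (hfx.trans hfx'.symm))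
      · exact hv' c'
    · exact hv c
  refine ⟨τ, ⟨?_, ?_, hdis, ?_⟩, ?_, ?_, ?_, ?_, ?_⟩
  · intro ℓ hℓ v
    rcases T3 ℓ hℓ v with c | ⟨x, hx, hp, hfx⟩ | c
    · rw [T1 ℓ hℓ v c.1 c.2, T2 ℓ hℓ v c.1 c.2]
    · rw [← hfx, T2 ℓ hℓ x hx hp, T1 ℓ hℓ x hx hp]
    · rw [c, c]
  · intro ℓ hℓ v hv
    rcases T3 ℓ hℓ v with c | ⟨x, hx, hp, hfx⟩ | c
    · rw [T1 ℓ hℓ v c.1 c.2]
      exact hfAdj v c.1 ℓ hℓ c.2
    · rw [← hfx, T2 ℓ hℓ x hx hp]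
      exact (hfAdj x hx ℓ hℓ hp).symm
    · exact absurd c hv
  · intro ℓ hℓ v hv
    rcases T3 ℓ hℓ v with c | ⟨x, hx, hp, hfx⟩ | c
    · have h0 := hmW ℓ hℓ v c.1 hv
      exact absurd c.2 (not_lt.2 h0)
    · exact absurd (hfx.symm ▸ hv) (hfW x hx ℓ hℓ hp)
    · exact c
  · intro ℓ hℓ x hx hm
    rw [T1 ℓ hℓ x hx hm]
    exact hfP x hx ℓ hℓ hm
  · intro ℓ hℓ x hx hm
    rcases T3 ℓ hℓ x with c | ⟨y, hy, hp, hfy⟩ | c
    · exact absurd c.2 (not_lt.2 hm)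
    · exact absurd (hfy.symm ▸ hx) (hfLo y hy ℓ hℓ hp)
    · exact c
  · intro ℓ hℓ v hv hne
    rcases T3 ℓ hℓ v with c | ⟨x, hx, hp, hfx⟩ | c
    · exact absurd c.1 hv
    · rw [← hfx, T2 ℓ hℓ x hx hp]
      exact hx
    · exact absurd c hne
  · intro ℓ hℓ j hj
    have himg : ((P j).filter fun v => τ ℓ v ≠ v) =
        (Lo.filter fun x => m x ℓ = j).image fun x => f x ℓ := by
      ext v
      rw [Finset.mem_filter, Finset.mem_image]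
      constructor
      · rintro ⟨hvP, hne⟩
        rcases T3 ℓ hℓ v with c | ⟨x, hx, hp, hfx⟩ | c
        · exact absurd hvP (Finset.disjoint_left.1 (hPL j hj) c.1)
        · refine ⟨x, Finset.mem_filter.2 ⟨hx, ?_⟩, hfx⟩
          by_contra hmj
          have a := hfP x hx ℓ hℓ hp
          rw [hfx] at a
          exact Finset.disjoint_left.1 (hP _ hp _ hj hmj) a hvP
        · exact absurd c hne
      · rintro ⟨x, hx, hfx⟩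
        rw [Finset.mem_filter] at hx
        have hxK : m x ℓ < K := by rw [hx.2]; exact hj
        have hl := hfLo x hx.1 ℓ hℓ hxK
        have ht := T2 ℓ hℓ x hx.1 hxK
        have hc := hfP x hx.1 ℓ hℓ hxK
        rw [hfx] at hl ht hc
        rw [hx.2] at hc
        refine ⟨hc, ?_⟩
        rw [ht]
        intro h
        exact hl (h ▸ hx.1)
    rw [himg]
    apply Finset.card_image_of_injOn
    intro x hx y hy he
    have hx' := Finset.mem_filter.1 (Finset.mem_coe.1 hx)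
    have hy' := Finset.mem_filter.1 (Finset.mem_coe.1 hy)
    have hxK : m x ℓ < K := by rw [hx'.2]; exact hj
    have hyK : m y ℓ < K := by rw [hy'.2]; exact hj
    exact hf3 x hx'.1 y hy'.1 ℓ hℓ hxK hyK he
  · intro v hv
    apply Finset.card_le_card_of_injOn (fun ℓ => τ ℓ v)
    · intro ℓ hℓ
      have hℓ' := Finset.mem_filter.1 (Finset.mem_coe.1 hℓ)
      have hℓL := Finset.mem_range.1 hℓ'.1
      rcases T3 ℓ hℓL v with c | ⟨x, hx, hp, hfx⟩ | c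
      · exact absurd c.1 hv
      · have e1 : τ ℓ v = x := by rw [← hfx]; exact T2 ℓ hℓL x hx hp
        simp only [e1]
        exact hx
      · exact absurd c hℓ'.2
    · intro ℓ hℓ ℓ' hℓ' he
      have a := Finset.mem_filter.1 (Finset.mem_coe.1 hℓ)
      have b := Finset.mem_filter.1 (Finset.mem_coe.1 hℓ')
      by_contra hne
      exact hdis ℓ (Finset.mem_range.1 a.1) ℓ' (Finset.mem_range.1 b.1) hne v a.2 he

end Pool.Agent.H71.DC
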