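import Mathlib
import Pool.Agent.H71.DX.Sas
import Pool.Agent.H71.DC.Lotm

/-!
TAUM: the matchings `τ ℓ`, `ℓ < L`, of the edges between different closed parts (all of them, at labels `< Kx`) and of edges at `Lo = pt part (k + 1)`. The parts: `part v < k` closed parts, `part v = k` the open part. Use the STATEMENTS of `lotm`
(`DC/Lotm.lean`) and `sas` (`DX/Sas.lean`). Compare `HL/Tau.lean`.

Proof.  `S.Adj a b := G.Adj a b ∧ part a < k ∧ part b < k ∧ part a ≠ part b`, `dg S v ≤ dx` by `hdx`. `sas S Kx (Wn c p) dx (2 p) cap` (`mul Kx (Wn c p) v ≤ 2 p - 1`: the labels `ℓ` with `v ∈ Wn c p ℓ`, see `Glu_win` in `DX/Glu.lean`) gives `σ j`,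
`j < Kx`; `σ j := id` for `Kx ≤ j`. `lotm` with `Lo`, `K := k + 1`, `P := pt part`, `W ℓ := Wn c p ℓ ∪ {v : σ ℓ v ≠ v}` (`#(W ℓ) ≤ w` by `hW`), `m' x ℓ := if x ∈ Wn c p ℓ then k + 1 else m x ℓ` (`σ ℓ` fixes `Lo`; the number of labels with `m' = j` is at most
that with `m = j`) gives `τ1`. `τ ℓ v := if σ ℓ v ≠ v then σ ℓ v else τ1 ℓ v`.
 * `PM G L (Wn c p) τ`: `inv`: `τ1 ℓ` fixes the vertices moved by `σ ℓ`. `dis`: the edges of `τ1` have an end in `Lo`, those of `σ` do not.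
 * second claim: edges of `σ` join different closed parts, those of `τ1` join `Lo` and a part `≤ k` (`lotm`: an `x ∈ Lo` is moved to `P (m' x ℓ)`, `v ∉ Lo` to `Lo`).
 * third claim: `part x = k + 1`, `τ ℓ x = x` iff `τ1 ℓ x = x` iff `k + 1 ≤ m' x ℓ`: `x ∈ Wn c p ℓ` (at most `2 p - 1` labels), or `¬ m x ℓ < k + 1`: use `hm2`.
 * fourth claim: `sas`. Fifth: moved by `σ ℓ` (at most `cap`), or moved by `τ1 ℓ`: `lotm` (the sum over `j < k + 1` of `#{x ∈ Lo : m' x ℓ = j}` is at most `#Lo = r`; `{part v ≤ k}` is the union of the `P j`). Sixth: `σ`: at most `dg S v ≤ dx` labels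
   (`dis`); `τ1`: at most `r`.
 * last claim: `σ ℓ = id` as `Kx ≤ ℓ`, `m' x ℓ = m x ℓ` for `x ∈ Lo`.
-/

set_option autoImplicit false

namespace Pool.Agent.H71.DC

open Finset Classical
open Pool.Agent.H71.DN Pool.Agent.H71.DX Pool.Agent.H71.DR Pool.Agent.H71.HL

/-- The edges between different closed parts. -/
private def DcTaum_S {V : Type} (G : SimpleGraph V) (part : V → ℕ) (k : ℕ) : SimpleGraph V where
  Adj a b := G.Adj a b ∧ part a < k ∧ part b < k ∧ part a ≠ part b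
  symm := ⟨fun _ _ h => ⟨h.1.symm, h.2.2.1, h.2.1, h.2.2.2.symm⟩⟩
  loopless := ⟨fun _ h => G.irrefl h.1⟩

private theorem DcTaum_win {V : Type} [Fintype V] (c : V → ℕ) (p : ℕ) (hp : 1 ≤ p) (v : V)
    (S : Finset ℕ) (hS : ∀ ℓ ∈ S, v ∈ Wn c p ℓ) : S.card ≤ 2 * p - 1 := by
  have h1 : S ⊆ Ico (c v + 1 - p) (c v + p) := by
    intro ℓ hℓ
    have h2 := hS ℓ hℓ
    unfold Wn at h2
    rw [mem_filter] at h2
    rw [mem_Ico]
    omega
  have h2 := card_le_card h1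
  rw [Nat.card_Ico] at h2
  omega

theorem taum {V : Type} [Fintype V] (G : SimpleGraph V) (Δ p L k r w cap Kx dx : ℕ)
    (hp : 1 ≤ p) (part : V → ℕ) (hpart : ∀ v, part v ≤ k + 1)
    (hr : r = (pt part (k + 1)).card) (c : V → ℕ)
    (hW : ∀ ℓ < L, (Wn c p ℓ).card + cap ≤ w)
    (hdx : ∀ v, part v ≤ k →
      (univ.filter fun u => part u ≤ k ∧ part u ≠ part v ∧ G.Adj v u).card ≤ dx)
    (hcap : 2 ≤ cap)
    (hKx : 2 * (2 * p) + 2 * dx + Fintype.card V * dx / (cap - 1) < Kx) (hKL : Kx ≤ L)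
    (m : V → ℕ → ℕ)
    (hm1 : ∀ x, part x = k + 1 → ∀ j < k + 1, ∀ ℓ < L, m x ℓ = j →
      ((range L).filter fun ℓ' => m x ℓ' = j).card + (w + r) ≤ dgi G (pt part j) x)
    (hm2 : ∀ x, part x = k + 1 →
      ((range L).filter fun ℓ => ¬ m x ℓ < k + 1).card + dg G x ≤ Δ) :
    ∃ τ : ℕ → V → V, PM G L (Wn c p) τ ∧
      (∀ ℓ < L, ∀ v, τ ℓ v ≠ v → part (τ ℓ v) ≠ part v) ∧
      (∀ v, part v = k + 1 →
        dg G v + ((range L).filter fun ℓ => τ ℓ v = v).card + 1 ≤ Δ + 2 * p) ∧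
      (∀ a b, G.Adj a b → part a < k → part b < k → part a ≠ part b →
        ∃ ℓ < L, τ ℓ a = b) ∧
      (∀ ℓ < L, (univ.filter fun v => part v ≤ k ∧ τ ℓ v ≠ v).card ≤ cap + r) ∧
      (∀ v, part v ≤ k → ((range L).filter fun ℓ => τ ℓ v ≠ v).card ≤ dx + r) ∧
      ∀ j < k, ∀ ℓ < L, Kx ≤ ℓ → (∀ x, part x = k + 1 → x ∉ Wn c p ℓ) →
        ((pt part j).filter fun v => τ ℓ v ≠ v).card =
          ((pt part (k + 1)).filter fun x => m x ℓ = j).card := by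
  obtain ⟨Lo, hLo⟩ : ∃ Lo : Finset V, Lo = pt part (k + 1) := ⟨_, rfl⟩
  have hpm : ∀ i v, v ∈ pt part i ↔ part v = i := by
    intro i v
    unfold pt
    rw [mem_filter]
    exact ⟨fun h => h.2, fun h => ⟨mem_univ _, h⟩⟩
  have hLm : ∀ v, v ∈ Lo ↔ part v = k + 1 := by
    intro v
    rw [hLo]
    exact hpm _ v
  have hrL : r = Lo.card := by rw [hr, hLo]
  have hdS : ∀ v, dg (DcTaum_S G part k) v ≤ dx := by
    intro v
    by_cases hv : part v < k
    · refine le_trans ?_ (hdx v hv.le)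
      unfold dg
      apply card_le_card
      intro u hu
      rw [mem_filter] at hu ⊢
      exact ⟨mem_univ _, hu.2.2.2.1.le, hu.2.2.2.2.symm, hu.2.1⟩
    · have h3 : dg (DcTaum_S G part k) v = 0 := by
        unfold dg
        rw [card_eq_zero, filter_eq_empty_iff]
        intro u _ h
        exact hv h.2.1
      omega
  have hmulW : ∀ v, mul Kx (Wn c p) v ≤ 2 * p := by
    intro v
    have h1 : ((range Kx).filter fun ℓ => v ∈ Wn c p ℓ).card ≤ 2 * p - 1 :=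
      DcTaum_win c p hp v _ (fun ℓ hℓ => (mem_filter.1 hℓ).2)
    unfold mul
    omega
  obtain ⟨σ0, s1, s2, s3, s4, s5, s6⟩ := sas (DcTaum_S G part k) Kx (Wn c p) dx (2 * p) cap hdS
    hmulW hcap hKx
  obtain ⟨σ, hσ⟩ : ∃ σ : ℕ → V → V, ∀ j v, σ j v = if j < Kx then σ0 j v else v :=
    ⟨fun j v => if j < Kx then σ0 j v else v, fun _ _ => rfl⟩
  have hσ1 : ∀ j < Kx, ∀ v, σ j v = σ0 j v := fun j hj v => by rw [hσ, if_pos hj]
  have hσ2 : ∀ j, Kx ≤ j → ∀ v, σ j v = v := fun j hj v => by rw [hσ, if_neg (by omega)]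
  have hσk : ∀ j v, σ j v ≠ v → j < Kx := by
    intro j v h
    by_contra h1
    exact h (hσ2 j (by omega) v)
  have hσi : ∀ j v, σ j (σ j v) = v := by
    intro j v
    rcases lt_or_ge j Kx with h | h
    · rw [hσ1 j h, hσ1 j h]
      exact s1 j h v
    · rw [hσ2 j h, hσ2 j h]
  have hσa : ∀ j v, σ j v ≠ v → (DcTaum_S G part k).Adj v (σ j v) := by
    intro j v h
    have h1 := hσk j v h
    rw [hσ1 j h1] at h ⊢
    exact s2 j h1 v h
  have hσd : ∀ i j, i ≠ j → ∀ v, σ i v ≠ v → σ i v ≠ σ j v := by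
    intro i j hij v h
    have h1 := hσk i v h
    rcases lt_or_ge j Kx with h2 | h2
    · rw [hσ1 i h1] at h ⊢
      rw [hσ1 j h2]
      exact s3 i h1 j h2 hij v h
    · rw [hσ2 j h2]
      exact h
  have hσf : ∀ j, ∀ v ∈ Wn c p j, σ j v = v := by
    intro j v hv
    rcases lt_or_ge j Kx with h | h
    · rw [hσ1 j h]
      exact s5 j h v hv
    · exact hσ2 j h v
  have hσc : ∀ j, (univ.filter fun v => σ j v ≠ v).card ≤ cap := by
    intro j
    rcases lt_or_ge j Kx with h | h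
    · refine le_trans (card_le_card ?_) (s6 j h)
      intro v hv
      rw [mem_filter] at hv ⊢
      rw [hσ1 j h] at hv
      exact hv
    · have h3 : (univ.filter fun v => σ j v ≠ v).card = 0 := by
        rw [card_eq_zero, filter_eq_empty_iff]
        intro u _ h1
        exact h1 (hσ2 j h u)
      omega
  have hσL : ∀ j, ∀ v ∈ Lo, σ j v = v := by
    intro j v hv
    by_contra h
    have h1 := (hσa j v h).2.1
    rw [hLm] at hv
    omega
  -- the modified choice of the pools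
  obtain ⟨m', hm'⟩ : ∃ m' : V → ℕ → ℕ, ∀ x ℓ, m' x ℓ = if x ∈ Wn c p ℓ then k + 1 else m x ℓ :=
    ⟨fun x ℓ => if x ∈ Wn c p ℓ then k + 1 else m x ℓ, fun _ _ => rfl⟩
  have hm'1 : ∀ x ℓ, x ∈ Wn c p ℓ → m' x ℓ = k + 1 := fun x ℓ h => by rw [hm', if_pos h]
  have hm'2 : ∀ x ℓ, x ∉ Wn c p ℓ → m' x ℓ = m x ℓ := fun x ℓ h => by rw [hm', if_neg h]
  have hm'3 : ∀ x ℓ, m' x ℓ < k + 1 → x ∉ Wn c p ℓ ∧ m' x ℓ = m x ℓ := by
    intro x ℓ h
    have h1 : x ∉ Wn c p ℓ := by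
      intro h2
      rw [hm'1 x ℓ h2] at h
      omega
    exact ⟨h1, hm'2 x ℓ h1⟩
  obtain ⟨W, hWd⟩ : ∃ W : ℕ → Finset V,
    W = fun ℓ => Wn c p ℓ ∪ univ.filter fun v => σ ℓ v ≠ v := ⟨_, rfl⟩
  have hWm : ∀ ℓ v, v ∈ W ℓ ↔ v ∈ Wn c p ℓ ∨ σ ℓ v ≠ v := by
    intro ℓ v
    rw [hWd, mem_union, mem_filter]
    exact ⟨fun h => h.imp id fun h => h.2, fun h => h.imp id fun h => ⟨mem_univ _, h⟩⟩
  obtain ⟨τ1, p1, ta, tb, tc, td, te⟩ := lotm G Lo L w (k + 1) (pt part)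
    (by
      intro i _ j _ hij
      rw [disjoint_left]
      intro v hv hv'
      rw [hpm] at hv hv'
      omega)
    (by
      intro i hi
      rw [disjoint_left]
      intro v hv hv'
      rw [hLm] at hv
      rw [hpm] at hv'
      omega)
    m' W
    (by
      intro ℓ _ x hx hxW
      rw [hWm] at hxW
      rcases hxW with h | h
      · rw [hm'1 x ℓ h]
      · exact absurd (hσL ℓ x hx) h)
    (by
      intro ℓ hℓ
      have h1 := hW ℓ hℓ
      have h2 := hσc ℓ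
      have h3 : (W ℓ).card ≤ (Wn c p ℓ).card + (univ.filter fun v => σ ℓ v ≠ v).card := by
        rw [hWd]
        exact card_union_le _ _
      omega)
    (by
      intro x hx ℓ hℓ hmx
      obtain ⟨h1, h2⟩ := hm'3 x ℓ hmx
      rw [h2] at hmx ⊢
      have h3 := hm1 x ((hLm x).1 hx) (m x ℓ) hmx ℓ hℓ rfl
      have h4 : ((range L).filter fun ℓ' => m' x ℓ' = m x ℓ).card ≤
          ((range L).filter fun ℓ' => m x ℓ' = m x ℓ).card := by
        apply card_le_card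
        intro ℓ' h5
        rw [mem_filter] at h5 ⊢
        refine ⟨h5.1, ?_⟩
        rw [← (hm'3 x ℓ' (by rw [h5.2]; exact hmx)).2]
        exact h5.2
      omega)
  have hf1 : ∀ ℓ < L, ∀ v, σ ℓ v ≠ v → τ1 ℓ v = v ∧ τ1 ℓ (σ ℓ v) = σ ℓ v := by
    intro ℓ hℓ v hv
    refine ⟨p1.fix ℓ hℓ v ((hWm ℓ v).2 (Or.inr hv)), p1.fix ℓ hℓ _ ((hWm ℓ _).2 (Or.inr ?_))⟩
    rw [hσi]
    exact hv.symm
  obtain ⟨τ, hτ⟩ : ∃ τ : ℕ → V → V, ∀ ℓ v, τ ℓ v = if σ ℓ v = v then τ1 ℓ v else σ ℓ v :=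
    ⟨fun ℓ v => if σ ℓ v = v then τ1 ℓ v else σ ℓ v, fun _ _ => rfl⟩
  have hτ1 : ∀ ℓ v, σ ℓ v = v → τ ℓ v = τ1 ℓ v := fun ℓ v h => by rw [hτ, if_pos h]
  have hτ2 : ∀ ℓ v, σ ℓ v ≠ v → τ ℓ v = σ ℓ v := fun ℓ v h => by rw [hτ, if_neg h]
  have hi1 : ∀ ℓ < L, ∀ v, τ1 ℓ (τ1 ℓ v) = v := fun ℓ hℓ v => p1.inv ℓ hℓ v
  have hL1 : ∀ ℓ < L, ∀ v, τ1 ℓ v ≠ v → v ∈ Lo ∨ τ1 ℓ v ∈ Lo := by
    intro ℓ hℓ v hv
    by_cases h : v ∈ Lo
    · exact Or.inl h
    · exact Or.inr (tc ℓ hℓ v h hv)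
  have hr1 : ∀ ℓ < L, (univ.filter fun v => part v ≤ k ∧ τ1 ℓ v ≠ v).card ≤ r := by
    intro ℓ hℓ
    rw [hrL]
    refine card_le_card_of_injOn (fun v => τ1 ℓ v) ?_ ?_
    · intro v hv
      rw [mem_coe, mem_filter] at hv
      rw [mem_coe]
      refine tc ℓ hℓ v ?_ hv.2.2
      rw [hLm]
      omega
    · intro a _ b _ hab
      have h1 : τ1 ℓ (τ1 ℓ a) = τ1 ℓ (τ1 ℓ b) := congrArg (τ1 ℓ) hab
      rwa [hi1 ℓ hℓ, hi1 ℓ hℓ] at h1
  have hcx : ∀ v, ((range L).filter fun ℓ => σ ℓ v ≠ v).card ≤ dx := by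
    intro v
    refine le_trans ?_ (hdS v)
    unfold dg
    refine card_le_card_of_injOn (fun j => σ j v) ?_ ?_
    · intro j hj
      rw [mem_coe, mem_filter] at hj
      rw [mem_coe, mem_filter]
      exact ⟨mem_univ _, hσa j v hj.2⟩
    · intro i hi j hj hij
      rw [mem_coe, mem_filter] at hi hj
      by_contra hne
      exact hσd i j hne v hi.2 hij
  refine ⟨τ, ⟨?_, ?_, ?_, ?_⟩, ?_, ?_, ?_, ?_, ?_, ?_⟩
  · intro ℓ hℓ v
    by_cases hv : σ ℓ v = v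
    · rw [hτ1 ℓ v hv]
      by_cases hw : τ1 ℓ v = v
      · rw [hw, hτ1 ℓ v hv, hw]
      · have h1 : σ ℓ (τ1 ℓ v) = τ1 ℓ v := by
          by_contra h
          have h2 := (hf1 ℓ hℓ _ h).1
          rw [hi1 ℓ hℓ] at h2
          exact hw h2.symm
        rw [hτ1 ℓ _ h1, hi1 ℓ hℓ]
    · rw [hτ2 ℓ v hv, hτ2 ℓ _ (by rw [hσi]; exact fun h => hv h.symm), hσi]
  · intro ℓ hℓ v hv
    by_cases hw : σ ℓ v = v
    · rw [hτ1 ℓ v hw] at hv ⊢
      exact p1.adj ℓ hℓ v hv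
    · rw [hτ2 ℓ v hw]
      exact (hσa ℓ v hw).1
  · intro ℓ hℓ ℓ' hℓ' hne v hv
    have key : ∀ a < L, ∀ b < L, τ1 a v ≠ v → σ b v ≠ v → τ1 a v ≠ σ b v := by
      intro a ha b _ e1 e2 e3
      have h1 := hσa b v e2
      rcases hL1 a ha v e1 with h | h
      · rw [hLm] at h
        have h2 := h1.2.1
        omega
      · rw [e3, hLm] at h
        have h2 := h1.2.2.1
        omega
    by_cases hw : σ ℓ v = v
    · rw [hτ1 ℓ v hw] at hv ⊢
      by_cases hw' : σ ℓ' v = v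
      · rw [hτ1 ℓ' v hw']
        exact p1.dis ℓ hℓ ℓ' hℓ' hne v hv
      · rw [hτ2 ℓ' v hw']
        exact key ℓ hℓ ℓ' hℓ' hv hw'
    · rw [hτ2 ℓ v hw]
      by_cases hw' : σ ℓ' v = v
      · rw [hτ1 ℓ' v hw']
        by_cases hw2 : τ1 ℓ' v = v
        · rw [hw2]
          exact hw
        · exact fun h => key ℓ' hℓ' ℓ hℓ hw2 hw h.symm
      · rw [hτ2 ℓ' v hw']
        exact hσd ℓ ℓ' hne v hw
  · intro ℓ hℓ v hv
    rw [hτ1 ℓ v (hσf ℓ v hv)]
    exact p1.fix ℓ hℓ v ((hWm ℓ v).2 (Or.inl hv))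
  · intro ℓ hℓ v hv
    by_cases hw : σ ℓ v = v
    · rw [hτ1 ℓ v hw] at hv ⊢
      by_cases h : v ∈ Lo
      · rcases lt_or_ge (m' v ℓ) (k + 1) with h1 | h1
        · have h2 := ta ℓ hℓ v h h1
          rw [hpm] at h2
          rw [hLm] at h
          omega
        · exact absurd (tb ℓ hℓ v h h1) hv
      · have h2 := tc ℓ hℓ v h hv
        rw [hLm] at h h2
        omega
    · rw [hτ2 ℓ v hw]
      exact (hσa ℓ v hw).2.2.2.symm
  · intro v hv
    have hvL := (hLm v).2 hv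
    have h1 : ((range L).filter fun ℓ => τ ℓ v = v).card ≤
        (((range L).filter fun ℓ => v ∈ Wn c p ℓ) ∪
          ((range L).filter fun ℓ => ¬ m v ℓ < k + 1)).card := by
      apply card_le_card
      intro ℓ hℓ
      rw [mem_filter, mem_range] at hℓ
      rw [mem_union, mem_filter, mem_filter, mem_range]
      by_cases h2 : v ∈ Wn c p ℓ
      · exact Or.inl ⟨hℓ.1, h2⟩
      · refine Or.inr ⟨hℓ.1, ?_⟩
        intro h3
        have h4 := hm'2 v ℓ h2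
        have h5 := ta ℓ hℓ.1 v hvL (by omega)
        rw [hpm, h4] at h5
        have h6 := hℓ.2
        rw [hτ1 ℓ v (hσL ℓ v hvL)] at h6
        rw [h6] at h5
        omega
    have h2 : ((range L).filter fun ℓ => v ∈ Wn c p ℓ).card ≤ 2 * p - 1 :=
      DcTaum_win c p hp v _ (fun ℓ hℓ => (mem_filter.1 hℓ).2)
    have h3 := h1.trans (card_union_le _ _)
    have h4 := hm2 v hv
    omega
  · intro a b hab ha hb hne
    obtain ⟨j, hj, h1⟩ := s4 a b ⟨hab, ha, hb, hne⟩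
    refine ⟨j, by omega, ?_⟩
    have h2 : σ j a = b := by rw [hσ1 j hj, h1]
    rw [hτ2 j a (by rw [h2]; exact hab.ne'), h2]
  · intro ℓ hℓ
    have h1 : (univ.filter fun v => part v ≤ k ∧ τ ℓ v ≠ v) ⊆
        (univ.filter fun v => σ ℓ v ≠ v) ∪ (univ.filter fun v => part v ≤ k ∧ τ1 ℓ v ≠ v) := by
      intro v hv
      rw [mem_filter] at hv
      rw [mem_union, mem_filter, mem_filter]
      by_cases hw : σ ℓ v = v
      · right
        refine ⟨mem_univ _, hv.2.1, ?_⟩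
        rw [← hτ1 ℓ v hw]
        exact hv.2.2
      · exact Or.inl ⟨mem_univ _, hw⟩
    have h2 := (card_le_card h1).trans (card_union_le _ _)
    have h3 := hσc ℓ
    have h4 := hr1 ℓ hℓ
    omega
  · intro v hv
    have h1 : ((range L).filter fun ℓ => τ ℓ v ≠ v) ⊆
        ((range L).filter fun ℓ => σ ℓ v ≠ v) ∪ ((range L).filter fun ℓ => τ1 ℓ v ≠ v) := by
      intro ℓ hℓ
      rw [mem_filter] at hℓ
      rw [mem_union, mem_filter, mem_filter]
      by_cases hw : σ ℓ v = v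
      · right
        refine ⟨hℓ.1, ?_⟩
        rw [← hτ1 ℓ v hw]
        exact hℓ.2
      · exact Or.inl ⟨hℓ.1, hw⟩
    have h2 := (card_le_card h1).trans (card_union_le _ _)
    have h3 := hcx v
    have h4 := te v (by rw [hLm]; omega)
    omega
  · intro j hj ℓ hℓ hK hx
    have h1 := td ℓ hℓ j (by omega)
    have h2 : ((pt part j).filter fun v => τ ℓ v ≠ v) =
        (pt part j).filter fun v => τ1 ℓ v ≠ v := by
      ext v
      rw [mem_filter, mem_filter, hτ1 ℓ v (hσ2 ℓ hK v)]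
    have h3 : ((pt part (k + 1)).filter fun x => m x ℓ = j) =
        Lo.filter fun x => m' x ℓ = j := by
      ext x
      rw [mem_filter, mem_filter, ← hLo]
      constructor
      · rintro ⟨h4, h5⟩
        exact ⟨h4, by rw [hm'2 x ℓ (hx x ((hLm x).1 h4))]; exact h5⟩
      · rintro ⟨h4, h5⟩
        refine ⟨h4, ?_⟩
        rw [hm'2 x ℓ (hx x ((hLm x).1 h4))] at h5
        exact h5
    rw [h2, h3]
    exact h1

end Pool.Agent.H71.DC
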