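import Mathlib
import Pool.Agent.H71.DX.GluA
import Pool.Agent.H71.DC.Defs2

/-!
THR: three small counting lemmas.

`thr` (one vertex `x` of `Lo`, pools `j < K` of sizes `a j`): `b j := q0 * ((a j - w) / q0)` (natural subtraction; so `q0 ∣ b j`, `b j + w ≤ a j` if `0 < b j`, and `a j ≤ b j + w + q0`), `Y j := min L (∑ i ∈ range j, b i)`,
`m ℓ := j` for the least `j < K` with `ℓ < Y (j + 1)`, and `m ℓ := K` if there is none (so `m ℓ = j < K` iff `Y j ≤ ℓ < Y (j + 1)`, `Y` is monotone). If `m ℓ = j < K`, `ℓ < L`, then `0 < b j` and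
`#{ℓ' < L : m ℓ' = j} ≤ Y (j + 1) - Y j ≤ b j ≤ a j - w`. `#{ℓ < L : m ℓ = K} = L - Y K`: it is `0` if `Y K = L`, otherwise `Y K = ∑ b i ≥ ∑ a i - K (w + q0)`. If `m ℓ ≠ m (ℓ + 1)` then some `Y j = ℓ + 1` with `1 ≤ j ≤ K`,
and if moreover `ℓ + 1 < L` then `ℓ + 1 = ∑ i ∈ range j, b i` is divisible by `q0`.

`bdq2`: as `bdq` (`HL/Bdq.lean`, proved): let `j < L` with `¬ (j ∈ B ↔ j + 1 ∈ B)`. Either `j + 1 = L` (one `j`), or `j + 1 < L`, then `D j ≠ D (j + 1)` (different parity), so `q0 ∣ j + 1`: at most `L / q0` such `j`.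

`wpm`: as `wpar` (`DX/Wnd.lean`, proved), for a set `C`: `#{v ∈ C : v ∈ Wn c p ℓ} = ∑_{m ∈ Y1 ∪ Y2, m in the window} #{v ∈ C : c v = m}`.
-/

set_option autoImplicit false

namespace Pool.Agent.H71.DC

open Finset Classical
open Pool.Agent.H71.DN Pool.Agent.H71.DX Pool.Agent.H71.DR Pool.Agent.H71.HL

theorem thr (K L w q0 : ℕ) (hq0 : 1 ≤ q0) (a : ℕ → ℕ) :
    ∃ m : ℕ → ℕ, (∀ ℓ, m ℓ ≤ K) ∧
      (∀ j < K, ∀ ℓ < L, m ℓ = j →
        ((range L).filter fun ℓ' => m ℓ' = j).card + w ≤ a j) ∧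
      (((range L).filter fun ℓ => m ℓ = K).card = 0 ∨
        ((range L).filter fun ℓ => m ℓ = K).card + ∑ j ∈ range K, a j ≤ L + K * (w + q0)) ∧
      ∀ ℓ, ℓ + 1 < L → ¬ q0 ∣ ℓ + 1 → m ℓ = m (ℓ + 1) := by
  obtain ⟨b, hb⟩ : ∃ b : ℕ → ℕ, ∀ j, b j = q0 * ((a j - w) / q0) := ⟨_, fun _ => rfl⟩
  obtain ⟨Y, hY⟩ : ∃ Y : ℕ → ℕ, ∀ j, Y j = min L (∑ i ∈ range j, b i) := ⟨_, fun _ => rfl⟩
  obtain ⟨m, hm⟩ : ∃ m : ℕ → ℕ, ∀ ℓ, m ℓ = ((range K).filter fun j => Y (j + 1) ≤ ℓ).card :=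
    ⟨_, fun _ => rfl⟩
  have hmono : ∀ i j, i ≤ j → Y i ≤ Y j := by
    intro i j hij
    rw [hY, hY]
    exact min_le_min le_rfl (sum_le_sum_of_subset (range_subset_range.2 hij))
  have hG : ∀ ℓ, ∀ j < K, Y (j + 1) ≤ ℓ ↔ j < m ℓ := by
    intro ℓ j hj
    rw [hm]
    constructor
    · intro h
      have h1 : range (j + 1) ⊆ (range K).filter fun j => Y (j + 1) ≤ ℓ := by
        intro i hi
        rw [mem_range] at hi
        rw [mem_filter, mem_range]
        exact ⟨by omega, (hmono _ _ (by omega)).trans h⟩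
      have h2 := card_le_card h1
      rw [card_range] at h2
      omega
    · intro h
      by_contra h1
      have h2 : ((range K).filter fun j => Y (j + 1) ≤ ℓ) ⊆ range j := by
        intro i hi
        rw [mem_filter] at hi
        rw [mem_range]
        by_contra h3
        exact h1 ((hmono (j + 1) (i + 1) (by omega)).trans hi.2)
      have h3 := card_le_card h2
      rw [card_range] at h3
      omega
  have hmK : ∀ ℓ, m ℓ ≤ K := by
    intro ℓ
    rw [hm]
    exact (card_filter_le _ _).trans (le_of_eq (card_range K))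
  have hlow : ∀ ℓ j, m ℓ = j → Y j ≤ ℓ := by
    intro ℓ j hj
    rcases Nat.eq_zero_or_pos j with h | h
    · rw [h, hY, range_zero, sum_empty, min_eq_right (Nat.zero_le _)]
      exact Nat.zero_le _
    · have h1 := hmK ℓ
      have h2 := (hG ℓ (j - 1) (by omega)).2 (by omega)
      rwa [Nat.sub_add_cancel h] at h2
  have hstep : ∀ j, Y (j + 1) ≤ Y j + b j := by
    intro j
    rw [hY, hY, sum_range_succ]
    omega
  have hb1 : ∀ j, a j ≤ b j + w + q0 := by
    intro j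
    have h1 := Nat.div_add_mod (a j - w) q0
    have h2 := Nat.mod_lt (a j - w) (by omega : q0 > 0)
    rw [hb]
    omega
  refine ⟨m, hmK, ?_, ?_, ?_⟩
  · intro j hj ℓ hℓ hmj
    have h1 : ¬ Y (j + 1) ≤ ℓ := by
      rw [hG ℓ j hj]
      omega
    have h2 := hlow ℓ j hmj
    have h3 := hstep j
    have h4 : ((range L).filter fun ℓ' => m ℓ' = j) ⊆ Finset.Ico (Y j) (Y (j + 1)) := by
      intro ℓ' hℓ'
      rw [mem_filter] at hℓ'
      rw [Finset.mem_Ico]
      refine ⟨hlow ℓ' j hℓ'.2, ?_⟩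
      have h5 : ¬ Y (j + 1) ≤ ℓ' := by
        rw [hG ℓ' j hj]
        omega
      omega
    have h5 := card_le_card h4
    rw [Nat.card_Ico] at h5
    have h6 : b j ≤ a j - w := by
      rw [hb]
      exact Nat.mul_div_le _ _
    omega
  · have h1 : ((range L).filter fun ℓ => m ℓ = K) ⊆ Finset.Ico (Y K) L := by
      intro ℓ hℓ
      rw [mem_filter, mem_range] at hℓ
      rw [Finset.mem_Ico]
      exact ⟨hlow ℓ K hℓ.2, hℓ.1⟩
    have h2 := card_le_card h1
    rw [Nat.card_Ico] at h2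
    by_cases h3 : Y K = L
    · left
      omega
    · right
      have h4 : Y K = ∑ i ∈ range K, b i := by
        rw [hY] at h3 ⊢
        omega
      have h5 : Y K ≤ L := by
        rw [hY]
        exact min_le_left _ _
      have h6 : ∑ j ∈ range K, a j ≤ ∑ i ∈ range K, b i + K * (w + q0) := by
        have h7 : ∑ j ∈ range K, a j ≤ ∑ j ∈ range K, (b j + (w + q0)) :=
          sum_le_sum fun j _ => by
            have := hb1 j
            omega
        rw [sum_add_distrib, sum_const, card_range, smul_eq_mul] at h7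
        exact h7
      omega
  · intro ℓ hℓ hq
    rw [hm, hm]
    refine congrArg card ?_
    ext j
    rw [mem_filter, mem_filter]
    constructor
    · rintro ⟨h1, h2⟩
      exact ⟨h1, by omega⟩
    · rintro ⟨h1, h2⟩
      refine ⟨h1, ?_⟩
      by_contra h3
      have h4 : Y (j + 1) = ℓ + 1 := by omega
      have h5 : ∑ i ∈ range (j + 1), b i = ℓ + 1 := by
        rw [hY] at h4
        omega
      apply hq
      rw [← h5]
      refine dvd_sum fun i _ => ?_
      rw [hb]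
      exact dvd_mul_right _ _

theorem bdq2 (D : ℕ → ℕ) (q0 L n1 : ℕ) (hq0 : 1 ≤ q0)
    (hD : ∀ ℓ, ℓ + 1 < L → ¬ q0 ∣ ℓ + 1 → D ℓ = D (ℓ + 1)) (B : Finset ℕ)
    (hB : ∀ ℓ, ℓ ∈ B ↔ ℓ < L ∧ ¬ Even (n1 + D ℓ)) :
    ((range L).filter fun j => ¬ (j ∈ B ↔ j + 1 ∈ B)).card ≤ L / q0 + 2 := by
  have hsub : ((range L).filter fun j => ¬ (j ∈ B ↔ j + 1 ∈ B)) ⊆
      insert (L - 1) ((Finset.Icc 1 (L / q0)).image fun i => q0 * i - 1) := by
    intro j hj
    rw [mem_filter, mem_range] at hj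
    obtain ⟨hjL, hj⟩ := hj
    rw [mem_insert]
    by_cases h1 : j + 1 < L
    · right
      have h5 : q0 ∣ j + 1 := by
        by_contra hc
        apply hj
        rw [hB, hB, hD j h1 hc]
        constructor
        · rintro ⟨_, h⟩
          exact ⟨h1, h⟩
        · rintro ⟨_, h⟩
          exact ⟨hjL, h⟩
      obtain ⟨i, hi⟩ := h5
      rw [mem_image]
      refine ⟨i, ?_, by omega⟩
      rw [Finset.mem_Icc]
      constructor
      · rcases Nat.eq_zero_or_pos i with h6 | h6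
        · subst h6
          simp at hi
        · exact h6
      · rw [Nat.le_div_iff_mul_le (by omega), mul_comm]
        omega
    · left
      omega
  have h1 := card_le_card hsub
  have h2 := card_insert_le (L - 1) ((Finset.Icc 1 (L / q0)).image fun i => q0 * i - 1)
  have h3 : ((Finset.Icc 1 (L / q0)).image fun i => q0 * i - 1).card ≤ (Finset.Icc 1 (L / q0)).card :=
    card_image_le
  rw [Nat.card_Icc] at h3
  generalize L / q0 = K at h1 h2 h3 ⊢
  omega

theorem wpm {V : Type} [Fintype V] (C : Finset V) (Y1 Y2 : Finset ℕ) (hd : Disjoint Y1 Y2)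
    (c : V → ℕ) (h1 : ∀ v ∈ C, c v ∈ Y1 ∪ Y2)
    (h2 : ∀ m ∈ Y2, (C.filter fun v => c v = m).card = 2)
    (h3 : ∀ m ∈ Y1, (C.filter fun v => c v = m).card = 1) (p ℓ : ℕ) :
    (C.filter fun v => v ∈ Wn c p ℓ).card =
      (Y1.filter fun m => ℓ < m + p ∧ m < ℓ + p).card +
        2 * (Y2.filter fun m => ℓ < m + p ∧ m < ℓ + p).card := by
  have hw : ∀ v : V, v ∈ Wn c p ℓ ↔ ℓ < c v + p ∧ c v < ℓ + p := by
    intro v
    unfold Wn
    rw [Finset.mem_filter]
    constructor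
    · rintro ⟨-, a, b⟩
      exact ⟨b, a⟩
    · rintro ⟨a, b⟩
      exact ⟨Finset.mem_univ _, b, a⟩
  have h4 := Finset.card_eq_sum_card_fiberwise (f := c)
    (s := C.filter fun v => v ∈ Wn c p ℓ)
    (t := (Y1 ∪ Y2).filter fun m => ℓ < m + p ∧ m < ℓ + p) (by
      intro v hv
      have hv2 := Finset.mem_filter.1 (Finset.mem_coe.1 hv)
      exact Finset.mem_coe.2 (Finset.mem_filter.2 ⟨h1 v hv2.1, (hw v).1 hv2.2⟩))
  rw [h4, Finset.filter_union, Finset.sum_union (Finset.disjoint_filter_filter hd)]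
  have h5 : ∀ m, (ℓ < m + p ∧ m < ℓ + p) →
      ((C.filter fun v => v ∈ Wn c p ℓ).filter fun v => c v = m).card =
      (C.filter fun v => c v = m).card := by
    intro m hm
    refine congrArg Finset.card ?_
    ext v
    rw [Finset.mem_filter, Finset.mem_filter, Finset.mem_filter, hw v]
    constructor
    · rintro ⟨⟨a, -⟩, b⟩
      exact ⟨a, b⟩
    · rintro ⟨a, b⟩
      rw [b]
      exact ⟨⟨a, hm⟩, rfl⟩
  refine congrArg₂ (fun x y => x + y) ?_ ?_
  · rw [Finset.sum_congr rfl fun m hm => (h5 m (Finset.mem_filter.1 hm).2).trans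
      (h3 m (Finset.mem_filter.1 hm).1), Finset.sum_const, smul_eq_mul, mul_one]
  · rw [Finset.sum_congr rfl fun m hm => (h5 m (Finset.mem_filter.1 hm).2).trans
      (h2 m (Finset.mem_filter.1 hm).1), Finset.sum_const, smul_eq_mul, mul_comm]

end Pool.Agent.H71.DC
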