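import Mathlib
import Pool.Agent.H71.DX.LyN
import Pool.Agent.H71.HL.Bdq
import Pool.Agent.H71.DC.Thr
import Pool.Agent.H71.DC.Glb
import Pool.Agent.H71.DC.Taum
import Pool.Agent.H71.DC.Glm

/-!
OUTM: from the core theorems for the parts to a labelling of `G`. Compare `out2` (`HL/Out2.lean`, proved): the same structure. Use the STATEMENTS of `thr, bdq2, wpm` (`DC/Thr.lean`), `lyN` (`DX/LyN.lean`), `glb`, `taum`, `glm`, `wsz` (`HL/Bdq.lean`).

Proof.  `n_i := #(pt part i)`, `Lo := pt part (k + 1)`. For `x ∈ Lo`: `thr` with `K := k + 1`, `w := w + r`, `a j := dgi G (pt part j) x` gives `m x`. `#{ℓ < L : ¬ m x ℓ < k + 1} + dg G x ≤ Δ`: the set is `{m x ℓ = k + 1}`; it is empty and `dg G x ≤ Δ`, or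
its size is at most `L + (k + 1) (w + r + q0) - ∑ j < k + 1, a j`, and `dg G x ≤ ∑ j < k + 1, a j + r`; use `hΔL`. `D i ℓ := #{x ∈ Lo : m x ℓ = i}` (constant between multiples of `q0`, from the last claim of `thr`).
For `i ∈ Sm`: `B i := {ℓ < L : ¬ Even (n_i + D i ℓ)}`, `#(B i) ≤ L`; `bdq2`: at most `L / q0 + 2` boundaries. `lyN n_i r L p (M0 i) (w0 i) (L / q0 + 2) (B i)` gives `Y1 i, Y2 i, k' i`. `2 k' i ≤ 2 r + max (..) (..)` and `hk`: `k' i ≤ k2 := L + 1 - p`.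
`#(Y1 i) = n_i - 2 #(Y2 i) ≥ n_i - 2 M0 i ≥ 2 s dx`; `#(Y2 i) = n_i - (k' i - r) ≥ n_i - L ≥ 2 s dx` (`p ≥ 1`, `hLn`). `glb` with this `k2` gives `c`. `wsz`: `#(Wn c p ℓ) ≤ (2 p - 1) s`, so `#(Wn c p ℓ) + cap ≤ w`. `taum` gives `τ`.
`U ℓ := {v : v ∈ Wn c p ℓ ∨ τ ℓ v ≠ v}`. For `i ≤ k`: `#(U ℓ ∩ pt part i) ≤ (2 p - 1) s + cap + r ≤ w + r ≤ κ1`; `mul L U v ≤ (2 p - 1) + dx + r ≤ κ1` for `part v ≤ k`.
Parity, `i ∈ Sm`: let `ℓ < L`, `Kx ≤ ℓ`, `r + p ≤ ℓ`. No `x ∈ Lo` is in `Wn c p ℓ` (`c x < r`). `τ ℓ` fixes the window, so `#(pt part i ∩ U ℓ) = #{v ∈ pt part i : v ∈ Wn c p ℓ} + #{v ∈ pt part i : τ ℓ v ≠ v}`; the first number is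
`#(Y1 i ∩ window) + 2 #(Y2 i ∩ window)` (`wpm`), the second is `D i ℓ` (last claim of `taum`). Hence if `ℓ ∈ B i ↔ Odd (Y1 i ∩ window)` then `#(pt part i \ U ℓ)` is even. So the number of odd labels is at most `Kx + (r + p) +` the bound of `lyN` `≤ w1 i`. For
`i < k`, `i ∉ Sm` it is at most `L ≤ w1 i`. `hcore`, `hopen` give the matchings (choice over `i`), `glm` with `k' := L + 1 - p` finishes.
-/

set_option autoImplicit false

namespace Pool.Agent.H71.DC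

open Finset Classical
open Pool.Agent.H71.DN Pool.Agent.H71.DX Pool.Agent.H71.DR Pool.Agent.H71.HL

private theorem DcOutM_win (L p a : ℕ) (hp : 1 ≤ p) :
    ((range L).filter fun ℓ => a < ℓ + p ∧ ℓ < a + p).card ≤ 2 * p - 1 := by
  have h1 : ((range L).filter fun ℓ => a < ℓ + p ∧ ℓ < a + p) ⊆
      Finset.Ico (a + 1 - p) (a + p) := by
    intro ℓ hℓ
    obtain ⟨_, a1, a2⟩ := Finset.mem_filter.1 hℓ
    rw [Finset.mem_Ico]
    omega
  have h2 := Finset.card_le_card h1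
  rw [Nat.card_Ico] at h2
  omega

private theorem DcOutM_mf {α : Type} (p : α → Prop) (i : DecidablePred p) (s : Finset α) (a : α)
    (h : a ∈ @Finset.filter α p i s) : a ∈ s ∧ p a := (@Finset.mem_filter α p i s a).1 h

private theorem DcOutM_mul {V : Type} [Fintype V] (c : V → ℕ) (p L r : ℕ)
    (hp : 1 ≤ p) (τ : ℕ → V → V) (U : ℕ → Finset V)
    (hU : ∀ ℓ v, v ∈ U ℓ ↔ (v ∈ Wn c p ℓ ∨ τ ℓ v ≠ v)) (v : V)
    (h5 : ((range L).filter fun ℓ => τ ℓ v ≠ v).card ≤ r) : mul L U v ≤ (2 * p - 1) + r := by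
  have h4 := DcOutM_win L p (c v) hp
  have h3 := card_union_le ((range L).filter fun ℓ => c v < ℓ + p ∧ ℓ < c v + p)
    ((range L).filter fun ℓ => τ ℓ v ≠ v)
  unfold mul
  refine le_trans (card_le_card ?_) (h3.trans (by omega))
  intro ℓ hℓ
  replace hℓ := DcOutM_mf _ _ _ _ hℓ
  rw [mem_union, mem_filter, mem_filter]
  rcases (hU ℓ v).1 hℓ.2 with h2 | h2
  · left
    unfold Wn at h2
    rw [mem_filter] at h2
    exact ⟨hℓ.1, h2.2⟩
  · exact Or.inr ⟨hℓ.1, h2⟩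

private theorem DcOutM_card {V : Type} [Fintype V] (P : Finset V) (c : V → ℕ) (p ℓ : ℕ)
    (τ : V → V) (U : Finset V)
    (hU : ∀ v, v ∈ U ↔ (v ∈ Wn c p ℓ ∨ τ v ≠ v))
    (hf : ∀ v ∈ Wn c p ℓ, τ v = v) :
    (P ∩ U).card = (P.filter fun v => v ∈ Wn c p ℓ).card +
      (P.filter fun v => τ v ≠ v).card := by
  rw [← card_union_of_disjoint]
  · congr 1
    ext v
    rw [mem_inter, hU, mem_union, mem_filter, mem_filter]
    constructor
    · rintro ⟨h0, h | h⟩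
      · exact Or.inl ⟨h0, h⟩
      · exact Or.inr ⟨h0, h⟩
    · rintro (h | h)
      · exact ⟨h.1, Or.inl h.2⟩
      · exact ⟨h.1, Or.inr h.2⟩
  · rw [disjoint_left]
    intro v h1 h2
    rw [mem_filter] at h1 h2
    exact h2.2 (hf v h1.2)

private theorem DcOutM_par (n1 a b y1 y2 u s : ℕ) (P Q : Prop) (h1 : s + u = n1)
    (h2 : u = (y1 + 2 * y2) + a) (h3 : a = b) (h4 : P ↔ ¬ Even (n1 + b)) (h5 : P ↔ Q)
    (h6 : Q ↔ Odd y1) : Even s := by
  have h7 : (¬ Even (n1 + b)) ↔ Odd y1 := h4.symm.trans (h5.trans h6)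
  rw [Nat.not_even_iff_odd] at h7
  rw [Nat.odd_iff, Nat.odd_iff] at h7
  rw [Nat.even_iff]
  omega

private theorem DcOutM_deg {V : Type} [Fintype V] (G : SimpleGraph V) (part : V → ℕ) (k : ℕ)
    (hpart : ∀ v, part v ≤ k + 1) (x : V) :
    dg G x ≤ (∑ j ∈ range (k + 1), dgi G (pt part j) x) + (pt part (k + 1)).card := by
  have h1 : (univ.filter fun u => G.Adj x u) ⊆
      ((range (k + 1)).biUnion fun j => (pt part j).filter fun u => G.Adj x u) ∪
        pt part (k + 1) := by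
    intro u hu
    rw [mem_filter] at hu
    rw [mem_union, mem_biUnion]
    by_cases h : part u = k + 1
    · right
      unfold pt
      rw [mem_filter]
      exact ⟨mem_univ _, h⟩
    · left
      have h2 := hpart u
      refine ⟨part u, ?_, ?_⟩
      · rw [mem_range]
        omega
      · rw [mem_filter]
        refine ⟨?_, hu.2⟩
        unfold pt
        rw [mem_filter]
        exact ⟨mem_univ _, rfl⟩
  have h2 := card_le_card h1
  have h3 := card_union_le ((range (k + 1)).biUnion fun j => (pt part j).filter fun u => G.Adj x u)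
    (pt part (k + 1))
  have h4 : ((range (k + 1)).biUnion fun j => (pt part j).filter fun u => G.Adj x u).card ≤
      ∑ j ∈ range (k + 1), dgi G (pt part j) x := card_biUnion_le
  unfold dg
  omega

theorem outM {V : Type} [Fintype V] (G : SimpleGraph V)
    (Δ p L k r s1 s dx χ q0 cap w Kx κ1 : ℕ) (hp : 1 ≤ p) (hs1 : 1 ≤ s1)
    (hs : s = s1 + 2 * k + 1) (hq0 : 1 ≤ q0) (hΔ : ∀ v, dg G v ≤ Δ)
    (part : V → ℕ) (hpart : ∀ v, part v ≤ k + 1) (hr : r = (pt part (k + 1)).card)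
    (hdx : ∀ v, part v ≤ k →
      (univ.filter fun u => part u ≤ k ∧ part u ≠ part v ∧ G.Adj v u).card ≤ dx)
    (Sm : Finset ℕ) (hSm : Sm ⊆ range k) (hcol : G.Colorable χ)
    (π : ℕ → V → V) (hπ : ∀ i ∈ Sm, Inv (π i))
    (hπ2 : ∀ i ∈ Sm, ∀ v, π i v ≠ v → part v = i ∧ ¬ G.Adj v (π i v))
    (M0 w0 w1 : ℕ → ℕ)
    (hM : ∀ i ∈ Sm, 2 * M0 i ≤ (univ.filter fun v => π i v ≠ v).card)
    (hM2 : ∀ i ∈ Sm, 2 * M0 i + 2 * (s * dx) ≤ (pt part i).card)
    (hrw : ∀ i ∈ Sm, r ≤ w0 i) (hLi : ∀ i ∈ Sm, 2 * L ≤ (pt part i).card + 2 * w0 i)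
    (hk : ∀ i ∈ Sm, 2 * r + max (2 * (pt part i).card - 2 * M0 i)
      ((pt part i).card + (L - w0 i) + 1) + 2 * p ≤ 2 * L + 2)
    (hLn : ∀ i ∈ Sm, L + 2 * (s * dx) ≤ (pt part i).card)
    (hk2 : r + χ + Fintype.card V / s1 + p ≤ L + 1)
    (hcap : 2 ≤ cap)
    (hKx : 2 * (2 * p) + 2 * dx + Fintype.card V * dx / (cap - 1) < Kx) (hKL : Kx ≤ L)
    (hw : w = 2 * p * s + cap) (hΔL : L + r + (k + 1) * (w + r + q0) ≤ Δ)
    (hκ : w + r ≤ κ1) (hκ2 : 2 * p + dx + r ≤ κ1)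
    (hw1 : ∀ i ∈ Sm, w0 i + ((pt part i).card - 2 * M0 i + 1) + p +
      2 * p * (L / q0 + 2 + 4) + (r + p) + Kx ≤ w1 i)
    (hbig : ∀ i < k, i ∉ Sm → L ≤ w1 i)
    (hcore : ∀ i < k, ∀ U : ℕ → Finset V, (∀ ℓ < L, (U ℓ ∩ pt part i).card ≤ κ1) →
      (∀ v ∈ pt part i, mul L U v ≤ κ1) →
      ((range L).filter fun ℓ => ¬ Even (pt part i \ U ℓ).card).card ≤ w1 i →
      ∃ mm, Ccl G L (pt part i) U mm)
    (hopen : ∀ U : ℕ → Finset V, (∀ ℓ < L, (U ℓ ∩ pt part k).card ≤ κ1) →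
      (∀ v ∈ pt part k, mul L U v ≤ κ1) → ∃ mm, Cop G Δ L (pt part k) U mm) :
    H70.HY.HYLab G Δ p := by
  have hmpt : ∀ i v, v ∈ pt part i ↔ part v = i := fun i v => by
    unfold pt
    rw [mem_filter]
    simp only [mem_univ, true_and]
  have hwp : (2 * p - 1) * s ≤ 2 * p * s := Nat.mul_le_mul_right _ (Nat.sub_le _ _)
  choose m hm1 hm2 hm3 hm4 using fun x : V =>
    thr (k + 1) L (w + r) q0 hq0 (fun j => dgi G (pt part j) x)
  have hmΔ : ∀ x, part x = k + 1 →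
      ((range L).filter fun ℓ => ¬ m x ℓ < k + 1).card + dg G x ≤ Δ := by
    intro x _
    have e : ((range L).filter fun ℓ => ¬ m x ℓ < k + 1) =
        ((range L).filter fun ℓ => m x ℓ = k + 1) := by
      ext ℓ
      have h1 := hm1 x ℓ
      rw [mem_filter, mem_filter]
      constructor
      · rintro ⟨h2, h3⟩
        exact ⟨h2, by omega⟩
      · rintro ⟨h2, h3⟩
        exact ⟨h2, by omega⟩
    rw [e]
    have h2 := DcOutM_deg G part k hpart x
    rcases hm3 x with h3 | h3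
    · have h4 := hΔ x
      omega
    · rw [← hr] at h2
      omega
  obtain ⟨D, hD⟩ : ∃ D : ℕ → ℕ → ℕ, ∀ i ℓ, D i ℓ = ((pt part (k + 1)).filter fun x => m x ℓ = i).card :=
    ⟨_, fun _ _ => rfl⟩
  have hD2 : ∀ i ℓ, ℓ + 1 < L → ¬ q0 ∣ ℓ + 1 → D i ℓ = D i (ℓ + 1) := by
    intro i ℓ h1 h2
    rw [hD, hD]
    congr 1
    ext x
    rw [mem_filter, mem_filter, hm4 x ℓ h1 h2]
  obtain ⟨B, hB⟩ : ∃ B : ℕ → Finset ℕ, ∀ i ℓ, ℓ ∈ B i ↔
      ℓ < L ∧ ¬ Even ((pt part i).card + D i ℓ) :=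
    ⟨fun i => (range L).filter fun ℓ => ¬ Even ((pt part i).card + D i ℓ), fun i ℓ => by
      simp only [mem_filter, mem_range]⟩
  have hBL : ∀ i, B i ⊆ range L := fun i ℓ hℓ => by
    rw [mem_range]
    exact ((hB i ℓ).1 hℓ).1
  have hBc : ∀ i, (B i).card ≤ L := fun i => by
    have h1 := card_le_card (hBL i)
    rwa [card_range] at h1
  have hly := fun i (hi : i ∈ Sm) =>
    lyN (pt part i).card r L p (M0 i) (w0 i) (L / q0 + 2) (B i) hp (hBL i)
      (bdq2 (D i) q0 L (pt part i).card hq0 (hD2 i) (B i) (hB i))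
      (by have := hM2 i hi; omega) (hrw i hi) (hLi i hi)
  choose! Y1 Y2 k' hY hYk hY2 hYs hk' hk3 hwr using hly
  have hkk : ∀ i ∈ Sm, k' i ≤ L + 1 - p := by
    intro i hi
    have h1 := hk3 i hi
    have h2 := hk i hi
    have h3 := hBc i
    have hlk : 2 * k' i ≤ 2 * r + max (2 * (pt part i).card - 2 * M0 i)
        ((pt part i).card + (L - w0 i) + 1) := by
      refine h1.trans (Nat.add_le_add_left (max_le_max le_rfl ?_) _)
      omega
    omega
  obtain ⟨c, hck, hcp, hclo, hcnl, hcs, hcS⟩ := glb G part k r s1 s dx χ (L + 1 - p) hs1 hs hpart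
    hr Sm hSm hcol (by omega) hdx π hπ hπ2 Y1 Y2 hY
    (fun i hi v hv => by
      have h1 := hYk i hi v hv
      have h2 := hkk i hi
      omega)
    (fun i hi => by
      have h1 := hY2 i hi
      have h2 := hM i hi
      omega)
    hYs
    (fun i hi => by
      have h1 := hY2 i hi
      have h2 := hM2 i hi
      have h3 := hYs i hi
      omega)
    (fun i hi => by
      have h1 := hkk i hi
      have h2 := hLn i hi
      have h3 := hYs i hi
      have h4 := hk' i hi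
      omega)
  have hWc : ∀ ℓ, (Wn c p ℓ).card ≤ (2 * p - 1) * s := fun ℓ => wsz univ c p s ℓ hp hcs
  obtain ⟨τ, hτ, hτ2, hτ3, hτ4, hτ5, hτ6, hτ7⟩ := taum G Δ p L k r w cap Kx dx hp part hpart hr c
    (fun ℓ _ => by
      have h1 := hWc ℓ
      omega) hdx hcap hKx hKL m
    (fun x _ j hj ℓ hℓ h => hm2 x j hj ℓ hℓ h) hmΔ
  obtain ⟨U, hUdef⟩ : ∃ U : ℕ → Finset V,
      U = (fun ℓ => univ.filter fun v : V => v ∈ Wn c p ℓ ∨ τ ℓ v ≠ v) :=
    ⟨_, rfl⟩
  have hU : ∀ ℓ v, v ∈ U ℓ ↔ (v ∈ Wn c p ℓ ∨ τ ℓ v ≠ v) := by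
    intro ℓ v
    rw [hUdef]
    simp only [mem_filter, mem_univ, true_and]
  have hU1 : ∀ i ≤ k, ∀ ℓ < L, (U ℓ ∩ pt part i).card ≤ κ1 := by
    intro i hi ℓ hℓ
    have h1 : U ℓ ∩ pt part i ⊆
        Wn c p ℓ ∪ (univ.filter fun v => part v ≤ k ∧ τ ℓ v ≠ v) := by
      intro v hv
      rw [mem_inter, hU, hmpt] at hv
      rw [mem_union, mem_filter]
      rcases hv.1 with h | h
      · exact Or.inl h
      · exact Or.inr ⟨mem_univ _, by rw [hv.2]; exact hi, h⟩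
    have h2 := card_le_card h1
    have h3 := card_union_le (Wn c p ℓ) (univ.filter fun v => part v ≤ k ∧ τ ℓ v ≠ v)
    have h4 := hτ5 ℓ hℓ
    have h5 := hWc ℓ
    omega
  have hU2 : ∀ i ≤ k, ∀ v ∈ pt part i, mul L U v ≤ κ1 := by
    intro i hi v hv
    rw [hmpt] at hv
    have h1 := DcOutM_mul c p L (dx + r) hp τ U hU v (hτ6 v (by rw [hv]; exact hi))
    omega
  have hpar : ∀ i < k, ((range L).filter fun ℓ => ¬ Even (pt part i \ U ℓ).card).card ≤ w1 i := by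
    intro i hi
    by_cases hiS : i ∈ Sm
    · have hsub : ((range L).filter fun ℓ => ¬ Even (pt part i \ U ℓ).card) ⊆
          ((range L).filter fun ℓ =>
            ¬ (ℓ ∈ B i ↔ Odd ((Y1 i).filter fun m => ℓ < m + p ∧ m < ℓ + p).card)) ∪
          (range (r + p) ∪ range Kx) := by
        intro ℓ hℓ
        rw [mem_filter, mem_range] at hℓ
        rw [mem_union, mem_filter, mem_range, mem_union, mem_range, mem_range]
        by_cases h0 : ℓ < r + p
        · exact Or.inr (Or.inl h0)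
        by_cases h0' : ℓ < Kx
        · exact Or.inr (Or.inr h0')
        left
        refine ⟨hℓ.1, ?_⟩
        intro h
        apply hℓ.2
        have e1 : (pt part i \ U ℓ).card + (pt part i ∩ U ℓ).card = (pt part i).card :=
          card_sdiff_add_card_inter _ _
        have e2 := DcOutM_card (pt part i) c p ℓ (τ ℓ) (U ℓ) (hU ℓ)
          (fun v hv => hτ.fix ℓ hℓ.1 v hv)
        obtain ⟨g1, g2, g3⟩ := hcS i hiS
        rw [wpm (pt part i) (Y1 i) (Y2 i) (hY i hiS) c g1 g2 g3 p ℓ] at e2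
        have e3 := hτ7 i hi ℓ hℓ.1 (by omega) (fun x hx hxW => by
          have h3 := hclo x hx
          unfold Wn at hxW
          rw [mem_filter] at hxW
          omega)
        refine DcOutM_par (pt part i).card _ (D i ℓ) _ _ _ _ (ℓ ∈ B i) _ e1 e2
          (by rw [e3, hD]) ?_ h Iff.rfl
        rw [hB]
        exact ⟨fun q => q.2, fun q => ⟨hℓ.1, q⟩⟩
      have h1 := card_le_card hsub
      have h2 := card_union_le ((range L).filter fun ℓ =>
            ¬ (ℓ ∈ B i ↔ Odd ((Y1 i).filter fun m => ℓ < m + p ∧ m < ℓ + p).card))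
            (range (r + p) ∪ range Kx)
      have h3 := card_union_le (range (r + p)) (range Kx)
      rw [card_range, card_range] at h3
      have h4 := hwr i hiS
      have h5 := hw1 i hiS
      omega
    · refine le_trans ?_ (hbig i hi hiS)
      have h1 : ((range L).filter fun ℓ => ¬ Even (pt part i \ U ℓ).card).card ≤ (range L).card :=
        card_filter_le _ _
      rwa [card_range] at h1
  have hcl := fun i (hi : i < k) => hcore i hi U (hU1 i hi.le) (hU2 i hi.le) (hpar i hi)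
  have : Nonempty (ℕ → V → V) := ⟨fun _ v => v⟩
  choose! mmc hmmc using hcl
  obtain ⟨mmo, hmmo⟩ := hopen U (hU1 k le_rfl) (hU2 k le_rfl)
  rw [hUdef] at hmmo hmmc
  refine glm G Δ p (L + 1 - p) L k hp ?_ ?_ c hck hcp hΔ part hpart τ hτ hτ2 hτ3 hτ4
    (fun i => if i < k then mmc i else mmo) ?_ ?_
  · have h0 : p ≤ L + 1 := le_trans (Nat.le_add_left _ _) hk2
    omega
  · omega
  · intro i hi
    have h1 := hmmc i hi
    simp only [hi, if_true]
    exact h1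
  · simp only [lt_irrefl, if_false]
    exact hmmo

end Pool.Agent.H71.DC
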