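import Mathlib
import Pool.Agent.H71.DC.OutM

/-!
LVA: the numerical part of the assembly for one graph. Use the STATEMENT of `outM` (`DC/OutM.lean`). Compare the numerical part of `HL/R2.lean` (proved).

Proof.  `n := card V`, `n_i := #(pt part i)`. Constants: `s1 := ⌈8 / (ηχ c)⌉₊`, `S := s1 + 2 m + 1`, `σ := min (cc c) (min (ε c) (min (κ c) (γ c))) / (1000 (m + 1))`, `κ0 := ζ := σ² / (1000 S)` (`σ ≤ 1/1000`), `n0` large (`ζ n ≥ 1000`). For one graph: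
`s := s1 + 2 k + 1 ≤ S`, `r := #(pt part (k + 1)) ≤ ζ n`, `dx := ⌊ζ n⌋₊`, `cap := q0 := ⌈σ n⌉₊`, `Kx := 4 p + 2 dx + n dx / (cap - 1) + 1`, `w := 2 p s + cap`, `κ1 := ⌊κ c n⌋₊`,
`M0 i := min (#{v : π i v ≠ v} / 2) ((n_i - 2 s dx) / 2)`, `w0 i := ⌊(1/2 - 3 cc) n_i⌋₊`, `w1 i := ⌊(1/2 - 2 cc) n_i⌋₊`. Bounds:
 * `s dx ≤ S ζ n ≤ (σ/1000) n` (as `σ ≤ 1`); `n dx / (cap - 1) ≤ ζ n² / (σ n - 1) ≤ (2 ζ/σ) n ≤ (σ/500) n`; `Kx ≤ 6 ζ n + (σ/500) n + 1 ≤ (σ/100) n`; `w ≤ 2 ζ S n + σ n + 1 ≤ 1.1 σ n`; `w + r ≤ 1.2 σ n ≤ κ c n - 1`; `2 p + dx + r ≤ 4 ζ n`.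
 * `hΔL`: `L + r + (k + 1) (w + r + q0) ≤ (1 - ε/8) Δ + 2.4 (m + 1) σ n ≤ Δ`, since `(ε/8) Δ ≥ (ε c/8) n ≥ 125 (m + 1) σ n`.
 * `hk2`: `r + χ + n / s1 + p ≤ (1 - ηχ) Δ + (ηχ c/8) n + 2 ζ n ≤ (1 - ηχ/2) Δ ≤ L` (`ε ≤ ηχ`, `L ≥ (1 - ε/4) Δ`; `c n ≤ Δ`).
 * `i ∈ Sm`: `n_i - 2 M0 i ≤ max (n_i - #{moved} + 1) (2 s dx + 1) + 1 ≤ (σ/100) n` (parity of the natural divisions). `hM, hM2`: clear. `hrw`: `w0 i ≥ n_i / 4 ≥ (c/4) n - 1`.
   `hLi`: `n_i + 2 w0 i ≥ (2 - 6 cc) n_i - 2 ≥ (2 - 6 cc) (1 + γ/2) Δ - 2 ≥ 2 Δ - 2 + (γ/2) Δ ≥ 2 L` (`64 cc ≤ ε ≤ γ ≤ 1`).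
   `hk`: `2 r + 2 n_i - 2 M0 i + 2 p ≤ n_i + (σ/50) n ≤ (2 - ε) Δ + (σ/50) n ≤ 2 L` (`2 L ≥ (2 - ε/2) Δ`); `2 r + n_i + (L - w0 i) + 1 + 2 p ≤ L + (1/2 + 3 cc) n_i + 2 + 4 ζ n ≤ L + (1 - ε/2 + 6 cc) Δ + (σ/100) n ≤ 2 L`
   (`6 cc ≤ ε/10`, `L ≥ (1 - ε/4) Δ`; if `L < w0 i` the natural subtraction gives `0`: `n_i + 1 + 2 r + 2 p ≤ (2 - ε) Δ + (σ/100) n ≤ 2 L`).
   `hLn`: `L + 2 s dx ≤ Δ + (σ/500) n ≤ (1 + γ/2) Δ ≤ n_i`.
   `hw1`: `w0 i + (σ/100) n + 1 + p + 2 p (L / q0 + 6) + r + p + (σ/100) n ≤ w1 i`: `L / q0 ≤ n / (σ n) = 1/σ`, `2 p (1/σ + 6) ≤ 2 ζ n (7/σ) ≤ (14 σ/1000) n`; `w1 i - w0 i ≥ cc n_i - 1 ≥ cc c n - 1 ≥ 1000 σ n - 1`.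
 * `hbig`: `i ∉ Sm`: `L ≤ (1 - ε/8) Δ ≤ (1/2 - 2 cc) (2 - ε/16) Δ - 1 ≤ (1/2 - 2 cc) n_i - 1` (`(1/2 - 2 cc) (2 - ε/16) ≥ 1 - ε/32 - 4 cc ≥ 1 - 3 ε/32`).
 * `hcore`: `κ1 ≤ κ c n ≤ κ n_i` (`n_i ≥ Δ ≥ c n`), `w1 i ≤ (1/2 - 2 cc) n_i`. `hopen`: `κ1 ≤ κ n`.
-/

set_option autoImplicit false

namespace Pool.Agent.H71.DC

open Finset Classical
open Pool.Agent.H71.DN Pool.Agent.H71.DX Pool.Agent.H71.DR Pool.Agent.H71.HL

private theorem LvA_const (c γ ηχ ε cc κ : ℝ) (m : ℕ) (hc : 0 < c) (hc1 : c ≤ 1) (hγ : 0 < γ)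
    (hχ : 0 < ηχ) (hε : 0 < ε) (hcc : 0 < cc) (hcc1 : cc ≤ 1) (hκ : 0 < κ) :
    ∃ (s1 : ℕ) (σ ζ : ℝ), 1 ≤ s1 ∧ 8 ≤ ηχ * c * s1 ∧ 0 < σ ∧ 0 < ζ ∧ σ ≤ 1 / 1000 ∧
      1000 * ((s1 : ℝ) + 2 * m + 1) * ζ = σ * σ ∧ 1000 * ((m : ℝ) + 1) * σ ≤ cc * c ∧
      1000 * ((m : ℝ) + 1) * σ ≤ ε * c ∧ 1000 * ((m : ℝ) + 1) * σ ≤ κ * c ∧
      1000 * ((m : ℝ) + 1) * σ ≤ γ * c := by
  obtain ⟨s1, hs1⟩ : ∃ s1 : ℕ, s1 = ⌈8 / (ηχ * c)⌉₊ := ⟨_, rfl⟩
  have hX : 0 < ηχ * c := by positivity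
  have hs1a : 8 / (ηχ * c) ≤ s1 := by rw [hs1]; exact Nat.le_ceil _
  have hs1c : 8 ≤ ηχ * c * s1 := by
    rw [div_le_iff₀ hX] at hs1a
    linarith
  have hs1p : 1 ≤ s1 := by
    rw [hs1]
    exact Nat.ceil_pos.2 (by positivity)
  obtain ⟨μ, hμ⟩ : ∃ μ : ℝ, μ = min (cc * c) (min (ε * c) (min (κ * c) (γ * c))) := ⟨_, rfl⟩
  have hμ0 : 0 < μ := by
    rw [hμ]
    exact lt_min (by positivity) (lt_min (by positivity) (lt_min (by positivity) (by positivity)))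
  have hμ1 : μ ≤ cc * c := by rw [hμ]; exact min_le_left _ _
  have hμ2 : μ ≤ ε * c := by rw [hμ]; exact (min_le_right _ _).trans (min_le_left _ _)
  have hμ3 : μ ≤ κ * c := by
    rw [hμ]; exact (min_le_right _ _).trans ((min_le_right _ _).trans (min_le_left _ _))
  have hμ4 : μ ≤ γ * c := by
    rw [hμ]; exact (min_le_right _ _).trans ((min_le_right _ _).trans (min_le_right _ _))
  have hμ5 : μ ≤ 1 := by
    have : cc * c ≤ 1 * 1 := mul_le_mul hcc1 hc1 hc.le (by norm_num)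
    linarith
  have hm0 : (0 : ℝ) ≤ m := Nat.cast_nonneg _
  obtain ⟨σ, hσ⟩ : ∃ σ : ℝ, σ = μ / (1000 * ((m : ℝ) + 1)) := ⟨_, rfl⟩
  have hσ0 : 0 < σ := by rw [hσ]; positivity
  have hσμ : 1000 * ((m : ℝ) + 1) * σ = μ := by
    rw [hσ]
    field_simp
  have hσ1 : σ ≤ 1 / 1000 := by
    have h1 : 0 ≤ m * σ := by positivity
    linarith
  refine ⟨s1, σ, σ * σ / (1000 * ((s1 : ℝ) + 2 * m + 1)), hs1p, hs1c, hσ0, by positivity, hσ1, ?_,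
    by rw [hσμ]; exact hμ1, by rw [hσμ]; exact hμ2, by rw [hσμ]; exact hμ3, by rw [hσμ]; exact hμ4⟩
  field_simp

private theorem LvA_min (a b x t d : ℕ) (hb : t ≤ b) (hx : b ≤ x + d) :
    2 * min (a / 2) ((b - t) / 2) ≤ a ∧ 2 * min (a / 2) ((b - t) / 2) + t ≤ b ∧
      (x ≤ a → b - 2 * min (a / 2) ((b - t) / 2) ≤ max d t + 1) := by
  refine ⟨by omega, by omega, fun h => by omega⟩

theorem lvA (c γ ηχ ε cc κ : ℝ) (m : ℕ) (hc : 0 < c) (hc1 : c ≤ 1) (hγ : 0 < γ)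
    (hγ1 : γ ≤ 1) (hχ : 0 < ηχ) (hχ1 : ηχ ≤ 1 / 4) (hε : 0 < ε) (hεγ : ε ≤ γ)
    (hεχ : ε ≤ ηχ) (hcc : 0 < cc) (hccε : 64 * cc ≤ ε) (hκ : 0 < κ) (hκ1 : κ ≤ 1) :
    ∃ (κ0 ζ : ℝ) (n0 : ℕ), 0 < κ0 ∧ 0 < ζ ∧
      ∀ (V : Type) [Fintype V] (G : SimpleGraph V) (Δ k p L χ : ℕ) (part : V → ℕ)
        (Sm : Finset ℕ) (π : ℕ → V → V), n0 ≤ Fintype.card V → 1 ≤ p →
        (p : ℝ) ≤ κ0 * Fintype.card V → k ≤ m → (∀ v, dg G v ≤ Δ) →
        c * Fintype.card V ≤ Δ → Δ ≤ Fintype.card V →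
        (1 - ε / 4) * Δ ≤ (L : ℝ) → (L : ℝ) ≤ (1 - ε / 8) * Δ →
        (∀ v, part v ≤ k + 1) → ((pt part (k + 1)).card : ℝ) ≤ ζ * Fintype.card V →
        (∀ v, part v ≤ k →
          ((univ.filter fun u => part u ≤ k ∧ part u ≠ part v ∧ G.Adj v u).card : ℝ) ≤
            ζ * Fintype.card V) →
        G.Colorable χ → (χ : ℝ) ≤ (1 - ηχ) * Δ → Sm ⊆ range k →
        (∀ i < k, (1 + γ / 2) * (Δ : ℝ) ≤ (pt part i).card) →
        (∀ i ∈ Sm, ((pt part i).card : ℝ) ≤ (2 - ε) * Δ) →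
        (∀ i < k, i ∉ Sm → (2 - ε / 16) * (Δ : ℝ) ≤ (pt part i).card) →
        (∀ i ∈ Sm, Inv (π i) ∧ (∀ v, π i v ≠ v → part v = i ∧ ¬ G.Adj v (π i v)) ∧
          ((pt part i).card : ℝ) ≤
            ((univ.filter fun v => π i v ≠ v).card : ℝ) + ζ * Fintype.card V) →
        (∀ i < k, ∀ U : ℕ → Finset V,
          (∀ ℓ < L, ((U ℓ ∩ pt part i).card : ℝ) ≤ κ * (pt part i).card) →
          (∀ v ∈ pt part i, (mul L U v : ℝ) ≤ κ * (pt part i).card) →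
          ((((range L).filter fun ℓ => ¬ Even (pt part i \ U ℓ).card).card : ℝ) ≤
            (1 / 2 - 2 * cc) * (pt part i).card) →
          ∃ mm, Ccl G L (pt part i) U mm) →
        (∀ U : ℕ → Finset V,
          (∀ ℓ < L, ((U ℓ ∩ pt part k).card : ℝ) ≤ κ * Fintype.card V) →
          (∀ v ∈ pt part k, (mul L U v : ℝ) ≤ κ * Fintype.card V) →
          ∃ mm, Cop G Δ L (pt part k) U mm) →
        H70.HY.HYLab G Δ p := by
  have hcc1 : cc ≤ 1 / 256 := by linarith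
  obtain ⟨s1, σ, ζ, hs1, hs1c, hσ, hζ, hσ1, hζσ, hσc, hσε, hσκ, hσγ⟩ :=
    LvA_const c γ ηχ ε cc κ m hc hc1 hγ hχ hε hcc (by linarith) hκ
  obtain ⟨n0, hn0⟩ : ∃ n0 : ℕ, n0 = ⌈1000 / ζ⌉₊ := ⟨_, rfl⟩
  refine ⟨ζ, ζ, n0, hζ, hζ, ?_⟩
  intro V _ G Δ k p L χ part Sm π hn hp hpζ hkm hΔ hcΔ hΔV hL1 hL2 hpart hLo hdx hcol hχΔ hSm hbig
    hsm hlg hπ hcl hop
  have hm0 : (0 : ℝ) ≤ m := Nat.cast_nonneg _
  obtain ⟨n, hnn⟩ : ∃ n : ℝ, n = (Fintype.card V : ℝ) := ⟨_, rfl⟩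
  have hζn : 1000 ≤ ζ * n := by
    have h1 : 1000 / ζ ≤ n0 := by rw [hn0]; exact Nat.le_ceil _
    have h2 : (n0 : ℝ) ≤ n := by rw [hnn]; exact_mod_cast hn
    have h3 := h1.trans h2
    rw [div_le_iff₀ hζ] at h3
    linarith
  have hnpos : 0 < n := by
    by_contra h
    push Not at h
    have := mul_nonpos_of_nonneg_of_nonpos hζ.le h
    linarith
  rw [← hnn] at hpζ hcΔ hLo
  have hΔV' : (Δ : ℝ) ≤ n := by rw [hnn]; exact_mod_cast hΔV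
  have hp0 : (1 : ℝ) ≤ p := by exact_mod_cast hp
  -- products
  obtain ⟨T, hT⟩ : ∃ T : ℝ, T = σ * n := ⟨_, rfl⟩
  have hT0 : 0 < T := by rw [hT]; positivity
  obtain ⟨Z, hZ⟩ : ∃ Z : ℝ, Z = ζ * n := ⟨_, rfl⟩
  rw [← hZ] at hζn hpζ hLo
  obtain ⟨S, hS⟩ : ∃ S : ℝ, S = (s1 : ℝ) + 2 * m + 1 := ⟨_, rfl⟩
  rw [← hS] at hζσ
  have hs1R : (1 : ℝ) ≤ s1 := by exact_mod_cast hs1
  have hS1 : 1 ≤ S := by rw [hS]; linarith
  have hSZ : 1000 * (S * Z) = σ * T := by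
    rw [hZ, hT]
    calc 1000 * (S * (ζ * n)) = (1000 * S * ζ) * n := by ring
      _ = σ * σ * n := by rw [hζσ]
      _ = σ * (σ * n) := by ring
  have hSZ1 : S * Z ≤ T / 10 ^ 6 := by
    have h1 : σ * T ≤ 1 / 1000 * T := mul_le_mul_of_nonneg_right hσ1 hT0.le
    linarith
  have hZ0 : 0 < Z := by linarith
  have hZT : Z ≤ T / 10 ^ 6 := by
    have h1 : 1 * Z ≤ S * Z := mul_le_mul_of_nonneg_right hS1 hZ0.le
    linarith
  have hTbig : 10 ^ 9 ≤ T := by linarith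
  have hmT : (m + 1 : ℝ) * T * 1000 ≤ cc * c * n ∧ (m + 1 : ℝ) * T * 1000 ≤ ε * c * n ∧
      (m + 1 : ℝ) * T * 1000 ≤ κ * c * n ∧ (m + 1 : ℝ) * T * 1000 ≤ γ * c * n := by
    have h1 := mul_le_mul_of_nonneg_right hσc hnpos.le
    have h2 := mul_le_mul_of_nonneg_right hσε hnpos.le
    have h3 := mul_le_mul_of_nonneg_right hσκ hnpos.le
    have h4 := mul_le_mul_of_nonneg_right hσγ hnpos.le
    rw [hT]
    refine ⟨?_, ?_, ?_, ?_⟩ <;> linarith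
  obtain ⟨hC, hE, hK, hGm⟩ := hmT
  have hmT0 : 0 ≤ (m : ℝ) * T := by positivity
  have hT1 : T * 1000 ≤ (m + 1 : ℝ) * T * 1000 := by linarith
  have hεΔ : ε * c * n ≤ ε * Δ := by
    have := mul_le_mul_of_nonneg_left hcΔ hε.le
    linarith
  have hγΔ : γ * c * n ≤ γ * Δ := by
    have := mul_le_mul_of_nonneg_left hcΔ hγ.le
    linarith
  have hΔ0 : (0 : ℝ) ≤ Δ := Nat.cast_nonneg _
  have hccΔ : 64 * (cc * Δ) ≤ ε * Δ := by
    have := mul_le_mul_of_nonneg_right hccε hΔ0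
    linarith
  have hεγΔ : ε * Δ ≤ γ * Δ := mul_le_mul_of_nonneg_right hεγ hΔ0
  have hεχΔ : ε * Δ ≤ ηχ * Δ := mul_le_mul_of_nonneg_right hεχ hΔ0
  have hεΔ1 : ε * Δ ≤ 1 / 4 * Δ := mul_le_mul_of_nonneg_right (by linarith) hΔ0
  have hχn : ηχ * c * n ≤ ηχ * Δ := by
    have := mul_le_mul_of_nonneg_left hcΔ hχ.le
    linarith
  have hcn : 0 < c * n := by positivity
  have hεcn : ε * c * n ≤ 1 / 4 * (c * n) := by
    have h1 : ε * (c * n) ≤ 1 / 4 * (c * n) := mul_le_mul_of_nonneg_right (by linarith) hcn.le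
    linarith
  have hεχn : ε * c * n ≤ ηχ * c * n := by
    have h1 : ε * (c * n) ≤ ηχ * (c * n) := mul_le_mul_of_nonneg_right hεχ hcn.le
    linarith
  have hκn : κ * c * n ≤ κ * Δ := by
    have := mul_le_mul_of_nonneg_left hcΔ hκ.le
    linarith
  have hkmR : (k : ℝ) ≤ m := by exact_mod_cast hkm
  -- natural parameters
  obtain ⟨s, hs⟩ : ∃ s : ℕ, s = s1 + 2 * k + 1 := ⟨_, rfl⟩
  have hsS : (s : ℝ) ≤ S := by
    rw [hs, hS]
    push_cast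
    linarith
  obtain ⟨r, hr⟩ : ∃ r : ℕ, r = (pt part (k + 1)).card := ⟨_, rfl⟩
  rw [← hr] at hLo
  have hr0 : (0 : ℝ) ≤ r := Nat.cast_nonneg _
  obtain ⟨dx, hdxd⟩ : ∃ dx : ℕ, dx = ⌊Z⌋₊ := ⟨_, rfl⟩
  have hdxZ : (dx : ℝ) ≤ Z := by rw [hdxd]; exact Nat.floor_le hZ0.le
  have hdx0 : (0 : ℝ) ≤ dx := Nat.cast_nonneg _
  obtain ⟨cap, hcap⟩ : ∃ cap : ℕ, cap = ⌈T⌉₊ := ⟨_, rfl⟩
  have hcapa : T ≤ cap := by rw [hcap]; exact Nat.le_ceil _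
  have hcapb : (cap : ℝ) < T + 1 := by rw [hcap]; exact Nat.ceil_lt_add_one hT0.le
  have hcap2 : 2 ≤ cap := by
    have h1 : (2 : ℝ) ≤ cap := by linarith
    exact_mod_cast h1
  have hsdx : ((s * dx : ℕ) : ℝ) ≤ T / 10 ^ 6 := by
    push_cast
    have h1 : (s : ℝ) * dx ≤ S * Z := mul_le_mul hsS hdxZ hdx0 (by linarith)
    linarith
  have hps : (p : ℝ) * s ≤ T / 10 ^ 6 := by
    have h1 : (p : ℝ) * s ≤ Z * S := mul_le_mul hpζ hsS (by positivity) hZ0.le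
    linarith
  have hZσ : Z / σ ≤ T / 1000 := by
    rw [div_le_iff₀ hσ]
    have h1 : 1 * Z ≤ S * Z := mul_le_mul_of_nonneg_right hS1 hZ0.le
    linarith
  obtain ⟨Q, hQ⟩ : ∃ Q : ℕ, Q = Fintype.card V * dx / (cap - 1) := ⟨_, rfl⟩
  have hQb : (Q : ℝ) ≤ T / 500 := by
    rw [hQ]
    refine Nat.cast_div_le.trans ?_
    have h1 : ((cap - 1 : ℕ) : ℝ) = cap - 1 := by
      rw [Nat.cast_sub (by omega)]
      norm_num
    rw [h1, div_le_iff₀ (by linarith)]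
    push_cast
    rw [← hnn]
    have h2 : n * dx ≤ n * Z := mul_le_mul_of_nonneg_left hdxZ hnpos.le
    have h3 : n * Z ≤ n * (σ * T / 1000) := by
      apply mul_le_mul_of_nonneg_left _ hnpos.le
      have h1 : 1 * Z ≤ S * Z := mul_le_mul_of_nonneg_right hS1 hZ0.le
      linarith
    have h4 : n * (σ * T / 1000) = T * T / 1000 := by rw [hT]; ring
    have h5 : T / 500 * (T - 1) ≤ T / 500 * ((cap : ℝ) - 1) :=
      mul_le_mul_of_nonneg_left (by linarith) (by positivity)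
    have h6 : T * T / 1000 ≤ T / 500 * (T - 1) := by
      have h7 : T * 2 ≤ T * T := mul_le_mul_of_nonneg_left (by linarith) hT0.le
      linarith
    linarith
  have hLΔ : (L : ℝ) ≤ Δ := by linarith
  have hLq : ((L / cap : ℕ) : ℝ) * (p : ℝ) ≤ T / 1000 := by
    have h1 : ((L / cap : ℕ) : ℝ) ≤ 1 / σ := by
      refine Nat.cast_div_le.trans ?_
      rw [div_le_div_iff₀ (by linarith) hσ]
      have h2 : (L : ℝ) * σ ≤ n * σ := mul_le_mul_of_nonneg_right (by linarith) hσ.le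
      rw [hT] at hcapa
      linarith
    calc ((L / cap : ℕ) : ℝ) * (p : ℝ) ≤ 1 / σ * Z := mul_le_mul h1 hpζ (by positivity) (by positivity)
      _ = Z / σ := by ring
      _ ≤ _ := hZσ
  -- the parts
  have hni : ∀ i < k, c * n ≤ ((pt part i).card : ℝ) ∧ (Δ : ℝ) + γ * Δ / 2 ≤ ((pt part i).card : ℝ) := by
    intro i hi
    have h1 := hbig i hi
    have h2 : 0 ≤ γ * (Δ : ℝ) := by positivity
    constructor <;> linarith
  have hcni : ∀ i < k, cc * c * n ≤ cc * ((pt part i).card : ℝ) := by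
    intro i hi
    have := mul_le_mul_of_nonneg_left (hni i hi).1 hcc.le
    linarith
  have hcnu : ∀ i ∈ Sm, cc * ((pt part i).card : ℝ) ≤ 2 * (cc * Δ) := by
    intro i hi
    have h1 := hsm i hi
    have h2 : 0 ≤ ε * (Δ : ℝ) := by positivity
    have h3 : cc * ((pt part i).card : ℝ) ≤ cc * (2 * Δ) :=
      mul_le_mul_of_nonneg_left (by linarith) hcc.le
    linarith
  have hw0 : ∀ i, ((⌊(1 / 2 - 3 * cc) * ((pt part i).card : ℝ)⌋₊ : ℕ) : ℝ) ≤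
      (1 / 2 - 3 * cc) * ((pt part i).card : ℝ) ∧ (1 / 2 - 3 * cc) * ((pt part i).card : ℝ) <
        ((⌊(1 / 2 - 3 * cc) * ((pt part i).card : ℝ)⌋₊ : ℕ) : ℝ) + 1 := by
    intro i
    refine ⟨Nat.floor_le (mul_nonneg (by linarith) (Nat.cast_nonneg _)), Nat.lt_floor_add_one _⟩
  have hw1 : ∀ i, ((⌊(1 / 2 - 2 * cc) * ((pt part i).card : ℝ)⌋₊ : ℕ) : ℝ) ≤
      (1 / 2 - 2 * cc) * ((pt part i).card : ℝ) ∧ (1 / 2 - 2 * cc) * ((pt part i).card : ℝ) <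
        ((⌊(1 / 2 - 2 * cc) * ((pt part i).card : ℝ)⌋₊ : ℕ) : ℝ) + 1 := by
    intro i
    refine ⟨Nat.floor_le (mul_nonneg (by linarith) (Nat.cast_nonneg _)), Nat.lt_floor_add_one _⟩
  -- the numbers of fixed points
  have hM : ∀ i ∈ Sm, 2 * (s * dx) ≤ (pt part i).card ∧
      (pt part i).card ≤ (univ.filter fun v => π i v ≠ v).card + (dx + 1) := by
    intro i hi
    have hi' := mem_range.1 (hSm hi)
    constructor
    · have h1 : 2 * ((s * dx : ℕ) : ℝ) ≤ ((pt part i).card : ℝ) := by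
        have h2 := (hni i hi').1
        linarith
      exact_mod_cast h1
    · have h1 := (hπ i hi).2.2
      rw [← hnn, ← hZ] at h1
      have h2 : Z < dx + 1 := by rw [hdxd]; exact Nat.lt_floor_add_one _
      have h3 : ((pt part i).card : ℝ) ≤ ((univ.filter fun v => π i v ≠ v).card : ℝ) + (dx + 1) := by
        linarith
      exact_mod_cast h3
  have hMM : ∀ i ∈ Sm,
      2 * min ((univ.filter fun v => π i v ≠ v).card / 2) (((pt part i).card - 2 * (s * dx)) / 2) ≤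
        (univ.filter fun v => π i v ≠ v).card ∧
      2 * min ((univ.filter fun v => π i v ≠ v).card / 2) (((pt part i).card - 2 * (s * dx)) / 2) +
        2 * (s * dx) ≤ (pt part i).card ∧
      (pt part i).card - 2 * min ((univ.filter fun v => π i v ≠ v).card / 2)
        (((pt part i).card - 2 * (s * dx)) / 2) ≤ max (dx + 1) (2 * (s * dx)) + 1 := by
    intro i hi
    obtain ⟨h1, h2, h3⟩ := LvA_min (univ.filter fun v => π i v ≠ v).card (pt part i).card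
      (univ.filter fun v => π i v ≠ v).card (2 * (s * dx)) (dx + 1) (hM i hi).1 (hM i hi).2
    exact ⟨h1, h2, h3 le_rfl⟩
  have hmax : ((max (dx + 1) (2 * (s * dx)) + 1 : ℕ) : ℝ) ≤ T / 100 := by
    have h1 : ((dx + 1 : ℕ) : ℝ) ≤ T / 100 - 1 := by
      push_cast
      linarith
    have h2 : ((2 * (s * dx) : ℕ) : ℝ) ≤ T / 100 - 1 := by
      have h3 : ((2 * (s * dx) : ℕ) : ℝ) = 2 * ((s * dx : ℕ) : ℝ) := by push_cast; ring
      rw [h3]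
      linarith
    rcases le_total (dx + 1) (2 * (s * dx)) with h | h
    · rw [max_eq_right h, Nat.cast_add]
      push_cast at h2 ⊢
      linarith
    · rw [max_eq_left h, Nat.cast_add]
      push_cast at h1 ⊢
      linarith
  obtain ⟨M0, hM0⟩ : ∃ M0 : ℕ → ℕ, M0 = fun i =>
    min ((univ.filter fun v => π i v ≠ v).card / 2) (((pt part i).card - 2 * (s * dx)) / 2) := ⟨_, rfl⟩
  have hM0i : ∀ i ∈ Sm, 2 * M0 i ≤ (univ.filter fun v => π i v ≠ v).card ∧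
      2 * M0 i + 2 * (s * dx) ≤ (pt part i).card ∧
      (((pt part i).card - 2 * M0 i : ℕ) : ℝ) ≤ T / 100 := by
    intro i hi
    rw [hM0]
    obtain ⟨h1, h2, h3⟩ := hMM i hi
    refine ⟨h1, h2, le_trans ?_ hmax⟩
    exact_mod_cast h3
  refine outM G Δ p L k r s1 s dx χ cap cap (2 * p * s + cap) (4 * p + 2 * dx + Q + 1)
    ⌊κ * c * n⌋₊ hp hs1 hs (by omega) hΔ part hpart hr ?_ Sm hSm hcol π (fun i hi => (hπ i hi).1)
    (fun i hi => (hπ i hi).2.1) M0 (fun i => ⌊(1 / 2 - 3 * cc) * ((pt part i).card : ℝ)⌋₊)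
    (fun i => ⌊(1 / 2 - 2 * cc) * ((pt part i).card : ℝ)⌋₊) (fun i hi => (hM0i i hi).1)
    (fun i hi => (hM0i i hi).2.1) ?_ ?_ ?_ ?_ ?_ hcap2 ?_ ?_ rfl ?_ ?_ ?_ ?_ ?_ ?_ ?_
  · -- hdx
    intro v hv
    rw [hdxd]
    apply Nat.le_floor
    rw [hZ, hnn]
    exact hdx v hv
  · -- hrw
    intro i hi
    have hi' := mem_range.1 (hSm hi)
    have h1 := (hw0 i).2
    have h2 := (hni i hi').1
    have h3 : cc * ((pt part i).card : ℝ) ≤ 1 / 256 * ((pt part i).card : ℝ) :=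
      mul_le_mul_of_nonneg_right hcc1 (Nat.cast_nonneg _)
    have h4 : (r : ℝ) ≤ ((⌊(1 / 2 - 3 * cc) * ((pt part i).card : ℝ)⌋₊ : ℕ) : ℝ) := by linarith
    exact_mod_cast h4
  · -- hLi
    intro i hi
    have hi' := mem_range.1 (hSm hi)
    have h1 := (hw0 i).2
    have h2 := (hni i hi').2
    have h3 := hcnu i hi
    have h4 : (2 : ℝ) * L ≤ ((pt part i).card : ℝ) +
        2 * ((⌊(1 / 2 - 3 * cc) * ((pt part i).card : ℝ)⌋₊ : ℕ) : ℝ) := by linarith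
    exact_mod_cast h4
  · -- hk
    intro i hi
    have hi' := mem_range.1 (hSm hi)
    have h1 := (hw0 i).2
    have h2 := (hni i hi').2
    have h3 := hcnu i hi
    have h5 := hsm i hi
    obtain ⟨h6, h7, h8⟩ := hM0i i hi
    have h9 : 2 * r + (2 * (pt part i).card - 2 * M0 i) + 2 * p ≤ 2 * L + 2 := by
      have e1 : 2 * (pt part i).card - 2 * M0 i = (pt part i).card + ((pt part i).card - 2 * M0 i) := by
        omega
      rw [e1]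
      have h10 : 2 * (r : ℝ) + (((pt part i).card : ℝ) + (((pt part i).card - 2 * M0 i : ℕ) : ℝ)) +
          2 * p ≤ 2 * L + 2 := by linarith
      exact_mod_cast h10
    have h10 : 2 * r + ((pt part i).card + (L - ⌊(1 / 2 - 3 * cc) * ((pt part i).card : ℝ)⌋₊) + 1) +
        2 * p ≤ 2 * L + 2 := by
      rcases le_total ⌊(1 / 2 - 3 * cc) * ((pt part i).card : ℝ)⌋₊ L with h | h
      · have h11 : 2 * r + ((pt part i).card + L + 1) + 2 * p ≤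
            2 * L + 2 + ⌊(1 / 2 - 3 * cc) * ((pt part i).card : ℝ)⌋₊ := by
          have h12 : 2 * (r : ℝ) + (((pt part i).card : ℝ) + L + 1) + 2 * p ≤
            2 * L + 2 + ((⌊(1 / 2 - 3 * cc) * ((pt part i).card : ℝ)⌋₊ : ℕ) : ℝ) := by linarith
          exact_mod_cast h12
        omega
      · have h11 : 2 * r + ((pt part i).card + 1) + 2 * p ≤ 2 * L + 2 := by
          have h12 : 2 * (r : ℝ) + (((pt part i).card : ℝ) + 1) + 2 * p ≤ 2 * L + 2 := by linarith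
          exact_mod_cast h12
        omega
    show 2 * r + max (2 * (pt part i).card - 2 * M0 i)
      ((pt part i).card + (L - ⌊(1 / 2 - 3 * cc) * ((pt part i).card : ℝ)⌋₊) + 1) + 2 * p ≤ 2 * L + 2
    rcases le_total (2 * (pt part i).card - 2 * M0 i)
      ((pt part i).card + (L - ⌊(1 / 2 - 3 * cc) * ((pt part i).card : ℝ)⌋₊) + 1) with h | h
    · rw [max_eq_right h]
      exact h10
    · rw [max_eq_left h]
      exact h9
  · -- hLn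
    intro i hi
    have hi' := mem_range.1 (hSm hi)
    have h2 := (hni i hi').2
    have h1 : (L : ℝ) + 2 * ((s * dx : ℕ) : ℝ) ≤ ((pt part i).card : ℝ) := by linarith
    exact_mod_cast h1
  · -- hk2
    have h1 : ((Fintype.card V / s1 : ℕ) : ℝ) ≤ ηχ * c * n / 8 := by
      refine Nat.cast_div_le.trans ?_
      rw [div_le_iff₀ (by linarith), ← hnn]
      have h2 : n * 8 ≤ n * (ηχ * c * s1) := mul_le_mul_of_nonneg_left hs1c hnpos.le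
      linarith
    have h2 : (r : ℝ) + χ + ((Fintype.card V / s1 : ℕ) : ℝ) + p ≤ L + 1 := by linarith
    exact_mod_cast h2
  · -- hKx
    rw [← hQ]
    omega
  · -- hKL
    have h1 : 4 * (p : ℝ) + 2 * dx + Q + 1 ≤ L := by linarith
    exact_mod_cast h1
  · -- hΔL
    have h1 : ((k : ℝ) + 1) * (2 * (p * s) + cap + r + cap) ≤ ((m : ℝ) + 1) * (22 / 10 * T) :=
      mul_le_mul (by linarith) (by linarith) (by positivity) (by positivity)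
    have h2 : (L : ℝ) + r + (k + 1) * (2 * p * s + cap + r + cap) ≤ Δ := by
      have h3 : (k + 1 : ℝ) * (2 * p * s + cap + r + cap) =
        ((k : ℝ) + 1) * (2 * (p * s) + cap + r + cap) := by ring
      rw [h3]
      linarith
    exact_mod_cast h2
  · -- hκ
    apply Nat.le_floor
    push_cast
    linarith
  · -- hκ2
    apply Nat.le_floor
    push_cast
    linarith
  · -- hw1
    intro i hi
    have hi' := mem_range.1 (hSm hi)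
    have h1 := (hw0 i).1
    have h2 := (hw1 i).2
    have h3 := hcni i hi'
    obtain ⟨h6, h7, h8⟩ := hM0i i hi
    have h4 : ((⌊(1 / 2 - 3 * cc) * ((pt part i).card : ℝ)⌋₊ : ℕ) : ℝ) +
        ((((pt part i).card - 2 * M0 i : ℕ) : ℝ) + 1) + p +
        2 * p * (((L / cap : ℕ) : ℝ) + 2 + 4) + (r + p) + (4 * p + 2 * dx + Q + 1) ≤
        ((⌊(1 / 2 - 2 * cc) * ((pt part i).card : ℝ)⌋₊ : ℕ) : ℝ) := by
      have e1 : 2 * (p : ℝ) * (((L / cap : ℕ) : ℝ) + 2 + 4) =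
        2 * (((L / cap : ℕ) : ℝ) * p) + 12 * p := by ring
      rw [e1]
      linarith
    exact_mod_cast h4
  · -- hbig
    intro i hi hiS
    apply Nat.le_floor
    have h1 := hlg i hi hiS
    have h2 : (1 / 2 - 2 * cc) * ((2 - ε / 16) * (Δ : ℝ)) ≤ (1 / 2 - 2 * cc) * ((pt part i).card : ℝ) :=
      mul_le_mul_of_nonneg_left h1 (by linarith)
    have h3 : 0 ≤ cc * (ε * (Δ : ℝ)) := by positivity
    have h4 : (1 / 2 - 2 * cc) * ((2 - ε / 16) * (Δ : ℝ)) =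
      Δ - ε * Δ / 32 - 4 * (cc * Δ) + 2 * (cc * (ε * Δ)) / 16 := by ring
    linarith
  · -- hcore
    intro i hi U h1 h2 h3
    have h4 : ((⌊κ * c * n⌋₊ : ℕ) : ℝ) ≤ κ * ((pt part i).card : ℝ) := by
      have h5 : ((⌊κ * c * n⌋₊ : ℕ) : ℝ) ≤ κ * c * n := Nat.floor_le (by positivity)
      have h6 := mul_le_mul_of_nonneg_left (hni i hi).1 hκ.le
      linarith
    refine hcl i hi U (fun ℓ hℓ => ?_) (fun v hv => ?_) ?_
    · have h5 : ((U ℓ ∩ pt part i).card : ℝ) ≤ ((⌊κ * c * n⌋₊ : ℕ) : ℝ) := by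
        exact_mod_cast h1 ℓ hℓ
      exact h5.trans h4
    · have h5 : (mul L U v : ℝ) ≤ ((⌊κ * c * n⌋₊ : ℕ) : ℝ) := by
        exact_mod_cast h2 v hv
      exact h5.trans h4
    · have h5 : ((((range L).filter fun ℓ => ¬ Even (pt part i \ U ℓ).card).card : ℕ) : ℝ) ≤
          ((⌊(1 / 2 - 2 * cc) * ((pt part i).card : ℝ)⌋₊ : ℕ) : ℝ) := by
        exact_mod_cast h3
      exact h5.trans (hw1 i).1
  · -- hopen
    intro U h1 h2
    have h4 : ((⌊κ * c * n⌋₊ : ℕ) : ℝ) ≤ κ * (Fintype.card V : ℝ) := by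
      have h5 : ((⌊κ * c * n⌋₊ : ℕ) : ℝ) ≤ κ * c * n := Nat.floor_le (by positivity)
      rw [← hnn]
      have h6 : κ * Δ ≤ κ * n := mul_le_mul_of_nonneg_left hΔV' hκ.le
      linarith
    refine hop U (fun ℓ hℓ => ?_) (fun v hv => ?_)
    · have h5 : ((U ℓ ∩ pt part k).card : ℝ) ≤ ((⌊κ * c * n⌋₊ : ℕ) : ℝ) := by
        exact_mod_cast h1 ℓ hℓ
      exact h5.trans h4
    · have h5 : (mul L U v : ℝ) ≤ ((⌊κ * c * n⌋₊ : ℕ) : ℝ) := by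
        exact_mod_cast h2 v hv
      exact h5.trans h4

end Pool.Agent.H71.DC
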