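import Mathlib
import Pool.Agent.H71.DX.Mtc
import Pool.Agent.H71.DC.Defs

/-!
MT3: an almost perfect matching of the complement of a nearly regular graph on a set `C` with at least `(1 + γ) Δ` vertices. Variant of `mt2` (`HL/Mt2.lean`, proved; copy and adapt).

Proof.  `n := card V`, `G1 := G.comap Subtype.val` on `V1 := {v // v ∈ C}`, `n1 := #C = card V1`, `dg G1 v = dgi G C v ≤ dg G v ≤ Δ`. `ρ := γ c a / 32`. `A := n1 - (Δ + 1)`, `s := ⌊ρ n⌋₊`; `A ≥ γ Δ - 1 ≥ (γ c/2) n` for large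
`n`. By `dgc` the degrees in `G1ᶜ` are between `A` and `A + s`. `mtch G1ᶜ A (A + s)` gives `π1` with `n1 A ≤ (A + s + 1) M`, `M := #{v : π1 v ≠ v} ≤ n1`. So
`A (n1 - M) ≤ (s + 1) M ≤ (s + 1) n` and `n1 - M ≤ (ρ n + 1) n / A ≤ (ρ n + 1) · 2 / (γ c) = (a/16) n + 2/(γ c) ≤ a n` for large `n`. `π v := if h : v ∈ C then (π1 ⟨v, h⟩).1 else v`.
-/

set_option autoImplicit false

namespace Pool.Agent.H71.DC

open Finset Classical
open Pool.Agent.H71.DN Pool.Agent.H71.DX Pool.Agent.H71.DR Pool.Agent.H71.HL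

theorem mt3 (c γ a : ℝ) (hc : 0 < c) (hc1 : c ≤ 1) (hγ : 0 < γ) (hγ1 : γ ≤ 1) (ha : 0 < a) :
    ∃ (ρ : ℝ) (n0 : ℕ), 0 < ρ ∧
      ∀ (V : Type) [Fintype V] (G : SimpleGraph V) (Δ : ℕ) (C : Finset V),
        n0 ≤ Fintype.card V → c * Fintype.card V ≤ Δ → (∀ v, dg G v ≤ Δ) →
        (∀ v ∈ C, (Δ : ℝ) ≤ dgi G C v + ρ * Fintype.card V) →
        (1 + γ) * (Δ : ℝ) ≤ (C.card : ℝ) →
        ∃ π : V → V, Inv π ∧ (∀ v, π v ≠ v → v ∈ C ∧ ¬ G.Adj v (π v)) ∧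
          (C.card : ℝ) ≤ ((univ.filter fun v => π v ≠ v).card : ℝ) + a * Fintype.card V := by
  have hgc : 0 < γ * c := by positivity
  have hgca : 0 < γ * c * a := by positivity
  refine ⟨γ * c * a / 32, ⌈40 / (γ * c) + 40 / (γ * c * a)⌉₊, by positivity, ?_⟩
  intro V _ G Δ C hn0 hΔ1 hdΔ hC hcard
  obtain ⟨n, hn⟩ : ∃ n : ℝ, n = Fintype.card V := ⟨_, rfl⟩
  rw [← hn] at hΔ1 ⊢
  have hn1' : 40 / (γ * c) + 40 / (γ * c * a) ≤ n := by
    rw [hn]
    refine (Nat.le_ceil _).trans ?_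
    exact_mod_cast hn0
  have hp1 : 0 < 40 / (γ * c) := by positivity
  have hp2 : 0 < 40 / (γ * c * a) := by positivity
  have hnpos : 0 < n := by linarith
  have hn40 : 40 ≤ γ * c * n := by
    have h1 : 40 / (γ * c) ≤ n := by linarith
    rw [div_le_iff₀ hgc] at h1
    linarith
  have hn40a : 40 ≤ γ * c * a * n := by
    have h1 : 40 / (γ * c * a) ≤ n := by linarith
    rw [div_le_iff₀ hgca] at h1
    linarith
  obtain ⟨n1, hn1⟩ : ∃ n1, n1 = Fintype.card {v // v ∈ C} := ⟨_, rfl⟩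
  have hn1c : C.card = n1 := by
    rw [hn1, Fintype.card_coe]
  rw [hn1c] at hcard ⊢
  have hn1n : (n1 : ℝ) ≤ n := by
    rw [hn, ← hn1c]
    exact_mod_cast Finset.card_le_univ _
  obtain ⟨G1, hG1⟩ : ∃ G1, G1 = G.comap (fun v : {v // v ∈ C} => v.1) := ⟨_, rfl⟩
  have hdg1 : ∀ v, dg G1 v ≤ dg G v.1 := by
    intro v
    rw [hG1]
    unfold dg
    refine Finset.card_le_card_of_injOn (fun u : {v // v ∈ C} => u.1) ?_ ?_
    · intro u hu
      exact mem_filter.2 ⟨mem_univ _, (mem_filter.1 (mem_coe.1 hu)).2⟩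
    · intro u _ u' _ h
      exact Subtype.ext h
  have hdg2 : ∀ v, dgi G C v.1 ≤ dg G1 v := by
    intro v
    rw [hG1]
    unfold dgi dg
    have h1 : C.filter (fun u => G.Adj v.1 u) ⊆
        ((univ : Finset {v // v ∈ C}).filter fun u =>
          (G.comap (fun v : {v // v ∈ C} => v.1)).Adj v u).image
            (fun u : {v // v ∈ C} => u.1) := by
      intro u hu
      obtain ⟨h2, h3⟩ := mem_filter.1 hu
      exact mem_image.2 ⟨⟨u, h2⟩, mem_filter.2 ⟨mem_univ _, h3⟩, rfl⟩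
    exact (Finset.card_le_card h1).trans Finset.card_image_le
  obtain ⟨s, hs⟩ : ∃ s : ℕ, s = ⌊γ * c * a / 32 * n⌋₊ := ⟨_, rfl⟩
  have hs1 : (s : ℝ) ≤ γ * c * a / 32 * n := by rw [hs]; exact Nat.floor_le (by positivity)
  have hs2 : ∀ v : {v // v ∈ C}, Δ ≤ dgi G C v.1 + s := by
    intro v
    have h1 := hC v.1 v.2
    rw [← hn] at h1
    have h3 : Δ - dgi G C v.1 ≤ s := by
      rw [hs]
      apply Nat.le_floor
      rw [Nat.cast_sub ((hdg2 v).trans ((hdg1 v).trans (hdΔ _)))]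
      linarith
    omega
  have hΔe : γ * (c * n) ≤ γ * Δ := mul_le_mul_of_nonneg_left hΔ1 hγ.le
  have hΔn1 : Δ + 1 ≤ n1 := by
    have h1 : ((Δ + 1 : ℕ) : ℝ) ≤ n1 := by
      push_cast
      linarith
    exact_mod_cast h1
  obtain ⟨b, hb⟩ : ∃ b, b + 1 + Δ = n1 := ⟨n1 - (Δ + 1), by omega⟩
  obtain ⟨π1, hπ1, hπ2, hπ3⟩ := mtch G1ᶜ b (b + s) (fun v => by
      have h1 := dgc G1 v
      have h2 := hdg1 v
      have h3 := hdΔ v.1
      omega) (fun v => by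
      have h1 := dgc G1 v
      have h2 := hdg2 v
      have h3 := hs2 v
      omega)
  rw [← hn1] at hπ3
  obtain ⟨π, hπ⟩ : ∃ π : V → V, π = fun v => if h : v ∈ C then (π1 ⟨v, h⟩).1 else v := ⟨_, rfl⟩
  have hpC : ∀ v (h : v ∈ C), π v = (π1 ⟨v, h⟩).1 := fun v h => by
    rw [hπ]
    exact dif_pos h
  have hpN : ∀ v, v ∉ C → π v = v := fun v h => by
    rw [hπ]
    exact dif_neg h
  obtain ⟨M, hM1, hM⟩ : ∃ M, n1 * b ≤ (b + s + 1) * M ∧
      M ≤ (univ.filter fun v => π1 v ≠ v).card := ⟨_, hπ3, card_le_card (by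
    intro v hv
    simp only [mem_filter, mem_univ, true_and] at hv ⊢
    exact hv)⟩
  have hMn : M ≤ n1 := hM.trans (by rw [hn1]; exact card_le_univ _)
  have hM2 : M ≤ (univ.filter fun v => π v ≠ v).card := by
    refine hM.trans ?_
    refine Finset.card_le_card_of_injOn (fun u : {v // v ∈ C} => u.1) ?_ ?_
    · intro u hu
      have h1 := (mem_filter.1 (mem_coe.1 hu)).2
      refine mem_coe.2 (mem_filter.2 ⟨mem_univ _, ?_⟩)
      intro h2
      apply h1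
      apply Subtype.ext
      have h3 := hpC u.1 u.2
      rw [h2] at h3
      exact h3.symm
    · intro u _ u' _ h
      exact Subtype.ext h
  have haR : (b : ℝ) + 1 + Δ = n1 := by exact_mod_cast hb
  have ha2 : γ * c * n / 2 ≤ b := by linarith
  have hMR : γ * c / 2 * ((n1 : ℝ) - M) ≤ s + 1 := by
    have h1 : (n1 : ℝ) * b ≤ (b + s + 1) * M := by exact_mod_cast hM1
    have hMn' : (M : ℝ) ≤ n1 := by exact_mod_cast hMn
    have hM0 : (0 : ℝ) ≤ M := Nat.cast_nonneg _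
    have h2 : b * ((n1 : ℝ) - M) ≤ (s + 1) * M := by linarith
    have h3 : ((s : ℝ) + 1) * M ≤ (s + 1) * n :=
      mul_le_mul_of_nonneg_left (by linarith) (by positivity)
    have h4 : (γ * c * n / 2) * ((n1 : ℝ) - M) ≤ b * ((n1 : ℝ) - M) :=
      mul_le_mul_of_nonneg_right ha2 (by linarith)
    have h5 : n * (γ * c / 2 * ((n1 : ℝ) - M)) ≤ n * (s + 1) := by linarith
    exact le_of_mul_le_mul_left h5 hnpos
  have hfin : γ * c / 2 * ((n1 : ℝ) - M) ≤ γ * c / 2 * (a * n) := by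
    refine hMR.trans ?_
    linarith
  have hfin2 : (n1 : ℝ) - M ≤ a * n := le_of_mul_le_mul_left hfin (by positivity)
  refine ⟨π, ?_, ?_, ?_⟩
  · intro v
    by_cases hv : v ∈ C
    · rw [hpC v hv, hpC _ (π1 ⟨v, hv⟩).2]
      have h1 := hπ1 ⟨v, hv⟩
      have h2 : (⟨(π1 ⟨v, hv⟩).1, (π1 ⟨v, hv⟩).2⟩ : {v // v ∈ C}) = π1 ⟨v, hv⟩ := rfl
      rw [h2, h1]
    · rw [hpN v hv, hpN v hv]
  · intro v hv
    by_cases hvC : v ∈ C
    · refine ⟨hvC, ?_⟩
      have h0 := hpC v hvC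
      have h1 : π1 ⟨v, hvC⟩ ≠ ⟨v, hvC⟩ := by
        intro h
        apply hv
        rw [h0, h]
      have h2 := (hπ2 _ h1).2
      rw [hG1] at h2
      rw [h0]
      exact h2
    · exact absurd (hpN v hvC) hv
  · have h1 : (M : ℝ) ≤ ((univ.filter fun v => π v ≠ v).card : ℝ) := by exact_mod_cast hM2
    linarith

end Pool.Agent.H71.DC
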