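import Mathlib
import Pool.Agent.H71.DC.Sel

/-!
XCL: a set `C = Q i \ Lo` of a family of closed sets, for which no larger family exists, expands. Use the STATEMENTS of `key` (`DC/Key.lean`) and `dich`,
`half` (`DC/Sel.lean`).

Proof.  `n := card V` (`n > 0`, otherwise everything is 0), `q := #C ≥ (c/2) n - ρ n ≥ (c/4) n`. Suppose `A, Y ⊆ C`, `τ q ≤ #A ≤ (1 - τ) q`,
`ee G A Y ≤ lam q² ≤ lam n²`, but `#A + #Y + ν q > q`. `B := C \ Y`, `#B = q - #Y < #A + ν q ≤ #A + ν n`. `ee G A B = ee G A C - ee G A Y`,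
`ee G A C ≥ ee G A (Q i) - #A #Lo ≥ ee G A (Q i) - ρ n²`, and `Δ #A - ee G A (Q i) ≤ Δ #(Q i) - ee G (Q i) (Q i) ≤ η n²` (sum over `v ∈ A ⊆ Q i` of
the non-negative numbers `Δ - #{neighbours in Q i}`). So `Δ #A ≤ ee G A B + (η + ρ + lam) n²`. `key` with `lam' := η + ρ + lam`:
`I := A ∩ B`, `e0 := 2 lam'/(γ c) + ν/γ`, `η1 := lam' + e0 + ν`: `#(A \ B) ≤ e0 n`, `Δ #I ≤ ee G I I + η1 n²`. `#I ≥ #A - e0 n ≥ τ (c/4) n - e0 n ≥ (τ c/8) n`
(`e0 ≤ η1 ≤ τ c²/16 ≤ τ c/8`, as `c ≤ 1`). `dich` (`t := τ c/8`): `#I ≥ (c/2) n`. `J := Q i \ I`: `half`: `Δ #J ≤ ee G J J + (η + 2 η1) n²`;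
`#J ≥ #(C \ A) ≥ τ q ≥ (τ c/4) n`, `dich`: `#J ≥ (c/2) n`. `Q' j := I` for `j = i`, `Q' k := J`, `Q' j := Q j` otherwise, is a family `Clo G Δ c η' (k + 1) Q'`
(`η, η1, η + 2 η1 ≤ η'`; `I, J ⊆ Q i` are disjoint): a contradiction.
-/

set_option autoImplicit false

namespace Pool.Agent.H71.DC

open Finset Classical
open Pool.Agent.H71.DN Pool.Agent.H71.DX Pool.Agent.H71.DR Pool.Agent.H71.HL

private theorem xcl_mono {V : Type} [Fintype V] (G : SimpleGraph V) {A A' B B' : Finset V}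
    (hA : A' ⊆ A) (hB : B' ⊆ B) : ee G A' B' ≤ ee G A B := by
  unfold ee
  exact card_le_card (filter_subset_filter _ (product_subset_product hA hB))

private theorem xcl_ee {V : Type} [Fintype V] (G : SimpleGraph V) (A B : Finset V) :
    ee G A B = ∑ a ∈ A, (B.filter fun y => G.Adj a y).card := by
  unfold ee
  rw [card_filter, sum_product]
  refine sum_congr rfl fun a _ => ?_
  rw [card_filter]

private theorem xcl_split {V : Type} [Fintype V] (G : SimpleGraph V) (A B C : Finset V) :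
    ee G A B ≤ ee G A (B ∩ C) + A.card * (B \ C).card := by
  unfold ee
  have h : (A ×ˢ B).filter (fun x => G.Adj x.1 x.2) ⊆
      ((A ×ˢ (B ∩ C)).filter fun x => G.Adj x.1 x.2) ∪ (A ×ˢ (B \ C)) := by
    intro x hx
    simp only [mem_filter, mem_product, mem_union, mem_inter, mem_sdiff] at hx ⊢
    tauto
  have h1 := (card_le_card h).trans (card_union_le _ _)
  rw [card_product A (B \ C)] at h1
  exact h1

private theorem xcl_add {V : Type} [Fintype V] (G : SimpleGraph V) (A C Y : Finset V) :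
    ee G A C ≤ ee G A (C \ Y) + ee G A Y := by
  unfold ee
  have h : (A ×ˢ C).filter (fun x => G.Adj x.1 x.2) ⊆
      ((A ×ˢ (C \ Y)).filter fun x => G.Adj x.1 x.2) ∪
        ((A ×ˢ Y).filter fun x => G.Adj x.1 x.2) := by
    intro x hx
    simp only [mem_filter, mem_product, mem_union, mem_sdiff] at hx ⊢
    tauto
  exact (card_le_card h).trans (card_union_le _ _)

private theorem xcl_deg {V : Type} [Fintype V] (G : SimpleGraph V) (Δ : ℕ)
    (hΔ : ∀ v, dg G v ≤ Δ) (S T : Finset V) : ee G S T ≤ S.card * Δ := by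
  rw [xcl_ee, ← smul_eq_mul]
  refine sum_le_card_nsmul _ _ _ fun v _ => le_trans ?_ (hΔ v)
  unfold dg
  exact card_le_card (filter_subset_filter _ (subset_univ _))

private theorem xcl_sub {V : Type} [Fintype V] (G : SimpleGraph V) (Δ : ℕ)
    (hΔ : ∀ v, dg G v ≤ Δ) (A Q : Finset V) (hA : A ⊆ Q) :
    (Δ : ℝ) * A.card + ee G Q Q ≤ (Δ : ℝ) * Q.card + ee G A Q := by
  have h1 : ee G Q Q = ee G A Q + ee G (Q \ A) Q := by
    rw [xcl_ee, xcl_ee, xcl_ee, add_comm]
    exact (sum_sdiff hA).symm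
  have h2 := xcl_deg G Δ hΔ (Q \ A) Q
  have h3 : (Q \ A).card + A.card = Q.card := card_sdiff_add_card_eq_card hA
  have h2r : (ee G (Q \ A) Q : ℝ) ≤ (Q \ A).card * (Δ : ℝ) := by exact_mod_cast h2
  have h3r : ((Q \ A).card : ℝ) + A.card = Q.card := by exact_mod_cast h3
  have h1r : (ee G Q Q : ℝ) = ee G A Q + ee G (Q \ A) Q := by exact_mod_cast h1
  rw [h1r, ← h3r]
  linarith

theorem xcl {V : Type} [Fintype V] (G : SimpleGraph V) (Δ k i : ℕ)
    (γ c τ ν lam η η' ρ : ℝ) (hγ : 0 < γ) (hc : 0 < c) (hc1 : c ≤ 1) (hτ : 0 < τ)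
    (hτ1 : τ ≤ 1) (hν : 0 ≤ ν) (hl : 0 ≤ lam) (hη : 0 ≤ η) (hρ : 0 ≤ ρ) (hρ1 : ρ ≤ c / 4)
    (hΔ : ∀ v, dg G v ≤ Δ) (hcΔ : c * Fintype.card V ≤ Δ) (hΔn : Δ ≤ Fintype.card V)
    (hNB : NB G Δ γ) (Q : ℕ → Finset V) (hQ : Clo G Δ c η k Q)
    (hmax : ¬ ∃ Q' : ℕ → Finset V, Clo G Δ c η' (k + 1) Q') (hi : i < k) (Lo : Finset V)
    (hLo : (Lo.card : ℝ) ≤ ρ * Fintype.card V)
    (hnum : η + 2 * ((η + ρ + lam) + (2 * (η + ρ + lam) / (γ * c) + ν / γ) + ν) ≤
      min η' (τ * c ^ 2 / 16)) :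
    XPc G (Q i \ Lo) τ ν lam := by
  rcases Nat.eq_zero_or_pos (Fintype.card V) with hV | hV
  · have hE : IsEmpty V := Fintype.card_eq_zero_iff.1 hV
    intro A Y _ _ _ _ _
    have h0 : ∀ S : Finset V, S.card = 0 := fun S => by
      rw [card_eq_zero]
      exact eq_empty_of_isEmpty S
    rw [h0, h0, h0]
    simp
  obtain ⟨n, hn⟩ : ∃ n : ℝ, n = Fintype.card V := ⟨_, rfl⟩
  have hn0 : 0 < n := by
    rw [hn]
    exact_mod_cast hV
  have hcardn : ∀ S : Finset V, (S.card : ℝ) ≤ n := fun S => by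
    rw [hn]
    exact_mod_cast card_le_univ S
  have hbig := hQ.big i hi
  have hclo := hQ.clo i hi
  rw [← hn] at hcΔ hLo hbig hclo
  have hΔn' : (Δ : ℝ) ≤ n := by
    rw [hn]
    exact_mod_cast hΔn
  intro A Y hA hY hA1 hA2 hAY
  by_contra hcon
  rw [not_le] at hcon
  obtain ⟨C, hC⟩ : ∃ C, C = Q i \ Lo := ⟨_, rfl⟩
  rw [← hC] at hA hY hA1 hA2 hAY hcon
  have hCQ : C ⊆ Q i := by
    rw [hC]
    exact sdiff_subset
  have hq1 : c / 4 * n ≤ (C.card : ℝ) := by
    have h1 : (Q i).card ≤ C.card + Lo.card := by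
      rw [hC]
      have h2 := le_card_sdiff Lo (Q i)
      omega
    have h1r : ((Q i).card : ℝ) ≤ C.card + Lo.card := by exact_mod_cast h1
    nlinarith
  have hqn := hcardn C
  have hAn := hcardn A
  have hB : ((C \ Y).card : ℝ) ≤ A.card + ν * n := by
    have h1 : (C \ Y).card + Y.card = C.card := card_sdiff_add_card_eq_card hY
    have h1r : ((C \ Y).card : ℝ) + Y.card = C.card := by exact_mod_cast h1
    have h2 : ν * C.card ≤ ν * n := mul_le_mul_of_nonneg_left hqn hν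
    linarith
  have hkey1 : (Δ : ℝ) * A.card ≤ ee G A (C \ Y) + (η + ρ + lam) * n ^ 2 := by
    have h1 := xcl_sub G Δ hΔ A (Q i) (hA.trans hCQ)
    have h2 : (ee G A (Q i) : ℝ) ≤ ee G A C + A.card * Lo.card := by
      have h3 := xcl_split G A (Q i) C
      have h4 : Q i ∩ C = C := inter_eq_right.2 hCQ
      have h5 : (Q i \ C).card ≤ Lo.card := by
        refine card_le_card fun v hv => ?_
        rw [hC, mem_sdiff, mem_sdiff, not_and, not_not] at hv
        exact hv.2 hv.1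
      rw [h4] at h3
      have h6 := h3.trans (Nat.add_le_add_left (Nat.mul_le_mul_left A.card h5) _)
      exact_mod_cast h6
    have h3 : (ee G A C : ℝ) ≤ ee G A (C \ Y) + ee G A Y := by
      exact_mod_cast xcl_add G A C Y
    have h4 : (A.card : ℝ) * Lo.card ≤ ρ * n ^ 2 := by
      have h5 : (A.card : ℝ) * Lo.card ≤ n * (ρ * n) :=
        mul_le_mul hAn hLo (Nat.cast_nonneg _) hn0.le
      nlinarith
    have h5 : lam * (C.card : ℝ) ^ 2 ≤ lam * n ^ 2 :=
      mul_le_mul_of_nonneg_left (pow_le_pow_left₀ (Nat.cast_nonneg _) hqn 2) hl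
    nlinarith
  have hlam : 0 ≤ η + ρ + lam := by linarith
  obtain ⟨k1, k2⟩ := key G Δ n γ c (η + ρ + lam) ν hγ hc hn0 hΔ hcΔ hΔn' hNB hlam hν A (C \ Y)
    hkey1 hB
  obtain ⟨e0, he0⟩ : ∃ e0 : ℝ, e0 = 2 * (η + ρ + lam) / (γ * c) + ν / γ := ⟨_, rfl⟩
  have he00 : 0 ≤ e0 := by
    rw [he0]
    positivity
  rw [← he0] at k1 k2 hnum
  obtain ⟨η1, hη1⟩ : ∃ η1 : ℝ, η1 = (η + ρ + lam) + e0 + ν := ⟨_, rfl⟩
  rw [← hη1] at k2 hnum
  have hn1 : η + 2 * η1 ≤ η' := hnum.trans (min_le_left _ _)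
  have hn2 : η + 2 * η1 ≤ τ * c ^ 2 / 16 := hnum.trans (min_le_right _ _)
  have he1 : e0 ≤ η1 := by linarith
  have hη10 : 0 ≤ η1 := he00.trans he1
  have hτc : 0 < τ * c := mul_pos hτ hc
  have hcc : τ * c ^ 2 / 16 ≤ τ * c / 16 := by nlinarith
  obtain ⟨I, hI⟩ : ∃ I, I = A ∩ (C \ Y) := ⟨_, rfl⟩
  rw [← hI] at k2
  have hIA : I ⊆ A := by
    rw [hI]
    exact inter_subset_left
  have hIQ : I ⊆ Q i := hIA.trans (hA.trans hCQ)
  have ht0 : 0 < τ * c / 8 := by linarith
  have hτq : τ * (c / 4 * n) ≤ τ * C.card := mul_le_mul_of_nonneg_left hq1 hτ.le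
  have hIc : τ * c / 8 * n ≤ (I.card : ℝ) := by
    have h1 : (A \ (C \ Y)).card + I.card = A.card := by
      rw [hI]
      exact card_sdiff_add_card_inter A (C \ Y)
    have h1r : ((A \ (C \ Y)).card : ℝ) + I.card = A.card := by exact_mod_cast h1
    have h2 : e0 * n ≤ τ * c / 8 * n := mul_le_mul_of_nonneg_right (by linarith) hn0.le
    nlinarith
  have hIb := dich G Δ n c η1 (τ * c / 8) hn0 ht0 (by nlinarith) hcΔ I hIc k2
  have hJ1 := half G Δ n η η1 hΔ (Q i) I hIQ hclo k2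
  have hJc : τ * c / 8 * n ≤ ((Q i \ I).card : ℝ) := by
    have h1 : (C \ A).card ≤ (Q i \ I).card := by
      refine card_le_card fun v hv => ?_
      rw [mem_sdiff] at hv ⊢
      exact ⟨hCQ hv.1, fun h => hv.2 (hIA h)⟩
    have h2 : (C \ A).card + A.card = C.card := card_sdiff_add_card_eq_card hA
    have h1r : ((C \ A).card : ℝ) ≤ (Q i \ I).card := by exact_mod_cast h1
    have h2r : ((C \ A).card : ℝ) + A.card = C.card := by exact_mod_cast h2
    have h3 : 0 < τ * c * n := mul_pos hτc hn0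
    nlinarith
  have hJb := dich G Δ n c (η + 2 * η1) (τ * c / 8) hn0 ht0 (by nlinarith) hcΔ (Q i \ I) hJc hJ1
  apply hmax
  refine ⟨fun j => if j = i then I else if j = k then Q i \ I else Q j, ?_, ?_, ?_⟩
  · intro j hj
    rw [← hn]
    by_cases h1 : j = i
    · rw [if_pos h1]
      exact hIb
    · rw [if_neg h1]
      by_cases h2 : j = k
      · rw [if_pos h2]
        exact hJb
      · rw [if_neg h2, hn]
        exact hQ.big j (by omega)
  · intro j hj
    rw [← hn]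
    have hn2' : 0 ≤ n ^ 2 := by positivity
    by_cases h1 : j = i
    · rw [if_pos h1]
      have h3 : η1 * n ^ 2 ≤ η' * n ^ 2 := mul_le_mul_of_nonneg_right (by linarith) hn2'
      linarith
    · rw [if_neg h1]
      by_cases h2 : j = k
      · rw [if_pos h2]
        have h3 : (η + 2 * η1) * n ^ 2 ≤ η' * n ^ 2 := mul_le_mul_of_nonneg_right hn1 hn2'
        linarith
      · rw [if_neg h2]
        have h4 := hQ.clo j (by omega)
        rw [← hn] at h4
        have h3 : η * n ^ 2 ≤ η' * n ^ 2 := mul_le_mul_of_nonneg_right (by linarith) hn2'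
        linarith
  · have hIJ : Disjoint I (Q i \ I) := disjoint_sdiff
    have hQi : ∀ j, j < k → j ≠ i → Disjoint (Q i) (Q j) := fun j hj hji =>
      hQ.dis i hi j hj (Ne.symm hji)
    intro a ha b hb hab
    show Disjoint (if a = i then I else if a = k then Q i \ I else Q a)
      (if b = i then I else if b = k then Q i \ I else Q b)
    by_cases a1 : a = i
    · rw [if_pos a1]
      have b1 : b ≠ i := fun h => hab (a1.trans h.symm)
      rw [if_neg b1]
      by_cases b2 : b = k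
      · rw [if_pos b2]
        exact hIJ
      · rw [if_neg b2]
        exact (hQi b (by omega) b1).mono_left hIQ
    · rw [if_neg a1]
      by_cases a2 : a = k
      · rw [if_pos a2]
        have b2 : b ≠ k := fun h => hab (a2.trans h.symm)
        by_cases b1 : b = i
        · rw [if_pos b1]
          exact hIJ.symm
        · rw [if_neg b1, if_neg b2]
          exact (hQi b (by omega) b1).mono_left sdiff_subset
      · rw [if_neg a2]
        by_cases b1 : b = i
        · rw [if_pos b1]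
          exact ((hQi a (by omega) a1).mono_left hIQ).symm
        · rw [if_neg b1]
          by_cases b2 : b = k
          · rw [if_pos b2]
            exact ((hQi a (by omega) a1).mono_left sdiff_subset).symm
          · rw [if_neg b2]
            exact hQ.dis a (by omega) b (by omega) hab

end Pool.Agent.H71.DC
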