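import Mathlib
import Pool.Agent.H71.DC.Xcl
import Pool.Agent.H71.DC.Coc
import Pool.Agent.H71.DC.Coo
import Pool.Agent.H71.DC.ChN
import Pool.Agent.H71.DC.Mt3
import Pool.Agent.H71.DC.Los
import Pool.Agent.H71.DC.LvA

/-!
LVL: one level. If there are `k ≤ m` closed sets at level `η` but no `k + 1` closed sets at level `η'` then the Havet-Yu bound holds for `1 ≤ p ≤ κ0 n`. Use the STATEMENTS of `chN, coc, coo, lvA, mt3, los, ncs, pgh, xcl`.

Proof.  Constants: `b := min η' (c³ / 1024)`, `x := γ c b / 64`, `lam := x`, `ν := γ b / 16` (so `x, ν ≤ 1`, and for `η, ρ ≤ x`: `η + 2 ((η + ρ + x) + (2 (η + ρ + x)/(γ c) + ν/γ) + ν) ≤ 19 x/(γ c) + 4 ν/γ ≤ b`; with `τ := c / 64`: `τ c² / 16 = c³ / 1024`).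
`chN c γ` gives `ηχ, nχ`. `ε0 := min ηχ (min γ (1/4))`, `ε j := ε0 / 16^j`. For every `j : ℕ`: `coc (ε j) c (c/64) ν x` gives `cc j, κ j, ρ j, n j, Lf j`; `coo (ε j / 4) c γ η'` gives `κ' j, ρ' j, n' j`; `lvA c γ ηχ (ε j) (cc j) (min 1 (min (κ j) (κ' j))) m` gives
`κ0 j, ζ j, n'' j`; `mt3 c (γ/2) (ζ j)` gives `ρ'' j, n''' j` (`choose`). `z` := a positive number with `z ≤ ζ j, c ρ j, ρ' j, ρ'' j` for all `j ≤ m` and `z ≤ x, c/4, γ c/4, 1` (finite minimum), `ρ := ρ1 := z / (m + 2)`, `η := min (min η' x) (min (ρ²) (γ c²/4) / (2 (m + 1)))`,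
`κ0 := min_{j ≤ m} κ0 j`, `n0` with `c n0` larger than all the `n j`, and larger than the others, `j ≤ m`.
For one graph (`n := card V > 0`, `Δ > 0`): `los` gives `part`, `Lo := pt part (k + 1)`, `S0 := pt part k`. `n_i := #(pt part i) ≥ #(Q i) - ρ n ≥ (1 + γ) Δ - ρ n ≥ (1 + γ/2) Δ` by `ncs` (`ρ n ≤ (γ c/4) n ≤ (γ/4) Δ`). `pgh m k (n_i / Δ) ε0` gives `j`.
`Sm := {i < k : n_i ≤ (2 - ε j) Δ}`; for `i ∉ Sm`: `(2 - ε j / 16) Δ ≤ n_i`. `L := Lf j Δ`. `chN` gives `χ`.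
 * cross degrees: `part v < k`: `#{u : part u ≤ k, part u ≠ part v, G.Adj v u} ≤ dg G v - dgi G (pt part (part v)) v ≤ (ρ1 + ρ) n ≤ ζ n`; `part v = k`: `≤ dg G v - dgi G S0 v ≤ (k ρ1 + ρ) n ≤ z n`.
 * `π i`: `mt3` (`Δ ≤ dgi G (pt part i) v + 2 ρ n` for `v ∈ pt part i`, `2 ρ ≤ z ≤ ρ'' j`).
 * `hcore`: `coc` for `C := pt part i = Q i \ Lo`: `XPc G C (c/64) ν x` by `xcl` (with `ρ`, `#Lo ≤ ρ n`); `n_i ≥ Δ ≥ c n ≥ n j`; `c n_i ≤ c n ≤ Δ ≤ n_i`; `Δ ≤ dgi G C v + 2 ρ n ≤ dgi G C v + ρ j n_i` (`2 ρ ≤ z ≤ c ρ j`, `c n ≤ n_i`); `dgi G C v ≤ dg G v ≤ Δ`.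
 * `hopen`: `coo` with `S := S0`: if `I ⊆ S0`, `(c/2) n ≤ #I` and `Δ #I ≤ ee G I I + η' n²` then `Q' := fun i => if i = k then I else Q i` is a family `Clo G Δ c η' (k + 1) Q'` (`η ≤ η'`; `I` is disjoint from the `Q i` by the last claim of `los`), a contradiction.
   `dg G v ≤ dgi G S0 v + (k ρ1 + ρ) n ≤ dgi G S0 v + z n` for `v ∈ S0`. `L ≤ (1 - ε j / 8) Δ`: this is the condition of `coo` for `ε j / 4`.
 * `lvA` (its `κ` is at most `κ j` and at most `κ' j`).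
-/

set_option autoImplicit false

namespace Pool.Agent.H71.DC

open Finset Classical
open Pool.Agent.H71.DN Pool.Agent.H71.DX Pool.Agent.H71.DR Pool.Agent.H71.HL

theorem Lvl_min (f : ℕ → ℝ) (hf : ∀ j, 0 < f j) (m : ℕ) : ∃ z : ℝ, 0 < z ∧ ∀ j ≤ m, z ≤ f j := by
  induction m with
  | zero =>
    refine ⟨f 0, hf 0, fun j hj => ?_⟩
    rw [Nat.le_zero.1 hj]
  | succ m ih =>
    obtain ⟨z, hz, h⟩ := ih
    refine ⟨min z (f (m + 1)), lt_min hz (hf _), fun j hj => ?_⟩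
    rcases Nat.le_succ_iff.1 hj with h1 | h1
    · exact (min_le_left _ _).trans (h j h1)
    · rw [h1]
      exact min_le_right _ _

theorem Lvl_max (f : ℕ → ℕ) (m : ℕ) : ∃ z : ℕ, ∀ j ≤ m, f j ≤ z := by
  refine ⟨∑ j ∈ range (m + 1), f j, fun j hj => ?_⟩
  exact Finset.single_le_sum (f := f) (fun i _ => Nat.zero_le _) (mem_range.2 (by omega))

/-- the cross degrees -/
theorem Lvl_cross {V : Type} [Fintype V] (G : SimpleGraph V) (part : V → ℕ) (k : ℕ) (v : V) :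
    (univ.filter fun u => part u ≤ k ∧ part u ≠ part v ∧ G.Adj v u).card + dgi G (pt part (part v)) v ≤ dg G v := by
  unfold dgi dg pt
  rw [← Finset.card_union_of_disjoint]
  · refine Finset.card_le_card fun u hu => ?_
    rw [mem_union, mem_filter, mem_filter] at hu
    rw [mem_filter]
    rcases hu with hu | hu
    · exact ⟨mem_univ _, hu.2.2.2⟩
    · exact ⟨mem_univ _, hu.2⟩
  · rw [Finset.disjoint_left]
    intro u hu hu'
    rw [mem_filter] at hu hu'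
    have h1 := (mem_filter.1 hu'.1).2
    exact hu.2.2.1 h1

/-- one level, one value of the gap -/
theorem Lvl_one (c γ η' ηχ ε ν x : ℝ) (m : ℕ) (hc : 0 < c) (hc1 : c ≤ 1) (hγ : 0 < γ) (hγ1 : γ ≤ 1)
    (hη' : 0 < η') (hχ : 0 < ηχ) (hχ1 : ηχ ≤ 1 / 4) (hε : 0 < ε) (hεγ : ε ≤ γ) (hεχ : ε ≤ ηχ)
    (hν : 0 < ν) (hν1 : ν ≤ 1) (hx : 0 < x) :
    ∃ (κ0 z : ℝ) (n0 : ℕ), 0 < κ0 ∧ 0 < z ∧
      ∀ (V : Type) [Fintype V] (G : SimpleGraph V) (Δ k p χ : ℕ) (part : V → ℕ),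
        n0 ≤ Fintype.card V → (∀ v, dg G v ≤ Δ) → c * Fintype.card V ≤ Δ →
        Δ ≤ Fintype.card V → NB G Δ γ → k ≤ m → 1 ≤ p → (p : ℝ) ≤ κ0 * Fintype.card V →
        (∀ v, part v ≤ k + 1) → ((pt part (k + 1)).card : ℝ) ≤ z * Fintype.card V →
        (∀ v, part v < k → (Δ : ℝ) ≤ dgi G (pt part (part v)) v + z * Fintype.card V) →
        (∀ v, part v = k → (dg G v : ℝ) ≤ dgi G (pt part k) v + z * Fintype.card V) →
        (∀ I : Finset V, I ⊆ pt part k → c / 2 * Fintype.card V ≤ (I.card : ℝ) →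
          (ee G I I : ℝ) + η' * (Fintype.card V : ℝ) ^ 2 < (Δ : ℝ) * I.card) →
        (∀ i < k, XPc G (pt part i) (c / 64) ν x) →
        G.Colorable χ → (χ : ℝ) ≤ (1 - ηχ) * Δ →
        (∀ i < k, (1 + γ / 2) * (Δ : ℝ) ≤ (pt part i).card) →
        (∀ i < k, ((pt part i).card : ℝ) ≤ (2 - ε) * Δ ∨ (2 - ε / 16) * (Δ : ℝ) ≤ (pt part i).card) →
        H70.HY.HYLab G Δ p := by
  obtain ⟨cc, κ, ρ, n1, Lf, hcc, hccε, hκ, hρ, hLf, hcoc⟩ := coc ε c (c / 64) ν x hε (by linarith) hc hc1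
    (by linarith) le_rfl hν hν1 hx
  obtain ⟨κ', ρ', n2, hκ', hρ', hcoo⟩ := coo (ε / 4) c γ η' (by linarith) (by linarith) hc hc1 hγ hγ1 hη'
  obtain ⟨κ0, ζ, n3, hκ0, hζ, hlvA⟩ := lvA c γ ηχ ε cc (min 1 (min κ κ')) m hc hc1 hγ hγ1 hχ hχ1 hε hεγ hεχ hcc hccε
    (lt_min one_pos (lt_min hκ hκ')) (min_le_left _ _)
  obtain ⟨ρ'', n4, hρ'', hmt3⟩ := mt3 c (γ / 2) ζ hc hc1 (by linarith) (by linarith) hζ
  obtain ⟨z, hz⟩ : ∃ z : ℝ, z = min (min ζ ρ'') (min (c * ρ) ρ') := ⟨_, rfl⟩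
  have hz0 : 0 < z := by
    rw [hz]
    exact lt_min (lt_min hζ hρ'') (lt_min (mul_pos hc hρ) hρ')
  have hz1 : z ≤ ζ := by rw [hz]; exact (min_le_left _ _).trans (min_le_left _ _)
  have hz2 : z ≤ ρ'' := by rw [hz]; exact (min_le_left _ _).trans (min_le_right _ _)
  have hz3 : z ≤ c * ρ := by rw [hz]; exact (min_le_right _ _).trans (min_le_left _ _)
  have hz4 : z ≤ ρ' := by rw [hz]; exact (min_le_right _ _).trans (min_le_right _ _)
  refine ⟨κ0, z, max ⌈(n1 : ℝ) / c⌉₊ (max n2 (max n3 n4)), hκ0, hz0, ?_⟩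
  intro V _ G Δ k p χ part hn hdg hcΔ hΔn hNB hkm hp1 hp2 hpart hLo hin hop hI hXP hcol hχΔ hbig hgap
  have hn1 := (max_le_iff.1 hn).1
  have hn2 := (max_le_iff.1 (max_le_iff.1 hn).2).1
  have hn3 := (max_le_iff.1 (max_le_iff.1 (max_le_iff.1 hn).2).2).1
  have hn4 := (max_le_iff.1 (max_le_iff.1 (max_le_iff.1 hn).2).2).2
  have hcard0 : (0 : ℝ) ≤ Fintype.card V := Nat.cast_nonneg _
  have hn1Δr : (n1 : ℝ) ≤ Δ := by
    have h1 : (n1 : ℝ) / c ≤ Fintype.card V := by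
      refine (Nat.le_ceil _).trans ?_
      exact_mod_cast hn1
    rw [div_le_iff₀ hc] at h1
    calc (n1 : ℝ) ≤ Fintype.card V * c := h1
      _ = c * Fintype.card V := mul_comm _ _
      _ ≤ Δ := hcΔ
  have hn1Δ : n1 ≤ Δ := by exact_mod_cast hn1Δr
  obtain ⟨hL1, hL2⟩ := hLf Δ hn1Δ
  have hΔ0 : (0 : ℝ) ≤ Δ := Nat.cast_nonneg _
  have hΔC : ∀ i < k, (Δ : ℝ) ≤ (pt part i).card := by
    intro i hi
    refine le_trans ?_ (hbig i hi)
    have : 0 ≤ γ / 2 * (Δ : ℝ) := by positivity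
    linarith
  have hzn : ∀ t : ℝ, z ≤ t → z * Fintype.card V ≤ t * Fintype.card V := fun t ht =>
    mul_le_mul_of_nonneg_right ht hcard0
  have hmem : ∀ (i : ℕ) (v : V), v ∈ pt part i ↔ part v = i := by
    intro i v
    unfold pt
    rw [mem_filter]
    exact ⟨fun h => h.2, fun h => ⟨mem_univ _, h⟩⟩
  have hinC : ∀ i < k, ∀ v ∈ pt part i, (Δ : ℝ) ≤ dgi G (pt part i) v + z * Fintype.card V := by
    intro i hi v hv
    have h1 := (hmem i v).1 hv
    have h2 := hin v (by rw [h1]; exact hi)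
    rw [h1] at h2
    exact h2
  have hπ : ∀ i, ∃ π : V → V, i < k → (Inv π ∧ (∀ v, π v ≠ v → v ∈ pt part i ∧ ¬ G.Adj v (π v)) ∧
      ((pt part i).card : ℝ) ≤ ((univ.filter fun v => π v ≠ v).card : ℝ) + ζ * Fintype.card V) := by
    intro i
    by_cases hi : i < k
    · obtain ⟨π, h1⟩ := hmt3 V G Δ (pt part i) hn4 hcΔ hdg
        (fun v hv => (hinC i hi v hv).trans (by have := hzn _ hz2; linarith)) (hbig i hi)
      exact ⟨π, fun _ => h1⟩
    · exact ⟨id, fun h => absurd h hi⟩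
  choose π hπ using hπ
  refine hlvA V G Δ k p (Lf Δ) χ part ((range k).filter fun i => ((pt part i).card : ℝ) ≤ (2 - ε) * Δ) π hn3 hp1 hp2 hkm
    hdg hcΔ hΔn hL1 hL2 hpart (hLo.trans (hzn _ hz1)) ?_ hcol hχΔ (filter_subset _ _) hbig ?_ ?_ ?_ ?_ ?_
  · intro v hv
    have h1 := Lvl_cross G part k v
    have h1r : ((univ.filter fun u => part u ≤ k ∧ part u ≠ part v ∧ G.Adj v u).card : ℝ) + dgi G (pt part (part v)) v
        ≤ dg G v := by exact_mod_cast h1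
    have h2 := hzn _ hz1
    rcases Nat.lt_or_eq_of_le hv with h3 | h3
    · have h4 := hin v h3
      have h5 : (dg G v : ℝ) ≤ Δ := by exact_mod_cast hdg v
      linarith
    · have h4 := hop v h3
      rw [h3] at h1r ⊢
      linarith
  · intro i hi
    exact (mem_filter.1 hi).2
  · intro i hi hnot
    rcases hgap i hi with h1 | h1
    · exact absurd (mem_filter.2 ⟨mem_range.2 hi, h1⟩) hnot
    · exact h1
  · intro i hi
    have h1 := hπ i (mem_range.1 (mem_filter.1 hi).1)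
    exact ⟨h1.1, fun v hv => ⟨(hmem i v).1 (h1.2.1 v hv).1, (h1.2.1 v hv).2⟩, h1.2.2⟩
  · intro i hi U hU1 hU2 hU3
    have hC0 : (0 : ℝ) ≤ (pt part i).card := Nat.cast_nonneg _
    have hκC : min 1 (min κ κ') * ((pt part i).card : ℝ) ≤ κ * (pt part i).card :=
      mul_le_mul_of_nonneg_right ((min_le_right _ _).trans (min_le_left _ _)) hC0
    have hΔCi := hΔC i hi
    have hCn : ((pt part i).card : ℝ) ≤ Fintype.card V := by exact_mod_cast card_le_univ _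
    refine hcoc V G Δ (pt part i) ?_ ?_ ?_ ?_ (hXP i hi) U (fun ℓ hℓ => (hU1 ℓ hℓ).trans hκC)
      (fun v hv => (hU2 v hv).trans hκC) hU3
    · have h1 : (n1 : ℝ) ≤ (pt part i).card := hn1Δr.trans hΔCi
      exact_mod_cast h1
    · exact (mul_le_mul_of_nonneg_left hCn hc.le).trans hcΔ
    · exact_mod_cast hΔCi
    · intro v hv
      refine ⟨?_, ?_⟩
      · refine le_trans ?_ (hdg v)
        unfold dgi dg
        exact card_le_card (filter_subset_filter _ (subset_univ _))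
      · refine (hinC i hi v hv).trans ?_
        have h1 : z * Fintype.card V ≤ ρ * (pt part i).card := by
          calc z * Fintype.card V ≤ c * ρ * Fintype.card V := hzn _ hz3
            _ = ρ * (c * Fintype.card V) := by ring
            _ ≤ ρ * (pt part i).card := mul_le_mul_of_nonneg_left (hcΔ.trans hΔCi) hρ.le
        linarith
  · intro U hU1 hU2
    have hκV : min 1 (min κ κ') * (Fintype.card V : ℝ) ≤ κ' * Fintype.card V :=
      mul_le_mul_of_nonneg_right ((min_le_right _ _).trans (min_le_right _ _)) hcard0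
    refine hcoo V G Δ (pt part k) hn2 hdg hcΔ hΔn hNB hI ?_ (Lf Δ) U ?_ (fun ℓ hℓ => (hU1 ℓ hℓ).trans hκV)
      (fun v hv => (hU2 v hv).trans hκV)
    · intro v hv
      have h1 := hop v ((hmem k v).1 hv)
      have h2 := hzn _ hz4
      linarith
    · have h1 : (1 - ε / 4 / 2) * (Δ : ℝ) = (1 - ε / 8) * Δ := by ring
      rw [h1]
      exact hL2

theorem lvl (c γ η' : ℝ) (m : ℕ) (hc : 0 < c) (hc1 : c ≤ 1) (hγ : 0 < γ) (hγ1 : γ ≤ 1)
    (hη' : 0 < η') :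
    ∃ (η κ0 : ℝ) (n0 : ℕ), 0 < η ∧ η ≤ η' ∧ 0 < κ0 ∧
      ∀ (V : Type) [Fintype V] (G : SimpleGraph V) (Δ k p : ℕ) (Q : ℕ → Finset V),
        n0 ≤ Fintype.card V → (∀ v, dg G v ≤ Δ) → c * Fintype.card V ≤ Δ →
        Δ ≤ Fintype.card V → NB G Δ γ → NCq G Δ γ → k ≤ m → Clo G Δ c η k Q →
        (¬ ∃ Q' : ℕ → Finset V, Clo G Δ c η' (k + 1) Q') →
        1 ≤ p → (p : ℝ) ≤ κ0 * Fintype.card V → H70.HY.HYLab G Δ p := by
  obtain ⟨b, hb⟩ : ∃ b : ℝ, b = min η' (c ^ 3 / 1024) := ⟨_, rfl⟩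
  have hb0 : 0 < b := by rw [hb]; exact lt_min hη' (by positivity)
  have hbη : b ≤ η' := by rw [hb]; exact min_le_left _ _
  have hbc : b ≤ c ^ 3 / 1024 := by rw [hb]; exact min_le_right _ _
  have hc3 : c ^ 3 ≤ 1 := pow_le_one₀ hc.le hc1
  have hb1 : b ≤ 1 := by linarith
  obtain ⟨x, hx⟩ : ∃ x : ℝ, x = γ * c * b / 64 := ⟨_, rfl⟩
  have hx0 : 0 < x := by rw [hx]; positivity
  obtain ⟨ν, hν⟩ : ∃ ν : ℝ, ν = γ * b / 16 := ⟨_, rfl⟩
  have hν0 : 0 < ν := by rw [hν]; positivity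
  have hν1 : ν ≤ 1 := by
    have : γ * b ≤ 1 := mul_le_one₀ hγ1 hb0.le hb1
    rw [hν]
    linarith
  obtain ⟨ηχ, nχ, hχ0, hχ1, hchi⟩ := chN c γ hc hc1 hγ hγ1
  obtain ⟨ε0, hε0d⟩ : ∃ ε0 : ℝ, ε0 = min ηχ (min γ (1 / 4)) := ⟨_, rfl⟩
  have hε0 : 0 < ε0 := by rw [hε0d]; exact lt_min hχ0 (lt_min hγ (by norm_num))
  have hε0χ : ε0 ≤ ηχ := by rw [hε0d]; exact min_le_left _ _
  have hε0γ : ε0 ≤ γ := by rw [hε0d]; exact (min_le_right _ _).trans (min_le_left _ _)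
  have hεj : ∀ j : ℕ, 0 < ε0 / 16 ^ j ∧ ε0 / 16 ^ j ≤ ε0 := by
    intro j
    have h1 : (1 : ℝ) ≤ 16 ^ j := one_le_pow₀ (by norm_num)
    exact ⟨by positivity, div_le_self hε0.le h1⟩
  have hone := fun j : ℕ => Lvl_one c γ η' ηχ (ε0 / 16 ^ j) ν x m hc hc1 hγ hγ1 hη' hχ0 hχ1 (hεj j).1
    ((hεj j).2.trans hε0γ) ((hεj j).2.trans hε0χ) hν0 hν1 hx0
  choose κf zf nf hκf hzf hmain using hone
  obtain ⟨κ0, hκ0, hκ0le⟩ := Lvl_min κf hκf m
  obtain ⟨z1, hz1, hz1le⟩ := Lvl_min zf hzf m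
  obtain ⟨n1, hn1le⟩ := Lvl_max nf m
  obtain ⟨z, hz⟩ : ∃ z : ℝ, z = min z1 (min x (min (c / 4) (γ * c / 4))) := ⟨_, rfl⟩
  have hz0 : 0 < z := by
    rw [hz]
    exact lt_min hz1 (lt_min hx0 (lt_min (by positivity) (by positivity)))
  have hzz1 : z ≤ z1 := by rw [hz]; exact min_le_left _ _
  have hzx : z ≤ x := by rw [hz]; exact (min_le_right _ _).trans (min_le_left _ _)
  have hzc : z ≤ c / 4 := by rw [hz]; exact (min_le_right _ _).trans ((min_le_right _ _).trans (min_le_left _ _))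
  have hzγ : z ≤ γ * c / 4 := by rw [hz]; exact (min_le_right _ _).trans ((min_le_right _ _).trans (min_le_right _ _))
  obtain ⟨ρ, hρ⟩ : ∃ ρ : ℝ, ρ = z / (m + 2) := ⟨_, rfl⟩
  have hm2 : (0 : ℝ) < (m : ℝ) + 2 := by positivity
  have hρ0 : 0 < ρ := by rw [hρ]; positivity
  have hρm : ρ * (m + 2) = z := by rw [hρ]; field_simp
  have hm0 : (0 : ℝ) ≤ m := Nat.cast_nonneg m
  have hρz : ρ ≤ z := by
    have : 0 ≤ ρ * m := mul_nonneg hρ0.le hm0
    linarith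
  obtain ⟨η, hη⟩ : ∃ η : ℝ, η = min (min η' x) (min (ρ * ρ) (γ * c ^ 2 / 4) / (2 * (m + 1))) := ⟨_, rfl⟩
  have hη0 : 0 < η := by
    rw [hη]
    refine lt_min (lt_min hη' hx0) (div_pos (lt_min (by positivity) (by positivity)) (by positivity))
  have hηη' : η ≤ η' := by rw [hη]; exact (min_le_left _ _).trans (min_le_left _ _)
  have hηx : η ≤ x := by rw [hη]; exact (min_le_left _ _).trans (min_le_right _ _)
  have hηm : η * (2 * (m + 1)) ≤ min (ρ * ρ) (γ * c ^ 2 / 4) := by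
    rw [← le_div_iff₀ (by positivity), hη]
    exact min_le_right _ _
  have hηρ : η * (2 * (m + 1)) ≤ ρ * ρ := hηm.trans (min_le_left _ _)
  have hηγ : 4 * η ≤ γ * c ^ 2 := by
    have h1 : η * (2 * (m + 1)) ≤ γ * c ^ 2 / 4 := hηm.trans (min_le_right _ _)
    have h2 : η ≤ η * (2 * (m + 1)) := by
      have : 0 ≤ η * m := mul_nonneg hη0.le hm0
      linarith
    linarith
  refine ⟨η, κ0, max 1 (max nχ n1), hη0, hηη', hκ0, ?_⟩
  intro V _ G Δ k p Q hn hdg hcΔ hΔn hNB hNC hkm hQ hmax hp1 hp2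
  have hna := (max_le_iff.1 hn).1
  have hnb := (max_le_iff.1 (max_le_iff.1 hn).2).1
  have hnc := (max_le_iff.1 (max_le_iff.1 hn).2).2
  have hcard0 : (0 : ℝ) < Fintype.card V := by exact_mod_cast hna
  have hΔ0 : (0 : ℝ) < Δ := lt_of_lt_of_le (mul_pos hc hcard0) hcΔ
  have hkmr : (k : ℝ) ≤ m := by exact_mod_cast hkm
  obtain ⟨part, hpart, hptQ, hLo, hin, hop, hno⟩ := los G Δ k c η ρ ρ Q hQ hdg hρ0 hη0.le (by
    refine le_trans ?_ hηρ
    have h1 : (k : ℝ) * η ≤ m * η := mul_le_mul_of_nonneg_right hkmr hη0.le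
    linarith)
  have hzn : z * Fintype.card V ≤ γ / 4 * Δ := by
    calc z * Fintype.card V ≤ γ * c / 4 * Fintype.card V := mul_le_mul_of_nonneg_right hzγ hcard0.le
      _ = γ / 4 * (c * Fintype.card V) := by ring
      _ ≤ _ := mul_le_mul_of_nonneg_left hcΔ (by positivity)
  have hρn : ρ * Fintype.card V ≤ z * Fintype.card V := mul_le_mul_of_nonneg_right hρz hcard0.le
  have hbig : ∀ i < k, (1 + γ / 2) * (Δ : ℝ) ≤ (pt part i).card := by
    intro i hi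
    have h1 := ncs G Δ (Fintype.card V : ℝ) c γ η hcard0 hc hγ hη0.le hcΔ hNC hηγ (Q i) (hQ.big i hi) (hQ.clo i hi)
    have h2 : (Q i).card ≤ (pt part i).card + (pt part (k + 1)).card := by
      rw [hptQ i hi]
      have h3 := le_card_sdiff (pt part (k + 1)) (Q i)
      omega
    have h2r : ((Q i).card : ℝ) ≤ (pt part i).card + (pt part (k + 1)).card := by exact_mod_cast h2
    have h4 : 0 ≤ γ / 4 * (Δ : ℝ) := by positivity
    linarith
  obtain ⟨χ, hcol, hχΔ⟩ := hchi V G Δ hnb hdg hcΔ hΔn hNC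
  obtain ⟨j, hj, hgap⟩ := pgh m k hkm (fun i => ((pt part i).card : ℝ) / Δ) ε0 hε0
  have hzj : z * Fintype.card V ≤ zf j * Fintype.card V :=
    mul_le_mul_of_nonneg_right (hzz1.trans (hz1le j hj)) hcard0.le
  have hρ2 : (ρ + ρ) * Fintype.card V ≤ z * Fintype.card V := by
    refine mul_le_mul_of_nonneg_right ?_ hcard0.le
    have : 0 ≤ ρ * m := mul_nonneg hρ0.le hm0
    linarith
  have hρk : (k * ρ + ρ) * Fintype.card V ≤ z * Fintype.card V := by
    refine mul_le_mul_of_nonneg_right ?_ hcard0.le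
    have : (k : ℝ) * ρ ≤ m * ρ := mul_le_mul_of_nonneg_right hkmr hρ0.le
    linarith
  refine hmain j V G Δ k p χ part ((hn1le j hj).trans hnc) hdg hcΔ hΔn hNB hkm hp1
    (hp2.trans (mul_le_mul_of_nonneg_right (hκ0le j hj) hcard0.le)) hpart (hLo.trans (hρn.trans hzj)) ?_ ?_ ?_ ?_ hcol hχΔ hbig ?_
  · intro v hv
    have h1 := hin v hv
    linarith
  · intro v hv
    have h1 := hop v hv
    linarith
  · intro I hI hIc
    by_contra hcon
    rw [not_lt] at hcon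
    apply hmax
    have hIQ : ∀ i < k, Disjoint (Q i) I := by
      intro i hi
      rw [Finset.disjoint_left]
      intro v hv hvI
      have h1 : part v = k := by
        have h2 := hI hvI
        unfold pt at h2
        exact (mem_filter.1 h2).2
      exact hno v h1 i hi hv
    have e1 : (if k = k then I else Q k) = I := if_pos rfl
    have e2 : ∀ i < k, (if i = k then I else Q i) = Q i := fun i hi => if_neg (ne_of_lt hi)
    refine ⟨fun i => if i = k then I else Q i, ?_, ?_, ?_⟩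
    · intro i hi
      show c / 2 * Fintype.card V ≤ (((if i = k then I else Q i) : Finset V).card : ℝ)
      rcases Nat.lt_succ_iff_lt_or_eq.1 hi with h1 | h1
      · rw [e2 i h1]
        exact hQ.big i h1
      · rw [if_pos h1]
        exact hIc
    · intro i hi
      show (Δ : ℝ) * ((if i = k then I else Q i) : Finset V).card ≤
        ee G (if i = k then I else Q i) (if i = k then I else Q i) + η' * (Fintype.card V : ℝ) ^ 2
      rcases Nat.lt_succ_iff_lt_or_eq.1 hi with h1 | h1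
      · rw [e2 i h1]
        have h2 := hQ.clo i h1
        have h3 : η * (Fintype.card V : ℝ) ^ 2 ≤ η' * (Fintype.card V : ℝ) ^ 2 :=
          mul_le_mul_of_nonneg_right hηη' (by positivity)
        linarith
      · rw [if_pos h1]
        exact hcon
    · intro i hi i' hi' hne
      show Disjoint (if i = k then I else Q i) (if i' = k then I else Q i')
      rcases Nat.lt_succ_iff_lt_or_eq.1 hi with h1 | h1 <;> rcases Nat.lt_succ_iff_lt_or_eq.1 hi' with h2 | h2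
      · rw [e2 i h1, e2 i' h2]
        exact hQ.dis i h1 i' h2 hne
      · rw [e2 i h1, if_pos h2]
        exact hIQ i h1
      · rw [e2 i' h2, if_pos h1]
        exact (hIQ i' h2).symm
      · exact absurd (h1.trans h2.symm) hne
  · intro i hi
    rw [hptQ i hi]
    refine xcl G Δ k i γ c (c / 64) ν x η η' ρ hγ hc hc1 (by positivity) (by linarith) hν0.le hx0.le hη0.le hρ0.le
      (hρz.trans hzc) hdg hcΔ hΔn hNB Q hQ hmax hi (pt part (k + 1)) hLo ?_
    have hγc : 0 < γ * c := mul_pos hγ hc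
    have hγc1 : γ * c ≤ 1 := mul_le_one₀ hγ1 hc.le hc1
    have h3x : η + ρ + x ≤ 3 * x := by linarith
    have h1 : 2 * (η + ρ + x) / (γ * c) ≤ 6 * x / (γ * c) :=
      div_le_div_of_nonneg_right (by linarith) hγc.le
    have h2 : 6 * x / (γ * c) = 6 * (b / 64) := by
      rw [hx]
      field_simp
    have h3 : ν / γ = b / 16 := by
      rw [hν]
      field_simp
    have h4 : ν ≤ b / 16 := by
      rw [hν]
      have : γ * b ≤ 1 * b := mul_le_mul_of_nonneg_right hγ1 hb0.le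
      linarith
    have h5 : x ≤ b / 64 := by
      rw [hx]
      have : γ * c * b ≤ 1 * b := mul_le_mul_of_nonneg_right hγc1 hb0.le
      linarith
    have h6 : b ≤ min η' (c / 64 * c ^ 2 / 16) := by
      refine le_min hbη (hbc.trans (le_of_eq ?_))
      ring
    refine le_trans ?_ h6
    rw [h3]
    linarith
  · intro i hi
    have h16 : ε0 / 16 ^ (j + 1) = ε0 / 16 ^ j / 16 := by
      rw [pow_succ]
      field_simp
    rcases hgap i hi with h1 | h1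
    · left
      rwa [div_le_iff₀ hΔ0] at h1
    · right
      rw [h16, le_div_iff₀ hΔ0] at h1
      exact h1

end Pool.Agent.H71.DC
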