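import Mathlib
import Pool.Agent.H28.HZ.ALL
import Pool.Agent.H71.DR.MnF
import Pool.Agent.H71.DC.Lvl

/-!
MND: the Havet-Yu bound for all dense graphs without nearly complete and without nearly bipartite nearly `Δ`-regular pieces. Use the STATEMENTS of `sel` (`DC/Sel.lean`), `lvl` (`DC/Lvl.lean`), and `H28.HZ.all` (for large `p`; see its use in `DR/MnF.lean`, `HL/R2.lean`).

Proof.  `m := ⌈2 / c⌉₊ + 1`. For every `η' > 0` `lvl c γ η' m` gives `F η' > 0`, `K0 η' > 0`, `N0 η'` (`choose`, with junk for `η' ≤ 0`). `η m := 1`, `η k := F (η (k + 1))` for `k < m`: define `η k := F^[m - k] 1` (`m - k = (m - (k + 1)) + 1` for `k < m`, `Function.iterate_succ_apply'`), all `> 0`.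
`κ0 := min_{k < m} K0 (η (k + 1))`, `n0` := the maximum of the `N0 (η (k + 1))`, `k < m`, and the bound from `H28.HZ.all`. For one graph, `Δ := G.maxDegree ≤ card V`, `dg G v ≤ Δ` (`dg_bd` or as in `DR/MnF.lean`): if `κ0 n < p`: `H28.HZ.all κ0`. Otherwise `sel` (with this `η`, `2 / c < m`)
gives `k < m`, `Q`; `lvl` with `η' = η (k + 1)`.
-/

set_option autoImplicit false

namespace Pool.Agent.H71.DC

open Finset Classical
open Pool.Agent.H71.DN Pool.Agent.H71.DX Pool.Agent.H71.DR Pool.Agent.H71.HL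

theorem mnD (c γ : ℝ) (hc : 0 < c) (hc1 : c ≤ 1) (hγ : 0 < γ) (hγ1 : γ ≤ 1) :
    ∃ n0 : ℕ, ∀ (V : Type) [Fintype V] (G : SimpleGraph V) [DecidableRel G.Adj] (p : ℕ),
      n0 ≤ Fintype.card V → 1 ≤ p → c * Fintype.card V ≤ (G.maxDegree : ℝ) →
      NB G G.maxDegree γ → NCq G G.maxDegree γ → H70.HY.HYLab G G.maxDegree p := by
  obtain ⟨m, hm⟩ : ∃ m : ℕ, m = ⌈2 / c⌉₊ + 1 := ⟨_, rfl⟩
  have hm2 : 2 / c < m := by
    have := Nat.le_ceil (2 / c)
    rw [hm]
    push_cast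
    linarith
  have H : ∀ η' : ℝ, ∃ (η κ0 : ℝ) (n0 : ℕ), 0 < η ∧ 0 < κ0 ∧ (0 < η' →
      ∀ (V : Type) [Fintype V] (G : SimpleGraph V) (Δ k p : ℕ) (Q : ℕ → Finset V),
        n0 ≤ Fintype.card V → (∀ v, dg G v ≤ Δ) → c * Fintype.card V ≤ Δ →
        Δ ≤ Fintype.card V → NB G Δ γ → NCq G Δ γ → k ≤ m → Clo G Δ c η k Q →
        (¬ ∃ Q' : ℕ → Finset V, Clo G Δ c η' (k + 1) Q') →
        1 ≤ p → (p : ℝ) ≤ κ0 * Fintype.card V → H70.HY.HYLab G Δ p) := by
    intro η'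
    by_cases h : 0 < η'
    · obtain ⟨η, κ0, n0, h1, _, h3, h4⟩ := lvl c γ η' m hc hc1 hγ hγ1 h
      exact ⟨η, κ0, n0, h1, h3, fun _ => h4⟩
    · exact ⟨1, 1, 0, one_pos, one_pos, fun h' => absurd h' h⟩
  choose F K N hF hK hprop using H
  obtain ⟨η, hη⟩ : ∃ η : ℕ → ℝ, η = fun k => F^[m - k] 1 := ⟨_, rfl⟩
  have hpos : ∀ j : ℕ, 0 < F^[j] 1 := by
    intro j
    cases j with
    | zero => exact one_pos
    | succ j => rw [Function.iterate_succ_apply']; exact hF _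
  have hηp : ∀ k, 0 < η k := fun k => by rw [hη]; exact hpos _
  have hηs : ∀ k, k < m → η k = F (η (k + 1)) := by
    intro k hk
    rw [hη]
    have : m - k = (m - (k + 1)) + 1 := by omega
    simp only
    rw [this, Function.iterate_succ_apply']
  -- the minimum of the K's
  have hmpos : 0 < m := by omega
  have hne : (Finset.range m).Nonempty := ⟨0, Finset.mem_range.2 hmpos⟩
  obtain ⟨κ0, hκ0⟩ : ∃ κ0 : ℝ, κ0 = (Finset.range m).inf' hne (fun k => K (η (k + 1))) := ⟨_, rfl⟩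
  have hκ0p : 0 < κ0 := by
    rw [hκ0, Finset.lt_inf'_iff]
    exact fun k _ => hK _
  have hκ0le : ∀ k < m, κ0 ≤ K (η (k + 1)) := fun k hk => by
    rw [hκ0]
    exact Finset.inf'_le _ (Finset.mem_range.2 hk)
  obtain ⟨N0, hN0⟩ := H28.HZ.all κ0 hκ0p
  obtain ⟨M1, hM1⟩ := evn c N0 hc
  refine ⟨(Finset.range m).sup (fun k => N (η (k + 1))) + M1 + 1, ?_⟩
  intro V _ G _ p hn hp hΔ hB hS
  have hdg : ∀ v, dg G v ≤ G.maxDegree := fun v => (dg_bd G v).2
  have hΔn : G.maxDegree ≤ Fintype.card V := by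
    have hV : 0 < Fintype.card V := by omega
    have hVn : Nonempty V := Fintype.card_pos_iff.1 hV
    exact G.maxDegree_lt_card_verts.le
  have hΔr : (G.maxDegree : ℝ) ≤ Fintype.card V := by exact_mod_cast hΔn
  by_cases hpc : κ0 * Fintype.card V < p
  · refine hN0 V G p ?_ ?_
    · have h1 := hM1 (Fintype.card V) (by omega)
      have h2 : (N0 : ℝ) ≤ (G.maxDegree : ℝ) := le_trans h1 hΔ
      exact_mod_cast h2
    · exact (mul_le_mul_of_nonneg_left hΔr hκ0p.le).trans hpc.le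
  · push Not at hpc
    obtain ⟨k, Q, hk, hclo, hno⟩ := sel G G.maxDegree c hc m hm2 (by omega) η
    have hsup : N (η (k + 1)) ≤ (Finset.range m).sup (fun k => N (η (k + 1))) :=
      Finset.le_sup (f := fun k => N (η (k + 1))) (Finset.mem_range.2 hk)
    rw [hηs k hk] at hclo
    exact hprop (η (k + 1)) (hηp _) V G G.maxDegree k p Q (by omega) hdg hΔ hΔn hB hS hk.le hclo hno
      hp (hpc.trans (mul_le_mul_of_nonneg_right (hκ0le k hk) (Nat.cast_nonneg _)))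

end Pool.Agent.H71.DC
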